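import Pool.Agent.FCI.Lib

/-!
# FCI-Apr: a priori estimate with uniform constants (imports Lib, Tsb, Pio; imports may hold unfinished lemmas)

From `lich` and `low`: `∫ ρ ‖B u‖^2 ≥ ∫ ρ gsq G u + ∫ ρ (1/2 ‖g‖^2 - C1) ‖u‖^2`.  With `L⁻¹ ≤ ρ ≤ L` on `U` (all the integrands vanish
outside `tsupport u ⊆ U`): `L ∫ ‖B u‖^2 + C1 L ∫ ‖u‖^2 ≥ L⁻¹ (∫ gsq G u + 1/2 ∫ ‖g‖^2 ‖u‖^2)` (`0 ≤ C1`).
Pointwise on `U`: `fderiv ℝ u z (eb i) = fderiv ℝ u z (G z (DF(z) (eb i))) = ∑_j (DF(z) (eb i))_j • fderiv ℝ u z (G z (eb j))` (inv2,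
expand the vector `DF(z)(eb i)` in the basis `eb j`), so by Cauchy-Schwarz `‖fderiv ℝ u z (eb i)‖^2 ≤ ‖DF(z)(eb i)‖^2 gsq G u z ≤ L^2 gsq G u z` and
`gsq (Idf n) u z ≤ n L^2 gsq G u z`.  Choose `C` from `L`, `C1`, `n`.
-/

open scoped BigOperators Topology ContDiff
open MeasureTheory Filter Set

namespace Pool.Agent.FCI

open Pool.Agent.TUB (E)

variable {n : ℕ}

private theorem exp_eb (v : E n) : v = ∑ j, v j • eb j := by
  ext k
  simp [eb, Pi.single_apply]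

private theorem norm_eb (j : Fin n) : ‖(eb j : E n)‖ = 1 := by
  simp [eb]

private theorem gsq_nonneg (G : E n → E n →L[ℝ] E n) (u : E n → W n) (z : E n) : 0 ≤ gsq G u z :=
  Finset.sum_nonneg fun _ _ => by positivity

/-- Cauchy-Schwarz in the frame. -/
private theorem fd_le {U : Set (E n)} {F : E n → E n} {G : E n → E n →L[ℝ] E n} (hF : Flat U F G) {u : E n → W n}
    {z : E n} (hz : z ∈ U) (v : E n) : ‖fderiv ℝ u z v‖ ^ 2 ≤ ‖fderiv ℝ F z v‖ ^ 2 * gsq G u z := by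
  have h1 : fderiv ℝ u z v = ∑ j, (fderiv ℝ F z v) j • fderiv ℝ u z (G z (eb j)) := by
    have h2 : v = ∑ j, (fderiv ℝ F z v) j • G z (eb j) := by
      have h3 := congrArg (G z) (exp_eb (fderiv ℝ F z v))
      rw [hF.inv2 z hz] at h3
      rw [map_sum] at h3
      simpa only [map_smul] using h3
    conv_lhs => rw [h2]
    rw [map_sum]
    simp only [map_smul]
  have h4 : ‖fderiv ℝ u z v‖ ≤ ∑ j, |(fderiv ℝ F z v) j| * ‖fderiv ℝ u z (G z (eb j))‖ := by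
    rw [h1]
    refine (norm_sum_le _ _).trans (le_of_eq ?_)
    refine Finset.sum_congr rfl fun j _ => ?_
    rw [norm_smul, Real.norm_eq_abs]
  have h5 : ‖fderiv ℝ F z v‖ ^ 2 = ∑ j, |(fderiv ℝ F z v) j| ^ 2 := by
    rw [EuclideanSpace.real_norm_sq_eq]
    refine Finset.sum_congr rfl fun j _ => ?_
    rw [sq_abs]
  calc ‖fderiv ℝ u z v‖ ^ 2 ≤ (∑ j, |(fderiv ℝ F z v) j| * ‖fderiv ℝ u z (G z (eb j))‖) ^ 2 :=
        pow_le_pow_left₀ (norm_nonneg _) h4 2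
    _ ≤ (∑ j, |(fderiv ℝ F z v) j| ^ 2) * ∑ j, ‖fderiv ℝ u z (G z (eb j))‖ ^ 2 :=
        Finset.sum_mul_sq_le_sq_mul_sq _ _ _
    _ = ‖fderiv ℝ F z v‖ ^ 2 * gsq G u z := by rw [h5]; rfl

private theorem gsq_le {U : Set (E n)} {F : E n → E n} {G : E n → E n →L[ℝ] E n} {L : ℝ} (hF : Flat U F G)
    (hB : Bds U F G L) {u : E n → W n} {z : E n} (hz : z ∈ U) :
    gsq (Idf n) u z ≤ n * L ^ 2 * gsq G u z := by
  have h1 : ∀ j : Fin n, ‖fderiv ℝ u z (Idf n z (eb j))‖ ^ 2 ≤ L ^ 2 * gsq G u z := by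
    intro j
    have h2 : ‖fderiv ℝ F z (eb j)‖ ≤ L := by
      refine (ContinuousLinearMap.le_opNorm _ _).trans ?_
      rw [norm_eb, mul_one]
      exact hB.bF z hz
    refine (fd_le hF hz (eb j)).trans ?_
    exact mul_le_mul_of_nonneg_right (pow_le_pow_left₀ (norm_nonneg _) h2 2) (gsq_nonneg _ _ _)
  calc gsq (Idf n) u z = ∑ j, ‖fderiv ℝ u z (Idf n z (eb j))‖ ^ 2 := rfl
    _ ≤ ∑ _j : Fin n, L ^ 2 * gsq G u z := Finset.sum_le_sum fun j _ => h1 j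
    _ = n * L ^ 2 * gsq G u z := by
      rw [Finset.sum_const, Finset.card_univ, Fintype.card_fin, nsmul_eq_mul]
      ring

private theorem Q_contOn {U : Set (E n)} {G H : E n → E n →L[ℝ] E n} {g : E n → E n} {u : E n → W n} (hU : IsOpen U)
    (hG : ContinuousOn G U) (hg : ContDiffOn ℝ ∞ g U) (hH : ∀ z ∈ U, HasFDerivAt g (H z) z) (hu : u ∈ Tst U) :
    ContinuousOn (fun z => Qop G H z (u z)) U := by
  obtain ⟨T, hT⟩ := gamV_clm (n := n)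
  have h1 : ContinuousOn H U := by
    have h2 : ContinuousOn (fderiv ℝ g) U := hg.continuousOn_fderiv_of_isOpen hU (by simp)
    exact h2.congr fun z hz => (hH z hz).fderiv.symm
  unfold Qop
  refine continuousOn_finsetSum _ fun j _ => ?_
  have h3 : (fun z => cl j (gamV (H z (G z (eb j))) (u z))) = fun z => cl j (T (H z (G z (eb j))) (u z)) := by
    funext z
    rw [hT]
  rw [h3]
  refine (cl j).continuous.comp_continuousOn (ContinuousOn.clm_apply ?_ hu.1.continuous.continuousOn)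
  exact T.continuous.comp_continuousOn (h1.clm_apply (hG.clm_apply continuousOn_const))

theorem apriori (L C1 : ℝ) (hC1 : 0 ≤ C1) : ∃ C : ℝ, 0 < C ∧
    ∀ (U : Set (E n)) (F : E n → E n) (G H : E n → E n →L[ℝ] E n) (g : E n → E n), IsOpen U → Flat U F G →
      Bds U F G L → ContDiffOn ℝ ∞ g U → (∀ z ∈ U, HasFDerivAt g (H z) z) →
      (∀ z ∈ U, ∀ w : W n,
        (1 / 2 * ‖g z‖ ^ 2 - C1) * ‖w‖ ^ 2 ≤ ‖g z‖ ^ 2 * ‖w‖ ^ 2 + inner ℝ w (Qop G H z w)) →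
      ∀ u ∈ Tst U, Jsq g u ≤ C * ((∫ z, ‖Bop g G u z‖ ^ 2) + ∫ z, ‖u z‖ ^ 2) := by
  refine ⟨(n * L ^ 2 + 2) * L ^ 2 * (1 + C1) + 1, by positivity, ?_⟩
  intro U F G H g hU hF hB hg hH hlow u hu
  have hL := hB.pos
  have hGc : ContinuousOn G U := hF.smG.continuousOn
  have hgc : ContinuousOn g U := hg.continuousOn
  have hsub : ∀ z, z ∉ U → z ∉ tsupport u := fun z hz h => hz (hu.2.2 h)
  -- the integrals
  have iB := Bsq_int hU hgc hGc hu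
  have iG := (gsq_int hU hGc hu).2
  have iI := (gsq_int hU (G := Idf n) continuousOn_const hu).2
  have ig := gu_int hU hgc hu
  have iu := usq_int hu
  have iQ : Integrable (fun z => rho F z * (gsq G u z + (‖g z‖ ^ 2 * ‖u z‖ ^ 2 + inner ℝ (u z) (Qop G H z (u z))))) := by
    refine cc_int hU hu.2.1 hu.2.2 ?_ fun z hz => ?_
    · refine (rho_cont hU hF).mul ((gsq_contOn hGc hu).add (ContinuousOn.add ?_ ?_))
      · exact (hgc.norm.pow 2).mul (hu.1.continuous.norm.pow 2).continuousOn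
      · exact hu.1.continuous.continuousOn.inner (Q_contOn hU hGc hg hH hu)
    · simp [gsq_zero hz, tst_zero hz]
  have iR : Integrable (fun z => rho F z * ‖Bop g G u z‖ ^ 2) := by
    refine cc_int hU hu.2.1 hu.2.2 ((rho_cont hU hF).mul ((Bop_contOn hgc hGc hu).norm.pow 2)) fun z hz => ?_
    simp [Bop_zero hz]
  -- the two comparisons
  have k1 : ∫ z, rho F z * ‖Bop g G u z‖ ^ 2 ≤ L * ∫ z, ‖Bop g G u z‖ ^ 2 := by
    rw [← integral_const_mul]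
    refine integral_mono iR (iB.const_mul L) fun z => ?_
    by_cases hz : z ∈ U
    · exact mul_le_mul_of_nonneg_right (hB.bR z hz) (by positivity)
    · simp [Bop_zero (hsub z hz)]
  have k2 : L⁻¹ * (∫ z, gsq G u z) + L⁻¹ * (1 / 2) * (∫ z, ‖g z‖ ^ 2 * ‖u z‖ ^ 2) - L * C1 * (∫ z, ‖u z‖ ^ 2) ≤
      ∫ z, rho F z * (gsq G u z + (‖g z‖ ^ 2 * ‖u z‖ ^ 2 + inner ℝ (u z) (Qop G H z (u z)))) := by
    have e : L⁻¹ * (∫ z, gsq G u z) + L⁻¹ * (1 / 2) * (∫ z, ‖g z‖ ^ 2 * ‖u z‖ ^ 2) - L * C1 * (∫ z, ‖u z‖ ^ 2) =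
        ∫ z, (L⁻¹ * gsq G u z + L⁻¹ * (1 / 2) * (‖g z‖ ^ 2 * ‖u z‖ ^ 2) - L * C1 * ‖u z‖ ^ 2) := by
      have j1 : Integrable (fun z => L⁻¹ * gsq G u z) := iG.const_mul _
      have j2 : Integrable (fun z => L⁻¹ * (1 / 2) * (‖g z‖ ^ 2 * ‖u z‖ ^ 2)) := ig.const_mul _
      have j3 : Integrable (fun z => L * C1 * ‖u z‖ ^ 2) := iu.const_mul _
      have j4 : Integrable (fun z => L⁻¹ * gsq G u z + L⁻¹ * (1 / 2) * (‖g z‖ ^ 2 * ‖u z‖ ^ 2)) := j1.add j2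
      rw [integral_sub j4 j3, integral_add j1 j2, integral_const_mul, integral_const_mul, integral_const_mul]
    rw [e]
    refine integral_mono (((iG.const_mul _).add (ig.const_mul _)).sub (iu.const_mul _)) iQ fun z => ?_
    by_cases hz : z ∈ U
    · have h1 := hlow z hz (u z)
      have h2 := hB.bR z hz
      have h3 := hB.bR' z hz
      have h4 := gsq_nonneg G u z
      have h5 : 0 < rho F z := lt_of_lt_of_le (inv_pos.mpr hL) h3
      have h6 := mul_le_mul_of_nonneg_left h1 h5.le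
      have h7 : L⁻¹ * gsq G u z ≤ rho F z * gsq G u z := mul_le_mul_of_nonneg_right h3 h4
      have h8 : L⁻¹ * (1 / 2 * (‖g z‖ ^ 2 * ‖u z‖ ^ 2)) ≤ rho F z * (1 / 2 * (‖g z‖ ^ 2 * ‖u z‖ ^ 2)) :=
        mul_le_mul_of_nonneg_right h3 (by positivity)
      have h9 : rho F z * (C1 * ‖u z‖ ^ 2) ≤ L * (C1 * ‖u z‖ ^ 2) :=
        mul_le_mul_of_nonneg_right h2 (by positivity)
      show L⁻¹ * gsq G u z + L⁻¹ * (1 / 2) * (‖g z‖ ^ 2 * ‖u z‖ ^ 2) - L * C1 * ‖u z‖ ^ 2 ≤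
        rho F z * (gsq G u z + (‖g z‖ ^ 2 * ‖u z‖ ^ 2 + inner ℝ (u z) (Qop G H z (u z))))
      nlinarith [h6, h7, h8, h9]
    · have h0 := hsub z hz
      simp [gsq_zero h0, tst_zero h0]
  have k3 : Jsq g u ≤ n * L ^ 2 * (∫ z, gsq G u z) + ∫ z, ‖g z‖ ^ 2 * ‖u z‖ ^ 2 := by
    unfold Jsq
    rw [integral_add iI ig, ← integral_const_mul]
    refine add_le_add (integral_mono iI (iG.const_mul _) fun z => ?_) le_rfl
    by_cases hz : z ∈ U
    · exact gsq_le hF hB hz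
    · have h0 := hsub z hz
      simp [gsq_zero h0]
  have k4 := lich hU hF hg hH hu
  have a0 : 0 ≤ ∫ z, ‖Bop g G u z‖ ^ 2 := integral_nonneg fun z => by positivity
  have b0 : 0 ≤ ∫ z, ‖u z‖ ^ 2 := integral_nonneg fun z => by positivity
  have A0 : 0 ≤ ∫ z, gsq G u z := integral_nonneg fun z => gsq_nonneg G u z
  have q0 : 0 ≤ ∫ z, ‖g z‖ ^ 2 * ‖u z‖ ^ 2 := integral_nonneg fun z => by positivity
  generalize (∫ z, ‖Bop g G u z‖ ^ 2) = a at *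
  generalize (∫ z, ‖u z‖ ^ 2) = b at *
  generalize (∫ z, gsq G u z) = A at *
  generalize (∫ z, ‖g z‖ ^ 2 * ‖u z‖ ^ 2) = q at *
  have m1 : L⁻¹ * A + L⁻¹ * (1 / 2) * q - L * C1 * b ≤ L * a := by
    linarith
  have m2 : A + 1 / 2 * q ≤ L ^ 2 * a + L ^ 2 * C1 * b := by
    have h1 := mul_le_mul_of_nonneg_left m1 hL.le
    have h2 : L * L⁻¹ = 1 := mul_inv_cancel₀ hL.ne'
    have h3 : L * (L⁻¹ * A + L⁻¹ * (1 / 2) * q - L * C1 * b) =
        (L * L⁻¹) * A + (L * L⁻¹) * (1 / 2) * q - L ^ 2 * C1 * b := by ring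
    rw [h3, h2] at h1
    linarith
  have m3 : L ^ 2 * a + L ^ 2 * C1 * b ≤ L ^ 2 * (1 + C1) * (a + b) := by
    have h1 : 0 ≤ L ^ 2 * C1 * a := by positivity
    have h2 : 0 ≤ L ^ 2 * b := by positivity
    nlinarith
  have m4 : n * L ^ 2 * A + q ≤ (n * L ^ 2 + 2) * (A + 1 / 2 * q) := by
    have h1 : 0 ≤ (n : ℝ) * L ^ 2 * q := by positivity
    nlinarith
  calc Jsq g u ≤ n * L ^ 2 * A + q := k3
    _ ≤ (n * L ^ 2 + 2) * (A + 1 / 2 * q) := m4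
    _ ≤ (n * L ^ 2 + 2) * (L ^ 2 * (1 + C1) * (a + b)) :=
      mul_le_mul_of_nonneg_left (m2.trans m3) (by positivity)
    _ ≤ ((n * L ^ 2 + 2) * L ^ 2 * (1 + C1) + 1) * (a + b) := by
      nlinarith

end Pool.Agent.FCI
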