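import Pool.Agent.FCI.Fmp

/-!
# FCI-Nrm: the normal components (imports Fmp)
-/

open scoped BigOperators Topology ContDiff
open Filter Set

namespace Pool.Agent.FCI

open Pool.Agent.TUB (E)

variable {m l k0 n : ℕ} {g : E m → E n} {O : Set (E m)} {e : Nix l k0 → E m → E n}

private theorem nA (hO : IsOpen O) (hg : ContDiffOn ℝ ∞ g O) (he : NFr g O e) (t0 : ℝ) {z : ZZ m l k0}
    (hz : xc m l k0 z ∈ O) (v : ZZ m l k0) (β : Nix l k0) :
    inner ℝ (e β (xc m l k0 z)) (fderiv ℝ (Fm t0 g e) z v) = dco t0 z v β +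
      ∑ α, co t0 z α * inner ℝ (fderiv ℝ (e α) (xc m l k0 z) (xc m l k0 v)) (e β (xc m l k0 z)) := by
  rw [Fm_fderiv hO hg he.smooth t0 hz v, inner_add_right, inner_add_right, he.nor _ hz, zero_add,
    inner_sum, inner_sum]
  have h1 := orthonormal_iff_ite.mp (he.on _ hz)
  congr 1
  · rw [Finset.sum_eq_single β]
    · rw [real_inner_smul_right, h1, if_pos rfl, mul_one]
    · intro α _ hα
      rw [real_inner_smul_right, h1, if_neg (Ne.symm hα), mul_zero]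
    · intro h
      exact absurd (Finset.mem_univ _) h
  · refine Finset.sum_congr rfl fun α _ => ?_
    rw [real_inner_smul_right, real_inner_comm]

private theorem nY (hO : IsOpen O) (hg : ContDiffOn ℝ ∞ g O) (he : NFr g O e) (t0 : ℝ) {z : ZZ m l k0}
    (hz : xc m l k0 z ∈ O) (v : ZZ m l k0) (i : Fin k0) :
    inner ℝ (e (Sum.inr (Sum.inr i)) (xc m l k0 z)) (fderiv ℝ (Fm t0 g e) z v) = yc v i := by
  rw [nA hO hg he t0 hz v]
  have h1 : ∀ α ∈ (Finset.univ : Finset (Nix l k0)), co t0 z α *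
      inner ℝ (fderiv ℝ (e α) (xc m l k0 z) (xc m l k0 v)) (e (Sum.inr (Sum.inr i)) (xc m l k0 z)) = 0 := by
    intro α _
    rw [he.conn _ hz α _ ?_, mul_zero]
    rintro ⟨j, h | h⟩
    · exact absurd h.2 (by simp)
    · exact absurd h.2 (by simp)
  rw [Finset.sum_eq_zero h1, add_zero]
  rfl

private theorem nAnti (hO : IsOpen O) (he : NFr g O e) {x : E m} (hx : x ∈ O) (x' : E m) {a b : Nix l k0}
    (hab : a ≠ b) : inner ℝ (fderiv ℝ (e a) x x') (e b x) = -inner ℝ (fderiv ℝ (e b) x x') (e a x) := by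
  have hda : DifferentiableAt ℝ (e a) x := ((he.smooth a).contDiffAt (hO.mem_nhds hx)).differentiableAt (by simp)
  have hdb : DifferentiableAt ℝ (e b) x := ((he.smooth b).contDiffAt (hO.mem_nhds hx)).differentiableAt (by simp)
  have h1 := fderiv_inner_apply ℝ hda hdb x'
  have h2 : (fun t => inner ℝ (e a t) (e b t)) =ᶠ[𝓝 x] fun _ => (0 : ℝ) := by
    filter_upwards [hO.mem_nhds hx] with y hy
    exact (he.on y hy).2 hab
  rw [h2.fderiv_eq] at h1
  have h3 : fderiv ℝ (fun _ : E m => (0 : ℝ)) x x' = 0 := by simp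
  rw [h3, real_inner_comm] at h1
  linarith

private theorem nL (hO : IsOpen O) (hg : ContDiffOn ℝ ∞ g O) (he : NFr g O e) (t0 : ℝ) {z : ZZ m l k0}
    (hz : xc m l k0 z ∈ O) (v : ZZ m l k0) (j : Fin l) :
    inner ℝ (e (Sum.inl j) (xc m l k0 z)) (fderiv ℝ (Fm t0 g e) z v) =
      tc v j * Real.cos (thc z j) - (t0 + tc z j) * Real.sin (thc z j) * thc v j -
      (t0 + tc z j) * Real.sin (thc z j) * inner ℝ (fderiv ℝ (e (Sum.inl j)) (xc m l k0 z) (xc m l k0 v))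
      (e (Sum.inr (Sum.inl j)) (xc m l k0 z)) := by
  rw [nA hO hg he t0 hz v, Finset.sum_eq_single (Sum.inr (Sum.inl j))]
  · rw [nAnti hO he hz (xc m l k0 v) (show (Sum.inr (Sum.inl j) : Nix l k0) ≠ Sum.inl j by simp)]
    show tc v j * Real.cos (thc z j) - (t0 + tc z j) * Real.sin (thc z j) * thc v j +
      (t0 + tc z j) * Real.sin (thc z j) * _ = _
    ring
  · intro α _ hα
    rw [he.conn _ hz α _ ?_, mul_zero]
    rintro ⟨j', h | h⟩
    · exact absurd h.2 (by simp)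
    · have h2 : j = j' := Sum.inl_injective h.2
      exact hα (by rw [h2]; exact h.1)
  · intro h
    exact absurd (Finset.mem_univ _) h

private theorem nR (hO : IsOpen O) (hg : ContDiffOn ℝ ∞ g O) (he : NFr g O e) (t0 : ℝ) {z : ZZ m l k0}
    (hz : xc m l k0 z ∈ O) (v : ZZ m l k0) (j : Fin l) :
    inner ℝ (e (Sum.inr (Sum.inl j)) (xc m l k0 z)) (fderiv ℝ (Fm t0 g e) z v) =
      tc v j * Real.sin (thc z j) + (t0 + tc z j) * Real.cos (thc z j) * thc v j +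
      (t0 + tc z j) * Real.cos (thc z j) * inner ℝ (fderiv ℝ (e (Sum.inl j)) (xc m l k0 z) (xc m l k0 v))
      (e (Sum.inr (Sum.inl j)) (xc m l k0 z)) := by
  rw [nA hO hg he t0 hz v, Finset.sum_eq_single (Sum.inl j)]
  · rfl
  · intro α _ hα
    rw [he.conn _ hz α _ ?_, mul_zero]
    rintro ⟨j', h | h⟩
    · have h2 : j = j' := Sum.inl_injective (Sum.inr_injective h.2)
      exact hα (by rw [h2]; exact h.1)
    · exact absurd h.2 (by simp)
  · intro h
    exact absurd (Finset.mem_univ _) h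

private theorem nBes (he : NFr g O e) {x : E m} (hx : x ∈ O) (X : E n) (j : Fin l) :
    inner ℝ (e (Sum.inl j) x) X ^ 2 + inner ℝ (e (Sum.inr (Sum.inl j)) x) X ^ 2 ≤ ‖X‖ ^ 2 := by
  have h1 := (he.on x hx).sum_inner_products_le X (s := {Sum.inl j, Sum.inr (Sum.inl j)})
  rw [Finset.sum_pair (by simp)] at h1
  simpa only [Real.norm_eq_abs, sq_abs] using h1

private theorem nCS {c s a b X : ℝ} (hcs : c ^ 2 + s ^ 2 = 1) (h : a ^ 2 + b ^ 2 ≤ X) :
    (c * a + s * b) ^ 2 ≤ X := by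
  have h1 : (c * a + s * b) ^ 2 + (s * a - c * b) ^ 2 = (c ^ 2 + s ^ 2) * (a ^ 2 + b ^ 2) := by ring
  rw [hcs, one_mul] at h1
  have h2 := sq_nonneg (s * a - c * b)
  linarith

theorem Fm_t (hO : IsOpen O) (hg : ContDiffOn ℝ ∞ g O) (he : NFr g O e) (t0 : ℝ) {z : ZZ m l k0}
    (hz : xc m l k0 z ∈ O) (v : ZZ m l k0) (j : Fin l) : tc v j ^ 2 ≤ ‖fderiv ℝ (Fm t0 g e) z v‖ ^ 2 := by
  have h1 := nBes he hz (fderiv ℝ (Fm t0 g e) z v) j
  rw [nL hO hg he t0 hz v j, nR hO hg he t0 hz v j] at h1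
  have hcs : Real.cos (thc z j) ^ 2 + Real.sin (thc z j) ^ 2 = 1 := Real.cos_sq_add_sin_sq _
  refine le_trans (le_of_eq ?_) (nCS hcs h1)
  congr 1
  linear_combination (-tc v j) * hcs

theorem Fm_th (hO : IsOpen O) (hg : ContDiffOn ℝ ∞ g O) (he : NFr g O e) (t0 : ℝ) {z : ZZ m l k0}
    (hz : xc m l k0 z ∈ O) (v : ZZ m l k0) (j : Fin l) :
    ((t0 + tc z j) * (thc v j + inner ℝ (fderiv ℝ (e (Sum.inl j)) (xc m l k0 z) (xc m l k0 v))
      (e (Sum.inr (Sum.inl j)) (xc m l k0 z)))) ^ 2 ≤ ‖fderiv ℝ (Fm t0 g e) z v‖ ^ 2 := by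
  have h1 := nBes he hz (fderiv ℝ (Fm t0 g e) z v) j
  rw [nL hO hg he t0 hz v j, nR hO hg he t0 hz v j] at h1
  have hcs : Real.cos (thc z j) ^ 2 + Real.sin (thc z j) ^ 2 = 1 := Real.cos_sq_add_sin_sq _
  have hcs' : (-Real.sin (thc z j)) ^ 2 + Real.cos (thc z j) ^ 2 = 1 := by rw [← hcs]; ring
  refine le_trans (le_of_eq ?_) (nCS hcs' h1)
  congr 1
  linear_combination (-((t0 + tc z j) * (thc v j + inner ℝ (fderiv ℝ (e (Sum.inl j)) (xc m l k0 z) (xc m l k0 v))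
      (e (Sum.inr (Sum.inl j)) (xc m l k0 z))))) * hcs

theorem Fm_y (hO : IsOpen O) (hg : ContDiffOn ℝ ∞ g O) (he : NFr g O e) (t0 : ℝ) {z : ZZ m l k0}
    (hz : xc m l k0 z ∈ O) (v : ZZ m l k0) : ∑ i, yc v i ^ 2 ≤ ‖fderiv ℝ (Fm t0 g e) z v‖ ^ 2 := by
  have hinj : Function.Injective (fun i : Fin k0 => (Sum.inr (Sum.inr i) : Nix l k0)) := by
    intro a b h
    exact Sum.inr_injective (Sum.inr_injective h)
  have h1 := ((he.on _ hz).comp _ hinj).sum_inner_products_le (fderiv ℝ (Fm t0 g e) z v) (s := Finset.univ)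
  refine le_trans (le_of_eq ?_) h1
  refine Finset.sum_congr rfl fun i _ => ?_
  rw [Real.norm_eq_abs, sq_abs]
  show _ = inner ℝ (e (Sum.inr (Sum.inr i)) (xc m l k0 z)) (fderiv ℝ (Fm t0 g e) z v) ^ 2
  rw [nY hO hg he t0 hz v i]

end Pool.Agent.FCI
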