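import Pool.Agent.FCI.Tsb

/-!
# FCI-Clo: the operators of two close frames (imports Tsb, ClA; imports may hold unfinished lemmas)

Expansion in the standard basis and the Cauchy-Schwarz inequality.
-/

open scoped BigOperators Topology ContDiff
open MeasureTheory Filter Set

namespace Pool.Agent.FCI

open Pool.Agent.TUB (E)

variable {n : ℕ} {U : Set (E n)} {g : E n → E n} {G G' : E n → E n →L[ℝ] E n}

private theorem clo_sum (v : E n) : v = ∑ i, v i • eb i := by
  have h := (EuclideanSpace.basisFun (Fin n) ℝ).sum_repr v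
  simp only [EuclideanSpace.basisFun_apply, EuclideanSpace.basisFun_repr] at h
  exact h.symm

private theorem clo_eb (j : Fin n) : ‖(eb j : E n)‖ = 1 := by
  unfold eb
  simp

theorem norm_fderiv_le (u : E n → W n) (z v : E n) :
    ‖fderiv ℝ u z v‖ ≤ ‖v‖ * Real.sqrt (gsq (Idf n) u z) := by
  have h1 : fderiv ℝ u z v = ∑ i, v i • fderiv ℝ u z (eb i) := by
    conv_lhs => rw [clo_sum v]
    rw [map_sum]
    exact Finset.sum_congr rfl fun i _ => map_smul _ _ _
  have h2 : gsq (Idf n) u z = ∑ i, ‖fderiv ℝ u z (eb i)‖ ^ 2 := rfl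
  have h3 : ‖v‖ = Real.sqrt (∑ i, |v i| ^ 2) := by
    rw [EuclideanSpace.norm_eq]
    rfl
  rw [h1, h2, h3]
  calc ‖∑ i, v i • fderiv ℝ u z (eb i)‖ ≤ ∑ i, ‖v i • fderiv ℝ u z (eb i)‖ := norm_sum_le _ _
    _ = ∑ i, |v i| * ‖fderiv ℝ u z (eb i)‖ := by
        refine Finset.sum_congr rfl fun i _ => ?_
        rw [norm_smul, Real.norm_eq_abs]
    _ ≤ _ := Real.sum_mul_le_sqrt_mul_sqrt _ _ _

private theorem clo_gsq (u : E n → W n) (z : E n) : 0 ≤ gsq (Idf n) u z :=
  Finset.sum_nonneg fun _ _ => sq_nonneg _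

private theorem clo_pt (u : E n → W n) (z : E n) {δ : ℝ} (h : ‖G z - G' z‖ ≤ δ) :
    ‖Bop g G u z - Bop g G' u z‖ ^ 2 ≤ (n * δ) ^ 2 * gsq (Idf n) u z := by
  have h1 : Bop g G u z - Bop g G' u z = ∑ j, cl j (fderiv ℝ u z ((G z - G' z) (eb j))) := by
    unfold Bop Dop
    rw [add_sub_add_right_eq_sub, ← Finset.sum_sub_distrib]
    refine Finset.sum_congr rfl fun j _ => ?_
    rw [sub_apply, map_sub, map_sub]
  have h2 : ‖Bop g G u z - Bop g G' u z‖ ≤ n * δ * Real.sqrt (gsq (Idf n) u z) := by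
    rw [h1]
    calc ‖∑ j, cl j (fderiv ℝ u z ((G z - G' z) (eb j)))‖
        ≤ ∑ j, ‖cl j (fderiv ℝ u z ((G z - G' z) (eb j)))‖ := norm_sum_le _ _
      _ ≤ ∑ _j : Fin n, δ * Real.sqrt (gsq (Idf n) u z) := by
          refine Finset.sum_le_sum fun j _ => ?_
          rw [norm_cl]
          refine (norm_fderiv_le u z _).trans ?_
          refine mul_le_mul_of_nonneg_right ?_ (Real.sqrt_nonneg _)
          have h3 := (G z - G' z).le_opNorm (eb j)
          rw [clo_eb, mul_one] at h3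
          exact h3.trans h
      _ = n * δ * Real.sqrt (gsq (Idf n) u z) := by
          rw [Finset.sum_const, Finset.card_univ, Fintype.card_fin, nsmul_eq_mul, mul_assoc]
  calc ‖Bop g G u z - Bop g G' u z‖ ^ 2 ≤ (n * δ * Real.sqrt (gsq (Idf n) u z)) ^ 2 :=
        pow_le_pow_left₀ (norm_nonneg _) h2 2
    _ = (n * δ) ^ 2 * gsq (Idf n) u z := by
        rw [mul_pow, Real.sq_sqrt (clo_gsq u z)]

theorem bop_close (hU : IsOpen U) (hG : ContinuousOn G U) (hG' : ContinuousOn G' U) {δ : ℝ} (hδ : 0 ≤ δ)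
    (h : ∀ z ∈ U, ‖G z - G' z‖ ≤ δ) {u : E n → W n} (hu : u ∈ Tst U) :
    ∫ z, ‖Bop g G u z - Bop g G' u z‖ ^ 2 ≤ (n * δ) ^ 2 * ∫ z, gsq (Idf n) u z := by
  rw [← integral_const_mul]
  refine integral_mono_of_nonneg (Eventually.of_forall fun z => sq_nonneg _)
    ((gsq_int (G := Idf n) hU continuousOn_const hu).2.const_mul _) (Eventually.of_forall fun z => ?_)
  by_cases hz : z ∈ tsupport u
  · exact clo_pt u z (h z (hu.2.2 hz))
  · show ‖Bop g G u z - Bop g G' u z‖ ^ 2 ≤ (n * δ) ^ 2 * gsq (Idf n) u z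
    rw [Bop_zero hz, Bop_zero hz, sub_zero, norm_zero, zero_pow two_ne_zero]
    exact mul_nonneg (sq_nonneg _) (clo_gsq u z)

end Pool.Agent.FCI
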