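import Mathlib

/-!
# FCI-Gro: a growth lemma (Mathlib only)
-/

open scoped Topology
open Filter

namespace Pool.Agent.FCI

theorem growth {m : ℝ → ℝ} (hm : Monotone m) (h0 : ∀ τ, 0 ≤ m τ) {A B c eps : ℝ} (hA : 0 ≤ A) (hc : 0 < c)
    (h1 : ∀ τ, m (τ - 1) / 2 - A ≤ c * (m τ - m (τ - 1))) (h2 : ∀ τ, m τ ≤ B * Real.exp (eps * τ))
    (h3 : Real.exp eps < 1 + 1 / (2 * c)) :
    Tendsto (fun j : ℕ => m j - m ((j : ℝ) - 1)) atTop (𝓝 0) := by
  have hr : 0 < 1 + 1 / (2 * c) := by positivity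
  set r : ℝ := 1 + 1 / (2 * c) with hrdef
  have step : ∀ τ, r * (m (τ - 1) - 2 * A) ≤ m τ - 2 * A := by
    intro τ
    have h4 := h1 τ
    have h5 : (m (τ - 1) / 2 - A) / c ≤ m τ - m (τ - 1) := by
      rw [div_le_iff₀ hc]
      linarith
    have h6 : r * (m (τ - 1) - 2 * A) = (m (τ - 1) - 2 * A) + (m (τ - 1) / 2 - A) / c := by
      rw [hrdef]
      field_simp
    linarith
  have iter : ∀ (τ : ℝ) (j : ℕ), r ^ j * (m τ - 2 * A) ≤ m (τ + j) - 2 * A := by
    intro τ j
    induction j with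
    | zero => simp
    | succ k ih =>
      have h7 := step (τ + (k : ℝ) + 1)
      have h8 : τ + (k : ℝ) + 1 - 1 = τ + k := by ring
      rw [h8] at h7
      have h9 : τ + ((k + 1 : ℕ) : ℝ) = τ + (k : ℝ) + 1 := by push_cast; ring
      rw [h9, pow_succ]
      have h10 : r ^ k * r * (m τ - 2 * A) = r * (r ^ k * (m τ - 2 * A)) := by ring
      rw [h10]
      exact (mul_le_mul_of_nonneg_left ih hr.le).trans h7
  have bdd : ∀ τ, m τ ≤ 2 * A := by
    intro τ
    by_contra hcon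
    push Not at hcon
    have hδ : 0 < m τ - 2 * A := by linarith
    have hq : 0 < Real.exp eps := Real.exp_pos eps
    have hrq : 1 < r / Real.exp eps := by
      rw [one_lt_div hq]
      exact h3
    obtain ⟨j, hj⟩ := pow_unbounded_of_one_lt (B * Real.exp (eps * τ) / (m τ - 2 * A)) hrq
    have h11 := iter τ j
    have h12 := h2 (τ + j)
    have h13 : Real.exp (eps * (τ + j)) = Real.exp (eps * τ) * Real.exp eps ^ j := by
      rw [← Real.exp_nat_mul, ← Real.exp_add]
      congr 1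
      ring
    rw [h13] at h12
    rw [div_pow, div_lt_div_iff₀ hδ (pow_pos hq j)] at hj
    nlinarith
  have hbd : BddAbove (Set.range m) := ⟨2 * A, by rintro _ ⟨τ, rfl⟩; exact bdd τ⟩
  have hlim : Tendsto m atTop (𝓝 (⨆ i, m i)) := tendsto_atTop_ciSup hm hbd
  have hn : Tendsto (fun j : ℕ => (j : ℝ)) atTop atTop := tendsto_natCast_atTop_atTop
  have hn1 : Tendsto (fun j : ℕ => (j : ℝ) - 1) atTop atTop := by
    simpa [sub_eq_add_neg] using tendsto_atTop_add_const_right atTop (-1 : ℝ) hn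
  have := (hlim.comp hn).sub (hlim.comp hn1)
  simpa using this

end Pool.Agent.FCI
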