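import Pool.Agent.FCI.Tsb

/-!
# FCI-Ops: the operator `Sop : TstE U → L²(U; odd forms)` (imports Tsb)
-/

open scoped BigOperators Topology ContDiff ENNReal
open MeasureTheory Filter Set

namespace Pool.Agent.FCI

open Pool.Agent.TUB (E)

noncomputable section

variable {n : ℕ} {U : Set (E n)} {g : E n → E n} {G G' : E n → E n →L[ℝ] E n}

/-- the hypotheses on the coefficients -/
structure Cn (U : Set (E n)) (g : E n → E n) (G : E n → E n →L[ℝ] E n) : Prop where
  isOpen : IsOpen U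
  cg : ContinuousOn g U
  cG : ContinuousOn G U

/-- the Hilbert space -/
abbrev Yh (U : Set (E n)) := Lp (Wo n) 2 (volume.restrict U)

theorem Sop_memLp (h : Cn U g G) {u : E n → W n} (hu : u ∈ Tst U) :
    MemLp (fun z => po n (Bop g G u z)) 2 (volume.restrict U) := by
  obtain ⟨h1, h2⟩ := Bop_cont h.isOpen h.cg h.cG hu
  have h3 : Continuous (fun z => po n (Bop g G u z)) := (po n).continuous.comp h1
  have h4 : HasCompactSupport (fun z => po n (Bop g G u z)) := h2.comp_left (map_zero _)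
  exact (h3.memLp_of_hasCompactSupport h4).restrict U

/-- the operator -/
def Sop (h : Cn U g G) : TstE U →ₗ[ℝ] Yh U where
  toFun u := (Sop_memLp h u.2.1).toLp _
  map_add' u v := by
    rw [← MemLp.toLp_add]
    congr 1
    ext z : 1
    show po n (Bop g G ((u : E n → W n) + v) z) = _
    rw [Bop_add u.2.1 v.2.1, map_add]
    rfl
  map_smul' r u := by
    rw [RingHom.id_apply, ← MemLp.toLp_const_smul]
    congr 1
    ext z : 1
    show po n (Bop g G (r • (u : E n → W n)) z) = _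
    rw [Bop_smul r u.2.1, map_smul]
    rfl

theorem norm_Lp_sq (f : Yh U) : ‖f‖ ^ 2 = ∫ z in U, ‖f z‖ ^ 2 := by
  have h := L2.inner_def (𝕜 := ℝ) f f
  rw [real_inner_self_eq_norm_sq] at h
  rw [h]
  refine integral_congr_ae (Eventually.of_forall fun z => ?_)
  exact real_inner_self_eq_norm_sq (f z)

theorem Sop_coe (h : Cn U g G) (u : TstE U) :
    (Sop h u : E n → Wo n) =ᵐ[volume.restrict U] fun z => po n (Bop g G u z) :=
  MemLp.coeFn_toLp (Sop_memLp h u.2.1)

theorem Sop_norm (h : Cn U g G) (u : TstE U) : ‖Sop h u‖ ^ 2 = ∫ z, ‖Bop g G u z‖ ^ 2 := by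
  rw [norm_Lp_sq]
  have h1 : ∫ z in U, ‖Sop h u z‖ ^ 2 = ∫ z in U, ‖Bop g G u z‖ ^ 2 := by
    refine integral_congr_ae ?_
    filter_upwards [Sop_coe h u] with z hz
    rw [hz, norm_po (Bop_ev u.2.1 u.2.2 z)]
  rw [h1]
  exact cc_setInt (K := tsupport (u : E n → W n)) u.2.1.2.2 fun z hz => by rw [Bop_zero hz]; simp

theorem Sop_inner (h : Cn U g G) (v : Yh U) (u : TstE U) :
    inner ℝ v (Sop h u) = ∫ z in U, inner ℝ (io n (v z)) (Bop g G u z) := by
  rw [L2.inner_def]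
  refine integral_congr_ae ?_
  filter_upwards [Sop_coe h u] with z hz
  rw [hz, inner_po]

theorem Sop_sub (h : Cn U g G) (h' : Cn U g G') (u : TstE U) :
    ‖Sop h u - Sop h' u‖ ^ 2 = ∫ z, ‖Bop g G u z - Bop g G' u z‖ ^ 2 := by
  rw [norm_Lp_sq]
  have h1 : ∫ z in U, ‖(Sop h u - Sop h' u : Yh U) z‖ ^ 2 = ∫ z in U, ‖Bop g G u z - Bop g G' u z‖ ^ 2 := by
    refine integral_congr_ae ?_
    filter_upwards [Sop_coe h u, Sop_coe h' u, Lp.coeFn_sub (Sop h u) (Sop h' u)] with z h1 h2 h3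
    rw [h3, Pi.sub_apply, h1, h2, ← map_sub,
      norm_po ((odS n).sub_mem (Bop_ev u.2.1 u.2.2 z) (Bop_ev u.2.1 u.2.2 z))]
  rw [h1]
  exact cc_setInt (K := tsupport (u : E n → W n)) u.2.1.2.2 fun z hz => by
    rw [Bop_zero hz, Bop_zero hz]; simp

end

end Pool.Agent.FCI
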