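import Pool.Agent.FCI.Reg
import Pool.Agent.FCI.Gro
import Pool.Agent.FCI.Ops

/-!
# FCI-Den: the range at the end of the path is dense (imports Reg, Gro, Cut, Ops)
-/

open scoped BigOperators Topology ContDiff ENNReal
open MeasureTheory Filter Set

namespace Pool.Agent.FCI

open Pool.Agent.TUB (E)

variable {n : ℕ}

private theorem sOpen {U : Set (E n)} {Ψ : E n → ℝ} {g : E n → E n} {H : E n → E n →L[ℝ] E n} {eps : ℝ}
    (hP : PsiOK U Ψ g H eps) (τ : ℝ) : MeasurableSet {z | z ∈ U ∧ Ψ z < τ} := by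
  have h1 : IsOpen (U ∩ Ψ ⁻¹' Iio τ) :=
    hP.smPsi.continuousOn.isOpen_inter_preimage hP.isOpen isOpen_Iio
  exact h1.measurableSet

private theorem fBound {U : Set (E n)} {Ψ : E n → ℝ} {g : E n → E n} {H : E n → E n →L[ℝ] E n} {eps : ℝ}
    (he : 0 ≤ eps) (hP : PsiOK U Ψ g H eps) : ∃ C : ℝ, 0 ≤ C ∧ ∀ τ : ℝ, ∀ z ∈ {z | z ∈ U ∧ Ψ z < τ},
      ‖g z‖ ^ 2 ≤ C * Real.exp (eps * τ) := by
  obtain ⟨C, hC⟩ := hP.grow
  have hC0 : 0 ≤ C := by
    have h1 := hC 0 hP.mem0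
    by_contra hneg
    have h2 : C * Real.exp (eps * Ψ 0) < 0 := mul_neg_of_neg_of_pos (not_le.mp hneg) (Real.exp_pos _)
    have h3 : (0 : ℝ) ≤ ‖g 0‖ ^ 2 := sq_nonneg _
    linarith
  refine ⟨C, hC0, fun τ z hz => (hC z hz.1).trans ?_⟩
  refine mul_le_mul_of_nonneg_left (Real.exp_le_exp.mpr ?_) hC0
  exact mul_le_mul_of_nonneg_left hz.2.le he

private theorem fInt {U : Set (E n)} {Ψ : E n → ℝ} {g : E n → E n} {H : E n → E n →L[ℝ] E n} {eps : ℝ}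
    (he : 0 ≤ eps) (hP : PsiOK U Ψ g H eps) {N : E n → ℝ} (hN0 : ∀ z, 0 ≤ N z) (hN : Integrable N) (τ : ℝ) :
    Integrable ({z | z ∈ U ∧ Ψ z < τ}.indicator (fun z => ‖g z‖ ^ 2 * N z)) := by
  obtain ⟨C, hC0, hC⟩ := fBound he hP
  rw [integrable_indicator_iff (sOpen hP τ)]
  have h1 : IntegrableOn (fun z => C * Real.exp (eps * τ) * N z) {z | z ∈ U ∧ Ψ z < τ} :=
    (hN.const_mul _).integrableOn
  have h2 : AEStronglyMeasurable (fun z => ‖g z‖ ^ 2) (volume.restrict {z | z ∈ U ∧ Ψ z < τ}) := by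
    have h3 : ContinuousOn (fun z => ‖g z‖ ^ 2) {z | z ∈ U ∧ Ψ z < τ} :=
      (hP.smg.continuousOn.norm.pow 2).mono fun z hz => hz.1
    exact h3.aestronglyMeasurable (sOpen hP τ)
  refine Integrable.mono' h1 (h2.mul hN.aestronglyMeasurable.restrict) ?_
  refine ae_restrict_of_forall_mem (sOpen hP τ) fun z hz => ?_
  have h4 : 0 ≤ ‖g z‖ ^ 2 * N z := mul_nonneg (sq_nonneg _) (hN0 z)
  rw [Real.norm_of_nonneg h4]
  exact mul_le_mul_of_nonneg_right (hC τ z hz) (hN0 z)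

private theorem mMono {U : Set (E n)} {Ψ : E n → ℝ} {g : E n → E n} {H : E n → E n →L[ℝ] E n} {eps : ℝ}
    (he : 0 ≤ eps) (hP : PsiOK U Ψ g H eps) {N : E n → ℝ} (hN0 : ∀ z, 0 ≤ N z) (hN : Integrable N) :
    Monotone (fun τ : ℝ => ∫ z, {z | z ∈ U ∧ Ψ z < τ}.indicator (fun z => ‖g z‖ ^ 2 * N z) z) := by
  intro s t hst
  refine integral_mono (fInt he hP hN0 hN s) (fInt he hP hN0 hN t) fun z => ?_
  have hsub : {z | z ∈ U ∧ Ψ z < s} ⊆ {z | z ∈ U ∧ Ψ z < t} := fun z hz => ⟨hz.1, lt_of_lt_of_le hz.2 hst⟩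
  refine indicator_le_indicator_of_subset hsub (fun z => ?_) z
  exact mul_nonneg (sq_nonneg _) (hN0 z)

private theorem mBound {U : Set (E n)} {Ψ : E n → ℝ} {g : E n → E n} {H : E n → E n →L[ℝ] E n} {eps : ℝ}
    (he : 0 ≤ eps) (hP : PsiOK U Ψ g H eps) {N : E n → ℝ} (hN0 : ∀ z, 0 ≤ N z) (hN : Integrable N) :
    ∃ B : ℝ, ∀ τ : ℝ, ∫ z, {z | z ∈ U ∧ Ψ z < τ}.indicator (fun z => ‖g z‖ ^ 2 * N z) z ≤
      B * Real.exp (eps * τ) := by
  obtain ⟨C, hC0, hC⟩ := fBound he hP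
  refine ⟨C * ∫ z, N z, fun τ => ?_⟩
  have h1 : ∫ z, {z | z ∈ U ∧ Ψ z < τ}.indicator (fun z => ‖g z‖ ^ 2 * N z) z ≤
      ∫ z, C * Real.exp (eps * τ) * N z := by
    refine integral_mono (fInt he hP hN0 hN τ) (hN.const_mul _) fun z => ?_
    by_cases hz : z ∈ {z | z ∈ U ∧ Ψ z < τ}
    · rw [indicator_of_mem hz]
      exact mul_le_mul_of_nonneg_right (hC τ z hz) (hN0 z)
    · rw [indicator_of_notMem hz]
      exact mul_nonneg (mul_nonneg hC0 (Real.exp_pos _).le) (hN0 z)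
  rw [integral_const_mul] at h1
  refine h1.trans (le_of_eq ?_)
  ring

private theorem gradUp {U : Set (E n)} {Ψ : E n → ℝ} {g : E n → E n} {H : E n → E n →L[ℝ] E n} {eps : ℝ}
    (he : 0 ≤ eps) (hP : PsiOK U Ψ g H eps) {N : E n → ℝ} (hN0 : ∀ z, 0 ≤ N z) (hN : Integrable N) (τ : ℝ) :
    ∫ z, ‖grd (cut U Ψ τ) z‖ ^ 2 * N z ≤
      thC * ((∫ z, {z | z ∈ U ∧ Ψ z < τ}.indicator (fun z => ‖g z‖ ^ 2 * N z) z) -
        ∫ z, {z | z ∈ U ∧ Ψ z < τ - 1}.indicator (fun z => ‖g z‖ ^ 2 * N z) z) := by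
  rw [← integral_sub (fInt he hP hN0 hN τ) (fInt he hP hN0 hN (τ - 1)), ← integral_const_mul]
  refine integral_mono_of_nonneg (Eventually.of_forall fun z => ?_)
    (((fInt he hP hN0 hN τ).sub (fInt he hP hN0 hN (τ - 1))).const_mul _) (Eventually.of_forall fun z => ?_)
  · exact mul_nonneg (sq_nonneg _) (hN0 z)
  · show ‖grd (cut U Ψ τ) z‖ ^ 2 * N z ≤ thC * ({z | z ∈ U ∧ Ψ z < τ}.indicator (fun z => ‖g z‖ ^ 2 * N z) z -
      {z | z ∈ U ∧ Ψ z < τ - 1}.indicator (fun z => ‖g z‖ ^ 2 * N z) z)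
    by_cases hz : z ∉ U ∨ Ψ z < τ - 1 ∨ τ ≤ Ψ z
    · rw [cut_grd_zero hP τ hz, norm_zero]
      have h1 : 0 ≤ {z | z ∈ U ∧ Ψ z < τ}.indicator (fun z => ‖g z‖ ^ 2 * N z) z -
          {z | z ∈ U ∧ Ψ z < τ - 1}.indicator (fun z => ‖g z‖ ^ 2 * N z) z := by
        rw [sub_nonneg]
        have hsub : {z | z ∈ U ∧ Ψ z < τ - 1} ⊆ {z | z ∈ U ∧ Ψ z < τ} :=
          fun z hz => ⟨hz.1, lt_trans hz.2 (by linarith)⟩
        refine indicator_le_indicator_of_subset hsub (fun z => ?_) z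
        exact mul_nonneg (sq_nonneg _) (hN0 z)
      have h2 : 0 ≤ thC * ({z | z ∈ U ∧ Ψ z < τ}.indicator (fun z => ‖g z‖ ^ 2 * N z) z -
          {z | z ∈ U ∧ Ψ z < τ - 1}.indicator (fun z => ‖g z‖ ^ 2 * N z) z) := mul_nonneg thC_pos.le h1
      calc (0 : ℝ) ^ 2 * N z = 0 := by ring
        _ ≤ _ := h2
    · push Not at hz
      obtain ⟨h1, h2, h3⟩ := hz
      have h4 : z ∈ {z | z ∈ U ∧ Ψ z < τ} := ⟨h1, h3⟩
      have h5 : z ∉ {z | z ∈ U ∧ Ψ z < τ - 1} := fun h => absurd h.2 (not_lt.mpr h2)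
      rw [indicator_of_mem h4, indicator_of_notMem h5, sub_zero, ← mul_assoc]
      exact mul_le_mul_of_nonneg_right (cut_grd_le hP τ z) (hN0 z)

private theorem cutSqInt {U : Set (E n)} {Ψ : E n → ℝ} {g : E n → E n} {H : E n → E n →L[ℝ] E n} {eps : ℝ}
    (hP : PsiOK U Ψ g H eps) (τ : ℝ) {f : E n → ℝ} (hf : Integrable f) :
    Integrable (fun z => cut U Ψ τ z ^ 2 * f z) := by
  refine hf.bdd_mul (c := 1) ((cut_smooth hP τ).continuous.pow 2).aestronglyMeasurable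
    (Eventually.of_forall fun z => ?_)
  have h0 := cut_nonneg hP τ z
  have h1 := cut_le hP τ z
  rw [Real.norm_of_nonneg (sq_nonneg _)]
  nlinarith

private theorem massLow {U : Set (E n)} {Ψ : E n → ℝ} {g : E n → E n} {H : E n → E n →L[ℝ] E n} {eps : ℝ}
    (he : 0 ≤ eps) (hP : PsiOK U Ψ g H eps) {N : E n → ℝ} (hN0 : ∀ z, 0 ≤ N z) (hN : Integrable N)
    {C : ℝ} (hC : 0 ≤ C) (τ : ℝ) :
    (∫ z, {z | z ∈ U ∧ Ψ z < τ - 1}.indicator (fun z => ‖g z‖ ^ 2 * N z) z) / 2 - C * ∫ z, N z ≤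
      ∫ z, (1 / 2 * ‖g z‖ ^ 2 - C) * (cut U Ψ τ z ^ 2 * N z) := by
  have e1 : ∀ z, (1 / 2 * ‖g z‖ ^ 2 - C) * (cut U Ψ τ z ^ 2 * N z) =
      1 / 2 * (cut U Ψ τ z ^ 2 * {z | z ∈ U ∧ Ψ z < τ + 1}.indicator (fun z => ‖g z‖ ^ 2 * N z) z) -
        C * (cut U Ψ τ z ^ 2 * N z) := by
    intro z
    by_cases hz : z ∈ {z | z ∈ U ∧ Ψ z < τ + 1}
    · rw [indicator_of_mem hz]
      ring
    · have h1 : cut U Ψ τ z = 0 := by
        refine image_eq_zero_of_notMem_tsupport fun h2 => hz ?_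
        have h3 := (cut_supp hP τ).2 h2
        exact ⟨h3.1, lt_of_le_of_lt h3.2 (by linarith)⟩
      rw [h1]
      ring
  have i1 : Integrable (fun z => (1 / 2 * ‖g z‖ ^ 2 - C) * (cut U Ψ τ z ^ 2 * N z)) := by
    have h2 : Integrable (fun z => 1 / 2 * (cut U Ψ τ z ^ 2 *
        {z | z ∈ U ∧ Ψ z < τ + 1}.indicator (fun z => ‖g z‖ ^ 2 * N z) z) - C * (cut U Ψ τ z ^ 2 * N z)) :=
      ((cutSqInt hP τ (fInt he hP hN0 hN (τ + 1))).const_mul _).sub ((cutSqInt hP τ hN).const_mul _)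
    exact h2.congr (Eventually.of_forall fun z => (e1 z).symm)
  have i2 : Integrable (fun z => 1 / 2 * {z | z ∈ U ∧ Ψ z < τ - 1}.indicator (fun z => ‖g z‖ ^ 2 * N z) z -
      C * N z) := ((fInt he hP hN0 hN (τ - 1)).const_mul _).sub (hN.const_mul _)
  have e2 : (∫ z, {z | z ∈ U ∧ Ψ z < τ - 1}.indicator (fun z => ‖g z‖ ^ 2 * N z) z) / 2 - C * ∫ z, N z =
      ∫ z, (1 / 2 * {z | z ∈ U ∧ Ψ z < τ - 1}.indicator (fun z => ‖g z‖ ^ 2 * N z) z - C * N z) := by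
    rw [integral_sub ((fInt he hP hN0 hN (τ - 1)).const_mul _) (hN.const_mul _), integral_const_mul,
      integral_const_mul]
    ring
  rw [e2]
  refine integral_mono i2 i1 fun z => ?_
  show 1 / 2 * {z | z ∈ U ∧ Ψ z < τ - 1}.indicator (fun z => ‖g z‖ ^ 2 * N z) z - C * N z ≤
    (1 / 2 * ‖g z‖ ^ 2 - C) * (cut U Ψ τ z ^ 2 * N z)
  have h0 := cut_nonneg hP τ z
  have h1 := cut_le hP τ z
  have h2 : cut U Ψ τ z ^ 2 ≤ 1 := by nlinarith
  have h3 : C * (cut U Ψ τ z ^ 2 * N z) ≤ C * N z := by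
    refine mul_le_mul_of_nonneg_left ?_ hC
    calc cut U Ψ τ z ^ 2 * N z ≤ 1 * N z := mul_le_mul_of_nonneg_right h2 (hN0 z)
      _ = N z := one_mul _
  have h4 : {z | z ∈ U ∧ Ψ z < τ - 1}.indicator (fun z => ‖g z‖ ^ 2 * N z) z ≤
      ‖g z‖ ^ 2 * (cut U Ψ τ z ^ 2 * N z) := by
    by_cases hz : z ∈ {z | z ∈ U ∧ Ψ z < τ - 1}
    · rw [indicator_of_mem hz, cut_one hP τ hz.1 hz.2.le]
      exact le_of_eq (by ring)
    · rw [indicator_of_notMem hz]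
      exact mul_nonneg (sq_nonneg _) (mul_nonneg (sq_nonneg _) (hN0 z))
  have h5 : (1 / 2 * ‖g z‖ ^ 2 - C) * (cut U Ψ τ z ^ 2 * N z) =
      1 / 2 * (‖g z‖ ^ 2 * (cut U Ψ τ z ^ 2 * N z)) - C * (cut U Ψ τ z ^ 2 * N z) := by ring
  rw [h5]
  linarith

private theorem massLim {U : Set (E n)} {Ψ : E n → ℝ} {g : E n → E n} {H : E n → E n →L[ℝ] E n} {eps : ℝ}
    (hP : PsiOK U Ψ g H eps) {N : E n → ℝ} (hN0 : ∀ z, 0 ≤ N z) (hN : Integrable N)
    (hNU : ∀ z, z ∉ U → N z = 0) :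
    Tendsto (fun j : ℕ => ∫ z, cut U Ψ j z ^ 2 * N z) atTop (𝓝 (∫ z, N z)) := by
  refine tendsto_integral_of_dominated_convergence N (fun j => (cutSqInt hP j hN).aestronglyMeasurable) hN
    (fun j => Eventually.of_forall fun z => ?_) (Eventually.of_forall fun z => ?_)
  · have h0 := cut_nonneg hP j z
    have h1 := cut_le hP j z
    have h2 : cut U Ψ j z ^ 2 ≤ 1 := by nlinarith
    rw [Real.norm_of_nonneg (mul_nonneg (sq_nonneg _) (hN0 z))]
    calc cut U Ψ j z ^ 2 * N z ≤ 1 * N z := mul_le_mul_of_nonneg_right h2 (hN0 z)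
      _ = N z := one_mul _
  · by_cases hz : z ∈ U
    · refine tendsto_const_nhds.congr' ?_
      obtain ⟨j0, hj0⟩ := exists_nat_ge (Ψ z + 1)
      filter_upwards [eventually_ge_atTop j0] with j hj
      have h1 : (j0 : ℝ) ≤ j := Nat.cast_le.mpr hj
      rw [cut_one hP j hz (by linarith)]
      ring
    · rw [hNU z hz]
      simp only [mul_zero]
      exact tendsto_const_nhds

private theorem mass_zero {U : Set (E n)} {Ψ : E n → ℝ} {g : E n → E n} {H : E n → E n →L[ℝ] E n} {eps : ℝ}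
    (he : 0 ≤ eps) (hsmall : Real.exp eps < 1 + 1 / (2 * thC)) (hP : PsiOK U Ψ g H eps)
    {N : E n → ℝ} (hN0 : ∀ z, 0 ≤ N z) (hN : Integrable N) (hNU : ∀ z, z ∉ U → N z = 0)
    {δ C : ℝ} (hδ : 0 < δ) (hC : 0 ≤ C)
    (h1 : ∀ τ : ℝ, δ * ∫ z, cut U Ψ τ z ^ 2 * N z ≤ ∫ z, ‖grd (cut U Ψ τ) z‖ ^ 2 * N z)
    (h2 : ∀ τ : ℝ, ∫ z, (1 / 2 * ‖g z‖ ^ 2 - C) * (cut U Ψ τ z ^ 2 * N z) ≤
      ∫ z, ‖grd (cut U Ψ τ) z‖ ^ 2 * N z) : ∫ z, N z = 0 := by
  obtain ⟨B, hB⟩ := mBound he hP hN0 hN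
  have hI0 : 0 ≤ ∫ z, N z := integral_nonneg hN0
  have g1 := growth (mMono he hP hN0 hN)
    (fun τ => integral_nonneg fun z => indicator_nonneg (fun z _ => mul_nonneg (sq_nonneg _) (hN0 z)) z)
    (mul_nonneg hC hI0) thC_pos
    (fun τ => ((massLow he hP hN0 hN hC τ).trans (h2 τ)).trans (gradUp he hP hN0 hN τ)) hB hsmall
  have g2 := g1.const_mul thC
  rw [mul_zero] at g2
  have g3 := (massLim hP hN0 hN hNU).const_mul δ
  have g4 : δ * ∫ z, N z ≤ 0 :=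
    le_of_tendsto_of_tendsto' g3 g2 fun j => (h1 j).trans (gradUp he hP hN0 hN j)
  have g5 : ∫ z, N z ≤ 0 := by
    by_contra hneg
    have : 0 < δ * ∫ z, N z := mul_pos hδ (not_le.mp hneg)
    linarith
  exact le_antisymm g5 hI0

theorem dense_end {U : Set (E n)} {Ψ : E n → ℝ} {g : E n → E n} {H : E n → E n →L[ℝ] E n} {eps : ℝ}
    (he : 0 ≤ eps) (hsmall : Real.exp eps < 1 + 1 / (2 * thC)) (hP : PsiOK U Ψ g H eps)
    (h : Cn U g (Idf n)) (v : Yh U) (hv : ∀ u : TstE U, inner ℝ v (Sop h u) = 0) : v = 0 := by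
  classical
  have hUm : MeasurableSet U := hP.isOpen.measurableSet
  obtain ⟨v', hv'⟩ : ∃ v' : E n → W n, v' = U.indicator (fun z => io n (v z)) := ⟨_, rfl⟩
  have hmem : MemLp v' 2 volume := by
    rw [hv', memLp_indicator_iff_restrict hUm]
    exact (io n).comp_memLp' (Lp.memLp v)
  have hod : ∀ z, v' z ∈ odS n := by
    intro z
    rw [hv']
    by_cases hz : z ∈ U
    · rw [indicator_of_mem hz]
      exact io_mem _
    · rw [indicator_of_notMem hz]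
      exact (odS n).zero_mem
  have weak : ∀ u ∈ Tst U, ∫ z, inner ℝ (v' z) (Bop g (Idf n) u z) = 0 := by
    intro u hu
    have hue := Tst_evP hu
    have huo := Tst_odP hu
    have e0 : u = (fun z => evP n (u z)) + (fun z => odP n (u z)) := by
      funext z
      exact (evP_add_odP (u z)).symm
    have e1 : ∀ z, inner ℝ (v' z) (Bop g (Idf n) u z) =
        U.indicator (fun z => inner ℝ (io n (v z)) (Bop g (Idf n) (fun z => evP n (u z)) z)) z := by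
      intro z
      have e2 : Bop g (Idf n) u z = Bop g (Idf n) (fun z => evP n (u z)) z +
          Bop g (Idf n) (fun z => odP n (u z)) z := by
        rw [← Bop_add hue huo z, ← e0]
      have e3 : inner ℝ (v' z) (Bop g (Idf n) (fun z => odP n (u z)) z) = 0 := by
        rw [real_inner_comm]
        exact inner_ev_od (Bop_od huo (fun z => odP_mem _) z) (hod z)
      rw [e2, inner_add_right, e3, add_zero, hv']
      by_cases hz : z ∈ U
      · rw [indicator_of_mem hz, indicator_of_mem hz]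
      · rw [indicator_of_notMem hz, indicator_of_notMem hz, inner_zero_left]
    rw [integral_congr_ae (Eventually.of_forall e1), integral_indicator hUm]
    have e4 := hv ⟨fun z => evP n (u z), hue, fun z => evP_mem _⟩
    rw [Sop_inner] at e4
    exact e4
  obtain ⟨δ, C, hδ, hC, hreg⟩ := reg_ineq hP hmem hod weak
  have hN : Integrable (fun z => ‖v' z‖ ^ 2) := hmem.norm.integrable_sq
  have hcut : ∀ τ : ℝ, tsupport (cut U Ψ τ) ⊆ U := fun τ z hz => ((cut_supp hP τ).2 hz).1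
  have hz0 : ∫ z, ‖v' z‖ ^ 2 = 0 := by
    refine mass_zero he hsmall hP (fun z => sq_nonneg _) hN (fun z hz => ?_) hδ hC
      (fun τ => (hreg _ (cut_smooth hP τ) (cut_supp hP τ).1 (hcut τ)).1)
      (fun τ => (hreg _ (cut_smooth hP τ) (cut_supp hP τ).1 (hcut τ)).2)
    rw [hv', indicator_of_notMem hz, norm_zero]
    ring
  have hnorm : ‖v‖ ^ 2 = 0 := by
    rw [norm_Lp_sq, ← integral_indicator hUm, ← hz0]
    refine integral_congr_ae (Eventually.of_forall fun z => ?_)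
    show U.indicator (fun z => ‖v z‖ ^ 2) z = ‖v' z‖ ^ 2
    rw [hv']
    by_cases hz : z ∈ U
    · rw [indicator_of_mem hz, indicator_of_mem hz, norm_io]
    · rw [indicator_of_notMem hz, indicator_of_notMem hz, norm_zero]
      ring
  exact norm_eq_zero.mp (pow_eq_zero_iff two_ne_zero |>.mp hnorm)

end Pool.Agent.FCI
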