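import Mathlib

/-!
# FCI-Pol: polar decomposition (Mathlib only)

Diagonalise `adjoint A ∘ A` and map the normalised images of the eigenvectors to the eigenvectors.
-/

open scoped BigOperators

namespace Pool.Agent.FCI

theorem polar {n : ℕ} (A : EuclideanSpace ℝ (Fin n) →L[ℝ] EuclideanSpace ℝ (Fin n)) (hA : Function.Injective A) :
    ∃ O : EuclideanSpace ℝ (Fin n) ≃ₗᵢ[ℝ] EuclideanSpace ℝ (Fin n), ∀ p, p ≠ 0 → 0 < inner ℝ p (O (A p)) := by
  obtain ⟨T, hT0⟩ : ∃ T : EuclideanSpace ℝ (Fin n) →ₗ[ℝ] EuclideanSpace ℝ (Fin n),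
      ∀ x, T x = ContinuousLinearMap.adjoint A (A x) :=
    ⟨((ContinuousLinearMap.adjoint A) ∘L A).toLinearMap, fun x => rfl⟩
  have hT : T.IsSymmetric := by
    intro x y
    rw [hT0, hT0, ContinuousLinearMap.adjoint_inner_left, ContinuousLinearMap.adjoint_inner_right]
  have hn : Module.finrank ℝ (EuclideanSpace ℝ (Fin n)) = n := finrank_euclideanSpace_fin
  obtain ⟨v, hv⟩ : ∃ v, v = hT.eigenvectorBasis hn := ⟨_, rfl⟩
  obtain ⟨lam, hlam⟩ : ∃ lam, lam = hT.eigenvalues hn := ⟨_, rfl⟩
  have hTv : ∀ i, T (v i) = lam i • v i := by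
    intro i
    rw [hv, hlam, hT.apply_eigenvectorBasis hn i]
    rfl
  have hAA : ∀ i j, inner ℝ (A (v i)) (A (v j)) = lam i * inner ℝ (v i) (v j) := by
    intro i j
    rw [← ContinuousLinearMap.adjoint_inner_left, ← hT0, hTv, real_inner_smul_left]
  have hvn : ∀ i, ‖v i‖ = 1 := fun i => v.orthonormal.1 i
  have hvz : ∀ i j, i ≠ j → inner ℝ (v i) (v j) = 0 := fun i j hij => v.orthonormal.2 hij
  have hlpos : ∀ i, 0 < lam i := by
    intro i
    have h1 := hAA i i
    rw [real_inner_self_eq_norm_sq, real_inner_self_eq_norm_sq, hvn i, one_pow, mul_one] at h1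
    rw [← h1]
    have h2 : A (v i) ≠ 0 := by
      intro h
      have h3 : v i = 0 := hA (by rw [h, map_zero])
      have h4 := hvn i
      rw [h3, norm_zero] at h4
      exact zero_ne_one h4
    have := norm_pos_iff.2 h2
    positivity
  have hsq : ∀ i, 0 < Real.sqrt (lam i) := fun i => Real.sqrt_pos.2 (hlpos i)
  obtain ⟨f, hf⟩ : ∃ f : Fin n → EuclideanSpace ℝ (Fin n),
      ∀ i, f i = (Real.sqrt (lam i))⁻¹ • A (v i) := ⟨_, fun _ => rfl⟩
  have hfo : Orthonormal ℝ f := by
    constructor
    · intro i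
      have h1 := hAA i i
      rw [real_inner_self_eq_norm_sq, real_inner_self_eq_norm_sq, hvn i, one_pow, mul_one] at h1
      have h2 : ‖A (v i)‖ = Real.sqrt (lam i) := by
        rw [← h1, Real.sqrt_sq (norm_nonneg _)]
      rw [hf, norm_smul, h2, norm_inv, Real.norm_eq_abs, abs_of_pos (hsq i),
        inv_mul_cancel₀ (hsq i).ne']
    · intro i j hij
      show inner ℝ (f i) (f j) = 0
      rw [hf, hf, real_inner_smul_left, real_inner_smul_right, hAA, hvz i j hij]
      ring
  have hfr : Orthonormal ℝ ((Set.univ : Set (Fin n)).domRestrict f) := by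
    exact hfo.comp _ Subtype.val_injective
  obtain ⟨b, hb⟩ := hfr.exists_orthonormalBasis_extension_of_card_eq
    (by rw [hn, Fintype.card_fin])
  have hb' : ∀ i, b i = f i := fun i => hb i (Set.mem_univ i)
  refine ⟨b.equiv v (Equiv.refl _), ?_⟩
  have hOA : ∀ i, b.equiv v (Equiv.refl _) (A (v i)) = Real.sqrt (lam i) • v i := by
    intro i
    have h1 : A (v i) = Real.sqrt (lam i) • b i := by
      rw [hb', hf, smul_smul, mul_inv_cancel₀ (hsq i).ne', one_smul]
    rw [h1, map_smul, OrthonormalBasis.equiv_apply_basis, Equiv.refl_apply]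
  have hin : ∀ p i, inner ℝ (v i) (b.equiv v (Equiv.refl _) (A p)) =
      Real.sqrt (lam i) * inner ℝ (v i) p := by
    intro p i
    have h1 : b.equiv v (Equiv.refl _) (A p) = ∑ j, inner ℝ (v j) p • (Real.sqrt (lam j) • v j) := by
      conv_lhs => rw [← v.sum_repr' p]
      rw [map_sum, map_sum]
      apply Finset.sum_congr rfl
      intro j _
      rw [map_smul, map_smul, hOA]
    rw [h1, inner_sum, Finset.sum_eq_single i]
    · rw [real_inner_smul_right, real_inner_smul_right, real_inner_self_eq_norm_sq, hvn i]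
      ring
    · intro j _ hj
      rw [real_inner_smul_right, real_inner_smul_right, hvz i j hj.symm]
      ring
    · intro h
      exact absurd (Finset.mem_univ i) h
  intro p hp
  rw [← v.sum_inner_mul_inner p]
  have hterm : ∀ i, inner ℝ p (v i) * inner ℝ (v i) (b.equiv v (Equiv.refl _) (A p)) =
      Real.sqrt (lam i) * inner ℝ (v i) p ^ 2 := by
    intro i
    rw [hin, real_inner_comm]
    ring
  rw [Finset.sum_congr rfl fun i _ => hterm i]
  have hex : ∃ i, inner ℝ (v i) p ≠ 0 := by
    by_contra hc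
    push Not at hc
    apply hp
    rw [← v.sum_repr' p]
    apply Finset.sum_eq_zero
    intro i _
    rw [hc i, zero_smul]
  obtain ⟨i, hi⟩ := hex
  apply Finset.sum_pos'
  · intro j _
    have := hsq j
    positivity
  · refine ⟨i, Finset.mem_univ i, ?_⟩
    have := hsq i
    positivity

end Pool.Agent.FCI
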