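import Pool.Agent.FCI.PotC

/-!
# FCI-PotD: existence of the block potential

`P = PA k a A η` with `A > 2`, `2 / A ≤ eps` and a small `η = r ^ 2`.
-/

open scoped BigOperators Topology ContDiff
open Filter Set

namespace Pool.Agent.FCI

open Pool.Agent.TUB (B jw)

private theorem pd_M {k a : ℝ} (hk : 1 ≤ k) (ha : 0 < a) :
    ∃ M : ℝ, 0 < M ∧ ∀ s ∈ Ico 0 (a ^ 2), phA k a s * uA k a s ≤ M := by
  have hc : Continuous (deriv (phA k a)) := (phA_smooth (a := a) hk).continuous_deriv (by simp)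
  obtain ⟨M, hM⟩ := (isCompact_Icc (a := (0 : ℝ)) (b := a ^ 2)).exists_bound_of_continuousOn hc.continuousOn
  refine ⟨|M| + 1, by positivity, fun s hs => ?_⟩
  have h1 := hM s ⟨hs.1, hs.2.le⟩
  rw [(phA_deriv hk ha hs.2).deriv, norm_neg, Real.norm_eq_abs] at h1
  have h2 := le_abs_self (phA k a s * uA k a s)
  have h3 := le_abs_self M
  linarith

private theorem pd_y {k a η s : ℝ} (hk : 1 ≤ k) (ha : 0 < a) (hη : 0 < η) (hs : s < a ^ 2) :
    0 < yA k a η s ∧ yA k a η s < 1 ∧ 1 - yA k a η s = phA k a s / (phA k a s + η) := by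
  have hp := phA_pos hk ha hs
  have h1 : 0 < phA k a s + η := by positivity
  refine ⟨by unfold yA; positivity, ?_, ?_⟩
  · unfold yA
    rw [div_lt_one h1]
    linarith
  · unfold yA
    field_simp
    ring

private theorem pd_lower {k a A r L κ : ℝ} (hk : 1 ≤ k) (ha : 0 < a) (hA : 2 < A) (hr : 0 < r) (hr2 : r ≤ 1 / 2)
    (hL0 : 0 < jw k / a ^ 2) (hL : jw k / a ^ 2 < L)
    (hedge : ∀ s, 0 ≤ s → s < a ^ 2 → phA k a s ≤ 1 / 2 → κ ≤ 4 * s * (phA k a s * uA k a s) ^ 2)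
    (h1 : (A - 1) * r * (jw k / a ^ 2) ≤ L - jw k / a ^ 2) (h2 : 2 * (jw k / a ^ 2) * r ≤ A * κ)
    {s : ℝ} (h0 : 0 ≤ s) (hs : s < a ^ 2) :
    -L ≤ A * (A - 1) * yA k a (r ^ 2) s ^ 2 * (4 * s * uA k a s ^ 2) -
      (1 + (A - 1) * yA k a (r ^ 2) s) * (jw k / a ^ 2) := by
  have hη : 0 < r ^ 2 := by positivity
  obtain ⟨hy0, hy1, -⟩ := pd_y hk ha hη hs
  have hp := phA_pos hk ha hs
  obtain ⟨L0, hL0e⟩ : ∃ L0 : ℝ, L0 = jw k / a ^ 2 := ⟨_, rfl⟩
  rw [← hL0e] at hL0 hL h1 h2 ⊢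
  have hyd : yA k a (r ^ 2) s = r ^ 2 / (phA k a s + r ^ 2) := rfl
  obtain ⟨y, hye⟩ : ∃ y : ℝ, y = yA k a (r ^ 2) s := ⟨_, rfl⟩
  rw [← hye] at hy0 hy1 hyd ⊢
  have hA1 : 0 < A - 1 := by linarith
  rcases le_or_gt r (phA k a s) with hc | hc
  · have hy : y ≤ r := by
      rw [hyd, div_le_iff₀ (by positivity)]
      nlinarith
    have h3 : (A - 1) * y * L0 ≤ (A - 1) * r * L0 := by
      have := mul_le_mul_of_nonneg_left hy hA1.le
      exact mul_le_mul_of_nonneg_right this hL0.le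
    have h4 : 0 ≤ A * (A - 1) * y ^ 2 * (4 * s * uA k a s ^ 2) := by positivity
    nlinarith
  · have hy : r / 2 ≤ y := by
      rw [hyd, le_div_iff₀ (by positivity)]
      nlinarith
    have h3 := hedge s h0 hs (hc.le.trans hr2)
    obtain ⟨U, hU⟩ : ∃ U : ℝ, U = 4 * s * uA k a s ^ 2 := ⟨_, rfl⟩
    have hU0 : 0 ≤ U := by
      rw [hU]
      positivity
    rw [← hU]
    have h4 : κ ≤ r ^ 2 * U := by
      have h5 : phA k a s ^ 2 ≤ r ^ 2 := by
        exact pow_le_pow_left₀ hp.le hc.le 2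
      calc κ ≤ 4 * s * (phA k a s * uA k a s) ^ 2 := h3
        _ = phA k a s ^ 2 * U := by rw [hU]; ring
        _ ≤ r ^ 2 * U := mul_le_mul_of_nonneg_right h5 hU0
    have h6 : 2 * L0 * r ≤ A * (r ^ 2 * U) :=
      h2.trans (mul_le_mul_of_nonneg_left h4 (by linarith))
    have h7 : L0 ≤ A * (r / 2) * U := by
      have h8 : r * (L0) ≤ r * (A * (r / 2) * U) := by nlinarith
      exact le_of_mul_le_mul_left h8 hr
    have h9 : L0 ≤ A * y * U := by
      have h10 : A * (r / 2) * U ≤ A * y * U := by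
        have := mul_le_mul_of_nonneg_left hy (show (0 : ℝ) ≤ A by linarith)
        exact mul_le_mul_of_nonneg_right this hU0
      linarith
    have h11 : (A - 1) * y * L0 ≤ (A - 1) * y * (A * y * U) :=
      mul_le_mul_of_nonneg_left h9 (by positivity)
    nlinarith

private theorem pd_half {k a A η M : ℝ} (hk : 1 ≤ k) (ha : 0 < a) (hA : 2 < A) (hη : 0 < η)
    (hL0 : 0 < jw k / a ^ 2) (hM0 : 0 < M) (hM : ∀ s ∈ Ico 0 (a ^ 2), phA k a s * uA k a s ≤ M) :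
    ∃ C, ∀ s ∈ Ico 0 (a ^ 2),
      1 / 2 * (4 * s * ((1 + (A - 1) * yA k a η s) * uA k a s) ^ 2) - C ≤
        A * (A - 1) * yA k a η s ^ 2 * (4 * s * uA k a s ^ 2) -
          (1 + (A - 1) * yA k a η s) * (jw k / a ^ 2) := by
  obtain ⟨f0, hf0⟩ : ∃ f0 : ℝ, f0 = η * ((A - 2) / (2 * (A - 1))) := ⟨_, rfl⟩
  have hA1 : 0 < A - 1 := by linarith
  have hA2 : 0 < A - 2 := by linarith
  have hf0p : 0 < f0 := by
    rw [hf0]
    positivity
  refine ⟨A * (jw k / a ^ 2) + 4 * a ^ 2 * (M / f0) ^ 2 * (1 / 2 * A ^ 2), fun s hs => ?_⟩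
  obtain ⟨hy0, hy1, hyt⟩ := pd_y hk ha hη hs.2
  have hp := phA_pos hk ha hs.2
  have hu := uA_pos hk ha hs.1 hs.2
  have hMs := hM s hs
  obtain ⟨y, hye⟩ : ∃ y : ℝ, y = yA k a η s := ⟨_, rfl⟩
  rw [← hye] at hy0 hy1 hyt ⊢
  obtain ⟨u, hue⟩ : ∃ u : ℝ, u = uA k a s := ⟨_, rfl⟩
  rw [← hue] at hu hMs ⊢
  obtain ⟨L0, hL0e⟩ : ∃ L0 : ℝ, L0 = jw k / a ^ 2 := ⟨_, rfl⟩
  rw [← hL0e] at hL0 ⊢
  have e1 : A * (A - 1) * y ^ 2 * (4 * s * u ^ 2) - (1 + (A - 1) * y) * L0 -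
      (1 / 2 * (4 * s * ((1 + (A - 1) * y) * u) ^ 2) -
        (A * L0 + 4 * a ^ 2 * (M / f0) ^ 2 * (1 / 2 * A ^ 2))) =
      4 * s * u ^ 2 * (A * (A - 1) * y ^ 2 - 1 / 2 * (1 + (A - 1) * y) ^ 2) +
        4 * a ^ 2 * (M / f0) ^ 2 * (1 / 2 * A ^ 2) + (A - 1) * (1 - y) * L0 := by ring
  have h3 : 0 ≤ (A - 1) * (1 - y) * L0 := by
    have : 0 < 1 - y := by linarith
    positivity
  have hs0 := hs.1
  rcases le_or_gt (phA k a s) f0 with hc | hc
  · have ht : 1 - y ≤ (A - 2) / (2 * (A - 1)) := by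
      rw [hyt]
      calc phA k a s / (phA k a s + η) ≤ phA k a s / η :=
            div_le_div_of_nonneg_left hp.le hη (by linarith)
        _ ≤ f0 / η := div_le_div_of_nonneg_right hc hη.le
        _ = (A - 2) / (2 * (A - 1)) := by
            rw [hf0]
            field_simp
    have ht2 : 2 * (A - 1) * (1 - y) ≤ A - 2 := by
      rw [le_div_iff₀ (by positivity)] at ht
      linarith
    have hb : 0 ≤ A * (A - 1) * y ^ 2 - 1 / 2 * (1 + (A - 1) * y) ^ 2 := by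
      have e2 : A * (A - 1) * y ^ 2 - 1 / 2 * (1 + (A - 1) * y) ^ 2 =
          A / 2 * ((A - 2) - 2 * (A - 1) * (1 - y)) + (1 - y) ^ 2 * ((A - 1) * (A + 1) / 2) := by ring
      rw [e2]
      have h5 : 0 ≤ (A - 2) - 2 * (A - 1) * (1 - y) := by linarith
      have h6 : (0 : ℝ) ≤ A / 2 := by linarith
      have h7 : 0 ≤ (A - 1) * (A + 1) / 2 := by
        have : 0 < A + 1 := by linarith
        positivity
      exact add_nonneg (mul_nonneg h6 h5) (mul_nonneg (sq_nonneg _) h7)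
    have h8 : 0 ≤ 4 * s * u ^ 2 * (A * (A - 1) * y ^ 2 - 1 / 2 * (1 + (A - 1) * y) ^ 2) := by
      exact mul_nonneg (by positivity) hb
    have h9 : 0 ≤ 4 * a ^ 2 * (M / f0) ^ 2 * (1 / 2 * A ^ 2) := by positivity
    linarith
  · have hu2 : u ≤ M / f0 := by
      rw [le_div_iff₀ hf0p]
      have : u * f0 ≤ u * phA k a s := mul_le_mul_of_nonneg_left hc.le hu.le
      linarith
    have hu3 : u ^ 2 ≤ (M / f0) ^ 2 := pow_le_pow_left₀ hu.le hu2 2
    have hw : (1 + (A - 1) * y) ^ 2 ≤ A ^ 2 := by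
      refine pow_le_pow_left₀ (by positivity) ?_ 2
      nlinarith
    have h8 : 4 * s * u ^ 2 * (1 / 2 * (1 + (A - 1) * y) ^ 2) ≤
        4 * a ^ 2 * (M / f0) ^ 2 * (1 / 2 * A ^ 2) := by
      refine mul_le_mul ?_ (by linarith) (by positivity) (by positivity)
      exact mul_le_mul (by linarith [hs.2]) hu3 (by positivity) (by positivity)
    have h9 : 0 ≤ 4 * s * u ^ 2 * (A * (A - 1) * y ^ 2) := by positivity
    nlinarith

private theorem pd_log {k a A η s : ℝ} (hk : 1 ≤ k) (ha : 0 < a) (hA : 2 < A) (hη : 0 < η)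
    (h0 : 0 ≤ s) (hs : s < a ^ 2) :
    0 ≤ PA k a A η s ∧ -A * Real.log (phA k a s) + (A - 1) * Real.log η ≤ PA k a A η s := by
  have hp := phA_pos hk ha hs
  have hp1 := phA_le_one hk ha h0 hs.le
  have h1 : Real.log (phA k a s) ≤ Real.log (phA k a s + η) := Real.log_le_log hp (by linarith)
  have h2 : Real.log η ≤ Real.log (phA k a s + η) := Real.log_le_log hη (by linarith)
  have h3 : Real.log (phA k a s) ≤ 0 := Real.log_nonpos hp.le hp1
  unfold PA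
  constructor
  · nlinarith
  · nlinarith

private theorem pd_grow {k a A η M eps : ℝ} (hk : 1 ≤ k) (ha : 0 < a) (hA : 2 < A) (hη : 0 < η)
    (he : 2 ≤ A * eps) (hM0 : 0 < M) (hM : ∀ s ∈ Ico 0 (a ^ 2), phA k a s * uA k a s ≤ M) :
    ∃ C, ∀ s ∈ Ico 0 (a ^ 2),
      4 * s * ((1 + (A - 1) * yA k a η s) * uA k a s) ^ 2 ≤ C * Real.exp (eps * PA k a A η s) := by
  obtain ⟨E, hE⟩ : ∃ E : ℝ, E = Real.exp (2 / A * ((A - 1) * Real.log η)) := ⟨_, rfl⟩
  have hE0 : 0 < E := by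
    rw [hE]
    exact Real.exp_pos _
  have hA1 : 0 < A - 1 := by linarith
  have hA0 : 0 < A := by linarith
  refine ⟨4 * a ^ 2 * (A ^ 2 * M ^ 2) / E, fun s hs => ?_⟩
  obtain ⟨hy0, hy1, -⟩ := pd_y hk ha hη hs.2
  have hp := phA_pos hk ha hs.2
  have hu := uA_pos hk ha hs.1 hs.2
  have hMs := hM s hs
  obtain ⟨hP0, hP1⟩ := pd_log hk ha hA hη hs.1 hs.2
  obtain ⟨f, hf⟩ : ∃ f : ℝ, f = phA k a s := ⟨_, rfl⟩
  rw [← hf] at hp hMs hP1
  have h1 : E / f ^ 2 ≤ Real.exp (eps * PA k a A η s) := by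
    have h2 : 2 / A * (-A * Real.log f + (A - 1) * Real.log η) ≤ eps * PA k a A η s := by
      have h3 : 2 / A ≤ eps := by
        rw [div_le_iff₀ hA0]
        linarith
      calc 2 / A * (-A * Real.log f + (A - 1) * Real.log η) ≤ 2 / A * PA k a A η s :=
            mul_le_mul_of_nonneg_left hP1 (by positivity)
        _ ≤ eps * PA k a A η s := mul_le_mul_of_nonneg_right h3 hP0
    have h4 : Real.exp (2 / A * (-A * Real.log f + (A - 1) * Real.log η)) = E / f ^ 2 := by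
      have e1 : 2 / A * (-A * Real.log f + (A - 1) * Real.log η) =
          2 / A * ((A - 1) * Real.log η) - 2 * Real.log f := by
        field_simp
        ring
      have e2 : Real.exp (2 * Real.log f) = f ^ 2 := by
        rw [two_mul, Real.exp_add, Real.exp_log hp, pow_two]
      rw [e1, Real.exp_sub, e2, hE]
    rw [← h4]
    exact Real.exp_le_exp.2 h2
  have hw : 1 + (A - 1) * yA k a η s ≤ A := by nlinarith
  have h5 : (1 + (A - 1) * yA k a η s) * uA k a s ≤ A * (M / f) := by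
    refine mul_le_mul hw ?_ hu.le hA0.le
    rw [le_div_iff₀ hp]
    linarith
  have h6 : ((1 + (A - 1) * yA k a η s) * uA k a s) ^ 2 ≤ (A * (M / f)) ^ 2 := by
    refine pow_le_pow_left₀ ?_ h5 2
    positivity
  have hs0 := hs.1
  calc 4 * s * ((1 + (A - 1) * yA k a η s) * uA k a s) ^ 2 ≤ 4 * a ^ 2 * (A * (M / f)) ^ 2 :=
        mul_le_mul (by linarith [hs.2]) h6 (by positivity) (by positivity)
    _ = 4 * a ^ 2 * (A ^ 2 * M ^ 2) / E * (E / f ^ 2) := by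
        field_simp
    _ ≤ 4 * a ^ 2 * (A ^ 2 * M ^ 2) / E * Real.exp (eps * PA k a A η s) :=
        mul_le_mul_of_nonneg_left h1 (by positivity)

private theorem pd_proper {k a A η : ℝ} (hk : 1 ≤ k) (ha : 0 < a) (hA : 2 < A) (hη : 0 < η) (M : ℝ) :
    ∃ s0 < a ^ 2, ∀ s ∈ Ico 0 (a ^ 2), PA k a A η s ≤ M → s ≤ s0 := by
  obtain ⟨f1, hf1⟩ : ∃ f1 : ℝ, f1 = Real.exp (((A - 1) * Real.log η - M) / A) := ⟨_, rfl⟩
  have hf0 : 0 < f1 := by
    rw [hf1]
    exact Real.exp_pos _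
  have hA0 : 0 < A := by linarith
  have hc : ContinuousAt (phA k a) (a ^ 2) := (phA_smooth (a := a) hk).continuous.continuousAt
  have h1 : ∀ᶠ s in 𝓝 (a ^ 2), phA k a s < f1 := by
    refine hc.eventually_lt continuousAt_const ?_
    rw [phA_end hk ha]
    exact hf0
  obtain ⟨δ, hδ, hδ2⟩ := Metric.eventually_nhds_iff.1 h1
  refine ⟨a ^ 2 - δ / 2, by linarith, fun s hs hP => ?_⟩
  by_contra hcon
  push Not at hcon
  have h2 : phA k a s < f1 := by
    refine hδ2 ?_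
    rw [Real.dist_eq, abs_lt]
    constructor
    · linarith
    · have := hs.2
      linarith
  have hp := phA_pos hk ha hs.2
  have h3 := (pd_log hk ha hA hη hs.1 hs.2).2
  have h4 : Real.log (phA k a s) < ((A - 1) * Real.log η - M) / A := by
    have h5 := Real.log_lt_log hp h2
    rw [hf1, Real.log_exp] at h5
    exact h5
  rw [lt_div_iff₀ hA0] at h4
  nlinarith

theorem pot_exists {k : ℕ} (hk : 1 ≤ k) {a L eps : ℝ} (ha : 0 < a) (hL : jw k / a ^ 2 < L) (he : 0 < eps) :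
    ∃ P : ℝ → ℝ, Pot k a L eps P := by
  have hk1 : (1 : ℝ) ≤ (k : ℝ) := by exact_mod_cast hk
  have hk0 : (0 : ℝ) < (k : ℝ) := by linarith
  have hj : 0 < jw (k : ℝ) := (Pool.Agent.TUB.jw_facts hk1).1
  have hL0 : 0 < jw (k : ℝ) / a ^ 2 := by positivity
  obtain ⟨A, hAe⟩ : ∃ A : ℝ, A = 2 / eps + 3 := ⟨_, rfl⟩
  have hA : 2 < A := by
    have : 0 < 2 / eps := by positivity
    linarith
  have hAe2 : 2 ≤ A * eps := by
    rw [hAe, add_mul, div_mul_cancel₀ _ he.ne']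
    linarith
  obtain ⟨κ, hκ, hedge⟩ := ph_edge hk1 ha
  obtain ⟨M, hM0, hM⟩ := pd_M hk1 ha
  have hA1 : 0 < A - 1 := by linarith
  have hA0 : 0 < A := by linarith
  have hLL : 0 < L - jw (k : ℝ) / a ^ 2 := by linarith
  obtain ⟨r, hr⟩ : ∃ r : ℝ, r = min (1 / 2) (min ((L - jw (k : ℝ) / a ^ 2) / ((A - 1) * (jw (k : ℝ) / a ^ 2)))
      (A * κ / (2 * (jw (k : ℝ) / a ^ 2)))) := ⟨_, rfl⟩
  have hr0 : 0 < r := by
    rw [hr]
    refine lt_min (by norm_num) (lt_min (by positivity) (by positivity))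
  have hr2 : r ≤ 1 / 2 := by
    rw [hr]
    exact min_le_left _ _
  have h1 : (A - 1) * r * (jw (k : ℝ) / a ^ 2) ≤ L - jw (k : ℝ) / a ^ 2 := by
    have h3 : r ≤ (L - jw (k : ℝ) / a ^ 2) / ((A - 1) * (jw (k : ℝ) / a ^ 2)) := by
      rw [hr]
      exact (min_le_right _ _).trans (min_le_left _ _)
    rw [le_div_iff₀ (by positivity)] at h3
    linarith
  have h2 : 2 * (jw (k : ℝ) / a ^ 2) * r ≤ A * κ := by
    have h3 : r ≤ A * κ / (2 * (jw (k : ℝ) / a ^ 2)) := by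
      rw [hr]
      exact (min_le_right _ _).trans (min_le_right _ _)
    rw [le_div_iff₀ (by positivity)] at h3
    linarith
  have hη : 0 < r ^ 2 := by positivity
  refine ⟨PA k a A (r ^ 2), ?_, ?_, ?_, ?_, ?_, ?_, ?_⟩
  · exact PA_smooth hk1 ha hη
  · intro s hs
    exact (pd_log hk1 ha hA hη hs.1 hs.2).1
  · refine ⟨jw (k : ℝ) / a ^ 2 / k, by positivity, fun s hs => ?_⟩
    obtain ⟨hy0, hy1, -⟩ := pd_y hk1 ha hη hs.2
    have hu := uA_pos hk1 ha hs.1 hs.2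
    have hu' := uA_deriv_pos hk1 ha hs.1 hs.2
    have hge := uA_ge hk1 ha hs.1 hs.2
    constructor
    · rw [PA_deriv hk1 ha hη hs.2]
      have h3 : jw (k : ℝ) / a ^ 2 / k = 2 * (jw (k : ℝ) / a ^ 2 / (2 * k)) := by
        field_simp
      rw [h3]
      have h4 : uA k a s ≤ (1 + (A - 1) * yA k a (r ^ 2) s) * uA k a s := by
        have h5 : 1 ≤ 1 + (A - 1) * yA k a (r ^ 2) s := by
          have := mul_pos hA1 hy0
          linarith
        nlinarith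
      linarith
    · rw [PA_deriv2 hk1 ha hη hs.2]
      have h6 : 0 < 1 - yA k a (r ^ 2) s := by linarith
      positivity
  · intro s hs
    unfold qf
    rw [PA_q hk1 ha hη hs.2]
    exact pd_lower hk1 ha hA hr0 hr2 hL0 hL hedge h1 h2 hs.1 hs.2
  · obtain ⟨C, hC⟩ := pd_half hk1 ha hA hη hL0 hM0 hM
    refine ⟨C, fun s hs => ?_⟩
    unfold qf
    rw [PA_q hk1 ha hη hs.2, PA_deriv hk1 ha hη hs.2]
    exact hC s hs
  · obtain ⟨C, hC⟩ := pd_grow hk1 ha hA hη hAe2 hM0 hM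
    refine ⟨C, fun s hs => ?_⟩
    rw [PA_deriv hk1 ha hη hs.2]
    exact hC s hs
  · intro M'
    exact pd_proper hk1 ha hA hη M'

end Pool.Agent.FCI
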