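import Pool.Agent.FCI.Low

/-!
# FCI-PsiB: the block potential is a total potential
-/

open scoped BigOperators Topology ContDiff
open MeasureTheory Filter Set

namespace Pool.Agent.FCI

open Pool.Agent.TUB (E)

variable {n : ℕ} {β : Type} [Fintype β] [DecidableEq β]

theorem blk_id (b : Fin n → β) (U : Set (E n)) : Blk b U (Idf n) := by
  intro z _ v j
  show sq b v j ≤ ‖v‖ ^ 2
  rw [← sq_sum b v]
  exact Finset.single_le_sum (fun i _ => sq_nonneg' b v i) (Finset.mem_univ j)

omit [DecidableEq β] in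
private theorem psiB_min (f : β → ℝ) (hf : ∀ j, 0 < f j) : ∃ δ > 0, ∀ j, δ ≤ f j := by
  rcases isEmpty_or_nonempty β with he | hne
  · exact ⟨1, one_pos, fun j => (he.false j).elim⟩
  · obtain ⟨i, _, hi⟩ := Finset.exists_min_image (Finset.univ : Finset β) f
      Finset.univ_nonempty
    exact ⟨f i, hf i, fun j => hi j (Finset.mem_univ j)⟩

theorem psi_ok {b : Fin n → β} {a L : β → ℝ} (ha : ∀ j, 0 < a j) {eps : ℝ} (he : 0 ≤ eps) {P : β → ℝ → ℝ}
    (hP : ∀ j, Pot (bsz b j) (a j) (L j) eps (P j)) :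
    PsiOK (Ub b a) (Psi b P) (gr b P) (hs b P) eps := by
  have hsm : ∀ j, ContDiffOn ℝ ∞ (P j) (Iio (a j ^ 2)) := fun j => (hP j).smooth
  have hmem : ∀ z ∈ Ub b a, ∀ j, sq b z j ∈ Ico 0 (a j ^ 2) :=
    fun z hz j => ⟨sq_nonneg' b z j, hz j⟩
  have hle : ∀ z ∈ Ub b a, ∀ j, P j (sq b z j) ≤ Psi b P z := by
    intro z hz j
    unfold Psi
    exact Finset.single_le_sum (f := fun j => P j (sq b z j))
      (fun i _ => (hP i).nonneg _ (hmem z hz i)) (Finset.mem_univ j)
  refine
    { isOpen := Ub_isOpen b a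
      bdd := Ub_bdd b a
      mem0 := Ub_zero ha
      smPsi := Psi_smooth hsm
      smg := gr_smooth hsm
      dPsi := fun z hz => Psi_hasFDeriv hsm hz
      dg := fun z hz => gr_hasFDeriv hsm hz
      symm := fun z _ v w => hs_symm b P z v w
      conv := ?_
      nonneg := ?_
      grow := ?_
      proper := ?_
      half := ?_ }
  · have hc := fun j => (hP j).conv
    choose δf hδf hcf using hc
    obtain ⟨δ, hδ, hδl⟩ := psiB_min δf hδf
    refine ⟨δ, hδ, fun z hz v => hs_lower b P z ?_ ?_ v⟩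
    · intro j
      exact (hδl j).trans (hcf j _ (hmem z hz j)).1
    · intro j
      exact (hcf j _ (hmem z hz j)).2
  · intro z hz
    unfold Psi
    exact Finset.sum_nonneg fun j _ => (hP j).nonneg _ (hmem z hz j)
  · have hg := fun j => (hP j).grow
    choose Cf hCf using hg
    refine ⟨∑ j, |Cf j|, fun z hz => ?_⟩
    rw [gr_normSq, Finset.sum_mul]
    refine Finset.sum_le_sum fun j _ => ?_
    refine (hCf j _ (hmem z hz j)).trans ?_
    have h1 : Real.exp (eps * P j (sq b z j)) ≤ Real.exp (eps * Psi b P z) :=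
      Real.exp_le_exp.2 (mul_le_mul_of_nonneg_left (hle z hz j) he)
    calc Cf j * Real.exp (eps * P j (sq b z j)) ≤ |Cf j| * Real.exp (eps * P j (sq b z j)) :=
          mul_le_mul_of_nonneg_right (le_abs_self _) (Real.exp_pos _).le
      _ ≤ |Cf j| * Real.exp (eps * Psi b P z) := mul_le_mul_of_nonneg_left h1 (abs_nonneg _)
  · intro M
    have hp := fun j => (hP j).proper M
    choose s0 hs0 hsp using hp
    obtain ⟨K, hK⟩ : ∃ K : Set (E n), K = {z | ∀ j, sq b z j ≤ s0 j} := ⟨_, rfl⟩
    have hKc : IsClosed K := by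
      have h1 : K = ⋂ j, {z : E n | sq b z j ≤ s0 j} := by
        rw [hK]
        ext z
        rw [mem_iInter]
        exact Iff.rfl
      rw [h1]
      exact isClosed_iInter fun j => isClosed_le (sq_smooth b j).continuous continuous_const
    have hKU : K ⊆ Ub b a := by
      intro z hz j
      rw [hK] at hz
      exact lt_of_le_of_lt (hz j) (hs0 j)
    have hKk : IsCompact K := Metric.isCompact_of_isClosed_isBounded hKc ((Ub_bdd b a).subset hKU)
    have hcont : ContinuousOn (Psi b P) K := (Psi_smooth hsm).continuousOn.mono hKU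
    have hcl : IsClosed (K ∩ Psi b P ⁻¹' Iic M) :=
      hcont.preimage_isClosed_of_isClosed hKc isClosed_Iic
    have heq : {z | z ∈ Ub b a ∧ Psi b P z ≤ M} = K ∩ Psi b P ⁻¹' Iic M := by
      ext z
      constructor
      · rintro ⟨hz, hM⟩
        refine ⟨?_, hM⟩
        rw [hK]
        intro j
        exact hsp j _ (hmem z hz j) ((hle z hz j).trans hM)
      · rintro ⟨hz, hM⟩
        exact ⟨hKU hz, hM⟩
    rw [heq]
    exact hKk.of_isClosed_subset hcl inter_subset_left
  · obtain ⟨C, _, hC⟩ := low_half hP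
    exact ⟨C, fun z hz w => hC (Idf n) (blk_id b _) z hz w⟩

end Pool.Agent.FCI
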