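import Pool.Agent.FCI.Psi

/-!
# FCI-Pta: the scaling path `F_s z = s⁻¹ • F (s • z)`
-/

open scoped BigOperators Topology ContDiff
open MeasureTheory Filter Set

namespace Pool.Agent.FCI

open Pool.Agent.TUB (E)

variable {n : ℕ} {β : Type} [Fintype β] [DecidableEq β]

private theorem pta_unit {b : Fin n → β} {T : E n →L[ℝ] E n}
    (h : ∀ v, ∀ j, sq b v j ≤ ‖T v‖ ^ 2) : IsUnit T := by
  rw [ContinuousLinearMap.isUnit_iff_bijective]
  have hinj : Function.Injective T := by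
    rw [injective_iff_map_eq_zero]
    intro v hv
    have h1 : ‖v‖ ^ 2 ≤ 0 := by
      rw [← sq_sum b v]
      refine Finset.sum_nonpos fun j _ => ?_
      have h2 := h v j
      rw [hv, norm_zero] at h2
      simpa using h2
    have h2 : ‖v‖ = 0 := by
      have h3 : ‖v‖ ^ 2 = 0 := le_antisymm h1 (by positivity)
      exact pow_eq_zero_iff (two_ne_zero) |>.1 h3
    exact norm_eq_zero.1 h2
  exact ⟨hinj, (LinearMap.injective_iff_surjective (f := (T : E n →ₗ[ℝ] E n))).1 hinj⟩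

private theorem pta_det (A B : E n →L[ℝ] E n) (h : A * B = 1) : |A.det| * |B.det| = 1 := by
  have h1 : A.det * B.det = 1 := by
    have h2 := congrArg ContinuousLinearMap.det h
    have h3 : (A * B).det = A.det * B.det := LinearMap.det_comp _ _
    have h4 : (1 : E n →L[ℝ] E n).det = 1 := LinearMap.det_id
    rw [h3, h4] at h2
    exact h2
  rw [← abs_mul, h1, abs_one]

private theorem pta_scale {O : Set (E n)} (hO : IsOpen O) {F : E n → E n}
    (hF : ContDiffOn ℝ ∞ F O) {U : Set (E n)} {s : ℝ} (hU : ∀ z ∈ U, s • z ∈ O) :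
    ∃ Fs : E n → E n, ContDiffOn ℝ ∞ Fs U ∧ ∀ z ∈ U, fderiv ℝ Fs z = fderiv ℝ F (s • z) := by
  by_cases hs : s = 0
  · refine ⟨fun z => fderiv ℝ F 0 z, (fderiv ℝ F 0).contDiff.contDiffOn, ?_⟩
    intro z _
    rw [hs, zero_smul]
    exact (fderiv ℝ F 0).fderiv
  · refine ⟨fun z => s⁻¹ • F (s • z), ?_, ?_⟩
    · exact ((hF.comp (contDiff_const_smul s).contDiffOn hU)).const_smul s⁻¹
    · intro z hz
      have h1 : HasFDerivAt F (fderiv ℝ F (s • z)) (s • z) :=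
        ((hF.contDiffAt (hO.mem_nhds (hU z hz))).differentiableAt (by simp)).hasFDerivAt
      have h2 : HasFDerivAt (fun z : E n => s • z) (s • ContinuousLinearMap.id ℝ (E n)) z :=
        (hasFDerivAt_id z).const_smul s
      have h3 := (h1.comp z h2).const_smul s⁻¹
      have h4 : s⁻¹ • (fderiv ℝ F (s • z)).comp (s • ContinuousLinearMap.id ℝ (E n)) =
          fderiv ℝ F (s • z) := by
        ext1 v
        show s⁻¹ • (fderiv ℝ F (s • z)) (s • v) = _
        rw [map_smul, smul_smul, inv_mul_cancel₀ hs, one_smul]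
      rw [h4] at h3
      exact h3.fderiv

theorem path_scale {b : Fin n → β} {a : β → ℝ} (ha : ∀ j, 0 < a j) {O : Set (E n)} (hO : IsOpen O)
    (hKO : Kb b a ⊆ O) {F : E n → E n} (hF : ContDiffOn ℝ ∞ F O)
    (hblk : ∀ z ∈ Kb b a, ∀ v, ∀ j, sq b v j ≤ ‖fderiv ℝ F z v‖ ^ 2) :
    ∃ (G : E n → E n →L[ℝ] E n) (L : ℝ), 0 < L ∧ Flat (Ub b a) F G ∧ Bds (Ub b a) F G L ∧
      (∀ s ∈ Icc (0 : ℝ) 1, (∃ Fs, Flat (Ub b a) Fs (fun z => G (s • z)) ∧ Bds (Ub b a) Fs (fun z => G (s • z)) L) ∧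
        Blk b (Ub b a) (fun z => G (s • z))) ∧
      (∀ s ∈ Icc (0 : ℝ) 1, ∀ t ∈ Icc (0 : ℝ) 1, ∀ z ∈ Ub b a, ‖G (s • z) - G (t • z)‖ ≤ L * |s - t|) := by
  have hUK : Ub b a ⊆ Kb b a := fun z hz j => (hz j).le
  have hUbO : Ub b a ⊆ O := hUK.trans hKO
  have hscK : ∀ s ∈ Icc (0 : ℝ) 1, ∀ z ∈ Kb b a, s • z ∈ Kb b a := by
    intro s hs z hz j
    rw [sq_smul]
    have h1 : s ^ 2 ≤ 1 := pow_le_one₀ hs.1 hs.2
    have h2 := sq_nonneg' b z j
    have h3 : s ^ 2 * sq b z j ≤ 1 * sq b z j := mul_le_mul_of_nonneg_right h1 h2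
    have h4 : sq b z j ≤ a j ^ 2 := hz j
    linarith
  have hcomp : IsCompact (Kb b a : Set (E n)) := Kb_isCompact b a
  have hD : ContDiffOn ℝ ∞ (fderiv ℝ F) O := hF.fderiv_of_isOpen hO (by simp)
  have hunit : ∀ z ∈ Kb b a, IsUnit (fderiv ℝ F z) := fun z hz => pta_unit (hblk z hz)
  obtain ⟨O', hO'⟩ : ∃ O' : Set (E n), O' = O ∩ fderiv ℝ F ⁻¹' {T | IsUnit T} := ⟨_, rfl⟩
  have hO'o : IsOpen O' := by
    rw [hO']
    exact hD.continuousOn.isOpen_inter_preimage hO Units.isOpen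
  have hKO' : Kb b a ⊆ O' := by
    intro z hz
    rw [hO']
    exact ⟨hKO hz, hunit z hz⟩
  obtain ⟨G, hG⟩ : ∃ G : E n → E n →L[ℝ] E n, G = fun z => Ring.inverse (fderiv ℝ F z) := ⟨_, rfl⟩
  have hGs : ContDiffOn ℝ ∞ G O' := by
    intro z hz
    rw [hO'] at hz
    rw [hG]
    refine ContDiffAt.contDiffWithinAt ?_
    obtain ⟨u, hu⟩ := hz.2
    have h1 : ContDiffAt ℝ ∞ (fderiv ℝ F) z := hD.contDiffAt (hO.mem_nhds hz.1)
    have h2 : ContDiffAt ℝ ∞ Ring.inverse (fderiv ℝ F z) := by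
      rw [← hu]
      exact contDiffAt_ringInverse ℝ u
    exact h2.comp z h1
  have hDG : ∀ z ∈ Kb b a, fderiv ℝ F z * G z = 1 := fun z hz => by
    rw [hG]
    exact Ring.mul_inverse_cancel _ (hunit z hz)
  have hGD : ∀ z ∈ Kb b a, G z * fderiv ℝ F z = 1 := fun z hz => by
    rw [hG]
    exact Ring.inverse_mul_cancel _ (hunit z hz)
  have hi1 : ∀ z ∈ Kb b a, ∀ v, fderiv ℝ F z (G z v) = v := fun z hz v =>
    congrArg (fun T : E n →L[ℝ] E n => T v) (hDG z hz)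
  have hi2 : ∀ z ∈ Kb b a, ∀ v, G z (fderiv ℝ F z v) = v := fun z hz v =>
    congrArg (fun T : E n →L[ℝ] E n => T v) (hGD z hz)
  -- bounds
  have hDc : ContinuousOn (fderiv ℝ F) (Kb b a) := hD.continuousOn.mono hKO
  have hGc : ContinuousOn G (Kb b a) := hGs.continuousOn.mono hKO'
  obtain ⟨C1, hC1⟩ := hcomp.exists_bound_of_continuousOn hDc
  obtain ⟨C2, hC2⟩ := hcomp.exists_bound_of_continuousOn hGc
  obtain ⟨C3, hC3⟩ := hcomp.exists_bound_of_continuousOn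
    (ContinuousLinearMap.continuous_det.comp_continuousOn hDc)
  obtain ⟨C4, hC4⟩ := hcomp.exists_bound_of_continuousOn
    (ContinuousLinearMap.continuous_det.comp_continuousOn hGc)
  have hGd : ContDiffOn ℝ ∞ (fderiv ℝ G) O' := hGs.fderiv_of_isOpen hO'o (by simp)
  obtain ⟨M, hM⟩ : ∃ M : ℝ, ∀ z ∈ Kb b a, ‖fderiv ℝ G z‖ ≤ M :=
    hcomp.exists_bound_of_continuousOn (f := fderiv ℝ G) (hGd.continuousOn.mono hKO')
  obtain ⟨R, hR⟩ := hcomp.exists_bound_of_continuousOn (f := fun z : E n => z) continuousOn_id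
  obtain ⟨L, hL⟩ : ∃ L : ℝ, L = |C1| + |C2| + |C3| + |C4| + |M| * |R| + 1 := ⟨_, rfl⟩
  have n1 := abs_nonneg C1
  have n2 := abs_nonneg C2
  have n3 := abs_nonneg C3
  have n4 := abs_nonneg C4
  have n5 : 0 ≤ |M| * |R| := by positivity
  have hL0 : 0 < L := by
    rw [hL]
    linarith
  have b1 : ∀ z ∈ Kb b a, ‖fderiv ℝ F z‖ ≤ L := fun z hz => by
    have h1 := hC1 z hz
    have h2 := le_abs_self C1
    rw [hL]
    linarith
  have b2 : ∀ z ∈ Kb b a, ‖G z‖ ≤ L := fun z hz => by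
    have h1 := hC2 z hz
    have h2 := le_abs_self C2
    rw [hL]
    linarith
  have b3 : ∀ z ∈ Kb b a, |(fderiv ℝ F z).det| ≤ L := fun z hz => by
    have h1 : |(fderiv ℝ F z).det| ≤ C3 := hC3 z hz
    have h2 := le_abs_self C3
    rw [hL]
    linarith
  have b4 : ∀ z ∈ Kb b a, L⁻¹ ≤ |(fderiv ℝ F z).det| := fun z hz => by
    have h1 : |(G z).det| ≤ C4 := hC4 z hz
    have h2 := le_abs_self C4
    have h3 := pta_det _ _ (hDG z hz)
    have h4 : |(G z).det| ≤ L := by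
      rw [hL]
      linarith
    rw [inv_le_iff_one_le_mul₀ hL0, ← h3]
    exact mul_le_mul_of_nonneg_left h4 (abs_nonneg _)
  have hblkG : ∀ z ∈ Kb b a, ∀ v, ∀ j, sq b (G z v) j ≤ ‖v‖ ^ 2 := fun z hz v j => by
    have h1 := hblk z hz (G z v) j
    rwa [hi1 z hz v] at h1
  -- the path
  have hpath : ∀ s ∈ Icc (0 : ℝ) 1, ∀ Fs : E n → E n, ContDiffOn ℝ ∞ Fs (Ub b a) →
      (∀ z ∈ Ub b a, fderiv ℝ Fs z = fderiv ℝ F (s • z)) →
      Flat (Ub b a) Fs (fun z => G (s • z)) ∧ Bds (Ub b a) Fs (fun z => G (s • z)) L := by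
    intro s hs Fs hFs hder
    have hm : ∀ z ∈ Ub b a, s • z ∈ Kb b a := fun z hz => hscK s hs z (hUK hz)
    refine ⟨⟨hFs, ?_, ?_, ?_⟩, ⟨hL0, ?_, ?_, ?_, ?_⟩⟩
    · exact hGs.comp (contDiff_const_smul s).contDiffOn fun z hz => hKO' (hm z hz)
    · intro z hz v
      rw [hder z hz]
      exact hi1 _ (hm z hz) v
    · intro z hz v
      rw [hder z hz]
      exact hi2 _ (hm z hz) v
    · intro z hz
      rw [hder z hz]
      exact b1 _ (hm z hz)
    · intro z hz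
      exact b2 _ (hm z hz)
    · intro z hz
      unfold rho
      rw [hder z hz]
      exact b3 _ (hm z hz)
    · intro z hz
      unfold rho
      rw [hder z hz]
      exact b4 _ (hm z hz)
  have h1 := hpath 1 ⟨zero_le_one, le_rfl⟩ F (hF.mono hUbO) fun z _ => by rw [one_smul]
  simp only [one_smul] at h1
  refine ⟨G, L, hL0, h1.1, h1.2, ?_, ?_⟩
  · intro s hs
    refine ⟨?_, ?_⟩
    · obtain ⟨Fs, e1, e2⟩ := pta_scale hO hF (U := Ub b a) (s := s)
        fun z hz => hKO (hscK s hs z (hUK hz))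
      exact ⟨Fs, hpath s hs Fs e1 e2⟩
    · intro z hz v j
      exact hblkG _ (hscK s hs z (hUK hz)) v j
  · intro s hs t ht z hz
    have hder : ∀ r ∈ Icc (0 : ℝ) 1, HasDerivWithinAt (fun r : ℝ => G (r • z))
        (fderiv ℝ G (r • z) z) (Icc 0 1) r := by
      intro r hr
      have hrK := hKO' (hscK r hr z (hUK hz))
      have e1 : HasFDerivAt G (fderiv ℝ G (r • z)) (r • z) :=
        ((hGs.contDiffAt (hO'o.mem_nhds hrK)).differentiableAt (by simp)).hasFDerivAt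
      have e2 : HasDerivAt (fun r : ℝ => r • z) ((1 : ℝ) • z) r :=
        (hasDerivAt_id r).smul_const z
      rw [one_smul] at e2
      exact (e1.comp_hasDerivAt r e2).hasDerivWithinAt
    have hbd : ∀ r ∈ Icc (0 : ℝ) 1, ‖fderiv ℝ G (r • z) z‖ ≤ L := by
      intro r hr
      have e1 := hM _ (hscK r hr z (hUK hz))
      have e2 := hR z (hUK hz)
      have e3 : ‖fderiv ℝ G (r • z) z‖ ≤ ‖fderiv ℝ G (r • z)‖ * ‖z‖ :=
        ContinuousLinearMap.le_opNorm _ _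
      have e4 : ‖fderiv ℝ G (r • z)‖ * ‖z‖ ≤ |M| * |R| :=
        mul_le_mul (e1.trans (le_abs_self M)) (e2.trans (le_abs_self R)) (norm_nonneg _)
          (abs_nonneg _)
      rw [hL]
      linarith
    have h2 := Convex.norm_image_sub_le_of_norm_hasDerivWithin_le hder hbd (convex_Icc 0 1) ht hs
    rw [Real.norm_eq_abs] at h2
    exact h2

end Pool.Agent.FCI
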