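import Pool.Agent.FCI.Psi

/-!
# FCI-Ptb: the linear path of flat frames
-/

open scoped BigOperators Topology ContDiff
open MeasureTheory Filter Set

namespace Pool.Agent.FCI

open Pool.Agent.TUB (E)

variable {n : ℕ} {β : Type} [Fintype β] [DecidableEq β]

private theorem pt_unit {T : E n →L[ℝ] E n} (hT : ∀ p, p ≠ 0 → 0 < inner ℝ p (T p)) {s : ℝ}
    (hs : s ∈ Icc (0 : ℝ) 1) : IsUnit ((1 - s) • T + s • ContinuousLinearMap.id ℝ (E n)) := by
  have hinj : Function.Injective ((1 - s) • T + s • ContinuousLinearMap.id ℝ (E n)) := by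
    rw [injective_iff_map_eq_zero]
    intro p hp
    by_contra hne
    have h1 : inner ℝ p (((1 - s) • T + s • ContinuousLinearMap.id ℝ (E n)) p) =
        (1 - s) * inner ℝ p (T p) + s * ‖p‖ ^ 2 := by
      simp only [add_apply, smul_apply,
        ContinuousLinearMap.id_apply, inner_add_right, inner_smul_right,
        real_inner_self_eq_norm_sq]
    rw [hp, inner_zero_right] at h1
    have h2 := hT p hne
    have h3 : 0 < ‖p‖ ^ 2 := by
      have := norm_pos_iff.2 hne
      positivity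
    rcases eq_or_lt_of_le hs.2 with h | h
    · rw [h] at h1
      simp only [sub_self, zero_mul, one_mul, zero_add] at h1
      exact absurd h1.symm h3.ne'
    · have h4 : 0 < (1 - s) * inner ℝ p (T p) := mul_pos (by linarith) h2
      have h5 : 0 ≤ s * ‖p‖ ^ 2 := mul_nonneg hs.1 h3.le
      linarith
  rw [ContinuousLinearMap.isUnit_iff_bijective]
  refine ⟨hinj, ?_⟩
  have h6 := (LinearMap.injective_iff_surjective
    (f := (((1 - s) • T + s • ContinuousLinearMap.id ℝ (E n) : E n →L[ℝ] E n) :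
      E n →ₗ[ℝ] E n))).1 hinj
  exact h6

private theorem pt_cont (T : E n →L[ℝ] E n) :
    Continuous (fun s : ℝ => (1 - s) • T + s • ContinuousLinearMap.id ℝ (E n)) := by
  fun_prop

private theorem pt_inv {T : E n →L[ℝ] E n} (hT : ∀ p, p ≠ 0 → 0 < inner ℝ p (T p)) :
    ContinuousOn (fun s : ℝ => Ring.inverse ((1 - s) • T + s • ContinuousLinearMap.id ℝ (E n)))
      (Icc (0 : ℝ) 1) := by
  intro s hs
  obtain ⟨u, hu⟩ := pt_unit hT hs
  have h1 : ContinuousAt Ring.inverse
      ((fun s : ℝ => (1 - s) • T + s • ContinuousLinearMap.id ℝ (E n)) s) := by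
    show ContinuousAt Ring.inverse ((1 - s) • T + s • ContinuousLinearMap.id ℝ (E n))
    rw [← hu]
    exact NormedRing.inverse_continuousAt u
  have h2 : ContinuousAt (Ring.inverse ∘
      (fun s : ℝ => (1 - s) • T + s • ContinuousLinearMap.id ℝ (E n))) s :=
    ContinuousAt.comp h1 (pt_cont T).continuousAt
  exact h2.continuousWithinAt

private theorem pt_sq_le (b : Fin n → β) (v : E n) (j : β) : Real.sqrt (sq b v j) ≤ ‖v‖ := by
  have h1 : sq b v j ≤ ‖v‖ ^ 2 := by
    rw [← sq_sum b v]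
    exact Finset.single_le_sum (f := fun j => sq b v j) (fun i _ => sq_nonneg' b v i)
      (Finset.mem_univ j)
  have h2 := Real.sqrt_le_sqrt h1
  rwa [Real.sqrt_sq (norm_nonneg v)] at h2

private theorem pt_blk (b : Fin n → β) {T : E n →L[ℝ] E n}
    (hblk : ∀ v j, sq b (T v) j ≤ ‖v‖ ^ 2) {s : ℝ} (hs : s ∈ Icc (0 : ℝ) 1) (v : E n) (j : β) :
    sq b (((1 - s) • T + s • ContinuousLinearMap.id ℝ (E n)) v) j ≤ ‖v‖ ^ 2 := by
  have hs1 : 0 ≤ 1 - s := by linarith [hs.2]
  have e : ((1 - s) • T + s • ContinuousLinearMap.id ℝ (E n)) v = (1 - s) • T v + s • v := by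
    simp only [add_apply, smul_apply,
      ContinuousLinearMap.id_apply]
  rw [e]
  have h1 := sq_conv b ((1 - s) • T v) (s • v) j
  rw [sq_smul, sq_smul, Real.sqrt_mul (sq_nonneg _), Real.sqrt_mul (sq_nonneg _),
    Real.sqrt_sq hs1, Real.sqrt_sq hs.1] at h1
  have h2 : Real.sqrt (sq b (T v) j) ≤ ‖v‖ := by
    have := Real.sqrt_le_sqrt (hblk v j)
    rwa [Real.sqrt_sq (norm_nonneg v)] at this
  have h3 := pt_sq_le b v j
  have h4 : Real.sqrt (sq b ((1 - s) • T v + s • v) j) ≤ ‖v‖ := by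
    have h5 := mul_le_mul_of_nonneg_left h2 hs1
    have h6 := mul_le_mul_of_nonneg_left h3 hs.1
    linarith
  have h7 : Real.sqrt (sq b ((1 - s) • T v + s • v) j) ^ 2 ≤ ‖v‖ ^ 2 :=
    pow_le_pow_left₀ (Real.sqrt_nonneg _) h4 2
  rwa [Real.sq_sqrt (sq_nonneg' b _ j)] at h7

theorem path_lin (b : Fin n → β) (U : Set (E n)) {T : E n →L[ℝ] E n} (hT : ∀ p, p ≠ 0 → 0 < inner ℝ p (T p))
    (hblk : ∀ v j, sq b (T v) j ≤ ‖v‖ ^ 2) :
    ∃ L : ℝ, 0 < L ∧
      (∀ s ∈ Icc (0 : ℝ) 1,
        (∃ Fs, Flat U Fs (fun _ => (1 - s) • T + s • ContinuousLinearMap.id ℝ (E n)) ∧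
          Bds U Fs (fun _ => (1 - s) • T + s • ContinuousLinearMap.id ℝ (E n)) L) ∧
        Blk b U (fun _ => (1 - s) • T + s • ContinuousLinearMap.id ℝ (E n))) ∧
      (∀ s ∈ Icc (0 : ℝ) 1, ∀ t ∈ Icc (0 : ℝ) 1,
        ‖((1 - s) • T + s • ContinuousLinearMap.id ℝ (E n)) -
          ((1 - t) • T + t • ContinuousLinearMap.id ℝ (E n))‖ ≤ L * |s - t|) := by
  obtain ⟨B1, hB1⟩ := isCompact_Icc.exists_bound_of_continuousOn (pt_inv hT)
  obtain ⟨B2, hB2⟩ := (isCompact_Icc (a := (0 : ℝ)) (b := 1)).exists_bound_of_continuousOn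
    (pt_cont T).continuousOn
  obtain ⟨B3, hB3⟩ := isCompact_Icc.exists_bound_of_continuousOn
    (ContinuousLinearMap.continuous_det.comp_continuousOn (pt_inv hT))
  obtain ⟨B4, hB4⟩ := (isCompact_Icc (a := (0 : ℝ)) (b := 1)).exists_bound_of_continuousOn
    (ContinuousLinearMap.continuous_det.comp (pt_cont T)).continuousOn
  have h01 : (0 : ℝ) ∈ Icc (0 : ℝ) 1 := ⟨le_rfl, zero_le_one⟩
  have g1 : 0 ≤ B1 := (norm_nonneg _).trans (hB1 0 h01)
  have g2 : 0 ≤ B2 := (norm_nonneg _).trans (hB2 0 h01)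
  have g3 : 0 ≤ B3 := (norm_nonneg _).trans (hB3 0 h01)
  have g4 : 0 ≤ B4 := (norm_nonneg _).trans (hB4 0 h01)
  obtain ⟨B5, hB5⟩ : ∃ B5, B5 = ‖ContinuousLinearMap.id ℝ (E n) - T‖ := ⟨_, rfl⟩
  have g5 : 0 ≤ B5 := by
    rw [hB5]
    exact norm_nonneg _
  refine ⟨1 + B1 + B2 + B3 + B4 + B5, by positivity, ?_, ?_⟩
  · intro s hs
    have hu := pt_unit hT hs
    obtain ⟨Ts, hTs⟩ : ∃ Ts, Ts = (1 - s) • T + s • ContinuousLinearMap.id ℝ (E n) := ⟨_, rfl⟩
    have hb1 := hB1 s hs
    have hb2 := hB2 s hs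
    have hb3 := hB3 s hs
    have hb4 := hB4 s hs
    simp only [Function.comp_apply] at hb3 hb4
    have hblk' := fun v j => pt_blk b hblk hs v j
    rw [← hTs] at hu hb1 hb2 hb3 hb4 hblk' ⊢
    refine ⟨⟨fun z => Ring.inverse Ts z, ?_, ?_⟩, fun z _ v j => hblk' v j⟩
    · refine ⟨(Ring.inverse Ts).contDiff.contDiffOn, contDiffOn_const, ?_, ?_⟩
      · intro z _ v
        rw [ContinuousLinearMap.fderiv]
        have h1 := Ring.inverse_mul_cancel Ts hu
        have h2 := congrArg (fun A : E n →L[ℝ] E n => A v) h1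
        simpa using h2
      · intro z _ v
        rw [ContinuousLinearMap.fderiv]
        have h1 := Ring.mul_inverse_cancel Ts hu
        have h2 := congrArg (fun A : E n →L[ℝ] E n => A v) h1
        simpa using h2
    · refine ⟨by positivity, ?_, ?_, ?_, ?_⟩
      · intro z _
        rw [ContinuousLinearMap.fderiv]
        linarith
      · intro z _
        linarith
      · intro z _
        unfold rho
        rw [ContinuousLinearMap.fderiv]
        rw [Real.norm_eq_abs] at hb3
        linarith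
      · intro z _
        unfold rho
        rw [ContinuousLinearMap.fderiv]
        rw [Real.norm_eq_abs] at hb4
        have h1 := Ring.inverse_mul_cancel Ts hu
        have h2 : (Ring.inverse Ts).det * Ts.det = 1 := by
          have h3 : ((Ring.inverse Ts) * Ts).det = (Ring.inverse Ts).det * Ts.det := by
            unfold ContinuousLinearMap.det
            exact LinearMap.det_comp _ _
          rw [← h3, h1]
          unfold ContinuousLinearMap.det
          exact LinearMap.det_id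
        have h4 : |(Ring.inverse Ts).det| * |Ts.det| = 1 := by
          rw [← abs_mul, h2, abs_one]
        have h5 : 0 < |Ts.det| := by
          rcases lt_or_eq_of_le (abs_nonneg Ts.det) with h | h
          · exact h
          · rw [← h, mul_zero] at h4
            exact absurd h4 zero_ne_one
        have h6 : |(Ring.inverse Ts).det| = |Ts.det|⁻¹ := eq_inv_of_mul_eq_one_left h4
        rw [h6]
        apply inv_anti₀ h5
        linarith
  · intro s _ t _
    have h1 : ((1 - s) • T + s • ContinuousLinearMap.id ℝ (E n)) -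
        ((1 - t) • T + t • ContinuousLinearMap.id ℝ (E n)) =
        (s - t) • (ContinuousLinearMap.id ℝ (E n) - T) := by
      module
    rw [h1, norm_smul, Real.norm_eq_abs, mul_comm, ← hB5]
    apply mul_le_mul_of_nonneg_right _ (abs_nonneg _)
    linarith

end Pool.Agent.FCI
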