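import Pool.Agent.FCI.Tsb

/-!
# FCI-Rel: Rellich's lemma by averages over small cubes (Poincare inequality on convex sets, cubes of side `h`).
-/

open scoped BigOperators Topology ContDiff
open MeasureTheory Filter Set

namespace Pool.Agent.FCI

open Pool.Agent.TUB (E)

variable {n : ℕ}

/-! ### the half open cubes -/

private def cube (n : ℕ) (h : ℝ) (α : Fin n → ℤ) : Set (E n) :=
  {x | ∀ i, (α i : ℝ) * h ≤ x i ∧ x i < ((α i : ℝ) + 1) * h}

private theorem cont_coord (i : Fin n) : Continuous (fun x : E n => x i) :=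
  (EuclideanSpace.proj (𝕜 := ℝ) i).continuous

private theorem cube_meas (h : ℝ) (α : Fin n → ℤ) : MeasurableSet (cube n h α) := by
  have : cube n h α = ⋂ i, ({x : E n | (α i : ℝ) * h ≤ x i} ∩
      {x : E n | x i < ((α i : ℝ) + 1) * h}) := by
    ext x
    simp [cube]
  rw [this]
  refine MeasurableSet.iInter fun i => ?_
  exact ((isClosed_le continuous_const (cont_coord i)).measurableSet).inter
    ((isOpen_lt (cont_coord i) continuous_const).measurableSet)

private theorem cube_convex (h : ℝ) (α : Fin n → ℤ) : Convex ℝ (cube n h α) := by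
  intro x hx y hy a b ha hb hab i
  have e : (a • x + b • y) i = a * x i + b * y i := by simp
  rw [e]
  obtain ⟨x1, x2⟩ := hx i
  obtain ⟨y1, y2⟩ := hy i
  constructor
  · have : (α i : ℝ) * h = a * ((α i : ℝ) * h) + b * ((α i : ℝ) * h) := by
      rw [← add_mul, hab, one_mul]
    rw [this]
    exact add_le_add (mul_le_mul_of_nonneg_left x1 ha) (mul_le_mul_of_nonneg_left y1 hb)
  · have : ((α i : ℝ) + 1) * h = a * (((α i : ℝ) + 1) * h) + b * (((α i : ℝ) + 1) * h) := by
      rw [← add_mul, hab, one_mul]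
    rw [this]
    rcases eq_or_lt_of_le ha with h0 | h0
    · have hb1 : b = 1 := by linarith
      rw [← h0, hb1]
      simpa using y2
    · exact add_lt_add_of_lt_of_le (mul_lt_mul_of_pos_left x2 h0) (mul_le_mul_of_nonneg_left y2.le hb)

private theorem cube_floor {h : ℝ} (hh : 0 < h) (α : Fin n → ℤ) (x : E n) :
    x ∈ cube n h α ↔ ∀ i, ⌊x i / h⌋ = α i := by
  unfold cube
  simp only [mem_ofPred_eq]
  refine forall_congr' fun i => ?_
  rw [Int.floor_eq_iff, le_div_iff₀ hh, div_lt_iff₀ hh]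

private theorem cube_disj {h : ℝ} (hh : 0 < h) {α β : Fin n → ℤ} (hab : α ≠ β) :
    Disjoint (cube n h α) (cube n h β) := by
  rw [Set.disjoint_left]
  intro x hx hy
  rw [cube_floor hh] at hx hy
  exact hab (funext fun i => (hx i).symm.trans (hy i))

private theorem cube_diam {h : ℝ} (hh : 0 < h) (α : Fin n → ℤ) {x y : E n}
    (hx : x ∈ cube n h α) (hy : y ∈ cube n h α) : ‖x - y‖ ≤ h * Real.sqrt (n : ℝ) := by
  rw [EuclideanSpace.norm_eq]
  have h1 : ∑ i, ‖(x - y) i‖ ^ 2 ≤ ∑ _i : Fin n, h ^ 2 := by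
    refine Finset.sum_le_sum fun i _ => ?_
    obtain ⟨x1, x2⟩ := hx i
    obtain ⟨y1, y2⟩ := hy i
    have e : (x - y) i = x i - y i := by simp
    rw [e, Real.norm_eq_abs]
    apply pow_le_pow_left₀ (abs_nonneg _)
    rw [abs_le]
    constructor <;> nlinarith
  calc Real.sqrt (∑ i, ‖(x - y) i‖ ^ 2) ≤ Real.sqrt (∑ _i : Fin n, h ^ 2) := Real.sqrt_le_sqrt h1
    _ = Real.sqrt (h ^ 2 * (n : ℝ)) := by
        rw [Finset.sum_const, Finset.card_univ, Fintype.card_fin, nsmul_eq_mul, mul_comm]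
    _ = h * Real.sqrt (n : ℝ) := by
        rw [Real.sqrt_mul (by positivity), Real.sqrt_sq hh.le]

private theorem cube_vol {h : ℝ} (hh : 0 < h) (α : Fin n → ℤ) :
    0 < (volume (cube n h α)).toReal ∧ volume (cube n h α) < ⊤ := by
  set c : E n := WithLp.toLp 2 (fun i => ((α i : ℝ) + 1 / 2) * h) with hc
  have hci : ∀ i, c i = ((α i : ℝ) + 1 / 2) * h := fun i => rfl
  have hcm : c ∈ cube n h α := by
    intro i
    rw [hci]
    constructor <;> nlinarith
  have hfin : volume (cube n h α) < ⊤ := by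
    refine lt_of_le_of_lt (measure_mono (t := Metric.closedBall c (h * Real.sqrt (n : ℝ))) ?_)
      measure_closedBall_lt_top
    intro x hx
    rw [Metric.mem_closedBall, dist_eq_norm]
    exact cube_diam hh α hx hcm
  refine ⟨ENNReal.toReal_pos ?_ hfin.ne, hfin⟩
  have hopen : IsOpen {x : E n | ∀ i, (α i : ℝ) * h < x i ∧ x i < ((α i : ℝ) + 1) * h} := by
    have : {x : E n | ∀ i, (α i : ℝ) * h < x i ∧ x i < ((α i : ℝ) + 1) * h} =
        ⋂ i, ({x : E n | (α i : ℝ) * h < x i} ∩ {x : E n | x i < ((α i : ℝ) + 1) * h}) := by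
      ext x
      simp
    rw [this]
    exact isOpen_iInter_of_finite fun i =>
      (isOpen_lt continuous_const (cont_coord i)).inter (isOpen_lt (cont_coord i) continuous_const)
  have hne : {x : E n | ∀ i, (α i : ℝ) * h < x i ∧ x i < ((α i : ℝ) + 1) * h}.Nonempty := by
    refine ⟨c, fun i => ?_⟩
    rw [hci]
    constructor <;> nlinarith
  have hpos := hopen.measure_pos volume hne
  have hsub : {x : E n | ∀ i, (α i : ℝ) * h < x i ∧ x i < ((α i : ℝ) + 1) * h} ⊆ cube n h α := by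
    intro x hx i
    exact ⟨(hx i).1.le, (hx i).2⟩
  exact (lt_of_lt_of_le hpos (measure_mono hsub)).ne'

/-! ### the Poincare inequality -/

private theorem fd_le (u : E n → W n) (z v : E n) :
    ‖fderiv ℝ u z v‖ ^ 2 ≤ gsq (Idf n) u z * ‖v‖ ^ 2 := by
  have h1 : v = ∑ j, v j • (eb j : E n) := by
    ext i
    simp [eb, Finset.sum_apply, Pi.single_apply]
  have h2 : fderiv ℝ u z v = ∑ j, v j • fderiv ℝ u z (eb j) := by
    conv_lhs => rw [h1]
    simp [map_sum]
  have h3 : ‖fderiv ℝ u z v‖ ≤ ∑ j, |v j| * ‖fderiv ℝ u z (eb j)‖ := by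
    rw [h2]
    refine (norm_sum_le _ _).trans (le_of_eq ?_)
    simp [norm_smul]
  have h4 := Finset.sum_mul_sq_le_sq_mul_sq (Finset.univ : Finset (Fin n)) (fun j => |v j|)
    (fun j => ‖fderiv ℝ u z (eb j)‖)
  have h5 : ∑ j, |v j| ^ 2 = ‖v‖ ^ 2 := by
    rw [EuclideanSpace.norm_sq_eq]
    simp
  calc ‖fderiv ℝ u z v‖ ^ 2 ≤ (∑ j, |v j| * ‖fderiv ℝ u z (eb j)‖) ^ 2 :=
        pow_le_pow_left₀ (norm_nonneg _) h3 2
    _ ≤ _ := h4
    _ = gsq (Idf n) u z * ‖v‖ ^ 2 := by
        rw [h5, mul_comm]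
        rfl

private theorem seg_bound {u : E n → W n} (hu : ContDiff ℝ ∞ u)
    (hG : Continuous (gsq (Idf n) u)) {R : ℝ} {x y : E n} (hR : ‖x - y‖ ≤ R) :
    ‖u x - u y‖ ^ 2 ≤ R ^ 2 * ∫ s in (0 : ℝ)..1, gsq (Idf n) u (s • x + (1 - s) • y) := by
  have hc : Continuous (fun s : ℝ => s • x + (1 - s) • y) := by fun_prop
  set f : ℝ → W n := fun s => fderiv ℝ u (s • x + (1 - s) • y) (x - y) with hf
  have hfc : Continuous f := by
    have h1 : Continuous (fderiv ℝ u) := hu.continuous_fderiv (by simp)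
    exact (h1.comp hc).clm_apply continuous_const
  have hftc : ∫ s in (0 : ℝ)..1, f s = u x - u y := by
    have := intervalIntegral.integral_eq_sub_of_hasDerivAt (a := 0) (b := 1)
      (f := fun s : ℝ => u (s • x + (1 - s) • y)) (f' := f) (fun s _ => ?_)
      (hfc.intervalIntegrable _ _)
    · rw [this]
      simp
    · have hd1 : HasDerivAt (fun s : ℝ => s • x + (1 - s) • y) (x - y) s := by
        have h1 : HasDerivAt (fun s : ℝ => s • x) ((1 : ℝ) • x) s := (hasDerivAt_id s).smul_const x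
        have h2 : HasDerivAt (fun s : ℝ => (1 - s) • y) ((-1 : ℝ) • y) s :=
          ((hasDerivAt_id s).const_sub 1).smul_const y
        have h3 := h1.add h2
        have e : (1 : ℝ) • x + (-1 : ℝ) • y = x - y := by simp [sub_eq_add_neg]
        rw [e] at h3
        exact h3
      have hdu : HasFDerivAt u (fderiv ℝ u (s • x + (1 - s) • y)) (s • x + (1 - s) • y) :=
        ((hu.differentiable (by simp)) _).hasFDerivAt
      exact hdu.comp_hasDerivAt s hd1
  have h1 : ‖∫ s in (0 : ℝ)..1, f s‖ ≤ ∫ s in (0 : ℝ)..1, ‖f s‖ :=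
    intervalIntegral.norm_integral_le_integral_norm zero_le_one
  set a : ℝ := ∫ s in (0 : ℝ)..1, ‖f s‖ with ha
  have i1 : IntervalIntegrable (fun s => ‖f s‖) volume 0 1 := hfc.norm.intervalIntegrable _ _
  have i2 : IntervalIntegrable (fun s => ‖f s‖ ^ 2) volume 0 1 := (hfc.norm.pow 2).intervalIntegrable _ _
  have h2 : a ^ 2 ≤ ∫ s in (0 : ℝ)..1, ‖f s‖ ^ 2 := by
    have h0 : 0 ≤ ∫ s in (0 : ℝ)..1, (‖f s‖ - a) ^ 2 :=
      intervalIntegral.integral_nonneg zero_le_one (fun s _ => sq_nonneg _)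
    have e : ∫ s in (0 : ℝ)..1, (‖f s‖ - a) ^ 2 =
        (∫ s in (0 : ℝ)..1, ‖f s‖ ^ 2) - 2 * a * (∫ s in (0 : ℝ)..1, ‖f s‖) + a ^ 2 := by
      have e1 : (fun s => (‖f s‖ - a) ^ 2) = fun s => (‖f s‖ ^ 2 - 2 * a * ‖f s‖) + a ^ 2 := by
        funext s; ring
      rw [e1, intervalIntegral.integral_add (i2.sub (i1.const_mul _)) (by simp),
        intervalIntegral.integral_sub i2 (i1.const_mul _), intervalIntegral.integral_const_mul]
      simp
    rw [e, ← ha] at h0
    nlinarith
  have iG : IntervalIntegrable (fun s : ℝ => gsq (Idf n) u (s • x + (1 - s) • y)) volume 0 1 :=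
    (hG.comp hc).intervalIntegrable _ _
  have h3 : ∫ s in (0 : ℝ)..1, ‖f s‖ ^ 2 ≤
      ∫ s in (0 : ℝ)..1, R ^ 2 * gsq (Idf n) u (s • x + (1 - s) • y) := by
    apply intervalIntegral.integral_mono_on zero_le_one i2 (iG.const_mul _)
    intro s _
    refine (fd_le u _ _).trans ?_
    rw [mul_comm]
    have hg0 : 0 ≤ gsq (Idf n) u (s • x + (1 - s) • y) := Finset.sum_nonneg fun j _ => by positivity
    exact mul_le_mul_of_nonneg_right (pow_le_pow_left₀ (norm_nonneg _) hR 2) hg0
  rw [← hftc, ← intervalIntegral.integral_const_mul]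
  exact (pow_le_pow_left₀ (norm_nonneg _) h1 2).trans (h2.trans h3)

/-- Change of variables for a homothety in the whole space. -/
private theorem lint_affine {m : ℕ} (g : E m → ENNReal) {c : ℝ} (hc : 1 / 2 ≤ c) (b : E m) :
    ∫⁻ y, g (c • y + b) ≤ 2 ^ m * ∫⁻ y, g y := by
  have hc0 : 0 < c := by linarith
  have h1 : ∫⁻ y, g (c • y + b) = ∫⁻ y, g (c • y) := by
    have : (fun y : E m => g (c • y + b)) = fun y => (fun z => g (c • z)) (y + c⁻¹ • b) := by
      funext y
      simp only [smul_add, smul_smul, mul_inv_cancel₀ hc0.ne', one_smul]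
    rw [this]
    exact lintegral_add_right_eq_self (fun z => g (c • z)) (c⁻¹ • b)
  rw [h1]
  have hme : MeasurableEmbedding (fun y : E m => c • y) :=
    (Homeomorph.smulOfNeZero c hc0.ne').measurableEmbedding
  have h2 : ∫⁻ y, g (c • y) = ∫⁻ z, g z ∂(Measure.map (fun y : E m => c • y) volume) :=
    (hme.lintegral_map g).symm
  rw [h2, Measure.map_addHaar_smul volume hc0.ne', lintegral_smul_measure]
  have hfr : Module.finrank ℝ (E m) = m := by simp
  rw [hfr, smul_eq_mul]
  gcongr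
  have h3 : |(c ^ m)⁻¹| ≤ 2 ^ m := by
    rw [abs_of_pos (by positivity)]
    rw [← inv_pow]
    apply pow_le_pow_left₀ (by positivity)
    rw [inv_le_comm₀ hc0 (by norm_num)]
    linarith
  calc ENNReal.ofReal |(c ^ m)⁻¹| ≤ ENNReal.ofReal (2 ^ m) := ENNReal.ofReal_le_ofReal h3
    _ = 2 ^ m := by rw [ENNReal.ofReal_pow (by norm_num)]; simp

private theorem poin_convex {Q : Set (E n)} (hW : Convex ℝ Q) (hm : MeasurableSet Q)
    (hfin : volume Q < ⊤) {R : ℝ} (hR : ∀ x ∈ Q, ∀ y ∈ Q, ‖x - y‖ ≤ R) {u : E n → W n}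
    (hu : ContDiff ℝ ∞ u) (hG : Continuous (gsq (Idf n) u)) (hGi : Integrable (gsq (Idf n) u)) :
    ∫ x in Q, ∫ y in Q, ‖u x - u y‖ ^ 2 ≤
      2 ^ n * R ^ 2 * (volume Q).toReal * ∫ x in Q, gsq (Idf n) u x := by
  set G : E n → ℝ := gsq (Idf n) u with hGd
  have hG0 : ∀ x, 0 ≤ G x := fun x => Finset.sum_nonneg fun j _ => by positivity
  have hGint : IntegrableOn G Q := hGi.integrableOn
  have hRHS : 0 ≤ 2 ^ n * R ^ 2 * (volume Q).toReal * ∫ x in Q, G x := by
    have : 0 ≤ ∫ x in Q, G x := integral_nonneg fun x => hG0 x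
    positivity
  rw [← ENNReal.ofReal_le_ofReal_iff hRHS]
  -- the function on the whole space
  set g : E n → ENNReal := Q.indicator (fun x => ENNReal.ofReal (G x)) with hg
  have hgm : Measurable g := (hG.measurable.ennreal_ofReal).indicator hm
  have hgint : ∫⁻ x, g x = ENNReal.ofReal (∫ x in Q, G x) := by
    rw [hg, lintegral_indicator hm, ofReal_integral_eq_lintegral_ofReal hGint
      (Filter.Eventually.of_forall hG0)]
  -- pointwise
  have hpt : ∀ x ∈ Q, ∀ y ∈ Q, ENNReal.ofReal (‖u x - u y‖ ^ 2) ≤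
      ENNReal.ofReal (R ^ 2) * ∫⁻ s in Ioc (0 : ℝ) 1, g (s • x + (1 - s) • y) := by
    intro x hx y hy
    have h1 := seg_bound hu hG (hR x hx y hy)
    have hmem : ∀ s ∈ Ioc (0 : ℝ) 1, s • x + (1 - s) • y ∈ Q := fun s h =>
      hW hx hy h.1.le (by linarith [h.2]) (by ring)
    refine (ENNReal.ofReal_le_ofReal h1).trans ?_
    rw [ENNReal.ofReal_mul (sq_nonneg R), intervalIntegral.integral_of_le zero_le_one]
    gcongr
    calc ENNReal.ofReal (∫ s in Ioc (0 : ℝ) 1, gsq (Idf n) u (s • x + (1 - s) • y))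
        = ‖∫ s in Ioc (0 : ℝ) 1, G (s • x + (1 - s) • y)‖ₑ := by
          rw [Real.enorm_eq_ofReal (integral_nonneg fun s => hG0 _)]
      _ ≤ ∫⁻ s in Ioc (0 : ℝ) 1, ‖G (s • x + (1 - s) • y)‖ₑ :=
          enorm_integral_le_lintegral_enorm _
      _ = ∫⁻ s in Ioc (0 : ℝ) 1, g (s • x + (1 - s) • y) := by
          apply setLIntegral_congr_fun measurableSet_Ioc
          intro s hs'
          simp only [hg, indicator_of_mem (hmem s hs')]
          rw [Real.enorm_eq_ofReal (hG0 _)]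
  -- the main estimate for fixed s
  have hsl : ∀ s : ℝ, ∫⁻ x in Q, ∫⁻ y in Q, g (s • x + (1 - s) • y) ≤
      volume Q * (2 ^ n * ∫⁻ z, g z) := by
    intro s
    rcases le_total s (1 / 2) with h | h
    · have h1 : ∀ x, ∫⁻ y in Q, g (s • x + (1 - s) • y) ≤ 2 ^ n * ∫⁻ z, g z := by
        intro x
        refine (setLIntegral_le_lintegral Q _).trans ?_
        have := lint_affine g (c := 1 - s) (by linarith) (s • x)
        simpa [add_comm] using this
      calc ∫⁻ x in Q, ∫⁻ y in Q, g (s • x + (1 - s) • y)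
          ≤ ∫⁻ x in Q, 2 ^ n * ∫⁻ z, g z := lintegral_mono fun x => h1 x
        _ = _ := by rw [setLIntegral_const]; ring
    · have hjm : Measurable (fun p : E n × E n => g (s • p.1 + (1 - s) • p.2)) := by
        apply hgm.comp
        fun_prop
      rw [lintegral_lintegral_swap hjm.aemeasurable]
      have h1 : ∀ y, ∫⁻ x in Q, g (s • x + (1 - s) • y) ≤ 2 ^ n * ∫⁻ z, g z := by
        intro y
        refine (setLIntegral_le_lintegral Q _).trans ?_
        exact lint_affine g (c := s) (by linarith) ((1 - s) • y)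
      calc ∫⁻ y in Q, ∫⁻ x in Q, g (s • x + (1 - s) • y)
          ≤ ∫⁻ y in Q, 2 ^ n * ∫⁻ z, g z := lintegral_mono fun x => h1 x
        _ = _ := by rw [setLIntegral_const]; ring
  have hjoint : Measurable (fun p : E n × (E n × ℝ) =>
      g (p.2.2 • p.1 + (1 - p.2.2) • p.2.1)) := by
    apply hgm.comp
    fun_prop
  have hfub : ∫⁻ x in Q, ∫⁻ y in Q, ∫⁻ s in Ioc (0 : ℝ) 1, g (s • x + (1 - s) • y) =
      ∫⁻ s in Ioc (0 : ℝ) 1, ∫⁻ x in Q, ∫⁻ y in Q, g (s • x + (1 - s) • y) := by
    have e1 : ∀ x, ∫⁻ y in Q, ∫⁻ s in Ioc (0 : ℝ) 1, g (s • x + (1 - s) • y) =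
        ∫⁻ s in Ioc (0 : ℝ) 1, ∫⁻ y in Q, g (s • x + (1 - s) • y) := by
      intro x
      apply lintegral_lintegral_swap
      have : Measurable (fun p : E n × ℝ => g (p.2 • x + (1 - p.2) • p.1)) := by
        apply hgm.comp
        fun_prop
      exact this.aemeasurable
    simp_rw [e1]
    apply lintegral_lintegral_swap
    have hm3 : Measurable (fun p : (E n × ℝ) × E n =>
        g (p.1.2 • p.1.1 + (1 - p.1.2) • p.2)) := by
      apply hgm.comp
      fun_prop
    exact (hm3.lintegral_prod_right' (ν := volume.restrict Q)).aemeasurable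
  have htot : ∫⁻ x in Q, ∫⁻ y in Q, ENNReal.ofReal (‖u x - u y‖ ^ 2) ≤
      ENNReal.ofReal (R ^ 2) * (volume Q * (2 ^ n * ∫⁻ z, g z)) := by
    calc ∫⁻ x in Q, ∫⁻ y in Q, ENNReal.ofReal (‖u x - u y‖ ^ 2)
        ≤ ∫⁻ x in Q, ∫⁻ y in Q,
            ENNReal.ofReal (R ^ 2) * ∫⁻ s in Ioc (0 : ℝ) 1, g (s • x + (1 - s) • y) := by
          apply setLIntegral_mono' hm
          intro x hx
          apply setLIntegral_mono' hm
          intro y hy
          exact hpt x hx y hy
      _ = ENNReal.ofReal (R ^ 2) *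
            ∫⁻ x in Q, ∫⁻ y in Q, ∫⁻ s in Ioc (0 : ℝ) 1, g (s • x + (1 - s) • y) := by
          rw [← lintegral_const_mul' _ _ ENNReal.ofReal_ne_top]
          apply lintegral_congr
          intro x
          rw [← lintegral_const_mul' _ _ ENNReal.ofReal_ne_top]
      _ = ENNReal.ofReal (R ^ 2) *
            ∫⁻ s in Ioc (0 : ℝ) 1, ∫⁻ x in Q, ∫⁻ y in Q, g (s • x + (1 - s) • y) := by rw [hfub]
      _ ≤ ENNReal.ofReal (R ^ 2) *
            ∫⁻ s in Ioc (0 : ℝ) 1, volume Q * (2 ^ n * ∫⁻ z, g z) := by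
          gcongr with s
          exact hsl s
      _ = _ := by rw [setLIntegral_const]; simp
  have hL : ENNReal.ofReal (∫ x in Q, ∫ y in Q, ‖u x - u y‖ ^ 2) ≤
      ∫⁻ x in Q, ∫⁻ y in Q, ENNReal.ofReal (‖u x - u y‖ ^ 2) := by
    have hin : ∀ x, 0 ≤ ∫ y in Q, ‖u x - u y‖ ^ 2 := fun x => integral_nonneg fun y => sq_nonneg _
    rw [← Real.enorm_eq_ofReal (integral_nonneg hin)]
    refine (enorm_integral_le_lintegral_enorm _).trans ?_
    apply lintegral_mono
    intro x
    refine (enorm_integral_le_lintegral_enorm _).trans ?_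
    apply lintegral_mono
    intro y
    exact (Real.enorm_eq_ofReal (sq_nonneg ‖u x - u y‖)).le
  refine hL.trans (htot.trans ?_)
  rw [hgint]
  rw [ENNReal.ofReal_mul (by positivity), ENNReal.ofReal_mul (by positivity), ENNReal.ofReal_mul (by positivity),
    ENNReal.ofReal_toReal hfin.ne]
  have h2 : ENNReal.ofReal (2 ^ n) = 2 ^ n := by
    rw [ENNReal.ofReal_pow (by norm_num)]; simp
  rw [h2]
  apply le_of_eq
  ring

/-- the inequality on one set -/
private theorem one_cube {Q : Set (E n)} (hpos : 0 < (volume Q).toReal)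
    (hfin : volume Q < ⊤) {v : E n → W n} (h1 : IntegrableOn v Q)
    (h2 : IntegrableOn (fun x => ‖v x‖ ^ 2) Q) :
    ∫ x in Q, ∫ y in Q, ‖v x - v y‖ ^ 2 =
      2 * (volume Q).toReal * (∫ x in Q, ‖v x‖ ^ 2) - 2 * ‖∫ x in Q, v x‖ ^ 2 := by
  set M := (volume Q).toReal with hM
  set I := ∫ x in Q, v x with hI
  set J := ∫ x in Q, ‖v x‖ ^ 2 with hJ
  have hfm : IsFiniteMeasure (volume.restrict Q) := ⟨by rwa [Measure.restrict_apply_univ]⟩
  have hreal : (volume.restrict Q).real univ = M := by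
    rw [Measure.real, Measure.restrict_apply_univ]
  have hinn : ∀ x, ∫ y in Q, ‖v x - v y‖ ^ 2 = M * ‖v x‖ ^ 2 - 2 * inner ℝ I (v x) + J := by
    intro x
    have e : ∀ y, ‖v x - v y‖ ^ 2 = (‖v x‖ ^ 2 - 2 * inner ℝ (v x) (v y)) + ‖v y‖ ^ 2 :=
      fun y => norm_sub_sq_real _ _
    have i1 : Integrable (fun _ : E n => ‖v x‖ ^ 2) (volume.restrict Q) := integrable_const _
    have i2 : Integrable (fun y => 2 * inner ℝ (v x) (v y)) (volume.restrict Q) :=
      (h1.const_inner (𝕜 := ℝ) (v x)).const_mul 2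
    have i3 : Integrable (fun y => ‖v x‖ ^ 2 - 2 * inner ℝ (v x) (v y)) (volume.restrict Q) := i1.sub i2
    simp_rw [e]
    rw [integral_add i3 h2, integral_sub i1 i2, integral_const, integral_const_mul, hreal,
      smul_eq_mul, integral_inner h1, real_inner_comm]
  simp_rw [hinn]
  have i1 : Integrable (fun _ : E n => J) (volume.restrict Q) := integrable_const _
  have i2 : Integrable (fun x => 2 * inner ℝ I (v x)) (volume.restrict Q) :=
    (h1.const_inner (𝕜 := ℝ) I).const_mul 2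
  have i4 : Integrable (fun x => M * ‖v x‖ ^ 2) (volume.restrict Q) := h2.const_mul _
  have i3 : Integrable (fun x => M * ‖v x‖ ^ 2 - 2 * inner ℝ I (v x)) (volume.restrict Q) := i4.sub i2
  rw [integral_add i3 i1, integral_sub i4 i2, integral_const, integral_const_mul,
    integral_const_mul, hreal, smul_eq_mul, integral_inner h1, real_inner_self_eq_norm_sq]
  ring

theorem rellich {U : Set (E n)} (hb : Bornology.IsBounded U) {ε : ℝ} (hε : 0 < ε) :
    ∃ (N : ℕ) (K : (TstE U) →ₗ[ℝ] EuclideanSpace ℝ (Fin N)),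
      (∀ u : TstE U, ∫ z, ‖(u : E n → W n) z‖ ^ 2 ≤ ε * (∫ z, gsq (Idf n) (u : E n → W n) z) + ‖K u‖ ^ 2) ∧
      (∀ u : TstE U, ‖K u‖ ^ 2 ≤ ∫ z, ‖(u : E n → W n) z‖ ^ 2) := by
  -- the side length
  obtain ⟨h, hh, hhε⟩ : ∃ h : ℝ, 0 < h ∧ 2 ^ n * (h * Real.sqrt (n : ℝ)) ^ 2 ≤ ε := by
    have hc : 0 < (2 : ℝ) ^ n * ((n : ℝ) + 1) := by positivity
    refine ⟨Real.sqrt (ε / (2 ^ n * ((n : ℝ) + 1))), Real.sqrt_pos.mpr (by positivity), ?_⟩
    rw [mul_pow, Real.sq_sqrt (by positivity), Real.sq_sqrt (by positivity)]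
    have h1 : (2 : ℝ) ^ n * (ε / (2 ^ n * ((n : ℝ) + 1)) * (n : ℝ)) = ε * (n / (n + 1)) := by
      field_simp
    rw [h1]
    have h2 : (n : ℝ) / (n + 1) ≤ 1 := by
      rw [div_le_one (by positivity)]
      linarith
    nlinarith
  obtain ⟨R, hR⟩ := hb.exists_norm_le
  -- the finite family
  set K : ℤ := ⌈R / h⌉ + 1 with hK
  have hKR : R / h < K := by
    rw [hK]
    push_cast
    linarith [Int.le_ceil (R / h)]
  set S : Finset (Fin n → ℤ) := Fintype.piFinset (fun _ => Finset.Ico (-K) K) with hS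
  have hcov : ∀ x : E n, ‖x‖ ≤ R → ∃ α ∈ S, x ∈ cube n h α := by
    intro x hxR
    refine ⟨fun i => ⌊x i / h⌋, ?_, (cube_floor hh _ _).mpr fun i => rfl⟩
    rw [hS, Fintype.mem_piFinset]
    intro i
    have hxi : |x i| ≤ R := (by simpa using PiLp.norm_apply_le x i : |x i| ≤ ‖x‖).trans hxR
    have h1 : |x i / h| ≤ R / h := by
      rw [abs_div, abs_of_pos hh]
      exact div_le_div_of_nonneg_right hxi hh.le
    rw [abs_le] at h1
    rw [Finset.mem_Ico]
    constructor
    · rw [Int.le_floor]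
      push_cast
      linarith
    · rw [Int.floor_lt]
      linarith
  -- facts on the functions
  have hTu : ∀ u : TstE U, (u : E n → W n) ∈ Tst (univ : Set (E n)) := fun u =>
    ⟨u.2.1.1, u.2.1.2.1, subset_univ _⟩
  have hui : ∀ u : TstE U, Integrable (u : E n → W n) := fun u =>
    u.2.1.1.continuous.integrable_of_hasCompactSupport u.2.1.2.1
  have hu2 : ∀ u : TstE U, Integrable (fun z => ‖(u : E n → W n) z‖ ^ 2) := fun u => usq_int (hTu u)
  have hug : ∀ u : TstE U, Continuous (gsq (Idf n) (u : E n → W n)) ∧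
      Integrable (gsq (Idf n) (u : E n → W n)) := fun u =>
    gsq_int isOpen_univ continuousOn_const (hTu u)
  have huz : ∀ (u : TstE U) (x : E n), R < ‖x‖ → (u : E n → W n) x = 0 := by
    intro u x hx
    apply tst_zero
    intro hx2
    exact absurd (hR x (u.2.1.2.2 hx2)) (not_le.mpr hx)
  set M : (Fin n → ℤ) → ℝ := fun α => (volume (cube n h α)).toReal with hM
  have hM0 : ∀ α, 0 < M α := fun α => (cube_vol hh α).1
  -- the linear map
  let L : (TstE U) →ₗ[ℝ] PiLp 2 (fun _ : S => W n) :=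
    { toFun := fun u => WithLp.toLp 2 (fun α : S =>
        (Real.sqrt (M α.1))⁻¹ • ∫ x in cube n h α.1, (u : E n → W n) x)
      map_add' := fun u v => by
        ext α : 1
        have : ∫ x in cube n h α.1, ((u + v : TstE U) : E n → W n) x =
            (∫ x in cube n h α.1, (u : E n → W n) x) + ∫ x in cube n h α.1, (v : E n → W n) x :=
          integral_add (hui u).integrableOn (hui v).integrableOn
        simp only [PiLp.add_apply]
        rw [this, smul_add]
      map_smul' := fun r u => by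
        ext α : 1
        have : ∫ x in cube n h α.1, ((r • u : TstE U) : E n → W n) x =
            r • ∫ x in cube n h α.1, (u : E n → W n) x :=
          integral_smul r _
        simp only [PiLp.smul_apply, RingHom.id_apply]
        rw [this, smul_comm] }
  have hLn : ∀ u : TstE U, ‖L u‖ ^ 2 = ∑ α ∈ S, ‖∫ x in cube n h α, (u : E n → W n) x‖ ^ 2 / M α := by
    intro u
    rw [PiLp.norm_sq_eq_of_L2]
    rw [← Finset.sum_coe_sort S (fun α => ‖∫ x in cube n h α, (u : E n → W n) x‖ ^ 2 / M α)]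
    refine Finset.sum_congr rfl fun α _ => ?_
    change ‖(Real.sqrt (M α.1))⁻¹ • ∫ x in cube n h α.1, (u : E n → W n) x‖ ^ 2 = _
    rw [norm_smul, mul_pow, norm_inv, Real.norm_eq_abs, abs_of_nonneg (Real.sqrt_nonneg _), inv_pow,
      Real.sq_sqrt (hM0 _).le]
    field_simp
  let e := (stdOrthonormalBasis ℝ (PiLp 2 (fun _ : S => W n))).repr
  have hdisj : Set.Pairwise (↑S) (Function.onFun Disjoint (fun α => cube n h α)) := by
    intro α _ β _ hab
    exact cube_disj hh hab
  have e1 : ∀ u : TstE U, ∫ x, ‖(u : E n → W n) x‖ ^ 2 =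
      ∑ α ∈ S, ∫ x in cube n h α, ‖(u : E n → W n) x‖ ^ 2 := by
    intro u
    rw [← setIntegral_univ, ← integral_biUnion_finset S (fun α _ => cube_meas h α) hdisj
      (fun α _ => (hu2 u).integrableOn)]
    refine setIntegral_eq_of_subset_of_forall_sdiff_eq_zero MeasurableSet.univ (subset_univ _) ?_
    rintro x ⟨-, hxU⟩
    have : R < ‖x‖ := by
      by_contra hcon
      push Not at hcon
      obtain ⟨α, hα, hxα⟩ := hcov x hcon
      exact hxU (mem_biUnion hα hxα)
    rw [huz u x this]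
    simp
  have e2 : ∀ u : TstE U, ∑ α ∈ S, ∫ x in cube n h α, gsq (Idf n) (u : E n → W n) x ≤
      ∫ x, gsq (Idf n) (u : E n → W n) x := by
    intro u
    rw [← integral_biUnion_finset S (fun α _ => cube_meas h α) hdisj
      (fun α _ => (hug u).2.integrableOn)]
    refine setIntegral_le_integral (hug u).2 ?_
    exact Filter.Eventually.of_forall fun x => Finset.sum_nonneg fun j _ => by positivity
  have hid : ∀ (u : TstE U) (α : Fin n → ℤ),
      ∫ x in cube n h α, ∫ y in cube n h α, ‖(u : E n → W n) x - (u : E n → W n) y‖ ^ 2 =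
        2 * M α * (∫ x in cube n h α, ‖(u : E n → W n) x‖ ^ 2) -
          2 * ‖∫ x in cube n h α, (u : E n → W n) x‖ ^ 2 := fun u α =>
    one_cube (cube_vol hh α).1 (cube_vol hh α).2 (hui u).integrableOn (hu2 u).integrableOn
  refine ⟨_, e.toLinearEquiv.toLinearMap ∘ₗ L, fun u => ?_, fun u => ?_⟩
  · have hKn : ‖(e.toLinearEquiv.toLinearMap ∘ₗ L) u‖ = ‖L u‖ := e.norm_map (L u)
    rw [hKn, hLn, e1]
    calc ∑ α ∈ S, ∫ x in cube n h α, ‖(u : E n → W n) x‖ ^ 2
        ≤ ∑ α ∈ S, (ε * (∫ x in cube n h α, gsq (Idf n) (u : E n → W n) x) +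
          ‖∫ x in cube n h α, (u : E n → W n) x‖ ^ 2 / M α) := by
          refine Finset.sum_le_sum fun α _ => ?_
          have hp := poin_convex (cube_convex h α) (cube_meas h α) (cube_vol hh α).2
            (fun x hx y hy => cube_diam hh α hx hy) u.2.1.1 (hug u).1 (hug u).2
          rw [hid u α] at hp
          have hD : 0 ≤ ∫ x in cube n h α, gsq (Idf n) (u : E n → W n) x :=
            integral_nonneg fun x => Finset.sum_nonneg fun j _ => by positivity
          have hMα := hM0 α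
          have h5 : 2 ^ n * (h * Real.sqrt (n : ℝ)) ^ 2 * M α *
              (∫ x in cube n h α, gsq (Idf n) (u : E n → W n) x) ≤
              ε * M α * (∫ x in cube n h α, gsq (Idf n) (u : E n → W n) x) := by
            gcongr
          have h6 : 0 ≤ ε * M α * (∫ x in cube n h α, gsq (Idf n) (u : E n → W n) x) := by positivity
          have h7 : ε * (∫ x in cube n h α, gsq (Idf n) (u : E n → W n) x) +
              ‖∫ x in cube n h α, (u : E n → W n) x‖ ^ 2 / M α =
              (ε * M α * (∫ x in cube n h α, gsq (Idf n) (u : E n → W n) x) +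
              ‖∫ x in cube n h α, (u : E n → W n) x‖ ^ 2) / M α := by
            field_simp
          rw [h7, le_div_iff₀ hMα]
          nlinarith [hp, h5, h6]
      _ = ε * (∑ α ∈ S, ∫ x in cube n h α, gsq (Idf n) (u : E n → W n) x) +
          ∑ α ∈ S, ‖∫ x in cube n h α, (u : E n → W n) x‖ ^ 2 / M α := by
          rw [Finset.sum_add_distrib, Finset.mul_sum]
      _ ≤ _ := by
          gcongr
          exact e2 u
  · have hKn : ‖(e.toLinearEquiv.toLinearMap ∘ₗ L) u‖ = ‖L u‖ := e.norm_map (L u)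
    rw [hKn, hLn, e1]
    refine Finset.sum_le_sum fun α _ => ?_
    have h0 : 0 ≤ ∫ x in cube n h α, ∫ y in cube n h α,
        ‖(u : E n → W n) x - (u : E n → W n) y‖ ^ 2 :=
      integral_nonneg fun x => integral_nonneg fun y => by positivity
    rw [hid u α] at h0
    rw [div_le_iff₀ (hM0 α)]
    linarith

end Pool.Agent.FCI
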