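import Pool.Agent.FCI.Cc
import Pool.Agent.TUB.Div

/-!
# FCI-Pio: the fields `ρ G e_j` are divergence free (Piola, with Jacobi's formula and the divergence theorem)
-/

open scoped BigOperators Topology ContDiff
open MeasureTheory Filter Set

namespace Pool.Agent.FCI

open Pool.Agent.TUB (E)

variable {n : ℕ} {U : Set (E n)} {F : E n → E n} {G : E n → E n →L[ℝ] E n}

/-- the matrix of a linear map -/
private noncomputable def mt (A : E n →L[ℝ] E n) : Matrix (Fin n) (Fin n) ℝ := fun i j => A (eb j) i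

private theorem mt_det (A : E n →L[ℝ] E n) : A.det = (mt A).det := by
  have h1 := LinearMap.det_toMatrix (EuclideanSpace.basisFun (Fin n) ℝ).toBasis (A : E n →ₗ[ℝ] E n)
  have h2 : LinearMap.toMatrix (EuclideanSpace.basisFun (Fin n) ℝ).toBasis
      (EuclideanSpace.basisFun (Fin n) ℝ).toBasis (A : E n →ₗ[ℝ] E n) = mt A := by
    ext i j
    rw [LinearMap.toMatrix_apply]
    simp [mt, eb]
  rw [← h2, h1]

private theorem eb_sum (w : E n) : w = ∑ i, w i • eb i := by
  ext k
  simp [eb, Pi.single_apply]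

private theorem lin_sum {V : Type*} [NormedAddCommGroup V] [NormedSpace ℝ V] (L : E n →L[ℝ] V) (w : E n) :
    L w = ∑ i, w i • L (eb i) := by
  conv_lhs => rw [eb_sum w]
  rw [map_sum]
  exact Finset.sum_congr rfl fun i _ => map_smul L _ _

private theorem mt_mul (A B : E n →L[ℝ] E n) : mt (A.comp B) = mt A * mt B := by
  ext i j
  rw [Matrix.mul_apply]
  show A (B (eb j)) i = ∑ k, A (eb k) i * B (eb j) k
  rw [lin_sum A (B (eb j))]
  simp [mul_comm]

private theorem mt_id : mt (ContinuousLinearMap.id ℝ (E n)) = 1 := by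
  ext i j
  simp [mt, eb, Matrix.one_apply]

/-- Jacobi's formula. -/
private theorem jac_mat {M : E n → Matrix (Fin n) (Fin n) ℝ} {M' : Fin n → Fin n → (E n →L[ℝ] ℝ)} {z : E n}
    (h : ∀ i j, HasFDerivAt (fun y => M y i j) (M' i j) z) :
    HasFDerivAt (fun y => (M y).det) (∑ i, ∑ j, (M z).adjugate i j • M' j i) z := by
  have h1 : HasFDerivAt (fun y => ∑ σ : Equiv.Perm (Fin n), ((Equiv.Perm.sign σ : ℤ) : ℝ) * ∏ i, M y (σ i) i)
      (∑ σ : Equiv.Perm (Fin n), ((Equiv.Perm.sign σ : ℤ) : ℝ) •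
        ∑ i, (∏ b ∈ Finset.univ.erase i, M z (σ b) b) • M' (σ i) i) z := by
    refine HasFDerivAt.fun_sum fun σ _ => ?_
    exact (HasFDerivAt.finsetProd (u := Finset.univ) (g := fun i y => M y (σ i) i)
      fun i _ => h (σ i) i).const_mul _
  have h2 : (fun y => (M y).det) = fun y => ∑ σ : Equiv.Perm (Fin n), ((Equiv.Perm.sign σ : ℤ) : ℝ) *
      ∏ i, M y (σ i) i := by
    funext y
    exact Matrix.det_apply' _
  rw [h2]
  refine h1.congr_fderiv ?_
  ext v
  have h3 : ∀ i, ∑ j, (M z).adjugate i j * M' j i v =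
      ((M z).updateCol i (fun j => M' j i v)).det := by
    intro i
    have h4 := congrFun (Matrix.cramer_eq_adjugate_mulVec (M z) (fun j => M' j i v)) i
    rw [Matrix.cramer_apply] at h4
    rw [h4]
    rfl
  simp only [_root_.sum_apply, _root_.smul_apply, smul_eq_mul, h3, Matrix.det_apply']
  rw [Finset.sum_comm]
  refine Finset.sum_congr rfl fun σ _ => ?_
  rw [Finset.mul_sum]
  refine Finset.sum_congr rfl fun i _ => ?_
  congr 1
  rw [← Finset.mul_prod_erase Finset.univ _ (Finset.mem_univ i)]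
  rw [Matrix.updateCol_self, mul_comm]
  congr 1
  refine Finset.prod_congr rfl fun b hb => ?_
  rw [Matrix.updateCol_ne (Finset.ne_of_mem_erase hb)]

/-- the trace form `v ↦ ∑ (B (C v e_i))_i` -/
private noncomputable def trf (B : E n →L[ℝ] E n) (C : E n →L[ℝ] E n →L[ℝ] E n) : E n →L[ℝ] ℝ :=
  ∑ i, ((EuclideanSpace.proj i : E n →L[ℝ] ℝ).comp (B.comp ((ContinuousLinearMap.apply ℝ (E n) (eb i)).comp C)))

private theorem trf_apply (B : E n →L[ℝ] E n) (C : E n →L[ℝ] E n →L[ℝ] E n) (v : E n) :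
    trf B C v = ∑ i, B (C v (eb i)) i := by
  simp [trf]

private theorem jac {A : E n → E n →L[ℝ] E n} {A' : E n →L[ℝ] E n →L[ℝ] E n} {z : E n} {B : E n →L[ℝ] E n}
    (hA : HasFDerivAt A A' z) (hB : ∀ v, A z (B v) = v) :
    HasFDerivAt (fun y => (A y).det) ((A z).det • trf B A') z := by
  have h0 : ∀ i j, HasFDerivAt (fun y => mt (A y) i j)
      ((EuclideanSpace.proj i : E n →L[ℝ] ℝ).comp ((ContinuousLinearMap.apply ℝ (E n) (eb j)).comp A')) z := by
    intro i j
    have h1 : HasFDerivAt (fun y => A y (eb j)) ((ContinuousLinearMap.apply ℝ (E n) (eb j)).comp A') z :=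
      (ContinuousLinearMap.apply ℝ (E n) (eb j)).hasFDerivAt.comp z hA
    exact (EuclideanSpace.proj i : E n →L[ℝ] ℝ).hasFDerivAt.comp z h1
  have h1 := jac_mat h0
  have h2 : (fun y => (mt (A y)).det) = fun y => (A y).det := funext fun y => (mt_det (A y)).symm
  rw [h2] at h1
  refine h1.congr_fderiv ?_
  have h3 : mt (A z) * mt B = 1 := by
    rw [← mt_mul, ← mt_id]
    congr 1
    ext v : 1
    exact hB v
  have h4 : (mt (A z)).adjugate = (A z).det • mt B := by
    calc (mt (A z)).adjugate = (mt (A z)).adjugate * (mt (A z) * mt B) := by rw [h3, mul_one]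
      _ = ((mt (A z)).adjugate * mt (A z)) * mt B := (mul_assoc _ _ _).symm
      _ = (A z).det • mt B := by rw [Matrix.adjugate_mul, mt_det, Matrix.smul_mul, one_mul]
  ext v
  rw [h4]
  simp only [_root_.sum_apply, _root_.smul_apply, smul_eq_mul, trf_apply,
    Matrix.smul_apply, Finset.mul_sum]
  refine Finset.sum_congr rfl fun i _ => ?_
  have h5 : B (A' v (eb i)) i = ∑ j, mt B i j * (A' v (eb i)) j := by
    rw [lin_sum B (A' v (eb i))]
    simp [mt, mul_comm]
  rw [h5, Finset.mul_sum]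
  refine Finset.sum_congr rfl fun j _ => ?_
  show (A z).det * mt B i j * (A' v (eb i)) j = _
  ring

private theorem det_ne (hF : Flat U F G) {z : E n} (hz : z ∈ U) : (fderiv ℝ F z).det ≠ 0 := by
  have h1 : (fderiv ℝ F z).comp (G z) = ContinuousLinearMap.id ℝ (E n) := by
    ext v : 1
    exact hF.inv1 z hz v
  have h2 : (mt (fderiv ℝ F z)).det * (mt (G z)).det = 1 := by
    rw [← Matrix.det_mul, ← mt_mul, h1, mt_id, Matrix.det_one]
  rw [mt_det]
  exact left_ne_zero_of_mul_eq_one h2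

theorem rho_cont (hU : IsOpen U) (hF : Flat U F G) : ContinuousOn (rho F) U := by
  have h1 : ContinuousOn (fderiv ℝ F) U := hF.smF.continuousOn_fderiv_of_isOpen hU (by simp)
  exact (ContinuousLinearMap.continuous_det.comp_continuousOn h1).abs

theorem rho_pos (hF : Flat U F G) {z : E n} (hz : z ∈ U) : 0 < rho F z := abs_pos.2 (det_ne hF hz)

private theorem fd_smooth (hU : IsOpen U) (hF : Flat U F G) : ContDiffOn ℝ 1 (fderiv ℝ F) U :=
  hF.smF.fderiv_of_isOpen hU (by norm_cast)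

private theorem rho_smooth (hU : IsOpen U) (hF : Flat U F G) : ContDiffOn ℝ 1 (rho F) U := by
  have h1 : ContDiffOn ℝ 1 (fun y => (fderiv ℝ F y).det) U := by
    have h2 : (fun y => (fderiv ℝ F y).det) = fun y => ∑ σ : Equiv.Perm (Fin n),
        ((Equiv.Perm.sign σ : ℤ) : ℝ) * ∏ i, mt (fderiv ℝ F y) (σ i) i := by
      funext y
      rw [mt_det]
      exact Matrix.det_apply' _
    rw [h2]
    refine ContDiffOn.sum fun σ _ => contDiffOn_const.mul (contDiffOn_prod fun i _ => ?_)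
    have h3 : ContDiffOn ℝ 1 (fun y => fderiv ℝ F y (eb i)) U := (fd_smooth hU hF).clm_apply contDiffOn_const
    exact (EuclideanSpace.proj (σ i) : E n →L[ℝ] ℝ).contDiff.comp_contDiffOn h3
  exact h1.norm ℝ fun y hy => det_ne hF hy

private theorem rho_deriv (hU : IsOpen U) (hF : Flat U F G) {z : E n} (hz : z ∈ U) :
    HasFDerivAt (rho F) (rho F z • trf (G z) (fderiv ℝ (fderiv ℝ F) z)) z := by
  have h1 : HasFDerivAt (fderiv ℝ F) (fderiv ℝ (fderiv ℝ F) z) z :=
    (((fd_smooth hU hF).contDiffAt (hU.mem_nhds hz)).differentiableAt (by norm_num)).hasFDerivAt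
  have h2 := jac h1 (hF.inv1 z hz)
  have h3 := (hasDerivAt_abs (det_ne hF hz)).comp_hasFDerivAt z h2
  refine HasFDerivAt.congr_fderiv h3 ?_
  rw [smul_smul, rho, sign_mul_self]

private theorem dG (hU : IsOpen U) (hF : Flat U F G) {z : E n} (hz : z ∈ U) (v w : E n) :
    fderiv ℝ G z v w = - G z (fderiv ℝ (fderiv ℝ F) z v (G z w)) := by
  have h1 : HasFDerivAt (fderiv ℝ F) (fderiv ℝ (fderiv ℝ F) z) z :=
    (((fd_smooth hU hF).contDiffAt (hU.mem_nhds hz)).differentiableAt (by norm_num)).hasFDerivAt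
  have h2 : HasFDerivAt G (fderiv ℝ G z) z :=
    ((hF.smG.contDiffAt (hU.mem_nhds hz)).differentiableAt (by simp)).hasFDerivAt
  have h3 : HasFDerivAt (fun y => G y w) ((fderiv ℝ G z).flip w) z := by
    have := h2.clm_apply (hasFDerivAt_const w z)
    simpa using this
  have h4 := h1.clm_apply h3
  have h5 : (fun y => fderiv ℝ F y (G y w)) =ᶠ[𝓝 z] fun _ => w := by
    filter_upwards [hU.mem_nhds hz] with y hy
    exact hF.inv1 y hy w
  have h6 := (h4.congr_of_eventuallyEq h5.symm).unique (hasFDerivAt_const w z)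
  have h7 := DFunLike.congr_fun h6 v
  simp only [_root_.add_apply, ContinuousLinearMap.comp_apply, ContinuousLinearMap.flip_apply,
    _root_.zero_apply] at h7
  have h8 := congrArg (G z) h7
  rw [map_add, hF.inv2 z hz, map_zero] at h8
  rw [eq_neg_iff_add_eq_zero]
  exact h8

private theorem d2_symm (hU : IsOpen U) (hF : Flat U F G) {z : E n} (hz : z ∈ U) (v w : E n) :
    fderiv ℝ (fderiv ℝ F) z v w = fderiv ℝ (fderiv ℝ F) z w v := by
  have h1 : ContDiffAt ℝ ∞ F z := hF.smF.contDiffAt (hU.mem_nhds hz)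
  have h2 : IsSymmSndFDerivAt ℝ F z := h1.isSymmSndFDerivAt (by
    rw [minSmoothness_of_isRCLikeNormedField]
    exact (WithTop.coe_le_coe.2 le_top : ((2 : ℕ∞) : WithTop ℕ∞) ≤ ((⊤ : ℕ∞) : WithTop ℕ∞)))
  exact h2 v w

private theorem dvg_pt (hU : IsOpen U) (hF : Flat U F G) {φ : E n → ℝ} (hφ : ContDiffOn ℝ 1 φ U) (j : Fin n)
    {z : E n} (hz : z ∈ U) :
    ∑ i : Fin n, (fderiv ℝ (fun y => (φ y * rho F y) • G y (eb j)) z (EuclideanSpace.single i 1)) i =
      rho F z * fderiv ℝ φ z (G z (eb j)) := by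
  have h1 : HasFDerivAt φ (fderiv ℝ φ z) z :=
    ((hφ.contDiffAt (hU.mem_nhds hz)).differentiableAt (by norm_num)).hasFDerivAt
  have h2 := rho_deriv hU hF hz
  have h3 : HasFDerivAt G (fderiv ℝ G z) z :=
    ((hF.smG.contDiffAt (hU.mem_nhds hz)).differentiableAt (by simp)).hasFDerivAt
  have h4 : HasFDerivAt (fun y => G y (eb j)) ((fderiv ℝ G z).flip (eb j)) z := by
    have := h3.clm_apply (hasFDerivAt_const (eb j) z)
    simpa using this
  have h5 := (h1.mul h2).smul h4
  have h6 : ∀ v, fderiv ℝ (fun y => (φ y * rho F y) • G y (eb j)) z v =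
      (φ z * rho F z) • fderiv ℝ G z v (eb j) +
      (φ z * (rho F z * trf (G z) (fderiv ℝ (fderiv ℝ F) z) v) + rho F z * fderiv ℝ φ z v) • G z (eb j) := by
    intro v
    have h7 : fderiv ℝ (fun y => (φ y * rho F y) • G y (eb j)) z = _ := h5.fderiv
    rw [h7]
    rfl
  have h8 : ∀ i : Fin n, (fderiv ℝ (fun y => (φ y * rho F y) • G y (eb j)) z (EuclideanSpace.single i 1)) i =
      - (φ z * rho F z) * G z (fderiv ℝ (fderiv ℝ F) z (G z (eb j)) (eb i)) i +
      (φ z * rho F z * (G z (eb j) i * trf (G z) (fderiv ℝ (fderiv ℝ F) z) (eb i)) +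
        rho F z * (G z (eb j) i * fderiv ℝ φ z (eb i))) := by
    intro i
    rw [h6, dG hU hF hz, d2_symm hU hF hz]
    simp only [PiLp.add_apply, PiLp.smul_apply, PiLp.neg_apply, smul_eq_mul]
    rw [show (EuclideanSpace.single i 1 : E n) = eb i from rfl]
    ring
  rw [Finset.sum_congr rfl fun i _ => h8 i, Finset.sum_add_distrib, Finset.sum_add_distrib, ← Finset.mul_sum,
    ← Finset.mul_sum, ← Finset.mul_sum]
  have e1 := lin_sum (trf (G z) (fderiv ℝ (fderiv ℝ F) z)) (G z (eb j))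
  have e2 := lin_sum (fderiv ℝ φ z) (G z (eb j))
  simp only [smul_eq_mul] at e1 e2
  rw [← e1, ← e2, ← trf_apply]
  ring

theorem pio (hU : IsOpen U) (hF : Flat U F G) {K : Set (E n)} (hK : IsCompact K) (hKU : K ⊆ U) {φ : E n → ℝ}
    (hφ : ContDiffOn ℝ 1 φ U) (h0 : ∀ z, z ∉ K → φ z = 0) (j : Fin n) :
    ∫ z, rho F z * fderiv ℝ φ z (G z (eb j)) = 0 := by
  have h1 : ∀ z, z ∉ K → (fun y => (φ y * rho F y) • G y (eb j)) z = 0 := by
    intro z hz
    show (φ z * rho F z) • G z (eb j) = 0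
    rw [h0 z hz, zero_mul, zero_smul]
  have h2 : ContDiffOn ℝ 1 (fun y => (φ y * rho F y) • G y (eb j)) U :=
    (hφ.mul (rho_smooth hU hF)).smul ((hF.smG.of_le (by norm_cast)).clm_apply contDiffOn_const)
  have h3 := TUB.integral_div _ (cc_smooth hU hK hKU h2 h1) (cc_supp hK h1)
  rw [← h3]
  refine integral_congr_ae (Eventually.of_forall fun z => ?_)
  by_cases hz : z ∈ U
  · exact (dvg_pt hU hF hφ j hz).symm
  · have hzK : z ∈ Kᶜ := fun h => hz (hKU h)
    have e1 : φ =ᶠ[𝓝 z] fun _ => 0 := by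
      filter_upwards [hK.isClosed.isOpen_compl.mem_nhds hzK] with y hy
      exact h0 y hy
    have e2 : (fun y => (φ y * rho F y) • G y (eb j)) =ᶠ[𝓝 z] fun _ => 0 := by
      filter_upwards [hK.isClosed.isOpen_compl.mem_nhds hzK] with y hy
      exact h1 y hy
    show rho F z * fderiv ℝ φ z (G z (eb j)) =
      ∑ i : Fin n, (fderiv ℝ (fun y => (φ y * rho F y) • G y (eb j)) z (EuclideanSpace.single i 1)) i
    rw [e1.fderiv_eq, e2.fderiv_eq]
    simp

end Pool.Agent.FCI
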