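import Pool.Agent.FCI.Tsb
import Pool.Agent.FCI.Pio
import Pool.Agent.TUB.Barta

/-!
# FCI-Pic: the first eigenvalue of the ball, on a flat domain (Barta)
-/

open scoped BigOperators Topology ContDiff
open MeasureTheory Filter Set

namespace Pool.Agent.FCI

open Pool.Agent.TUB (E jw)

variable {n : ℕ} {U : Set (E n)} {F : E n → E n} {G : E n → E n →L[ℝ] E n} {u : E n → W n}

/-- `a ≥ b` pointwise, from the square of `E_j u - Z_j u`. -/
private theorem pw {V : Type*} [NormedAddCommGroup V] [InnerProductSpace ℝ V] (a : Fin n → V) (w : V)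
    (y : E n) :
    2 * ∑ j, inner ℝ (a j) w * y j ≤ ∑ j, ‖a j‖ ^ 2 + ‖y‖ ^ 2 * ‖w‖ ^ 2 := by
  have h1 : 0 ≤ ∑ j, ‖a j - y j • w‖ ^ 2 := Finset.sum_nonneg fun j _ => sq_nonneg _
  have h2 : ∀ j, ‖a j - y j • w‖ ^ 2 = ‖a j‖ ^ 2 - 2 * (inner ℝ (a j) w * y j) + y j ^ 2 * ‖w‖ ^ 2 := by
    intro j
    rw [norm_sub_sq_real, inner_smul_right, norm_smul, mul_pow, Real.norm_eq_abs, sq_abs]
    ring
  rw [Finset.sum_congr rfl fun j _ => h2 j, Finset.sum_add_distrib, Finset.sum_sub_distrib,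
    ← Finset.mul_sum, ← Finset.sum_mul] at h1
  have h3 : ∑ j, y j ^ 2 = ‖y‖ ^ 2 := by
    rw [EuclideanSpace.norm_sq_eq]
    simp
  rw [h3] at h1
  linarith

private theorem usq_contDiff (hu : u ∈ Tst U) : ContDiff ℝ 1 (fun z => ‖u z‖ ^ 2) :=
  (hu.1.of_le (by exact_mod_cast le_top)).norm_sq ℝ

private theorem jpos (hn : 1 ≤ n) : 0 < jw n := (Pool.Agent.TUB.jw_facts (by exact_mod_cast hn)).1

theorem picard (hn : 1 ≤ n) (hU : IsOpen U) (hF : Flat U F G) {R : ℝ} (hR : 0 < R) (hb : ∀ z ∈ U, ‖F z‖ < R)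
    (hu : u ∈ Tst U) :
    jw n / R ^ 2 * ∫ z, rho F z * ‖u z‖ ^ 2 ≤ ∫ z, rho F z * gsq G u z := by
  obtain ⟨l, hl⟩ : ∃ l, l = jw n / R ^ 2 := ⟨_, rfl⟩
  have hj := jpos hn
  have hl0 : 0 < l := by rw [hl]; positivity
  have hin : ∀ z ∈ U, l * ‖F z‖ ^ 2 < jw n := by
    intro z hz
    have h1 : ‖F z‖ ^ 2 < R ^ 2 := pow_lt_pow_left₀ (hb z hz) (norm_nonneg _) two_ne_zero
    have h2 : l * ‖F z‖ ^ 2 < l * R ^ 2 := mul_lt_mul_of_pos_left h1 hl0
    have h3 : l * R ^ 2 = jw n := by rw [hl]; field_simp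
    linarith
  rw [← hl]
  have hKc : IsCompact (tsupport u) := hu.2.1
  have hKU : tsupport u ⊆ U := hu.2.2
  have hF1 : ContDiffOn ℝ 1 F U := hF.smF.of_le (by exact_mod_cast le_top)
  have hZ : ContDiffOn ℝ 1 (fun z => Pool.Agent.TUB.Zf n l (F z)) U := by
    intro z hz
    have h1 := Pool.Agent.TUB.Zf_contDiffAt hn hl0 (hin z hz)
    exact (h1.comp z (hF1.contDiffAt (hU.mem_nhds hz))).contDiffWithinAt
  have hs := usq_contDiff hu
  have hZj : ∀ j : Fin n, ContDiffOn ℝ 1 (fun z => (Pool.Agent.TUB.Zf n l (F z)) j) U := fun j =>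
    (EuclideanSpace.proj (𝕜 := ℝ) j).contDiff.comp_contDiffOn hZ
  have hφ : ∀ j : Fin n, ContDiffOn ℝ 1 (fun z => ‖u z‖ ^ 2 * (Pool.Agent.TUB.Zf n l (F z)) j) U :=
    fun j => hs.contDiffOn.mul (hZj j)
  have h0 : ∀ j : Fin n, ∀ z, z ∉ tsupport u → ‖u z‖ ^ 2 * (Pool.Agent.TUB.Zf n l (F z)) j = 0 := by
    intro j z hz
    rw [tst_zero hz]
    simp
  have hd0 : ∀ j : Fin n, ∀ z, z ∉ tsupport u →
      fderiv ℝ (fun z => ‖u z‖ ^ 2 * (Pool.Agent.TUB.Zf n l (F z)) j) z = 0 := by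
    intro j z hz
    have h1 : (fun z => ‖u z‖ ^ 2 * (Pool.Agent.TUB.Zf n l (F z)) j) =ᶠ[𝓝 z] fun _ => (0 : ℝ) := by
      filter_upwards [(isClosed_tsupport u).isOpen_compl.mem_nhds hz] with y hy
      exact h0 j y hy
    rw [h1.fderiv_eq]
    exact fderiv_const_apply _
  have hpio := fun j : Fin n => pio hU hF hKc hKU (hφ j) (h0 j) j
  have hGj : ∀ j : Fin n, ContinuousOn (fun z => G z (eb j)) U := fun j =>
    hF.smG.continuousOn.clm_apply continuousOn_const
  have hint : ∀ j : Fin n, Integrable (fun z => rho F z *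
      fderiv ℝ (fun z => ‖u z‖ ^ 2 * (Pool.Agent.TUB.Zf n l (F z)) j) z (G z (eb j))) := by
    intro j
    refine cc_int hU hKc hKU ?_ ?_
    · exact (rho_cont hU hF).mul
        (((hφ j).continuousOn_fderiv_of_isOpen hU le_rfl).clm_apply (hGj j))
    · intro z hz
      rw [hd0 j z hz]
      simp
  have hi1 : Integrable (fun z => rho F z * ‖u z‖ ^ 2) := by
    refine cc_int hU hKc hKU ((rho_cont hU hF).mul hs.continuous.continuousOn) ?_
    intro z hz
    rw [tst_zero hz]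
    simp
  have hi2 : Integrable (fun z => rho F z * gsq G u z) := by
    refine cc_int hU hKc hKU ((rho_cont hU hF).mul (gsq_contOn hF.smG.continuousOn hu)) ?_
    intro z hz
    rw [gsq_zero hz, mul_zero]
  have hsum : ∫ z, ∑ j : Fin n, rho F z *
      fderiv ℝ (fun z => ‖u z‖ ^ 2 * (Pool.Agent.TUB.Zf n l (F z)) j) z (G z (eb j)) = 0 := by
    rw [integral_finsetSum _ fun j _ => hint j]
    exact Finset.sum_eq_zero fun j _ => hpio j
  have hle : ∀ z, ∑ j : Fin n, rho F z *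
      fderiv ℝ (fun z => ‖u z‖ ^ 2 * (Pool.Agent.TUB.Zf n l (F z)) j) z (G z (eb j)) ≤
      rho F z * gsq G u z - l * (rho F z * ‖u z‖ ^ 2) := by
    intro z
    by_cases hz : z ∈ U
    · have hr := rho_pos hF hz
      have hder : ∀ j : Fin n,
          fderiv ℝ (fun z => ‖u z‖ ^ 2 * (Pool.Agent.TUB.Zf n l (F z)) j) z (G z (eb j)) =
          2 * (inner ℝ (fderiv ℝ u z (G z (eb j))) (u z) * (Pool.Agent.TUB.Zf n l (F z)) j) +
          ‖u z‖ ^ 2 * (fderiv ℝ (Pool.Agent.TUB.Zf n l) (F z) (EuclideanSpace.single j 1)) j := by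
        intro j
        have hu1 : HasFDerivAt u (fderiv ℝ u z) z :=
          (hu.1.differentiable (by simp) z).hasFDerivAt
        have hFd : HasFDerivAt F (fderiv ℝ F z) z :=
          ((hF1.contDiffAt (hU.mem_nhds hz)).differentiableAt (by norm_num)).hasFDerivAt
        have hZd : HasFDerivAt (Pool.Agent.TUB.Zf n l) (fderiv ℝ (Pool.Agent.TUB.Zf n l) (F z)) (F z) :=
          ((Pool.Agent.TUB.Zf_contDiffAt hn hl0 (hin z hz)).differentiableAt (by norm_num)).hasFDerivAt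
        have h1 := hu1.norm_sq
        have h2 := ((EuclideanSpace.proj (𝕜 := ℝ) j).hasFDerivAt (x := Pool.Agent.TUB.Zf n l (F z))).comp z
          (hZd.comp z hFd)
        have h3 := h1.mul h2
        have h4 : HasFDerivAt (fun z => ‖u z‖ ^ 2 * (Pool.Agent.TUB.Zf n l (F z)) j) _ z := h3
        rw [h4.fderiv]
        have h5 : fderiv ℝ F z (G z (eb j)) = EuclideanSpace.single j 1 := hF.inv1 z hz _
        have hp : ∀ x : E n, EuclideanSpace.proj (𝕜 := ℝ) j x = x j := fun x => rfl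
        simp only [_root_.add_apply, _root_.smul_apply, ContinuousLinearMap.comp_apply,
          Function.comp_apply, smul_eq_mul, innerSL_apply_apply, h5, hp]
        rw [real_inner_comm (u z)]
        ring
      rw [← Finset.mul_sum]
      have h6 : ∑ j : Fin n,
          fderiv ℝ (fun z => ‖u z‖ ^ 2 * (Pool.Agent.TUB.Zf n l (F z)) j) z (G z (eb j)) ≤
          gsq G u z - l * ‖u z‖ ^ 2 := by
        rw [Finset.sum_congr rfl fun j _ => hder j, Finset.sum_add_distrib, ← Finset.mul_sum,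
          ← Finset.mul_sum, Pool.Agent.TUB.Zf_div hn hl0 (hin z hz)]
        have h7 := pw (fun j => fderiv ℝ u z (G z (eb j))) (u z) (Pool.Agent.TUB.Zf n l (F z))
        have h8 : gsq G u z = ∑ j, ‖fderiv ℝ u z (G z (eb j))‖ ^ 2 := rfl
        rw [h8]
        beta_reduce at h7
        nlinarith [h7]
      calc rho F z * ∑ j : Fin n,
          fderiv ℝ (fun z => ‖u z‖ ^ 2 * (Pool.Agent.TUB.Zf n l (F z)) j) z (G z (eb j))
          ≤ rho F z * (gsq G u z - l * ‖u z‖ ^ 2) := mul_le_mul_of_nonneg_left h6 hr.le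
        _ = rho F z * gsq G u z - l * (rho F z * ‖u z‖ ^ 2) := by ring
    · have hz' : z ∉ tsupport u := fun h => hz (hKU h)
      rw [gsq_zero hz', tst_zero hz']
      rw [Finset.sum_congr rfl fun j _ => by rw [hd0 j z hz']]
      simp
  have hfin : ∫ z, ∑ j : Fin n, rho F z *
      fderiv ℝ (fun z => ‖u z‖ ^ 2 * (Pool.Agent.TUB.Zf n l (F z)) j) z (G z (eb j)) ≤
      ∫ z, (rho F z * gsq G u z - l * (rho F z * ‖u z‖ ^ 2)) :=
    integral_mono (integrable_finsetSum _ fun j _ => hint j) (hi2.sub (hi1.const_mul l)) hle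
  rw [hsum, integral_sub hi2 (hi1.const_mul l), integral_const_mul] at hfin
  linarith

end Pool.Agent.FCI
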