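import Pool.Agent.FCI.Lib
import Pool.Agent.FCI.Pic

/-!
# FCI-Sta: the operator is bounded below at the start
-/

open scoped BigOperators Topology ContDiff
open MeasureTheory Filter Set

namespace Pool.Agent.FCI

open Pool.Agent.TUB (E jw)

variable {n : ℕ}

private theorem sta_Q_cont {U : Set (E n)} {G H : E n → E n →L[ℝ] E n} {u : E n → W n}
    (hG : ContinuousOn G U) (hH : ContinuousOn H U) (hu : ContinuousOn u U) :
    ContinuousOn (fun z => Qop G H z (u z)) U := by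
  obtain ⟨T, hT⟩ := gamV_clm (n := n)
  unfold Qop
  refine continuousOn_finsetSum _ fun j _ => ?_
  refine (cl j).continuous.comp_continuousOn ?_
  have h1 : ContinuousOn (fun z => H z (G z (eb j))) U := hH.clm_apply (hG.clm_apply continuousOn_const)
  have h2 : ContinuousOn (fun z => T (H z (G z (eb j))) (u z)) U :=
    (T.continuous.comp_continuousOn h1).clm_apply hu
  exact h2.congr fun z _ => by
    beta_reduce
    rw [hT]

theorem start_est (hn : 1 ≤ n) {U : Set (E n)} {F : E n → E n} {G H : E n → E n →L[ℝ] E n} {g : E n → E n}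
    (hU : IsOpen U) (hF : Flat U F G) {L : ℝ} (hL : Bds U F G L) (hg : ContDiffOn ℝ ∞ g U)
    (hH : ∀ z ∈ U, HasFDerivAt g (H z) z) {R Lt : ℝ} (hR : 0 < R) (hb : ∀ z ∈ U, ‖F z‖ < R)
    (hlt : Lt < jw n / R ^ 2)
    (low : ∀ z ∈ U, ∀ w : W n, -Lt * ‖w‖ ^ 2 ≤ ‖g z‖ ^ 2 * ‖w‖ ^ 2 + inner ℝ w (Qop G H z w)) :
    ∃ c : ℝ, 0 < c ∧ ∀ u ∈ Tst U, c * ∫ z, ‖u z‖ ^ 2 ≤ ∫ z, ‖Bop g G u z‖ ^ 2 := by
  have hLp := hL.pos
  have hd : 0 < jw n / R ^ 2 - Lt := by linarith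
  refine ⟨(jw n / R ^ 2 - Lt) * L⁻¹ * L⁻¹, by positivity, fun u hu => ?_⟩
  have hK : IsCompact (tsupport u) := hu.2.1
  have hKU : tsupport u ⊆ U := hu.2.2
  have hGc := hF.smG.continuousOn
  have hgc := hg.continuousOn
  have hHc : ContinuousOn H U := by
    have h1 : ContinuousOn (fderiv ℝ g) U := hg.continuousOn_fderiv_of_isOpen hU (by simp)
    exact h1.congr fun z hz => (hH z hz).fderiv.symm
  have huc : ContinuousOn u U := hu.1.continuous.continuousOn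
  have hρ := rho_cont hU hF
  -- integrability
  have i1 : Integrable (fun z => rho F z * ‖u z‖ ^ 2) :=
    cc_int hU hK hKU (hρ.mul (huc.norm.pow 2)) fun z hz => by rw [tst_zero hz]; simp
  have i2 : Integrable (fun z => rho F z * gsq G u z) :=
    cc_int hU hK hKU (hρ.mul (gsq_contOn hGc hu)) fun z hz => by rw [gsq_zero hz, mul_zero]
  have i3 : Integrable (fun z => rho F z * (‖g z‖ ^ 2 * ‖u z‖ ^ 2 + inner ℝ (u z) (Qop G H z (u z)))) := by
    refine cc_int hU hK hKU (hρ.mul (((hgc.norm.pow 2).mul (huc.norm.pow 2)).add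
      (huc.inner (𝕜 := ℝ) (sta_Q_cont hGc hHc huc)))) fun z hz => ?_
    rw [tst_zero hz]
    simp
  have i4 : Integrable (fun z => rho F z * ‖Bop g G u z‖ ^ 2) :=
    cc_int hU hK hKU (hρ.mul ((Bop_contOn hgc hGc hu).norm.pow 2)) fun z hz => by rw [Bop_zero hz]; simp
  -- the estimate with the weight
  have e1 := lich hU hF hg hH hu
  have e2 := picard hn hU hF hR hb hu
  have e3 : -Lt * ∫ z, rho F z * ‖u z‖ ^ 2 ≤
      ∫ z, rho F z * (‖g z‖ ^ 2 * ‖u z‖ ^ 2 + inner ℝ (u z) (Qop G H z (u z))) := by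
    rw [← integral_const_mul]
    refine integral_mono (i1.const_mul _) i3 fun z => ?_
    by_cases hz : z ∈ U
    · have h1 := mul_le_mul_of_nonneg_left (low z hz (u z)) (rho_pos hF hz).le
      calc -Lt * (rho F z * ‖u z‖ ^ 2) = rho F z * (-Lt * ‖u z‖ ^ 2) := by ring
        _ ≤ _ := h1
    · have h0 : u z = 0 := tst_zero fun h => hz (hKU h)
      simp [h0]
  have e4 : ∫ z, rho F z * (gsq G u z + (‖g z‖ ^ 2 * ‖u z‖ ^ 2 + inner ℝ (u z) (Qop G H z (u z)))) =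
      (∫ z, rho F z * gsq G u z) +
        ∫ z, rho F z * (‖g z‖ ^ 2 * ‖u z‖ ^ 2 + inner ℝ (u z) (Qop G H z (u z))) := by
    rw [← integral_add i2 i3]
    exact integral_congr_ae (Eventually.of_forall fun z => mul_add _ _ _)
  -- comparison of the weights
  have e5 : L⁻¹ * ∫ z, ‖u z‖ ^ 2 ≤ ∫ z, rho F z * ‖u z‖ ^ 2 := by
    rw [← integral_const_mul]
    refine integral_mono ((usq_int hu).const_mul _) i1 fun z => ?_
    by_cases hz : z ∈ U
    · exact mul_le_mul_of_nonneg_right (hL.bR' z hz) (sq_nonneg _)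
    · have h0 : u z = 0 := tst_zero fun h => hz (hKU h)
      simp [h0]
  have e6 : ∫ z, rho F z * ‖Bop g G u z‖ ^ 2 ≤ L * ∫ z, ‖Bop g G u z‖ ^ 2 := by
    rw [← integral_const_mul]
    refine integral_mono i4 ((Bsq_int hU hgc hGc hu).const_mul _) fun z => ?_
    by_cases hz : z ∈ U
    · exact mul_le_mul_of_nonneg_right (hL.bR z hz) (sq_nonneg _)
    · have h0 : Bop g G u z = 0 := Bop_zero fun h => hz (hKU h)
      simp [h0]
  have e7 : (jw n / R ^ 2 - Lt) * ∫ z, rho F z * ‖u z‖ ^ 2 ≤ L * ∫ z, ‖Bop g G u z‖ ^ 2 := by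
    rw [e4] at e1
    linarith
  have e8 : (jw n / R ^ 2 - Lt) * (L⁻¹ * ∫ z, ‖u z‖ ^ 2) ≤ L * ∫ z, ‖Bop g G u z‖ ^ 2 :=
    (mul_le_mul_of_nonneg_left e5 hd.le).trans e7
  calc (jw n / R ^ 2 - Lt) * L⁻¹ * L⁻¹ * ∫ z, ‖u z‖ ^ 2
      = L⁻¹ * ((jw n / R ^ 2 - Lt) * (L⁻¹ * ∫ z, ‖u z‖ ^ 2)) := by ring
    _ ≤ L⁻¹ * (L * ∫ z, ‖Bop g G u z‖ ^ 2) := mul_le_mul_of_nonneg_left e8 (by positivity)
    _ = ∫ z, ‖Bop g G u z‖ ^ 2 := by field_simp

end Pool.Agent.FCI
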