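import Pool.Agent.FCI.Cut
import Pool.Agent.FCI.Ops

/-!
# FCI-Vac: the vacuum sequence
-/

open scoped BigOperators Topology ContDiff
open MeasureTheory Filter Set

namespace Pool.Agent.FCI

open Pool.Agent.TUB (E)

variable {n : ℕ}

private noncomputable def vv (U : Set (E n)) (Ψ : E n → ℝ) (τ : ℝ) (z : E n) : W n :=
  (cut U Ψ τ z * Real.exp (-Ψ z)) • w0 n

section
variable {U : Set (E n)} {Ψ : E n → ℝ} {g : E n → E n} {H : E n → E n →L[ℝ] E n} {eps : ℝ}
  (hP : PsiOK U Ψ g H eps)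
include hP

private theorem vv_zero (τ : ℝ) (z : E n) (hz : z ∉ {z | z ∈ U ∧ Ψ z ≤ τ}) : vv U Ψ τ z = 0 := by
  have h1 : z ∉ tsupport (cut U Ψ τ) := fun h => hz ((cut_supp hP τ).2 h)
  have h2 : cut U Ψ τ z = 0 := image_eq_zero_of_notMem_tsupport h1
  unfold vv
  rw [h2, zero_mul, zero_smul]

private theorem vv_tst (τ : ℝ) : vv U Ψ τ ∈ TstE U := by
  have hK : IsCompact {z | z ∈ U ∧ Ψ z ≤ τ} := hP.proper τ
  have hKU : {z | z ∈ U ∧ Ψ z ≤ τ} ⊆ U := fun z hz => hz.1
  refine ⟨⟨?_, cc_supp hK (vv_zero hP τ), ?_⟩, fun z => (evS n).smul_mem _ w0_ev⟩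
  · refine cc_smooth hP.isOpen hK hKU ?_ (vv_zero hP τ)
    exact (((cut_smooth hP τ).contDiffOn).mul (Real.contDiff_exp.comp_contDiffOn hP.smPsi.neg)).smul
      contDiffOn_const
  · refine (closure_minimal ?_ hK.isClosed).trans hKU
    intro z hz
    by_contra h
    exact hz (vv_zero hP τ z h)

private theorem vv_bop (τ : ℝ) {z : E n} (hz : z ∈ U) : Bop g (Idf n) (vv U Ψ τ) z =
    Real.exp (-Ψ z) • clV (grd (cut U Ψ τ) z) (w0 n) := by
  have hc : HasFDerivAt (cut U Ψ τ) (fderiv ℝ (cut U Ψ τ) z) z :=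
    (((cut_smooth hP τ).differentiable (by norm_num)) z).hasFDerivAt
  have he : HasFDerivAt (fun z => Real.exp (-Ψ z)) (Real.exp (-Ψ z) • -(innerSL ℝ (g z))) z :=
    (hP.dPsi z hz).neg.exp
  have hu := (hc.mul he).smul_const (w0 n)
  have hf : fderiv ℝ (vv U Ψ τ) z = _ := hu.fderiv
  unfold Bop Dop
  rw [hf, clV_apply]
  have h1 : gamV (g z) (vv U Ψ τ z) = (cut U Ψ τ z * Real.exp (-Ψ z)) • ∑ i, (g z) i • cl i (w0 n) := by
    unfold vv
    rw [map_smul, ← clV_w0, clV_apply]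
  rw [h1, Finset.smul_sum, Finset.smul_sum, ← Finset.sum_add_distrib]
  refine Finset.sum_congr rfl fun j _ => ?_
  have h2 : (innerSL ℝ (g z)) (eb j) = (g z) j := by
    rw [innerSL_apply_apply]
    unfold eb
    rw [real_inner_comm, EuclideanSpace.inner_single_left]
    simp
  have h3 : grd (cut U Ψ τ) z j = fderiv ℝ (cut U Ψ τ) z (eb j) := rfl
  have h4 : Idf n z (eb j) = eb j := rfl
  rw [h3, h4]
  simp only [ContinuousLinearMap.smulRight_apply, ContinuousLinearMap.add_apply,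
    ContinuousLinearMap.smul_apply, ContinuousLinearMap.neg_apply, smul_eq_mul, map_smul, h2]
  module

private theorem vv_norm (τ : ℝ) (z : E n) : ‖vv U Ψ τ z‖ = cut U Ψ τ z * Real.exp (-Ψ z) := by
  unfold vv
  rw [norm_smul, norm_w0, mul_one, Real.norm_of_nonneg (mul_nonneg (cut_nonneg hP τ z) (Real.exp_pos _).le)]

end

theorem vacuum (hn : 1 ≤ n) {U : Set (E n)} {Ψ : E n → ℝ} {g : E n → E n} {H : E n → E n →L[ℝ] E n} {eps : ℝ}
    (he0 : 0 ≤ eps) (he : eps ≤ 1) (hP : PsiOK U Ψ g H eps) :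
    ∃ (u : ℕ → TstE U) (κ M : ℝ), 0 < κ ∧ (∀ j, κ ≤ Jsq g (u j : E n → W n)) ∧
      (∀ j, ∫ z, ‖(u j : E n → W n) z‖ ^ 2 ≤ M) ∧
      Tendsto (fun j => ∫ z, ‖Bop g (Idf n) (u j : E n → W n) z‖ ^ 2) atTop (𝓝 0) := by
  obtain ⟨j0, hj0⟩ := exists_nat_ge (Ψ 0 + 2)
  obtain ⟨C, hC⟩ := hP.grow
  have hΨ0 := hP.nonneg 0 hP.mem0
  have hC0 : 0 ≤ C := by
    have h1 := hC 0 hP.mem0
    have h2 : 0 ≤ ‖g 0‖ ^ 2 := sq_nonneg _
    by_contra hneg
    rw [not_le] at hneg
    have h3 : C * Real.exp (eps * Ψ 0) < 0 := mul_neg_of_neg_of_pos hneg (Real.exp_pos _)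
    linarith
  have hUm : MeasurableSet U := hP.isOpen.measurableSet
  have hUf : volume U < ⊤ := hP.bdd.measure_lt_top
  have hgc : ContinuousOn g U := hP.smg.continuousOn
  have hIc : ContinuousOn (Idf n) U := continuousOn_const
  set u : ℕ → TstE U := fun j => ⟨vv U Ψ ((j : ℝ) + j0), vv_tst hP _⟩ with hu
  have hut : ∀ j, (u j : E n → W n) ∈ Tst U := fun j => (u j).2.1
  have huv : ∀ j, (u j : E n → W n) = vv U Ψ ((j : ℝ) + j0) := fun j => rfl
  -- the open set near the origin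
  set V : Set (E n) := U ∩ Ψ ⁻¹' Iio (Ψ 0 + 1) with hV
  have hVo : IsOpen V := hP.smPsi.continuousOn.isOpen_inter_preimage hP.isOpen isOpen_Iio
  have h0V : (0 : E n) ∈ V := ⟨hP.mem0, by show Ψ 0 < Ψ 0 + 1; linarith⟩
  have hVu : ∀ j, ∀ z ∈ V, (u j : E n → W n) z = Real.exp (-Ψ z) • w0 n := by
    intro j z hz
    rw [huv]
    unfold vv
    have h1 : Ψ z < Ψ 0 + 1 := hz.2
    have h2 : (0 : ℝ) ≤ j := Nat.cast_nonneg j
    rw [cut_one hP _ hz.1 (by linarith), one_mul]
  set κ : ℝ := ∫ z in V, ‖g z‖ ^ 2 * ‖(u 0 : E n → W n) z‖ ^ 2 with hκ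
  refine ⟨u, κ, volume.real U, ?_, ?_, ?_, ?_⟩
  · -- positivity
    have hcont : Continuous fun z => ‖g z‖ ^ 2 * ‖(u 0 : E n → W n) z‖ ^ 2 := by
      refine cc_cont hP.isOpen (hP.proper (((0 : ℕ) : ℝ) + j0)) (fun z hz => hz.1) ?_ fun z hz => ?_
      · exact (hgc.norm.pow 2).mul (((hut 0).1.continuous.continuousOn).norm.pow 2)
      · rw [huv, vv_zero hP _ z hz, norm_zero]
        ring
    have hint := gu_int hP.isOpen hgc (hut 0)
    rw [hκ, setIntegral_pos_iff_support_of_nonneg_ae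
      (Eventually.of_forall fun z => mul_nonneg (sq_nonneg _) (sq_nonneg _)) hint.integrableOn]
    refine (hcont.isOpen_support.inter hVo).measure_pos volume ?_
    by_contra hne
    rw [not_nonempty_iff_eq_empty] at hne
    have hg0 : ∀ z ∈ V, g z = 0 := by
      intro z hz
      by_contra hgz
      have h1 : z ∈ Function.support (fun z => ‖g z‖ ^ 2 * ‖(u 0 : E n → W n) z‖ ^ 2) ∩ V := by
        refine ⟨?_, hz⟩
        rw [Function.mem_support, hVu 0 z hz, norm_smul, norm_w0, mul_one]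
        have h2 : ‖g z‖ ≠ 0 := norm_ne_zero_iff.2 hgz
        have h3 : ‖Real.exp (-Ψ z)‖ ≠ 0 := norm_ne_zero_iff.2 (Real.exp_ne_zero _)
        exact mul_ne_zero (pow_ne_zero 2 h2) (pow_ne_zero 2 h3)
      rw [hne] at h1
      exact h1
    have hev : g =ᶠ[𝓝 0] fun _ => 0 := by
      filter_upwards [hVo.mem_nhds h0V] with z hz
      exact hg0 z hz
    have hd1 : HasFDerivAt g (0 : E n →L[ℝ] E n) 0 := (hasFDerivAt_const (0 : E n) (0 : E n)).congr_of_eventuallyEq hev
    have hH : H 0 = 0 := (hP.dg 0 hP.mem0).unique hd1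
    obtain ⟨δ, hδ, hδc⟩ := hP.conv
    have h1 := hδc 0 hP.mem0 (eb (⟨0, hn⟩ : Fin n))
    rw [hH, ContinuousLinearMap.zero_apply, inner_zero_left] at h1
    have h2 : ‖(eb (⟨0, hn⟩ : Fin n) : E n)‖ = 1 := by
      unfold eb
      rw [EuclideanSpace.norm_single, norm_one]
    rw [h2] at h1
    linarith
  · intro j
    have hint := gu_int hP.isOpen hgc (hut j)
    have hint2 := (gsq_int hP.isOpen hIc (hut j)).2
    calc κ = ∫ z in V, ‖g z‖ ^ 2 * ‖(u j : E n → W n) z‖ ^ 2 := by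
          refine setIntegral_congr_fun hVo.measurableSet fun z hz => ?_
          show ‖g z‖ ^ 2 * ‖(u 0 : E n → W n) z‖ ^ 2 = ‖g z‖ ^ 2 * ‖(u j : E n → W n) z‖ ^ 2
          rw [hVu 0 z hz, hVu j z hz]
      _ ≤ ∫ z, ‖g z‖ ^ 2 * ‖(u j : E n → W n) z‖ ^ 2 :=
          setIntegral_le_integral hint (Eventually.of_forall fun z => mul_nonneg (sq_nonneg _) (sq_nonneg _))
      _ ≤ Jsq g (u j : E n → W n) := by
          unfold Jsq
          refine integral_mono hint (hint2.add hint) fun z => ?_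
          show ‖g z‖ ^ 2 * ‖(u j : E n → W n) z‖ ^ 2 ≤
            gsq (Idf n) (u j : E n → W n) z + ‖g z‖ ^ 2 * ‖(u j : E n → W n) z‖ ^ 2
          have : 0 ≤ gsq (Idf n) (u j : E n → W n) z := Finset.sum_nonneg fun i _ => sq_nonneg _
          linarith
  · intro j
    have h1 : ∫ z, ‖(u j : E n → W n) z‖ ^ 2 ≤ ∫ z, U.indicator (fun _ => (1 : ℝ)) z := by
      refine integral_mono (usq_int (hut j)) ?_ fun z => ?_
      · exact (integrable_indicator_iff hUm).2 (integrableOn_const hUf.ne)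
      · show ‖(u j : E n → W n) z‖ ^ 2 ≤ U.indicator (fun _ => (1 : ℝ)) z
        by_cases hz : z ∈ U
        · rw [indicator_of_mem hz, huv, vv_norm hP]
          have h2 := cut_nonneg hP ((j : ℝ) + j0) z
          have h3 := cut_le hP ((j : ℝ) + j0) z
          have h4 : Real.exp (-Ψ z) ≤ 1 := Real.exp_le_one_iff.2 (by linarith [hP.nonneg z hz])
          have h5 := (Real.exp_pos (-Ψ z)).le
          have h6 : cut U Ψ ((j : ℝ) + j0) z * Real.exp (-Ψ z) ≤ 1 := mul_le_one₀ h3 h5 h4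
          exact pow_le_one₀ (mul_nonneg h2 h5) h6
        · rw [indicator_of_notMem hz, huv, vv_zero hP _ z (fun h => hz h.1), norm_zero]
          norm_num
    refine h1.trans (le_of_eq ?_)
    rw [integral_indicator hUm, setIntegral_const, smul_eq_mul, mul_one]
  · -- the energy tends to zero
    have hbd : ∀ j : ℕ, ∫ z, ‖Bop g (Idf n) (u j : E n → W n) z‖ ^ 2 ≤
        thC * C * Real.exp (-((j : ℝ) + j0 - 1)) * volume.real U := by
      intro j
      have hτ : 0 ≤ (j : ℝ) + j0 - 1 := by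
        have h2 : (0 : ℝ) ≤ j := Nat.cast_nonneg j
        linarith
      have hA : 0 ≤ thC * C * Real.exp (-((j : ℝ) + j0 - 1)) :=
        mul_nonneg (mul_nonneg thC_pos.le hC0) (Real.exp_pos _).le
      have h1 : ∫ z, ‖Bop g (Idf n) (u j : E n → W n) z‖ ^ 2 ≤
          ∫ z, U.indicator (fun _ => thC * C * Real.exp (-((j : ℝ) + j0 - 1))) z := by
        refine integral_mono (Bsq_int hP.isOpen hgc hIc (hut j)) ?_ fun z => ?_
        · exact (integrable_indicator_iff hUm).2 (integrableOn_const hUf.ne)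
        · show ‖Bop g (Idf n) (u j : E n → W n) z‖ ^ 2 ≤
            U.indicator (fun _ => thC * C * Real.exp (-((j : ℝ) + j0 - 1))) z
          by_cases hz : z ∈ U
          · rw [indicator_of_mem hz, huv, vv_bop hP _ hz, norm_smul, norm_clV, norm_w0, mul_one,
              Real.norm_of_nonneg (Real.exp_pos _).le, mul_pow]
            by_cases hlt : Ψ z < (j : ℝ) + j0 - 1
            · rw [cut_grd_zero hP _ (Or.inr (Or.inl hlt)), norm_zero]
              simpa using hA
            · rw [not_lt] at hlt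
              have h2 := cut_grd_le hP ((j : ℝ) + j0) z
              have h3 := hC z hz
              have h4 : Real.exp (-Ψ z) ^ 2 * Real.exp (eps * Ψ z) ≤ Real.exp (-((j : ℝ) + j0 - 1)) := by
                rw [← Real.exp_nat_mul, ← Real.exp_add]
                apply Real.exp_le_exp.2
                have h5 : eps * Ψ z ≤ 1 * Ψ z := mul_le_mul_of_nonneg_right he (hP.nonneg z hz)
                push_cast
                linarith
              calc Real.exp (-Ψ z) ^ 2 * ‖grd (cut U Ψ ((j : ℝ) + j0)) z‖ ^ 2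
                  ≤ Real.exp (-Ψ z) ^ 2 * (thC * ‖g z‖ ^ 2) :=
                    mul_le_mul_of_nonneg_left h2 (sq_nonneg _)
                _ ≤ Real.exp (-Ψ z) ^ 2 * (thC * (C * Real.exp (eps * Ψ z))) :=
                    mul_le_mul_of_nonneg_left (mul_le_mul_of_nonneg_left h3 thC_pos.le) (sq_nonneg _)
                _ = thC * C * (Real.exp (-Ψ z) ^ 2 * Real.exp (eps * Ψ z)) := by ring
                _ ≤ thC * C * Real.exp (-((j : ℝ) + j0 - 1)) :=
                    mul_le_mul_of_nonneg_left h4 (mul_nonneg thC_pos.le hC0)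
          · rw [indicator_of_notMem hz, Bop_zero (fun h => hz ((hut j).2.2 h)), norm_zero]
            norm_num
      refine h1.trans (le_of_eq ?_)
      rw [integral_indicator hUm, setIntegral_const, smul_eq_mul, mul_comm]
    refine squeeze_zero (fun j => integral_nonneg fun z => sq_nonneg _) hbd ?_
    have h1 : Tendsto (fun j : ℕ => (j : ℝ) + j0 - 1) atTop atTop := by
      have h2 : Tendsto (fun j : ℕ => (j : ℝ) + ((j0 : ℝ) - 1)) atTop atTop :=
        tendsto_natCast_atTop_atTop.atTop_add tendsto_const_nhds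
      refine h2.congr fun j => ?_
      ring
    have h2 : Tendsto (fun j : ℕ => Real.exp (-((j : ℝ) + j0 - 1))) atTop (𝓝 0) :=
      Real.tendsto_exp_neg_atTop_nhds_zero.comp h1
    have h3 := (h2.const_mul (thC * C)).mul_const (volume.real U)
    rw [mul_zero, zero_mul] at h3
    exact h3

end Pool.Agent.FCI
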