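import Pool.Agent.FCI.FaM
import Pool.Agent.FCI.Ops
import Pool.Agent.FCI.Clo
import Pool.Agent.FCI.Sta
import Pool.Agent.FCI.Den
import Pool.Agent.FCI.Vac
import Pool.Agent.FCI.Pol
import Pool.Agent.FCI.Pta
import Pool.Agent.FCI.Ptb
import Pool.Agent.FCI.PsiB
import Pool.Agent.FCI.Rel
import Pool.Agent.FCI.Apr
import Pool.Agent.FCI.PotD

/-!
# FCI-Eng: the flat cube inequality (assembly)
-/

open scoped BigOperators Topology ContDiff ENNReal
open MeasureTheory Filter Set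

namespace Pool.Agent.FCI

open Pool.Agent.TUB (E jw)

noncomputable section

variable {n : ℕ}

private theorem Sop_congr {U : Set (E n)} {g : E n → E n} {G G' : E n → E n →L[ℝ] E n} (h : Cn U g G)
    (h' : Cn U g G') (e : G = G') : Sop h = Sop h' := by
  subst e
  rfl

private theorem gsq_nonneg (G : E n → E n →L[ℝ] E n) (u : E n → W n) (z : E n) : 0 ≤ gsq G u z :=
  Finset.sum_nonneg fun _ _ => by positivity

private theorem idf_cont (U : Set (E n)) : ContinuousOn (Idf n) U := continuousOn_const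

private theorem gsq_le_J {U : Set (E n)} (hU : IsOpen U) {g : E n → E n} (hg : ContinuousOn g U) {u : E n → W n}
    (hu : u ∈ Tst U) : ∫ z, gsq (Idf n) u z ≤ Jsq g u := by
  unfold Jsq
  refine integral_mono (gsq_int hU (idf_cont U) hu).2 ((gsq_int hU (idf_cont U) hu).2.add (gu_int hU hg hu)) ?_
  intro z
  have : 0 ≤ ‖g z‖ ^ 2 * ‖u z‖ ^ 2 := by positivity
  simp only
  linarith

private theorem J_nonneg (g : E n → E n) (u : E n → W n) : 0 ≤ Jsq g u :=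
  integral_nonneg fun z => add_nonneg (gsq_nonneg _ _ _) (by positivity)

/-- Combination of the a priori estimate and Rellich's lemma. -/
private theorem J_bound {U : Set (E n)} {g : E n → E n} {G : E n → E n →L[ℝ] E n} (h : Cn U g G)
    {C ε : ℝ} (hC : 0 < C) (hε : ε * C ≤ 1 / 2) (hε0 : 0 ≤ ε)
    {N : ℕ} {K : (TstE U) →ₗ[ℝ] EuclideanSpace ℝ (Fin N)}
    (hK : ∀ u : TstE U, ∫ z, ‖(u : E n → W n) z‖ ^ 2 ≤ ε * (∫ z, gsq (Idf n) (u : E n → W n) z) + ‖K u‖ ^ 2)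
    (ha : ∀ u ∈ Tst U, Jsq g u ≤ C * ((∫ z, ‖Bop g G u z‖ ^ 2) + ∫ z, ‖u z‖ ^ 2)) (u : TstE U) :
    Real.sqrt (Jsq g u) ≤ Real.sqrt (2 * C) * (‖Sop h u‖ + ‖K u‖) := by
  have h1 := ha u u.2.1
  have h2 := hK u
  have h3 := gsq_le_J h.isOpen h.cg u.2.1
  rw [← Sop_norm h u] at h1
  have h4 : Jsq g u ≤ 2 * C * (‖Sop h u‖ ^ 2 + ‖K u‖ ^ 2) := by
    have h5 : C * ∫ z, ‖(u : E n → W n) z‖ ^ 2 ≤ C * (ε * Jsq g u + ‖K u‖ ^ 2) := by
      refine mul_le_mul_of_nonneg_left (h2.trans ?_) hC.le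
      have := mul_le_mul_of_nonneg_left h3 hε0
      linarith
    have h6 : C * (ε * Jsq g u) ≤ 1 / 2 * Jsq g u := by
      have := mul_le_mul_of_nonneg_right hε (J_nonneg g u)
      linarith
    nlinarith
  have h7 : ‖Sop h u‖ ^ 2 + ‖K u‖ ^ 2 ≤ (‖Sop h u‖ + ‖K u‖) ^ 2 := by
    have := mul_nonneg (norm_nonneg (Sop h u)) (norm_nonneg (K u))
    nlinarith
  have h8 : Jsq g u ≤ 2 * C * (‖Sop h u‖ + ‖K u‖) ^ 2 :=
    h4.trans (mul_le_mul_of_nonneg_left h7 (by positivity))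
  calc Real.sqrt (Jsq g u) ≤ Real.sqrt (2 * C * (‖Sop h u‖ + ‖K u‖) ^ 2) := Real.sqrt_le_sqrt h8
    _ = Real.sqrt (2 * C) * (‖Sop h u‖ + ‖K u‖) := by
        rw [Real.sqrt_mul (by positivity), Real.sqrt_sq (by positivity)]

private theorem S_close {U : Set (E n)} {g : E n → E n} {G G' : E n → E n →L[ℝ] E n} (h : Cn U g G)
    (h' : Cn U g G') {δ : ℝ} (hδ : 0 ≤ δ) (hG : ∀ z ∈ U, ‖G z - G' z‖ ≤ δ) (u : TstE U) :
    ‖Sop h u - Sop h' u‖ ≤ n * δ * Real.sqrt (Jsq g u) := by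
  have h1 := bop_close (g := g) h.isOpen h.cG h'.cG hδ hG u.2.1
  rw [← Sop_sub h h' u] at h1
  have h2 := gsq_le_J h.isOpen h.cg u.2.1
  have h3 : ‖Sop h u - Sop h' u‖ ^ 2 ≤ (n * δ) ^ 2 * Jsq g u :=
    h1.trans (mul_le_mul_of_nonneg_left h2 (by positivity))
  refine le_of_sq_le_sq ?_ (by positivity)
  rw [mul_pow, Real.sq_sqrt (J_nonneg g u)]
  exact h3

/-- The core of the flat cube inequality, for a frame already rotated. -/
private theorem core (hn : 1 ≤ n) {β : Type} [Fintype β] [DecidableEq β] {b : Fin n → β}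
    {a : β → ℝ} (ha : ∀ j, 0 < a j) {O : Set (E n)} (hO : IsOpen O) (hKO : Kb b a ⊆ O) {F : E n → E n}
    (hF : ContDiffOn ℝ ∞ F O) (hblk : ∀ z ∈ Kb b a, ∀ v, ∀ j, sq b v j ≤ ‖fderiv ℝ F z v‖ ^ 2)
    (hpos : ∀ p, p ≠ 0 → 0 < inner ℝ p (fderiv ℝ F 0 p))
    {R : ℝ} (hR : 0 < R) (hbd : ∀ z ∈ Ub b a, ‖F z‖ < R) {L : β → ℝ} {eps : ℝ} (he0 : 0 < eps) (he1 : eps ≤ 1)
    (hsmall : Real.exp eps < 1 + 1 / (2 * thC)) {P : β → ℝ → ℝ}
    (hP : ∀ j, Pot (bsz b j) (a j) (L j) eps (P j)) (hlt : ∑ j, L j < jw n / R ^ 2) : False := by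
  obtain ⟨G, LA, hLA, hFG, hBd, hpath, hlip⟩ := path_scale ha hO hKO hF hblk
  set U := Ub b a with hUdef
  have hU : IsOpen U := Ub_isOpen b a
  have hok := psi_ok ha he0.le hP
  set g := gr b P with hgdef
  set H := hs b P with hHdef
  have h0U : (0 : E n) ∈ U := Ub_zero ha
  have hg : ContinuousOn g U := hok.smg.continuousOn
  -- the linear path
  have hT : ∀ p, p ≠ 0 → 0 < inner ℝ p (G 0 p) := by
    intro p hp
    have h1 := hFG.inv1 0 h0U p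
    have h2 : G 0 p ≠ 0 := by
      intro h
      rw [h, map_zero] at h1
      exact hp h1.symm
    have h3 := hpos (G 0 p) h2
    rw [h1] at h3
    rwa [real_inner_comm]
  have hTb : ∀ v j, sq b (G 0 v) j ≤ ‖v‖ ^ 2 := by
    intro v j
    have := (hpath 0 ⟨le_rfl, zero_le_one⟩).2 0 h0U v j
    simpa using this
  obtain ⟨LB, hLB, hpathB, hlipB⟩ := path_lin b U hT hTb
  obtain ⟨C1, hC1, hhalf⟩ := low_half hP
  obtain ⟨CA, hCA, hapA⟩ := apriori (n := n) LA C1 hC1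
  obtain ⟨CB, hCB, hapB⟩ := apriori (n := n) LB C1 hC1
  set C := max CA CB with hCdef
  have hC : 0 < C := lt_max_of_lt_left hCA
  obtain ⟨N, K, hK1, hK2⟩ := rellich hok.bdd (ε := 1 / (2 * C)) (by positivity)
  -- the operators
  have hcA : ∀ s ∈ Icc (0 : ℝ) 1, Cn U g (fun z => G (s • z)) := fun s hs =>
    ⟨hU, hg, by
      obtain ⟨⟨Fs, h1, _⟩, _⟩ := hpath s hs
      exact h1.smG.continuousOn⟩
  have hcB : ∀ s : ℝ, Cn U g (fun _ => (1 - s) • G 0 + s • ContinuousLinearMap.id ℝ (E n)) := fun s =>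
    ⟨hU, hg, continuousOn_const⟩
  classical
  let SA : ℝ → (TstE U →ₗ[ℝ] Yh U) := fun s => if h : s ∈ Icc (0 : ℝ) 1 then Sop (hcA s h) else 0
  let SB : ℝ → (TstE U →ₗ[ℝ] Yh U) := fun s => Sop (hcB s)
  have eA : ∀ s (h : s ∈ Icc (0 : ℝ) 1), SA s = Sop (hcA s h) := fun s h => dif_pos h
  have hCle : ∀ {C' : ℝ}, C' ≤ C → ∀ {G' : E n → E n →L[ℝ] E n},
      (∀ u ∈ Tst U, Jsq g u ≤ C' * ((∫ z, ‖Bop g G' u z‖ ^ 2) + ∫ z, ‖u z‖ ^ 2)) →
      (∀ u ∈ Tst U, Jsq g u ≤ C * ((∫ z, ‖Bop g G' u z‖ ^ 2) + ∫ z, ‖u z‖ ^ 2)) := by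
    intro C' hC' G' h u hu
    refine (h u hu).trans (mul_le_mul_of_nonneg_right hC' ?_)
    exact add_nonneg (integral_nonneg fun _ => by positivity) (integral_nonneg fun _ => by positivity)
  have hεC : 1 / (2 * C) * C ≤ 1 / 2 := by
    rw [div_mul_eq_mul_div, one_mul, div_le_iff₀ (by positivity)]
    linarith
  have hJA : ∀ s ∈ Icc (0 : ℝ) 1, ∀ u : TstE U, Real.sqrt (Jsq g u) ≤ Real.sqrt (2 * C) * (‖SA s u‖ + ‖K u‖) := by
    intro s hs u
    rw [eA s hs]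
    obtain ⟨⟨Fs, h1, h2⟩, h3⟩ := hpath s hs
    exact J_bound (hcA s hs) hC hεC (by positivity) hK1
      (hCle (le_max_left _ _) (fun u hu => hapA U Fs _ H g hU h1 h2 hok.smg hok.dg (hhalf _ h3) u hu)) u
  have hJB : ∀ s ∈ Icc (0 : ℝ) 1, ∀ u : TstE U, Real.sqrt (Jsq g u) ≤ Real.sqrt (2 * C) * (‖SB s u‖ + ‖K u‖) := by
    intro s hs u
    obtain ⟨⟨Fs, h1, h2⟩, h3⟩ := hpathB s hs
    exact J_bound (hcB s) hC hεC (by positivity) hK1
      (hCle (le_max_right _ _) (fun u hu => hapB U Fs _ H g hU h1 h2 hok.smg hok.dg (hhalf _ h3) u hu)) u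
  set LL := n * max LA LB with hLL
  have hLL0 : 0 ≤ LL := by
    have : 0 ≤ max LA LB := hLA.le.trans (le_max_left _ _)
    positivity
  have hSA : ∀ s ∈ Icc (0 : ℝ) 1, ∀ t ∈ Icc (0 : ℝ) 1, ∀ u : TstE U,
      ‖SA s u - SA t u‖ ≤ LL * |s - t| * Real.sqrt (Jsq g u) := by
    intro s hs t ht u
    rw [eA s hs, eA t ht]
    refine (S_close (hcA s hs) (hcA t ht) (δ := LA * |s - t|) (by positivity)
      (fun z hz => hlip s hs t ht z hz) u).trans ?_
    refine mul_le_mul_of_nonneg_right ?_ (Real.sqrt_nonneg _)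
    rw [hLL, mul_assoc]
    refine mul_le_mul_of_nonneg_left ?_ (Nat.cast_nonneg n)
    exact mul_le_mul_of_nonneg_right (le_max_left _ _) (abs_nonneg _)
  have hSB : ∀ s ∈ Icc (0 : ℝ) 1, ∀ t ∈ Icc (0 : ℝ) 1, ∀ u : TstE U,
      ‖SB s u - SB t u‖ ≤ LL * |s - t| * Real.sqrt (Jsq g u) := by
    intro s hs t ht u
    refine (S_close (hcB s) (hcB t) (δ := LB * |s - t|) (by positivity)
      (fun z _ => hlipB s hs t ht) u).trans ?_
    refine mul_le_mul_of_nonneg_right ?_ (Real.sqrt_nonneg _)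
    rw [hLL, mul_assoc]
    refine mul_le_mul_of_nonneg_left ?_ (Nat.cast_nonneg n)
    exact mul_le_mul_of_nonneg_right (le_max_right _ _) (abs_nonneg _)
  have z01 : (0 : ℝ) ∈ Icc (0 : ℝ) 1 := ⟨le_rfl, zero_le_one⟩
  have o01 : (1 : ℝ) ∈ Icc (0 : ℝ) 1 := ⟨zero_le_one, le_rfl⟩
  have hj : SA 0 = SB 0 := by
    rw [eA 0 z01]
    refine Sop_congr _ _ ?_
    funext z
    show G ((0 : ℝ) • z) = (1 - (0 : ℝ)) • G 0 + (0 : ℝ) • ContinuousLinearMap.id ℝ (E n)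
    rw [zero_smul]
    refine ContinuousLinearMap.ext fun v => ?_
    show G 0 v = (1 - (0 : ℝ)) • G 0 v + (0 : ℝ) • v
    rw [zero_smul, sub_zero, one_smul, add_zero]
  -- start
  have hbk : ∀ z ∈ U, ∀ w : W n, -(∑ j, L j) * ‖w‖ ^ 2 ≤ ‖g z‖ ^ 2 * ‖w‖ ^ 2 + inner ℝ w (Qop G H z w) := by
    intro z hz w
    have h1 : Blk b (Ub b a) G := by
      have := (hpath 1 o01).2
      simpa using this
    exact low_tot hP h1 hz w
  obtain ⟨c, hc, hst⟩ := start_est hn hU hFG hBd hok.smg hok.dg hR hbd hlt hbk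
  have hKs : ∀ u, ‖K u‖ ≤ Real.sqrt c⁻¹ * ‖SA 1 u‖ := by
    intro u
    have h1 : ‖K u‖ ^ 2 ≤ c⁻¹ * ‖SA 1 u‖ ^ 2 := by
      have h2 := hst u u.2.1
      have h3 := hK2 u
      have h4 : ‖SA 1 u‖ ^ 2 = ∫ z, ‖Bop g G (u : E n → W n) z‖ ^ 2 := by
        rw [eA 1 o01, Sop_norm]
        simp
      rw [h4, inv_mul_eq_div, le_div_iff₀ hc, mul_comm]
      exact (mul_le_mul_of_nonneg_left h3 hc.le).trans h2
    refine le_of_sq_le_sq ?_ (by positivity)
    rw [mul_pow, Real.sq_sqrt (by positivity)]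
    exact h1
  -- end
  have hBid : (fun _ : E n => (1 - (1 : ℝ)) • G 0 + (1 : ℝ) • ContinuousLinearMap.id ℝ (E n)) = Idf n := by
    funext z
    show (1 - (1 : ℝ)) • G 0 + (1 : ℝ) • ContinuousLinearMap.id ℝ (E n) = ContinuousLinearMap.id ℝ (E n)
    refine ContinuousLinearMap.ext fun v => ?_
    show (1 - (1 : ℝ)) • G 0 v + (1 : ℝ) • v = v
    rw [sub_self, zero_smul, one_smul, zero_add]
  have hcI : Cn U g (Idf n) := ⟨hU, hg, idf_cont U⟩
  have eB : SB 1 = Sop hcI := Sop_congr _ _ hBid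
  have hdense : ∀ v : Yh U, (∀ u, inner ℝ v (SB 1 u) = 0) → v = 0 := by
    intro v hv
    rw [eB] at hv
    exact dense_end he0.le hsmall hok hcI v hv
  obtain ⟨u, κ, M, hκ, hu1, hu2, hu3⟩ := vacuum hn he0.le he1 hok
  refine fa_main SA SB K (fun u => Real.sqrt (Jsq g u)) (C := Real.sqrt (2 * C)) (L := LL) (C1 := Real.sqrt c⁻¹)
    (κ := Real.sqrt κ) (M := Real.sqrt M) (Real.sqrt_nonneg _) hLL0 hJA hJB hSA hSB hj hKs hdense
    (Real.sqrt_pos.2 hκ) u (fun j => Real.sqrt_le_sqrt (hu1 j)) (fun j => ?_) ?_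
  · rw [← Real.sqrt_sq (norm_nonneg (K (u j)))]
    exact Real.sqrt_le_sqrt ((hK2 (u j)).trans (hu2 j))
  · have h1 : (fun j => ‖SB 1 (u j)‖) = fun j => Real.sqrt (∫ z, ‖Bop g (Idf n) (u j : E n → W n) z‖ ^ 2) := by
      funext j
      rw [eB, ← Sop_norm hcI, Real.sqrt_sq (norm_nonneg _)]
    rw [h1, ← Real.sqrt_zero]
    exact (Real.continuous_sqrt.tendsto 0).comp hu3

/-- The flat cube inequality, for a surjective block map. -/
theorem flat_core (hn : 1 ≤ n) {β : Type} [Fintype β] [DecidableEq β] {b : Fin n → β}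
    (hsurj : Function.Surjective b) {a : β → ℝ} (ha : ∀ j, 0 < a j) {O : Set (E n)} (hO : IsOpen O)
    (hKO : Kb b a ⊆ O) {F : E n → E n} (hF : ContDiffOn ℝ ∞ F O)
    (hblk : ∀ z ∈ Kb b a, ∀ v, ∀ j, sq b v j ≤ ‖fderiv ℝ F z v‖ ^ 2)
    {R : ℝ} (hR : 0 < R) (hbd : ∀ z ∈ Ub b a, ‖F z‖ ≤ R) :
    jw n / R ^ 2 ≤ ∑ j, jw (bsz b j) / a j ^ 2 := by
  by_contra hcon
  push Not at hcon
  -- a slightly larger radius
  obtain ⟨R', hR1, hR2⟩ : ∃ R' : ℝ, R < R' ∧ ∑ j, jw (bsz b j) / a j ^ 2 < jw n / R' ^ 2 := by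
    have hct : ContinuousAt (fun r : ℝ => jw n / r ^ 2) R :=
      continuousAt_const.div (continuousAt_id.pow 2) (by positivity)
    have h1 : ∀ᶠ r in 𝓝 R, ∑ j, jw (bsz b j) / a j ^ 2 < jw n / r ^ 2 := hct.eventually_const_lt hcon
    have h2 : ∀ᶠ r in 𝓝[>] R, ∑ j, jw (bsz b j) / a j ^ 2 < jw n / r ^ 2 := h1.filter_mono nhdsWithin_le_nhds
    obtain ⟨r, hr1, hr2⟩ := (h2.and self_mem_nhdsWithin).exists
    exact ⟨r, hr2, hr1⟩
  have hR' : 0 < R' := hR.trans hR1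
  set gap := jw n / R' ^ 2 - ∑ j, jw (bsz b j) / a j ^ 2 with hgap
  have hgap0 : 0 < gap := by rw [hgap]; linarith
  set d := gap / (Fintype.card β + 1) with hd
  have hd0 : 0 < d := by rw [hd]; positivity
  let L : β → ℝ := fun j => jw (bsz b j) / a j ^ 2 + d
  have hLsum : ∑ j, L j < jw n / R' ^ 2 := by
    simp only [L, Finset.sum_add_distrib, Finset.sum_const, Finset.card_univ, nsmul_eq_mul]
    have h1 : (Fintype.card β : ℝ) * d < gap := by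
      rw [hd, mul_div_assoc', div_lt_iff₀ (by positivity)]
      nlinarith
    linarith
  obtain ⟨eps, he0, he1, hsmall⟩ : ∃ eps : ℝ, 0 < eps ∧ eps ≤ 1 ∧ Real.exp eps < 1 + 1 / (2 * thC) := by
    have hth := thC_pos
    have h1 : ∀ᶠ x in 𝓝 (0 : ℝ), Real.exp x < 1 + 1 / (2 * thC) := by
      refine Real.continuous_exp.continuousAt.eventually_lt_const ?_
      rw [Real.exp_zero]
      have : 0 < 1 / (2 * thC) := by positivity
      linarith
    have h2 : ∀ᶠ x in 𝓝[>] (0 : ℝ), Real.exp x < 1 + 1 / (2 * thC) := h1.filter_mono nhdsWithin_le_nhds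
    have h3 : ∀ᶠ x in 𝓝[>] (0 : ℝ), x ≤ 1 :=
      (eventually_le_nhds (show (0 : ℝ) < 1 by norm_num)).filter_mono nhdsWithin_le_nhds
    obtain ⟨x, ⟨hx1, hx2⟩, hx3⟩ := ((h2.and h3).and self_mem_nhdsWithin).exists
    exact ⟨x, hx3, hx2, hx1⟩
  have hbsz : ∀ j, 1 ≤ bsz b j := by
    intro j
    obtain ⟨i, hi⟩ := hsurj j
    exact Finset.card_pos.2 ⟨i, by simp [hi]⟩
  have hpot : ∀ j, ∃ P : ℝ → ℝ, Pot (bsz b j) (a j) (L j) eps P := fun j =>
    pot_exists (hbsz j) (ha j) (by simp only [L]; linarith) he0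
  choose P hP using hpot
  -- rotate
  have h0K : (0 : E n) ∈ Kb b a := fun j => by
    have : sq b (0 : E n) j = 0 := by simp [sq]
    rw [this]
    positivity
  have hinj : Function.Injective (fderiv ℝ F 0) := by
    rw [injective_iff_map_eq_zero]
    intro v hv
    have h1 : ‖v‖ ^ 2 ≤ 0 := by
      rw [← sq_sum b v]
      refine Finset.sum_nonpos fun j _ => ?_
      have := hblk 0 h0K v j
      rwa [hv, norm_zero, zero_pow two_ne_zero] at this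
    have h2 : ‖v‖ = 0 := by
      have := sq_nonneg ‖v‖
      exact pow_eq_zero_iff two_ne_zero |>.1 (le_antisymm h1 this)
    exact norm_eq_zero.1 h2
  obtain ⟨A, hA⟩ := polar (fderiv ℝ F 0) hinj
  have hfd : ∀ z ∈ O, ∀ v, fderiv ℝ (fun y => A (F y)) z v = A (fderiv ℝ F z v) := by
    intro z hz v
    have h1 : DifferentiableAt ℝ F z := (hF.contDiffAt (hO.mem_nhds hz)).differentiableAt (by simp)
    have h2 : HasFDerivAt (fun y => A (F y)) ((A.toContinuousLinearEquiv : E n →L[ℝ] E n).comp (fderiv ℝ F z)) z :=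
      ((A.toContinuousLinearEquiv : E n →L[ℝ] E n).hasFDerivAt).comp z h1.hasFDerivAt
    rw [h2.fderiv]
    rfl
  have h0O : (0 : E n) ∈ O := hKO h0K
  refine core hn ha hO hKO (F := fun y => A (F y)) ?_ ?_ ?_ hR' ?_ he0 he1 hsmall hP hLsum
  · exact A.toContinuousLinearEquiv.contDiff.comp_contDiffOn hF
  · intro z hz v j
    rw [hfd z (hKO hz), A.norm_map]
    exact hblk z hz v j
  · intro p hp
    rw [hfd 0 h0O]
    exact hA p hp
  · intro z hz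
    rw [A.norm_map]
    exact (hbd z hz).trans_lt hR1

end

end Pool.Agent.FCI
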