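import Pool.Agent.FCI.GDefs
import Pool.Agent.FCI.Eng

/-!
# FCI-Sca: the flat cube inequality for a general index set, with scale factors, some blocks possibly empty
-/

open scoped BigOperators Topology ContDiff
open MeasureTheory Filter Set

namespace Pool.Agent.FCI

open Pool.Agent.TUB (E jw)

/-- the scaling isomorphism -/
private noncomputable def sca {n : ℕ} {ι β : Type} [Fintype ι] (b : ι → β) (κ : β → ℝ)
    (e : Fin n ≃ ι) : E n →L[ℝ] EuclideanSpace ℝ ι :=
  LinearMap.toContinuousLinearMap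
    { toFun := fun z => WithLp.toLp 2 (fun i => z (e.symm i) / κ (b i))
      map_add' := fun v w => by
        ext i
        simp [add_div]
      map_smul' := fun r w => by
        ext i
        simp [mul_div_assoc] }

private theorem sca_apply {n : ℕ} {ι β : Type} [Fintype ι] (b : ι → β) (κ : β → ℝ)
    (e : Fin n ≃ ι) (z : E n) (i : ι) : sca b κ e z i = z (e.symm i) / κ (b i) := rfl

private theorem sca_sq {n : ℕ} {ι β : Type} [Fintype ι] [DecidableEq β] (b : ι → β) {κ : β → ℝ}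
    (e : Fin n ≃ ι) (j : {j : β // ∃ i, b i = j}) (hκ : 0 < κ j.1) (z : E n) :
    κ j.1 ^ 2 * sqI b (sca b κ e z) j.1 =
      sq (fun i => (⟨b (e i), e i, rfl⟩ : {j : β // ∃ i, b i = j})) z j := by
  unfold sqI sq
  rw [← Equiv.sum_comp e, Finset.mul_sum]
  refine Finset.sum_congr rfl fun i _ => ?_
  by_cases h : b (e i) = j.1
  · have h' : (⟨b (e i), e i, rfl⟩ : {j : β // ∃ i, b i = j}) = j := Subtype.ext h
    rw [if_pos h, if_pos h', sca_apply, Equiv.symm_apply_apply, h, div_pow]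
    field_simp
  · have h' : ¬ (⟨b (e i), e i, rfl⟩ : {j : β // ∃ i, b i = j}) = j := fun h' =>
      h (congrArg Subtype.val h')
    rw [if_neg h, if_neg h', mul_zero]

private theorem sca_out {ι β : Type} [Fintype ι] [DecidableEq β] (b : ι → β) {j : β}
    (hj : ¬ ∃ i, b i = j) (w : EuclideanSpace ℝ ι) : sqI b w j = 0 := by
  unfold sqI
  refine Finset.sum_eq_zero fun i _ => ?_
  rw [if_neg fun h => hj ⟨i, h⟩]

private theorem sca_bsz {n : ℕ} {ι β : Type} [Fintype ι] [DecidableEq β] (b : ι → β)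
    (e : Fin n ≃ ι) (j : {j : β // ∃ i, b i = j}) :
    bsz (fun i => (⟨b (e i), e i, rfl⟩ : {j : β // ∃ i, b i = j})) j = bszI b j.1 := by
  unfold bsz bszI
  rw [Finset.card_filter, Finset.card_filter, ← Equiv.sum_comp e]
  refine Finset.sum_congr rfl fun i _ => ?_
  by_cases h : b (e i) = j.1
  · have h' : (⟨b (e i), e i, rfl⟩ : {j : β // ∃ i, b i = j}) = j := Subtype.ext h
    rw [if_pos h, if_pos h']
  · have h' : ¬ (⟨b (e i), e i, rfl⟩ : {j : β // ∃ i, b i = j}) = j := fun h' =>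
      h (congrArg Subtype.val h')
    rw [if_neg h, if_neg h']

theorem flat_gen {n : ℕ} (hn : 1 ≤ n) {ι β : Type} [Fintype ι] [DecidableEq ι] [Fintype β] [DecidableEq β]
    (hι : Fintype.card ι = n) (b : ι → β) {a κ : β → ℝ} (ha : ∀ j, 0 < a j) (hκ : ∀ j, 0 < κ j)
    {O : Set (EuclideanSpace ℝ ι)} (hO : IsOpen O) (hKO : ∀ z, (∀ j, sqI b z j ≤ a j ^ 2) → z ∈ O)
    {F : EuclideanSpace ℝ ι → E n} (hF : ContDiffOn ℝ ∞ F O)
    (hblk : ∀ z, (∀ j, sqI b z j ≤ a j ^ 2) → ∀ v, ∀ j, κ j ^ 2 * sqI b v j ≤ ‖fderiv ℝ F z v‖ ^ 2)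
    {R : ℝ} (hR : 0 < R) (hbd : ∀ z, (∀ j, sqI b z j < a j ^ 2) → ‖F z‖ ≤ R) :
    jw n / R ^ 2 ≤ ∑ j ∈ Finset.univ.image b, jw (bszI b j) / (κ j * a j) ^ 2 := by
  obtain ⟨e, -⟩ : ∃ e : Fin n ≃ ι, e = e := ⟨(Fintype.equivFinOfCardEq hι).symm, rfl⟩
  have hK : ∀ z ∈ Kb (fun i => (⟨b (e i), e i, rfl⟩ : {j : β // ∃ i, b i = j}))
      (fun j => κ j.1 * a j.1), ∀ j, sqI b (sca b κ e z) j ≤ a j ^ 2 := by
    intro z hz j
    by_cases hj : ∃ i, b i = j
    · have h1 := hz ⟨j, hj⟩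
      rw [← sca_sq b e ⟨j, hj⟩ (hκ j) z, mul_pow] at h1
      exact le_of_mul_le_mul_left h1 (pow_pos (hκ j) 2)
    · rw [sca_out b hj]
      positivity
  have hU : ∀ z ∈ Ub (fun i => (⟨b (e i), e i, rfl⟩ : {j : β // ∃ i, b i = j}))
      (fun j => κ j.1 * a j.1), ∀ j, sqI b (sca b κ e z) j < a j ^ 2 := by
    intro z hz j
    by_cases hj : ∃ i, b i = j
    · have h1 := hz ⟨j, hj⟩
      rw [← sca_sq b e ⟨j, hj⟩ (hκ j) z, mul_pow] at h1
      exact lt_of_mul_lt_mul_left h1 (pow_pos (hκ j) 2).le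
    · rw [sca_out b hj]
      exact pow_pos (ha j) 2
  have key := flat_core hn
    (b := fun i => (⟨b (e i), e i, rfl⟩ : {j : β // ∃ i, b i = j})) (by
      rintro ⟨j, i, rfl⟩
      refine ⟨e.symm i, ?_⟩
      exact Subtype.ext (congrArg b (e.apply_symm_apply i)))
    (a := fun j => κ j.1 * a j.1) (fun j => mul_pos (hκ _) (ha _))
    (O := sca b κ e ⁻¹' O) (hO.preimage (sca b κ e).continuous)
    (fun z hz => hKO _ (hK z hz)) (F := fun z => F (sca b κ e z))
    (hF.comp (sca b κ e).contDiff.contDiffOn fun z hz => hz) (by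
      intro z hz v j
      have hzO : sca b κ e z ∈ O := hKO _ (hK z hz)
      have h1 : DifferentiableAt ℝ F (sca b κ e z) :=
        (hF.contDiffAt (hO.mem_nhds hzO)).differentiableAt (by simp)
      have h2 : HasFDerivAt (fun z => F (sca b κ e z))
          ((fderiv ℝ F (sca b κ e z)).comp (sca b κ e)) z :=
        h1.hasFDerivAt.comp z (sca b κ e).hasFDerivAt
      rw [h2.fderiv, ← sca_sq b e j (hκ _) v]
      exact hblk _ (hK z hz) (sca b κ e v) j.1) hR
    (fun z hz => hbd _ (hU z hz))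
  refine key.trans (le_of_eq ?_)
  rw [Finset.sum_subtype (Finset.univ.image b) (p := fun j => ∃ i, b i = j) (fun j => by
    rw [Finset.mem_image]
    constructor
    · rintro ⟨i, _, hi⟩
      exact ⟨i, hi⟩
    · rintro ⟨i, hi⟩
      exact ⟨i, Finset.mem_univ i, hi⟩)]
  refine Finset.sum_congr rfl fun j _ => ?_
  rw [sca_bsz b e j]

end Pool.Agent.FCI
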