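import Pool.Agent.FCI.Tng
import Pool.Agent.FCI.Nrm
import Pool.Agent.FCI.Sca

/-!
# FCI-Box: the flat cube inequality for the normal map (proof by helper88)
-/

open scoped BigOperators Topology ContDiff
open Filter Set

namespace Pool.Agent.FCI

open Pool.Agent.TUB (E jw)

/-- the blocks -/
private abbrev bBt (m l : ℕ) := Fin m ⊕ Fin l ⊕ Fin l ⊕ Unit

/-- the block map -/
private def bbx (m l k0 : ℕ) : Zix m l k0 → bBt m l
  | Sum.inl i => Sum.inl i
  | Sum.inr (Sum.inl j) => Sum.inr (Sum.inl j)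
  | Sum.inr (Sum.inr (Sum.inl j)) => Sum.inr (Sum.inr (Sum.inl j))
  | Sum.inr (Sum.inr (Sum.inr _)) => Sum.inr (Sum.inr (Sum.inr ()))

private def bax (m l : ℕ) (x t s y : ℝ) : bBt m l → ℝ
  | Sum.inl _ => x
  | Sum.inr (Sum.inl _) => t
  | Sum.inr (Sum.inr (Sum.inl _)) => s
  | Sum.inr (Sum.inr (Sum.inr _)) => y

variable {m l k0 n : ℕ}

private lemma sqx (z : ZZ m l k0) (i : Fin m) : sqI (bbx m l k0) z (Sum.inl i) = z (Sum.inl i) ^ 2 := by
  simp [sqI, Fintype.sum_sum_type, bbx]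

private lemma sqth (z : ZZ m l k0) (j : Fin l) :
    sqI (bbx m l k0) z (Sum.inr (Sum.inl j)) = thc z j ^ 2 := by
  simp [sqI, Fintype.sum_sum_type, bbx, thc]

private lemma sqt (z : ZZ m l k0) (j : Fin l) :
    sqI (bbx m l k0) z (Sum.inr (Sum.inr (Sum.inl j))) = tc z j ^ 2 := by
  simp [sqI, Fintype.sum_sum_type, bbx, tc]

private lemma sqy (z : ZZ m l k0) :
    sqI (bbx m l k0) z (Sum.inr (Sum.inr (Sum.inr ()))) = ∑ i, yc z i ^ 2 := by
  simp [sqI, Fintype.sum_sum_type, bbx, yc]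

private lemma bszx (i : Fin m) : bszI (bbx m l k0) (Sum.inl i) = 1 := by
  unfold bszI
  rw [Finset.card_filter]
  simp [Fintype.sum_sum_type, bbx]

private lemma bszth (j : Fin l) : bszI (bbx m l k0) (Sum.inr (Sum.inl j)) = 1 := by
  unfold bszI
  rw [Finset.card_filter]
  simp [Fintype.sum_sum_type, bbx]

private lemma bszt (j : Fin l) : bszI (bbx m l k0) (Sum.inr (Sum.inr (Sum.inl j))) = 1 := by
  unfold bszI
  rw [Finset.card_filter]
  simp [Fintype.sum_sum_type, bbx]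

private lemma bszy : bszI (bbx m l k0) (Sum.inr (Sum.inr (Sum.inr ()))) = k0 := by
  unfold bszI
  rw [Finset.card_filter]
  simp [Fintype.sum_sum_type, bbx]

private lemma sum_img (f : bBt m l → ℝ) : ∑ j ∈ Finset.univ.image (bbx m l k0), f j =
    ∑ i, f (Sum.inl i) + (∑ j, f (Sum.inr (Sum.inl j)) + (∑ j, f (Sum.inr (Sum.inr (Sum.inl j))) +
      (if k0 = 0 then 0 else f (Sum.inr (Sum.inr (Sum.inr ())))))) := by
  have h1 : ∑ j ∈ Finset.univ.image (bbx m l k0), f j =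
      ∑ j, if j ∈ Finset.univ.image (bbx m l k0) then f j else 0 := by
    rw [Finset.sum_ite_mem, Finset.univ_inter]
  rw [h1, Fintype.sum_sum_type, Fintype.sum_sum_type, Fintype.sum_sum_type]
  refine congrArg₂ _ ?_ (congrArg₂ _ ?_ (congrArg₂ _ ?_ ?_))
  · refine Finset.sum_congr rfl fun i _ => ?_
    rw [if_pos]
    exact Finset.mem_image.2 ⟨Sum.inl i, Finset.mem_univ _, rfl⟩
  · refine Finset.sum_congr rfl fun i _ => ?_
    rw [if_pos]
    exact Finset.mem_image.2 ⟨Sum.inr (Sum.inl i), Finset.mem_univ _, rfl⟩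
  · refine Finset.sum_congr rfl fun i _ => ?_
    rw [if_pos]
    exact Finset.mem_image.2 ⟨Sum.inr (Sum.inr (Sum.inl i)), Finset.mem_univ _, rfl⟩
  · rw [Finset.univ_unique, Finset.sum_singleton]
    by_cases h : k0 = 0
    · rw [if_pos h, if_neg]
      intro hm
      obtain ⟨z, -, hz⟩ := Finset.mem_image.1 hm
      subst h
      rcases z with i | j | j | i
      · simp [bbx] at hz
      · simp [bbx] at hz
      · simp [bbx] at hz
      · exact i.elim0
    · rw [if_neg h, if_pos]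
      exact Finset.mem_image.2 ⟨Sum.inr (Sum.inr (Sum.inr ⟨0, Nat.pos_of_ne_zero h⟩)), Finset.mem_univ _,
          rfl⟩

private lemma xc_apply (z : ZZ m l k0) (i : Fin m) : xc m l k0 z i = z (Sum.inl i) := rfl

private lemma cub_cpt (m : ℕ) : IsCompact (Cub m) := by
  rw [Metric.isCompact_iff_isClosed_bounded]
  constructor
  · have h : Cub m = ⋂ i, {x : E m | |x i| ≤ 1} := by
      ext x
      simp [Cub]
    rw [h]
    refine isClosed_iInter fun i => ?_
    exact isClosed_le (by fun_prop) continuous_const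
  · rw [isBounded_iff_forall_norm_le]
    refine ⟨Real.sqrt m, fun x hx => ?_⟩
    rw [EuclideanSpace.norm_eq]
    refine Real.sqrt_le_sqrt ?_
    calc ∑ i, ‖x i‖ ^ 2 ≤ ∑ _i : Fin m, (1 : ℝ) := by
          refine Finset.sum_le_sum fun i _ => ?_
          have h1 : ‖x i‖ ≤ 1 := hx i
          have h2 : 0 ≤ ‖x i‖ := norm_nonneg _
          nlinarith
      _ = m := by simp

private lemma exC {g : E m → E n} {O : Set (E m)} {D c : ℝ} (hW : WCube g O D c)
    {e : Nix l k0 → E m → E n} (he : NFr g O e) :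
    ∃ C : ℝ, 0 ≤ C ∧ ∀ x ∈ Cub m, ∀ j : Fin l, ‖fderiv ℝ (e (Sum.inl j)) x‖ ≤ C := by
  have h1 : ∀ j : Fin l, ∃ C : ℝ, ∀ x ∈ Cub m, ‖fderiv ℝ (e (Sum.inl j)) x‖ ≤ C := by
    intro j
    refine (cub_cpt m).exists_bound_of_continuousOn ?_
    exact ((he.smooth (Sum.inl j)).continuousOn_fderiv_of_isOpen hW.isOpen (by simp)).mono hW.sub
  choose C hC using h1
  refine ⟨∑ j, |C j|, Finset.sum_nonneg fun j _ => abs_nonneg _, fun x hx j => ?_⟩
  exact (hC j x hx).trans ((le_abs_self _).trans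
    (Finset.single_le_sum (f := fun j => |C j|) (fun j _ => abs_nonneg _) (Finset.mem_univ j)))

private lemma co_sum (t0 : ℝ) (z : ZZ m l k0) :
    ∑ α, co t0 z α ^ 2 = ∑ j, (t0 + tc z j) ^ 2 + ∑ i, yc z i ^ 2 := by
  rw [Fintype.sum_sum_type, Fintype.sum_sum_type, ← add_assoc, ← Finset.sum_add_distrib]
  refine congrArg₂ _ (Finset.sum_congr rfl fun j _ => ?_) rfl
  simp only [co]
  have h := Real.sin_sq_add_cos_sq (thc z j)
  calc ((t0 + tc z j) * Real.cos (thc z j)) ^ 2 + ((t0 + tc z j) * Real.sin (thc z j)) ^ 2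
      = (t0 + tc z j) ^ 2 * (Real.sin (thc z j) ^ 2 + Real.cos (thc z j) ^ 2) := by ring
    _ = (t0 + tc z j) ^ 2 := by rw [h, mul_one]

private lemma norm_le_sqrt (x : E m) {q : ℝ} (hq : 0 ≤ q) (h : ∀ i, |x i| ≤ q) :
    ‖x‖ ≤ Real.sqrt m * q := by
  rw [EuclideanSpace.norm_eq]
  have h1 : ∑ i, ‖x i‖ ^ 2 ≤ m * q ^ 2 := by
    calc ∑ i, ‖x i‖ ^ 2 ≤ ∑ _i : Fin m, q ^ 2 := by
          refine Finset.sum_le_sum fun i _ => ?_
          exact pow_le_pow_left₀ (norm_nonneg _) (h i) 2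
      _ = m * q ^ 2 := by simp
  calc Real.sqrt (∑ i, ‖x i‖ ^ 2) ≤ Real.sqrt (m * q ^ 2) := Real.sqrt_le_sqrt h1
    _ = Real.sqrt m * q := by
        rw [Real.sqrt_mul (Nat.cast_nonneg _), Real.sqrt_sq hq]

/-- the inequality with a finite `T` -/
private lemma box_T (hn : 1 ≤ n) (hmn : n = m + 2 * l + k0) {g : E m → E n} {O : Set (E m)} {D c : ℝ}
    (hD : 0 < D) (hc : 0 ≤ c) (hW : WCube g O D c) {e : Nix l k0 → E m → E n} (he : NFr g O e)
    {r σ ρ ρ0 : ℝ} (hr : 0 < r) (hcr : c * r < 1) (hσ : 0 < σ) (hσρ : σ < ρ) (hρ0 : 0 < ρ0)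
    (hsum : l * ρ ^ 2 + (if k0 = 0 then 0 else ρ0 ^ 2) ≤ r ^ 2) :
    ∃ M : ℝ, 0 < M ∧ ∀ T : ℝ, 0 < T →
      jw n / (1 + r) ^ 2 ≤ (m * (jw 1 / (D * (1 - c * r)) ^ 2) + l * (jw 1 * 4 / (ρ - σ) ^ 2) +
      (if k0 = 0 then 0 else jw k0 / ρ0 ^ 2)) + l * (jw 1 * M ^ 2) / T ^ 2 := by
  obtain ⟨C, hC0, hC⟩ := exC hW he
  have hcr' : 0 < 1 - c * r := by linarith
  have hd : 0 < D * (1 - c * r) := mul_pos hD hcr'
  have hM : 0 < 1 / σ + C * (Real.sqrt m / (D * (1 - c * r))) := by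
    have h1 : 0 < 1 / σ := by positivity
    have h2 : 0 ≤ C * (Real.sqrt m / (D * (1 - c * r))) := by positivity
    linarith
  obtain ⟨M, hMdef⟩ : ∃ M, M = 1 / σ + C * (Real.sqrt m / (D * (1 - c * r))) := ⟨_, rfl⟩
  rw [← hMdef] at hM
  refine ⟨M, hM, fun T hT => ?_⟩
  have hρσ : 0 < ρ - σ := by linarith
  -- the closed box
  have hbox : ∀ z : ZZ m l k0, (∀ j, sqI (bbx m l k0) z j ≤ bax m l 1 T ((ρ - σ) / 2) ρ0 j ^ 2) →
      xc m l k0 z ∈ Cub m ∧ (∀ j, σ ≤ (ρ + σ) / 2 + tc z j ∧ (ρ + σ) / 2 + tc z j ≤ ρ) ∧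
      ∑ α, co ((ρ + σ) / 2) z α ^ 2 ≤ r ^ 2 := by
    intro z hz
    have hx : xc m l k0 z ∈ Cub m := by
      intro i
      have h1 := hz (Sum.inl i)
      rw [sqx] at h1
      simp only [bax] at h1
      rw [xc_apply]
      exact abs_le_of_sq_le_sq h1 (by norm_num)
    have ht : ∀ j, σ ≤ (ρ + σ) / 2 + tc z j ∧ (ρ + σ) / 2 + tc z j ≤ ρ := by
      intro j
      have h1 := hz (Sum.inr (Sum.inr (Sum.inl j)))
      rw [sqt] at h1
      simp only [bax] at h1
      have h2 := abs_le.1 (abs_le_of_sq_le_sq h1 (by linarith))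
      constructor <;> linarith [h2.1, h2.2]
    refine ⟨hx, ht, ?_⟩
    rw [co_sum]
    have h3 : ∑ j : Fin l, ((ρ + σ) / 2 + tc z j) ^ 2 ≤ l * ρ ^ 2 := by
      calc ∑ j : Fin l, ((ρ + σ) / 2 + tc z j) ^ 2 ≤ ∑ _j : Fin l, ρ ^ 2 := by
            refine Finset.sum_le_sum fun j _ => ?_
            exact pow_le_pow_left₀ (by linarith [(ht j).1]) (ht j).2 2
        _ = l * ρ ^ 2 := by simp
    have h4 : ∑ i, yc z i ^ 2 ≤ (if k0 = 0 then 0 else ρ0 ^ 2) := by
      by_cases h : k0 = 0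
      · rw [if_pos h]
        subst h
        simp
      · rw [if_neg h, ← sqy]
        exact hz (Sum.inr (Sum.inr (Sum.inr ())))
    linarith
  have hOo : IsOpen (xc m l k0 ⁻¹' O) := hW.isOpen.preimage (xc m l k0).continuous
  have hcard : Fintype.card (Zix m l k0) = n := by
    simp only [Fintype.card_sum, Fintype.card_fin]
    omega
  have key := flat_gen hn (ι := Zix m l k0) (β := bBt m l) hcard (bbx m l k0)
    (a := bax m l 1 T ((ρ - σ) / 2) ρ0) (κ := bax m l (D * (1 - c * r)) (1 / M) 1 1)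
    (by
      intro j
      rcases j with i | j | j | j
      · simp [bax]
      · simpa [bax] using hT
      · simp only [bax]; linarith
      · simpa [bax] using hρ0)
    (by
      intro j
      rcases j with i | j | j | j
      · simpa [bax] using hd
      · simpa [bax] using hM
      · simp [bax]
      · simp [bax])
    hOo (fun z hz => hW.sub (hbox z hz).1) (F := Fm ((ρ + σ) / 2) g e)
    (Fm_smooth hW.smooth he.smooth _)
    (by
      intro z hz v
      obtain ⟨hx, ht, hY⟩ := hbox z hz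
      have hxO := hW.sub hx
      obtain ⟨Q, hQ⟩ : ∃ Q, Q = ‖fderiv ℝ (Fm ((ρ + σ) / 2) g e) z v‖ := ⟨_, rfl⟩
      have hQ0 : 0 ≤ Q := by rw [hQ]; exact norm_nonneg _
      have htan := Fm_tang hW he (t0 := (ρ + σ) / 2) hc hr.le hx hY v
      rw [← hQ] at htan ⊢
      have hxi : ∀ i, D * (1 - c * r) * |xc m l k0 v i| ≤ Q := by
        intro i
        have h1 := hW.wide _ hx (xc m l k0 v) i
        have h2 := mul_le_mul_of_nonneg_left h1 hcr'.le
        calc D * (1 - c * r) * |xc m l k0 v i| = (1 - c * r) * (D * |xc m l k0 v i|) := by ring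
          _ ≤ _ := h2
          _ ≤ Q := htan
      intro j
      rcases j with i | j | j | j
      · rw [sqx]
        simp only [bax]
        have h3 := hxi i
        rw [xc_apply] at h3
        calc (D * (1 - c * r)) ^ 2 * v (Sum.inl i) ^ 2
            = (D * (1 - c * r) * |v (Sum.inl i)|) ^ 2 := by rw [mul_pow _ |v (Sum.inl i)|, sq_abs]
          _ ≤ Q ^ 2 := pow_le_pow_left₀ (by positivity) h3 2
      · rw [sqth]
        simp only [bax]
        have h3 := Fm_th hW.isOpen hW.smooth he ((ρ + σ) / 2) hxO v j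
        rw [← hQ] at h3
        obtain ⟨om, hom⟩ : ∃ om : ℝ, om = inner ℝ (fderiv ℝ (e (Sum.inl j)) (xc m l k0 z) (xc m l k0 v))
          (e (Sum.inr (Sum.inl j)) (xc m l k0 z)) := ⟨_, rfl⟩
        rw [← hom] at h3
        have hxn : ‖xc m l k0 v‖ ≤ Real.sqrt m * (Q / (D * (1 - c * r))) := by
          refine norm_le_sqrt _ (by positivity) fun i => ?_
          rw [le_div_iff₀ hd, mul_comm]
          exact hxi i
        have hom1 : |om| ≤ C * (Real.sqrt m * (Q / (D * (1 - c * r)))) := by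
          rw [hom]
          refine (abs_real_inner_le_norm _ _).trans ?_
          rw [(he.on _ hxO).1, mul_one]
          refine (ContinuousLinearMap.le_opNorm _ _).trans ?_
          exact mul_le_mul (hC _ hx j) hxn (norm_nonneg _) hC0
        have h4 : |((ρ + σ) / 2 + tc z j) * (thc v j + om)| ≤ Q := by
          exact abs_le_of_sq_le_sq h3 hQ0
        rw [abs_mul, abs_of_pos (by linarith [(ht j).1] : 0 < (ρ + σ) / 2 + tc z j)] at h4
        have h5 : σ * |thc v j + om| ≤ Q :=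
          (mul_le_mul_of_nonneg_right (ht j).1 (abs_nonneg _)).trans h4
        have h6 : |thc v j + om| ≤ Q / σ := by
          rw [le_div_iff₀ hσ, mul_comm]
          exact h5
        have h7 : |thc v j| ≤ M * Q := by
          have h8 : |thc v j| ≤ |thc v j + om| + |om| := by
            have h9 := abs_sub (thc v j + om) om
            rwa [add_sub_cancel_right] at h9
          have h9 : M * Q = Q / σ + C * (Real.sqrt m * (Q / (D * (1 - c * r)))) := by
            rw [hMdef]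
            ring
          rw [h9]
          linarith
        have h10 : |thc v j| / M ≤ Q := by
          rw [div_le_iff₀ hM, mul_comm]
          exact h7
        calc (1 / M) ^ 2 * thc v j ^ 2 = (|thc v j| / M) ^ 2 := by
              rw [div_pow, div_pow, sq_abs]
              ring
          _ ≤ Q ^ 2 := pow_le_pow_left₀ (by positivity) h10 2
      · rw [sqt]
        simp only [bax]
        have h3 := Fm_t hW.isOpen hW.smooth he ((ρ + σ) / 2) hxO v j
        rw [← hQ] at h3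
        linarith
      · obtain rfl : j = () := rfl
        rw [sqy]
        simp only [bax]
        have h3 := Fm_y hW.isOpen hW.smooth he ((ρ + σ) / 2) hxO v
        rw [← hQ] at h3
        linarith)
    (R := 1 + r) (by linarith)
    (by
      intro z hz
      obtain ⟨hx, -, hY⟩ := hbox z fun j => (hz j).le
      exact Fm_norm hW he hr.le hx hY)
  refine key.trans (le_of_eq ?_)
  rw [sum_img]
  simp only [bszx, bszth, bszt, bszy, bax, Nat.cast_one, mul_one, one_mul, Finset.sum_const,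
    Finset.card_univ, Fintype.card_fin, nsmul_eq_mul]
  have e1 : jw 1 / (1 / M * T) ^ 2 = jw 1 * M ^ 2 / T ^ 2 := by
    field_simp
  have e2 : jw 1 / ((ρ - σ) / 2) ^ 2 = jw 1 * 4 / (ρ - σ) ^ 2 := by
    rw [div_pow, div_div_eq_mul_div]
    norm_num
  rw [e1, e2]
  ring

theorem box_ineq {m l k0 n : ℕ} (hn : 1 ≤ n) (hmn : n = m + 2 * l + k0) {g : E m → E n} {O : Set (E m)} {D c : ℝ}
    (hD : 0 < D) (hc : 0 ≤ c) (hW : WCube g O D c) {e : Nix l k0 → E m → E n} (he : NFr g O e)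
    {r σ ρ ρ0 : ℝ} (hr : 0 < r) (hcr : c * r < 1) (hσ : 0 < σ) (hσρ : σ < ρ) (hρ0 : 0 < ρ0)
    (hsum : l * ρ ^ 2 + (if k0 = 0 then 0 else ρ0 ^ 2) ≤ r ^ 2) :
    jw n / (1 + r) ^ 2 ≤ m * (jw 1 / (D * (1 - c * r)) ^ 2) + l * (jw 1 * 4 / (ρ - σ) ^ 2) +
      (if k0 = 0 then 0 else jw k0 / ρ0 ^ 2) := by
  obtain ⟨M, hM, h⟩ := box_T hn hmn hD hc hW he hr hcr hσ hσρ hρ0 hsum
  obtain ⟨A, hA⟩ : ∃ A, A = (m * (jw 1 / (D * (1 - c * r)) ^ 2) + l * (jw 1 * 4 / (ρ - σ) ^ 2) +
      (if k0 = 0 then 0 else jw k0 / ρ0 ^ 2)) := ⟨_, rfl⟩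
  rw [← hA] at h ⊢
  have h1 : Tendsto (fun T : ℝ => A + l * (jw 1 * M ^ 2) / T ^ 2) atTop (𝓝 (A + 0)) := by
    refine tendsto_const_nhds.add ?_
    exact (tendsto_pow_atTop two_ne_zero).const_div_atTop _
  rw [add_zero] at h1
  refine ge_of_tendsto h1 ?_
  filter_upwards [eventually_gt_atTop (0 : ℝ)] with T hT
  exact h T hT

end Pool.Agent.FCI
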