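import Pool.Agent.FCI.Defs

/-!
# FCI-Cc: functions with compact support in an open set (proved)
-/

set_option linter.unusedSectionVars false

open scoped BigOperators Topology ContDiff
open MeasureTheory Filter Set

namespace Pool.Agent.FCI

open Pool.Agent.TUB (E)

variable {n : ℕ} {V : Type*} [NormedAddCommGroup V] [NormedSpace ℝ V]

/-- A function that is continuous on the open set `U` and zero outside a compact part of `U` is continuous. -/
theorem cc_cont {U K : Set (E n)} (hU : IsOpen U) (hK : IsCompact K) (hKU : K ⊆ U) {f : E n → V}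
    (hf : ContinuousOn f U) (h0 : ∀ z, z ∉ K → f z = 0) : Continuous f := by
  rw [continuous_iff_continuousAt]
  intro z
  by_cases hz : z ∈ U
  · exact hf.continuousAt (hU.mem_nhds hz)
  · have hzK : z ∈ Kᶜ := fun h => hz (hKU h)
    have : f =ᶠ[𝓝 z] fun _ => 0 := by
      filter_upwards [hK.isClosed.isOpen_compl.mem_nhds hzK] with y hy
      exact h0 y hy
    exact continuousAt_const.congr this.symm

theorem cc_supp {K : Set (E n)} (hK : IsCompact K) {f : E n → V}
    (h0 : ∀ z, z ∉ K → f z = 0) : HasCompactSupport f := HasCompactSupport.intro hK h0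

theorem cc_int {U K : Set (E n)} (hU : IsOpen U) (hK : IsCompact K) (hKU : K ⊆ U) {f : E n → V}
    (hf : ContinuousOn f U) (h0 : ∀ z, z ∉ K → f z = 0) : Integrable f :=
  (cc_cont hU hK hKU hf h0).integrable_of_hasCompactSupport (cc_supp hK h0)

/-- Smooth version. -/
theorem cc_smooth {U K : Set (E n)} (hU : IsOpen U) (hK : IsCompact K) (hKU : K ⊆ U) {f : E n → V}
    {k : WithTop ℕ∞} (hf : ContDiffOn ℝ k f U) (h0 : ∀ z, z ∉ K → f z = 0) : ContDiff ℝ k f := by
  rw [contDiff_iff_contDiffAt]
  intro z
  by_cases hz : z ∈ U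
  · exact hf.contDiffAt (hU.mem_nhds hz)
  · have hzK : z ∈ Kᶜ := fun h => hz (hKU h)
    have : f =ᶠ[𝓝 z] fun _ => 0 := by
      filter_upwards [hK.isClosed.isOpen_compl.mem_nhds hzK] with y hy
      exact h0 y hy
    exact contDiffAt_const.congr_of_eventuallyEq this

/-- integral over `U` of a function that vanishes outside a part of `U` -/
theorem cc_setInt {U K : Set (E n)} (hKU : K ⊆ U) {f : E n → V} (h0 : ∀ z, z ∉ K → f z = 0) :
    ∫ z in U, f z = ∫ z, f z := by
  refine setIntegral_eq_integral_of_forall_compl_eq_zero fun z hz => h0 z fun h => hz (hKU h)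

end Pool.Agent.FCI
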