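import Pool.Agent.FCI.Defs

/-!
# FCI-ClA: Clifford relations for `gam i` and `cl i`

Computations of the components, with `opL_apply`.
-/

open scoped BigOperators Topology ContDiff

namespace Pool.Agent.FCI

variable {n : ℕ}

private theorem ca_neg_card (A : Finset (Fin n)) (i : Fin n) :
    (-1 : ℝ) ^ (symmDiff A {i}).card = -(-1) ^ A.card := by
  by_cases h : i ∈ A
  · have e1 : symmDiff A {i} = A.erase i := by
      ext j
      rw [Finset.mem_symmDiff, Finset.mem_singleton, Finset.mem_erase]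
      constructor
      · rintro (⟨h1, h2⟩ | ⟨h1, h2⟩)
        · exact ⟨h2, h1⟩
        · exact absurd (h1 ▸ h) h2
      · rintro ⟨h1, h2⟩
        exact Or.inl ⟨h2, h1⟩
    have e2 := Finset.card_erase_add_one h
    rw [e1, ← e2, pow_succ]
    ring
  · have e1 : symmDiff A {i} = insert i A := by
      ext j
      rw [Finset.mem_symmDiff, Finset.mem_singleton, Finset.mem_insert]
      constructor
      · rintro (⟨h1, _⟩ | ⟨h1, _⟩)
        · exact Or.inr h1
        · exact Or.inl h1
      · rintro (h1 | h1)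
        · exact Or.inr ⟨h1, h1 ▸ h⟩
        · exact Or.inl ⟨h1, fun h2 => h (h2 ▸ h1)⟩
    rw [e1, Finset.card_insert_of_notMem h, pow_succ]
    ring

private theorem ca_sg_lt {i k : Fin n} (h : i < k) (I : Finset (Fin n)) :
    sg k (symmDiff I {i}) = -sg k I := by
  have e1 : (symmDiff I {i}).filter (fun j => j < k) =
      symmDiff (I.filter (fun j => j < k)) {i} := by
    ext j
    simp only [Finset.mem_filter, Finset.mem_symmDiff, Finset.mem_singleton]
    by_cases hj : j = i
    · subst hj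
      simp [h]
    · simp [hj]
  unfold sg
  rw [e1, ca_neg_card]

private theorem ca_sg_ge {i k : Fin n} (h : ¬ i < k) (I : Finset (Fin n)) :
    sg k (symmDiff I {i}) = sg k I := by
  have e1 : (symmDiff I {i}).filter (fun j => j < k) = I.filter (fun j => j < k) := by
    ext j
    simp only [Finset.mem_filter, Finset.mem_symmDiff, Finset.mem_singleton]
    by_cases hj : j = i
    · subst hj
      simp [h]
    · simp [hj]
  unfold sg
  rw [e1]

private theorem ca_sg_self (i : Fin n) (I : Finset (Fin n)) :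
    sg i (symmDiff I {i}) = sg i I := ca_sg_ge (lt_irrefl i) I

private theorem ca_sg_sq (i : Fin n) (I : Finset (Fin n)) : sg i I * sg i I = 1 := by
  unfold sg
  rw [← pow_add, ← two_mul, pow_mul]
  norm_num

private theorem ca_ep_sq (i : Fin n) (I : Finset (Fin n)) : ep i I * ep i I = 1 := by
  unfold ep
  split_ifs <;> norm_num

private theorem ca_ep_self (i : Fin n) (I : Finset (Fin n)) :
    ep i (symmDiff I {i}) = -ep i I := by
  unfold ep
  by_cases h : i ∈ I
  · simp [Finset.mem_symmDiff, h]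
  · simp [Finset.mem_symmDiff, h]

private theorem ca_ep_ne {i j : Fin n} (h : i ≠ j) (I : Finset (Fin n)) :
    ep i (symmDiff I {j}) = ep i I := by
  unfold ep
  simp [Finset.mem_symmDiff, h]

private theorem ca_gam (i : Fin n) (w : W n) (I : Finset (Fin n)) :
    gam i w I = sg i I * w (symmDiff I {i}) := rfl

private theorem ca_cl (i : Fin n) (w : W n) (I : Finset (Fin n)) :
    cl i w I = ep i I * sg i I * w (symmDiff I {i}) := rfl

private theorem ca_neg (w : W n) (I : Finset (Fin n)) : (-w) I = -(w I) := rfl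

theorem gam_gam (i : Fin n) (w : W n) : gam i (gam i w) = w := by
  ext I
  rw [ca_gam, ca_gam, ca_sg_self, symmDiff_symmDiff_cancel_right, ← mul_assoc, ca_sg_sq, one_mul]

theorem cl_cl (i : Fin n) (w : W n) : cl i (cl i w) = -w := by
  ext I
  rw [ca_cl, ca_cl, ca_sg_self, ca_ep_self, symmDiff_symmDiff_cancel_right, ca_neg]
  linear_combination (-(ep i I * ep i I) * w I) * ca_sg_sq i I - w I * ca_ep_sq i I

theorem gam_anti {i j : Fin n} (h : i ≠ j) (w : W n) : gam i (gam j w) = -gam j (gam i w) := by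
  ext I
  rw [ca_neg, ca_gam, ca_gam, ca_gam, ca_gam, symmDiff_right_comm]
  rcases lt_or_gt_of_ne h with h1 | h1
  · rw [ca_sg_lt h1, ca_sg_ge (not_lt.2 h1.le)]
    ring
  · rw [ca_sg_lt h1, ca_sg_ge (not_lt.2 h1.le)]
    ring

theorem cl_anti {i j : Fin n} (h : i ≠ j) (w : W n) : cl i (cl j w) = -cl j (cl i w) := by
  ext I
  rw [ca_neg, ca_cl, ca_cl, ca_cl, ca_cl, symmDiff_right_comm, ca_ep_ne h, ca_ep_ne h.symm]
  rcases lt_or_gt_of_ne h with h1 | h1
  · rw [ca_sg_lt h1, ca_sg_ge (not_lt.2 h1.le)]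
    ring
  · rw [ca_sg_lt h1, ca_sg_ge (not_lt.2 h1.le)]
    ring

theorem cl_gam_apply (i : Fin n) (w : W n) (I : Finset (Fin n)) : cl i (gam i w) I = ep i I * w I := by
  rw [ca_cl, ca_gam, ca_sg_self, symmDiff_symmDiff_cancel_right]
  linear_combination (ep i I * w I) * ca_sg_sq i I

theorem cl_gam (i j : Fin n) (w : W n) : cl i (gam j w) = -gam j (cl i w) := by
  by_cases h : i = j
  · subst h
    ext I
    rw [cl_gam_apply, ca_neg, ca_gam, ca_cl, ca_sg_self, ca_ep_self,
      symmDiff_symmDiff_cancel_right]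
    linear_combination (-(ep i I * w I)) * ca_sg_sq i I
  · ext I
    rw [ca_neg, ca_cl, ca_gam, ca_gam, ca_cl, symmDiff_right_comm, ca_ep_ne h]
    rcases lt_or_gt_of_ne h with h1 | h1
    · rw [ca_sg_lt h1, ca_sg_ge (not_lt.2 h1.le)]
      ring
    · rw [ca_sg_lt h1, ca_sg_ge (not_lt.2 h1.le)]
      ring

private theorem ca_inner (v w : W n) : inner ℝ v w = ∑ I, v I * w I := by
  rw [PiLp.inner_apply]
  refine Finset.sum_congr rfl fun I _ => ?_
  show w I * v I = v I * w I
  ring

private theorem ca_sum (i : Fin n) (f : Finset (Fin n) → ℝ) :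
    ∑ I, f (symmDiff I {i}) = ∑ I, f I := by
  have hi : Function.Involutive (fun I : Finset (Fin n) => symmDiff I {i}) := by
    intro I
    exact symmDiff_symmDiff_cancel_right _ _
  exact Equiv.sum_comp hi.toPerm f

theorem inner_gam (i : Fin n) (v w : W n) : inner ℝ (gam i v) w = inner ℝ v (gam i w) := by
  rw [ca_inner, ca_inner, ← ca_sum i]
  refine Finset.sum_congr rfl fun I _ => ?_
  rw [ca_gam, ca_gam, ca_sg_self, symmDiff_symmDiff_cancel_right]
  ring

theorem inner_cl (i : Fin n) (v w : W n) : inner ℝ (cl i v) w = -inner ℝ v (cl i w) := by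
  rw [ca_inner, ca_inner, ← ca_sum i, ← Finset.sum_neg_distrib]
  refine Finset.sum_congr rfl fun I _ => ?_
  rw [ca_cl, ca_cl, ca_sg_self, ca_ep_self, symmDiff_symmDiff_cancel_right]
  ring

theorem norm_gam (i : Fin n) (w : W n) : ‖gam i w‖ = ‖w‖ := by
  have h : ‖gam i w‖ ^ 2 = ‖w‖ ^ 2 := by
    rw [← real_inner_self_eq_norm_sq, ← real_inner_self_eq_norm_sq, inner_gam, gam_gam]
  exact (sq_eq_sq₀ (norm_nonneg _) (norm_nonneg _)).1 h

theorem norm_cl (i : Fin n) (w : W n) : ‖cl i w‖ = ‖w‖ := by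
  have h : ‖cl i w‖ ^ 2 = ‖w‖ ^ 2 := by
    rw [← real_inner_self_eq_norm_sq, ← real_inner_self_eq_norm_sq, inner_cl, cl_cl,
      inner_neg_right, neg_neg]
  exact (sq_eq_sq₀ (norm_nonneg _) (norm_nonneg _)).1 h

end Pool.Agent.FCI
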