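import Pool.Agent.FCI.ClA

/-!
# FCI-ClB: Clifford operators of vectors
-/

open scoped BigOperators Topology ContDiff

namespace Pool.Agent.FCI

open Pool.Agent.TUB (E)

variable {n : ℕ}

theorem clV_apply (v : E n) (w : W n) : clV v w = ∑ i, v i • cl i w := by
  unfold clV
  rw [sum_apply]
  rfl

theorem gamV_apply (v : E n) (w : W n) : gamV v w = ∑ i, v i • gam i w := by
  unfold gamV
  rw [sum_apply]
  rfl

theorem clV_add (v v' : E n) : clV (v + v') = clV v + clV v' := by
  refine ContinuousLinearMap.ext fun w => ?_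
  have h1 : (clV v + clV v') w = clV v w + clV v' w := rfl
  rw [h1, clV_apply, clV_apply, clV_apply, ← Finset.sum_add_distrib]
  refine Finset.sum_congr rfl fun i _ => ?_
  rw [PiLp.add_apply, add_smul]

theorem clV_smul (r : ℝ) (v : E n) : clV (r • v) = r • clV v := by
  refine ContinuousLinearMap.ext fun w => ?_
  have h1 : (r • clV v) w = r • clV v w := rfl
  rw [h1, clV_apply, clV_apply, Finset.smul_sum]
  refine Finset.sum_congr rfl fun i _ => ?_
  rw [PiLp.smul_apply, smul_assoc]

theorem gamV_add (v v' : E n) : gamV (v + v') = gamV v + gamV v' := by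
  refine ContinuousLinearMap.ext fun w => ?_
  have h1 : (gamV v + gamV v') w = gamV v w + gamV v' w := rfl
  rw [h1, gamV_apply, gamV_apply, gamV_apply, ← Finset.sum_add_distrib]
  refine Finset.sum_congr rfl fun i _ => ?_
  rw [PiLp.add_apply, add_smul]

theorem gamV_smul (r : ℝ) (v : E n) : gamV (r • v) = r • gamV v := by
  refine ContinuousLinearMap.ext fun w => ?_
  have h1 : (r • gamV v) w = r • gamV v w := rfl
  rw [h1, gamV_apply, gamV_apply, Finset.smul_sum]
  refine Finset.sum_congr rfl fun i _ => ?_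
  rw [PiLp.smul_apply, smul_assoc]

private theorem eb_same (j : Fin n) : (eb j : E n) j = 1 := by
  unfold eb
  simp

private theorem eb_ne {i j : Fin n} (h : i ≠ j) : (eb j : E n) i = 0 := by
  unfold eb
  simp [h]

theorem clV_eb (j : Fin n) : clV (eb j) = cl j := by
  refine ContinuousLinearMap.ext fun w => ?_
  rw [clV_apply, Finset.sum_eq_single j]
  · rw [eb_same, one_smul]
  · intro i _ hi
    rw [eb_ne hi, zero_smul]
  · intro h
    exact absurd (Finset.mem_univ j) h

theorem gamV_eb (j : Fin n) : gamV (eb j) = gam j := by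
  refine ContinuousLinearMap.ext fun w => ?_
  rw [gamV_apply, Finset.sum_eq_single j]
  · rw [eb_same, one_smul]
  · intro i _ hi
    rw [eb_ne hi, zero_smul]
  · intro h
    exact absurd (Finset.mem_univ j) h

theorem inner_gamV (v : E n) (a c : W n) : inner ℝ (gamV v a) c = inner ℝ a (gamV v c) := by
  rw [gamV_apply, gamV_apply, sum_inner, inner_sum]
  refine Finset.sum_congr rfl fun i _ => ?_
  rw [real_inner_smul_left, real_inner_smul_right, inner_gam]

theorem inner_clV (v : E n) (a c : W n) : inner ℝ (clV v a) c = -inner ℝ a (clV v c) := by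
  rw [clV_apply, clV_apply, sum_inner, inner_sum, ← Finset.sum_neg_distrib]
  refine Finset.sum_congr rfl fun i _ => ?_
  rw [real_inner_smul_left, real_inner_smul_right, inner_cl, mul_neg]

theorem clV_gamV (v v' : E n) (w : W n) : clV v (gamV v' w) = -gamV v' (clV v w) := by
  rw [clV_apply, gamV_apply v' (clV v w), gamV_apply v' w, clV_apply v w]
  simp only [map_sum, map_smul, Finset.smul_sum]
  rw [Finset.sum_comm, ← Finset.sum_neg_distrib]
  refine Finset.sum_congr rfl fun j _ => ?_
  rw [← Finset.sum_neg_distrib]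
  refine Finset.sum_congr rfl fun i _ => ?_
  rw [cl_gam, smul_neg, smul_neg, smul_comm]

private theorem double_sum {M : Type*} [AddCommGroup M] [Module ℝ M] (f : Fin n → Fin n → M)
    (h : ∀ i j, i ≠ j → f i j + f j i = 0) : ∑ i, ∑ j, f i j = ∑ i, f i i := by
  have h1 : (2 : ℝ) • ∑ i, ∑ j, f i j = (2 : ℝ) • ∑ i, f i i := by
    rw [two_smul, two_smul]
    nth_rewrite 2 [Finset.sum_comm]
    rw [← Finset.sum_add_distrib, ← Finset.sum_add_distrib]
    refine Finset.sum_congr rfl fun i _ => ?_
    rw [← Finset.sum_add_distrib, Finset.sum_eq_single i]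
    · intro j _ hj
      exact h i j hj.symm
    · intro h2
      exact absurd (Finset.mem_univ i) h2
  exact smul_right_injective M (two_ne_zero : (2 : ℝ) ≠ 0) h1

private theorem sq_sum (v : E n) : ∑ i, v i * v i = ‖v‖ ^ 2 := by
  rw [EuclideanSpace.norm_sq_eq]
  refine Finset.sum_congr rfl fun i _ => ?_
  rw [Real.norm_eq_abs, sq_abs]
  ring

private theorem gamV_gamV (v : E n) (w : W n) : gamV v (gamV v w) = ‖v‖ ^ 2 • w := by
  rw [gamV_apply v (gamV v w), gamV_apply v w]
  simp only [map_sum, map_smul, Finset.smul_sum]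
  rw [double_sum]
  · rw [← sq_sum, Finset.sum_smul]
    refine Finset.sum_congr rfl fun i _ => ?_
    rw [gam_gam, smul_smul]
  · intro i j hij
    rw [gam_anti hij, smul_neg, smul_neg, smul_comm (v i) (v j)]
    exact neg_add_cancel _

private theorem clV_clV (v : E n) (w : W n) : clV v (clV v w) = -(‖v‖ ^ 2 • w) := by
  rw [clV_apply v (clV v w), clV_apply v w]
  simp only [map_sum, map_smul, Finset.smul_sum]
  rw [double_sum]
  · rw [← sq_sum, Finset.sum_smul, ← Finset.sum_neg_distrib]
    refine Finset.sum_congr rfl fun i _ => ?_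
    rw [cl_cl, smul_neg, smul_neg, smul_smul]
  · intro i j hij
    rw [cl_anti hij, smul_neg, smul_neg, smul_comm (v i) (v j)]
    exact neg_add_cancel _

theorem norm_gamV (v : E n) (w : W n) : ‖gamV v w‖ = ‖v‖ * ‖w‖ := by
  have h1 : ‖gamV v w‖ ^ 2 = (‖v‖ * ‖w‖) ^ 2 := by
    rw [← real_inner_self_eq_norm_sq, inner_gamV, gamV_gamV, real_inner_smul_right,
      real_inner_self_eq_norm_sq, mul_pow]
  exact (pow_left_inj₀ (norm_nonneg _) (by positivity) two_ne_zero).1 h1

theorem norm_clV (v : E n) (w : W n) : ‖clV v w‖ = ‖v‖ * ‖w‖ := by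
  have h1 : ‖clV v w‖ ^ 2 = (‖v‖ * ‖w‖) ^ 2 := by
    rw [← real_inner_self_eq_norm_sq, inner_clV, clV_clV, inner_neg_right, neg_neg, real_inner_smul_right,
      real_inner_self_eq_norm_sq, mul_pow]
  exact (pow_left_inj₀ (norm_nonneg _) (by positivity) two_ne_zero).1 h1

theorem abs_cg (v f : E n) (w : W n) : |inner ℝ w (clV v (gamV f w))| ≤ ‖v‖ * ‖f‖ * ‖w‖ ^ 2 := by
  refine (abs_real_inner_le_norm _ _).trans (le_of_eq ?_)
  rw [norm_clV, norm_gamV]
  ring

/-- `v ↦ gamV v` as a continuous linear map (for smoothness of `z ↦ gamV (g z)`). -/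
theorem gamV_clm : ∃ T : E n →L[ℝ] (W n →L[ℝ] W n), ∀ v, T v = gamV v := by
  exact ⟨LinearMap.toContinuousLinearMap
    { toFun := fun v => gamV v
      map_add' := gamV_add
      map_smul' := gamV_smul }, fun _ => rfl⟩

theorem clV_clm : ∃ T : E n →L[ℝ] (W n →L[ℝ] W n), ∀ v, T v = clV v := by
  exact ⟨LinearMap.toContinuousLinearMap
    { toFun := fun v => clV v
      map_add' := clV_add
      map_smul' := clV_smul }, fun _ => rfl⟩

end Pool.Agent.FCI
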