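import Pool.Agent.FCI.ClB

/-!
# FCI-ClC: parity and the vacuum
-/

open scoped BigOperators Topology ContDiff

namespace Pool.Agent.FCI

open Pool.Agent.TUB (E)

variable {n : ℕ}

/-- projection to the even forms -/
noncomputable def evP (n : ℕ) : W n →L[ℝ] W n :=
  LinearMap.toContinuousLinearMap
    { toFun := fun w => WithLp.toLp 2 (fun I => if Even I.card then w I else 0)
      map_add' := fun v w => by
        ext I
        by_cases h : Even I.card
        · simp [h]
        · simp [h]
      map_smul' := fun r w => by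
        ext I
        by_cases h : Even I.card
        · simp [h]
        · simp [h] }

/-- projection to the odd forms -/
noncomputable def odP (n : ℕ) : W n →L[ℝ] W n :=
  LinearMap.toContinuousLinearMap
    { toFun := fun w => WithLp.toLp 2 (fun I => if Odd I.card then w I else 0)
      map_add' := fun v w => by
        ext I
        by_cases h : Odd I.card
        · simp [h]
        · simp [h]
      map_smul' := fun r w => by
        ext I
        by_cases h : Odd I.card
        · simp [h]
        · simp [h] }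

private theorem evP_apply (w : W n) (I : Finset (Fin n)) :
    evP n w I = if Even I.card then w I else 0 := rfl

private theorem odP_apply (w : W n) (I : Finset (Fin n)) :
    odP n w I = if Odd I.card then w I else 0 := rfl

private theorem io_apply (w : Wo n) (I : Finset (Fin n)) :
    io n w I = if h : Odd I.card then w ⟨I, h⟩ else 0 := rfl

private theorem po_apply (w : W n) (I : {I : Finset (Fin n) // Odd I.card}) :
    po n w I = w I.1 := rfl

private theorem sd_card (I : Finset (Fin n)) (i : Fin n) :
    (symmDiff I {i}).card = I.card + 1 ∨ (symmDiff I {i}).card + 1 = I.card := by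
  by_cases h : i ∈ I
  · right
    have h1 : symmDiff I {i} = I.erase i := by
      ext j
      simp only [Finset.mem_symmDiff, Finset.mem_singleton, Finset.mem_erase]
      constructor
      · rintro (⟨h1, h2⟩ | ⟨h1, h2⟩)
        · exact ⟨h2, h1⟩
        · rw [h1] at h2
          exact absurd h h2
      · rintro ⟨h1, h2⟩
        exact Or.inl ⟨h2, h1⟩
    rw [h1, Finset.card_erase_add_one h]
  · left
    have h1 : symmDiff I {i} = insert i I := by
      ext j
      simp only [Finset.mem_symmDiff, Finset.mem_singleton, Finset.mem_insert]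
      constructor
      · rintro (⟨h1, h2⟩ | ⟨h1, h2⟩)
        · exact Or.inr h1
        · exact Or.inl h1
      · rintro (h1 | h1)
        · refine Or.inr ⟨h1, ?_⟩
          rw [h1]
          exact h
        · refine Or.inl ⟨h1, ?_⟩
          intro h2
          rw [h2] at h1
          exact h h1
    rw [h1, Finset.card_insert_of_notMem h]

private theorem sd_odd {I : Finset (Fin n)} (h : Even I.card) (i : Fin n) :
    Odd (symmDiff I {i}).card := by
  rcases sd_card I i with h1 | h1
  · rw [h1]
    exact h.add_one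
  · rw [← h1] at h
    by_contra h2
    rw [Nat.not_odd_iff_even] at h2
    exact (Nat.not_even_iff_odd.2 h2.add_one) h

private theorem sd_even {I : Finset (Fin n)} (h : Odd I.card) (i : Fin n) :
    Even (symmDiff I {i}).card := by
  rcases sd_card I i with h1 | h1
  · rw [h1]
    exact h.add_one
  · rw [← h1] at h
    by_contra h2
    rw [Nat.not_even_iff_odd] at h2
    exact (Nat.not_odd_iff_even.2 h2.add_one) h

theorem evP_mem (w : W n) : evP n w ∈ evS n := by
  intro I hI
  rw [evP_apply, if_neg (Nat.not_even_iff_odd.2 hI)]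

theorem odP_mem (w : W n) : odP n w ∈ odS n := by
  intro I hI
  rw [odP_apply, if_neg (Nat.not_odd_iff_even.2 hI)]

theorem evP_add_odP (w : W n) : evP n w + odP n w = w := by
  ext I
  rw [PiLp.add_apply, evP_apply, odP_apply]
  rcases Nat.even_or_odd I.card with h | h
  · rw [if_pos h, if_neg (Nat.not_odd_iff_even.2 h), add_zero]
  · rw [if_neg (Nat.not_even_iff_odd.2 h), if_pos h, zero_add]

theorem odP_of_od {w : W n} (hw : w ∈ odS n) : odP n w = w := by
  ext I
  rw [odP_apply]
  rcases Nat.even_or_odd I.card with h | h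
  · rw [if_neg (Nat.not_odd_iff_even.2 h), hw I h]
  · rw [if_pos h]

private theorem op_ev (c : Finset (Fin n) → ℝ) {w : W n} (hw : w ∈ evS n) (i : Fin n) :
    opL c i w ∈ odS n := by
  intro I hI
  rw [opL_apply, hw _ (sd_odd hI i), mul_zero]

private theorem op_od (c : Finset (Fin n) → ℝ) {w : W n} (hw : w ∈ odS n) (i : Fin n) :
    opL c i w ∈ evS n := by
  intro I hI
  rw [opL_apply, hw _ (sd_even hI i), mul_zero]

theorem cl_ev {w : W n} (hw : w ∈ evS n) (i : Fin n) : cl i w ∈ odS n := op_ev _ hw i

theorem cl_od {w : W n} (hw : w ∈ odS n) (i : Fin n) : cl i w ∈ evS n := op_od _ hw i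

theorem gam_ev {w : W n} (hw : w ∈ evS n) (i : Fin n) : gam i w ∈ odS n := op_ev _ hw i

theorem gam_od {w : W n} (hw : w ∈ odS n) (i : Fin n) : gam i w ∈ evS n := op_od _ hw i

theorem clV_ev {w : W n} (hw : w ∈ evS n) (v : E n) : clV v w ∈ odS n := by
  rw [clV_apply]
  exact Submodule.sum_mem _ fun i _ => Submodule.smul_mem _ _ (cl_ev hw i)

theorem clV_od {w : W n} (hw : w ∈ odS n) (v : E n) : clV v w ∈ evS n := by
  rw [clV_apply]
  exact Submodule.sum_mem _ fun i _ => Submodule.smul_mem _ _ (cl_od hw i)

theorem gamV_ev {w : W n} (hw : w ∈ evS n) (v : E n) : gamV v w ∈ odS n := by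
  rw [gamV_apply]
  exact Submodule.sum_mem _ fun i _ => Submodule.smul_mem _ _ (gam_ev hw i)

theorem gamV_od {w : W n} (hw : w ∈ odS n) (v : E n) : gamV v w ∈ evS n := by
  rw [gamV_apply]
  exact Submodule.sum_mem _ fun i _ => Submodule.smul_mem _ _ (gam_od hw i)

theorem inner_ev_od {v w : W n} (hv : v ∈ evS n) (hw : w ∈ odS n) : inner ℝ v w = 0 := by
  rw [PiLp.inner_apply]
  refine Finset.sum_eq_zero fun I _ => ?_
  rcases Nat.even_or_odd I.card with h | h
  · rw [hw I h, inner_zero_right]
  · rw [hv I h, inner_zero_left]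

private theorem w0_apply (I : Finset (Fin n)) : w0 n I = if I = ∅ then 1 else 0 := by
  unfold w0
  rw [PiLp.single_apply]

theorem w0_ev : w0 n ∈ evS n := by
  intro I hI
  rw [w0_apply, if_neg]
  rintro rfl
  rw [Finset.card_empty] at hI
  exact Nat.not_odd_zero hI

theorem norm_w0 : ‖w0 n‖ = 1 := by
  unfold w0
  rw [EuclideanSpace.norm_single, norm_one]

theorem cl_w0 (i : Fin n) : cl i (w0 n) = gam i (w0 n) := by
  ext I
  unfold cl gam
  rw [opL_apply, opL_apply, w0_apply]
  by_cases h : symmDiff I {i} = ∅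
  · have h1 : I = {i} := symmDiff_eq_bot.1 h
    have h2 : ep i I = 1 := by
      unfold ep
      rw [if_pos]
      rw [h1]
      exact Finset.mem_singleton_self i
    rw [h2, one_mul]
  · rw [if_neg h, mul_zero, mul_zero]

theorem clV_w0 (v : E n) : clV v (w0 n) = gamV v (w0 n) := by
  rw [clV_apply, gamV_apply]
  refine Finset.sum_congr rfl fun i _ => ?_
  rw [cl_w0]

private theorem sum_odd (f : Finset (Fin n) → ℝ) :
    ∑ I : {I : Finset (Fin n) // Odd I.card}, f I.1 = ∑ I, if Odd I.card then f I else 0 := by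
  rw [← Finset.sum_filter]
  exact (Finset.sum_subtype (Finset.univ.filter fun I : Finset (Fin n) => Odd I.card)
    (fun I => by rw [Finset.mem_filter]; exact ⟨fun h => h.2, fun h => ⟨Finset.mem_univ _, h⟩⟩)
    f).symm

private theorem norm_po_sq (w : W n) :
    ‖po n w‖ ^ 2 = ∑ I, if Odd I.card then ‖w I‖ ^ 2 else 0 := by
  rw [EuclideanSpace.norm_sq_eq, ← sum_odd fun I => ‖w I‖ ^ 2]
  rfl

theorem norm_po {w : W n} (hw : w ∈ odS n) : ‖po n w‖ = ‖w‖ := by
  have h1 : ‖po n w‖ ^ 2 = ‖w‖ ^ 2 := by
    rw [norm_po_sq, EuclideanSpace.norm_sq_eq]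
    refine Finset.sum_congr rfl fun I _ => ?_
    rcases Nat.even_or_odd I.card with h | h
    · rw [if_neg (Nat.not_odd_iff_even.2 h), hw I h, norm_zero, zero_pow two_ne_zero]
    · rw [if_pos h]
  exact (pow_left_inj₀ (norm_nonneg _) (norm_nonneg _) two_ne_zero).1 h1

theorem norm_po_le (w : W n) : ‖po n w‖ ≤ ‖w‖ := by
  have h1 : ‖po n w‖ ^ 2 ≤ ‖w‖ ^ 2 := by
    rw [norm_po_sq, EuclideanSpace.norm_sq_eq]
    refine Finset.sum_le_sum fun I _ => ?_
    split_ifs
    · exact le_rfl
    · exact sq_nonneg _
  exact (pow_le_pow_iff_left₀ (norm_nonneg _) (norm_nonneg _) two_ne_zero).1 h1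

private theorem po_io (w : Wo n) : po n (io n w) = w := by
  ext I
  rw [po_apply, io_apply, dif_pos I.2]

private theorem io_mem' (w : Wo n) : io n w ∈ odS n := by
  intro I hI
  rw [io_apply, dif_neg (Nat.not_odd_iff_even.2 hI)]

theorem norm_io (w : Wo n) : ‖io n w‖ = ‖w‖ := by
  rw [← norm_po (io_mem' w), po_io]

theorem io_mem (w : Wo n) : io n w ∈ odS n := io_mem' w

theorem inner_po (v : Wo n) (w : W n) : inner ℝ v (po n w) = inner ℝ (io n v) w := by
  rw [PiLp.inner_apply, PiLp.inner_apply]
  have h1 : ∀ I : {I : Finset (Fin n) // Odd I.card},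
      inner ℝ (v I) (po n w I) = inner ℝ (io n v I.1) (w I.1) := by
    intro I
    rw [po_apply, io_apply, dif_pos I.2]
  rw [Finset.sum_congr rfl fun I _ => h1 I, sum_odd fun I => inner ℝ (io n v I) (w I)]
  refine Finset.sum_congr rfl fun I _ => ?_
  rcases Nat.even_or_odd I.card with h | h
  · rw [if_neg (Nat.not_odd_iff_even.2 h), io_mem' v I h, inner_zero_left]
  · rw [if_pos h]

end Pool.Agent.FCI
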