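import Pool.Agent.FCI.ClB

/-!
# FCI-ClD: the Hessian term is positive on odd forms (imports ClB, ClA; imports may hold unfinished lemmas)
-/

open scoped BigOperators Topology ContDiff

namespace Pool.Agent.FCI

open Pool.Agent.TUB (E)

variable {n : ℕ}

private theorem cld_inW (v w : W n) : inner ℝ v w = ∑ I, v I * w I := by
  rw [PiLp.inner_apply]
  refine Finset.sum_congr rfl fun I _ => ?_
  simp [mul_comm]

private theorem cld_inE (v w : E n) : inner ℝ v w = ∑ i, v i * w i := by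
  rw [PiLp.inner_apply]
  refine Finset.sum_congr rfl fun I _ => ?_
  simp [mul_comm]

private theorem cld_exp (p : E n) : p = ∑ j, p j • eb j := by
  ext i
  simp [eb, Pi.single_apply]

private theorem cld_quad (H : E n →L[ℝ] E n) (p : E n) :
    inner ℝ (H p) p = ∑ j, ∑ i, (H (eb j)) i * (p i * p j) := by
  have h1 : H p = ∑ j, p j • H (eb j) := by
    conv_lhs => rw [cld_exp p]
    rw [map_sum]
    exact Finset.sum_congr rfl fun j _ => by rw [map_smul]
  rw [h1, sum_inner]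
  refine Finset.sum_congr rfl fun j _ => ?_
  rw [real_inner_smul_left, cld_inE, Finset.mul_sum]
  exact Finset.sum_congr rfl fun i _ => by ring

private theorem cld_sym {H : E n →L[ℝ] E n} (symm : ∀ v w, inner ℝ (H v) w = inner ℝ v (H w))
    (i j : Fin n) : (H (eb j)) i = (H (eb i)) j := by
  have h1 : ∀ (v : E n) (k : Fin n), inner ℝ v (eb k) = v k := by
    intro v k
    rw [cld_inE]
    simp [eb]
  have h2 := symm (eb j) (eb i)
  rw [h1, real_inner_comm, h1] at h2
  exact h2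

private theorem cld_uu (i j : Fin n) (w : W n) :
    inner ℝ (gam i w) (gam j w) = if i = j then ‖w‖ ^ 2 else 0 := by
  split_ifs with h
  · subst h
    rw [inner_gam, gam_gam, real_inner_self_eq_norm_sq]
  · have h1 : inner ℝ (gam i w) (gam j w) = -inner ℝ (gam i w) (gam j w) := by
      conv_lhs => rw [inner_gam, gam_anti h, inner_neg_right, ← inner_gam, real_inner_comm]
    linarith

private theorem cld_vv (i j : Fin n) (w : W n) :
    inner ℝ (cl i w) (cl j w) = if i = j then ‖w‖ ^ 2 else 0 := by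
  split_ifs with h
  · subst h
    rw [inner_cl, cl_cl, inner_neg_right, neg_neg, real_inner_self_eq_norm_sq]
  · have h1 : inner ℝ (cl i w) (cl j w) = -inner ℝ (cl i w) (cl j w) := by
      conv_lhs => rw [inner_cl, cl_anti h, inner_neg_right, neg_neg, ← neg_neg (inner ℝ w _),
        ← inner_cl, real_inner_comm]
    linarith

private theorem cld_uv (i j : Fin n) (w : W n) :
    inner ℝ (gam i w) (cl j w) = -inner ℝ w (cl j (gam i w)) := by
  rw [inner_gam, cl_gam, inner_neg_right, neg_neg]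

private theorem cld_aa (i j : Fin n) (w : W n) :
    inner ℝ ((1 / 2 : ℝ) • (gam i w - cl i w)) ((1 / 2 : ℝ) • (gam j w - cl j w)) =
      1 / 4 * (2 * (if i = j then ‖w‖ ^ 2 else 0) + inner ℝ w (cl j (gam i w)) +
        inner ℝ w (cl i (gam j w))) := by
  have h1 : inner ℝ (cl i w) (gam j w) = -inner ℝ w (cl i (gam j w)) := by
    rw [real_inner_comm, cld_uv]
  rw [real_inner_smul_left, real_inner_smul_right, inner_sub_left, inner_sub_right, inner_sub_right,
    cld_uu, cld_vv, cld_uv, h1]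
  ring

private theorem cld_cii (i : Fin n) (w : W n) :
    inner ℝ w (cl i (gam i w)) = ∑ I, ep i I * w I ^ 2 := by
  rw [cld_inW]
  refine Finset.sum_congr rfl fun I _ => ?_
  rw [cl_gam_apply]
  ring

private theorem cld_sum {w : W n} (hw : w ∈ odS n) :
    ‖w‖ ^ 2 ≤ ∑ i, inner ℝ ((1 / 2 : ℝ) • (gam i w - cl i w)) ((1 / 2 : ℝ) • (gam i w - cl i w)) := by
  have h0 : ‖w‖ ^ 2 = ∑ I, w I ^ 2 := by
    rw [← real_inner_self_eq_norm_sq, cld_inW]
    exact Finset.sum_congr rfl fun I _ => by ring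
  have h1 : ∀ i : Fin n, inner ℝ ((1 / 2 : ℝ) • (gam i w - cl i w))
      ((1 / 2 : ℝ) • (gam i w - cl i w)) = ∑ I, (if i ∈ I then 1 else 0) * w I ^ 2 := by
    intro i
    rw [cld_aa, if_pos rfl, cld_cii, h0, Finset.mul_sum, ← Finset.sum_add_distrib,
      ← Finset.sum_add_distrib, Finset.mul_sum]
    refine Finset.sum_congr rfl fun I _ => ?_
    unfold ep
    split_ifs <;> ring
  rw [Finset.sum_congr rfl fun i _ => h1 i, Finset.sum_comm, h0]
  refine Finset.sum_le_sum fun I _ => ?_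
  rw [← Finset.sum_mul]
  have h2 : ∑ i : Fin n, (if i ∈ I then (1 : ℝ) else 0) = (I.card : ℝ) := by
    rw [Finset.sum_ite_mem, Finset.univ_inter, Finset.sum_const, nsmul_eq_mul, mul_one]
  rw [h2]
  rcases Finset.eq_empty_or_nonempty I with rfl | hI
  · have h3 : w ∅ = 0 := hw ∅ (by simp)
    rw [h3]
    simp
  · have h3 : (1 : ℝ) ≤ I.card := by exact_mod_cast hI.card_pos
    nlinarith [sq_nonneg (w I)]

theorem cg_hess {H : E n →L[ℝ] E n} (symm : ∀ v w, inner ℝ (H v) w = inner ℝ v (H w)) {δ : ℝ} (hδ : 0 ≤ δ)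
    (conv : ∀ v, δ * ‖v‖ ^ 2 ≤ inner ℝ (H v) v) {w : W n} (hw : w ∈ odS n) :
    2 * δ * ‖w‖ ^ 2 ≤ inner ℝ w (∑ j, cl j (gamV (H (eb j)) w)) +
      (∑ j, inner ℝ (H (eb j)) (eb j)) * ‖w‖ ^ 2 := by
  obtain ⟨a, ha⟩ : ∃ a : Fin n → W n, a = fun i => (1 / 2 : ℝ) • (gam i w - cl i w) := ⟨_, rfl⟩
  -- the right hand side
  have e1 : inner ℝ w (∑ j, cl j (gamV (H (eb j)) w)) =
      ∑ j, ∑ i, (H (eb j)) i * inner ℝ w (cl j (gam i w)) := by
    rw [inner_sum]
    refine Finset.sum_congr rfl fun j _ => ?_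
    rw [gamV_apply, map_sum, inner_sum]
    refine Finset.sum_congr rfl fun i _ => ?_
    rw [map_smul, real_inner_smul_right]
  have e2 : ∑ j, inner ℝ (H (eb j)) (eb j) = ∑ j, (H (eb j)) j := by
    refine Finset.sum_congr rfl fun j _ => ?_
    rw [cld_inE]
    simp [eb]
  have e3 : ∑ j, ∑ i, (H (eb j)) i * inner ℝ w (cl i (gam j w)) =
      ∑ j, ∑ i, (H (eb j)) i * inner ℝ w (cl j (gam i w)) := by
    rw [Finset.sum_comm]
    refine Finset.sum_congr rfl fun j _ => Finset.sum_congr rfl fun i _ => ?_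
    rw [cld_sym symm]
  have e4 : ∑ j, ∑ i, (H (eb j)) i * inner ℝ (a i) (a j) = 1 / 2 *
      (inner ℝ w (∑ j, cl j (gamV (H (eb j)) w)) + (∑ j, inner ℝ (H (eb j)) (eb j)) * ‖w‖ ^ 2) := by
    have f1 : ∑ j, ∑ i, (H (eb j)) i * inner ℝ (a i) (a j) =
        1 / 2 * (∑ j, ∑ i, (H (eb j)) i * (if i = j then ‖w‖ ^ 2 else 0)) +
        1 / 4 * (∑ j, ∑ i, (H (eb j)) i * inner ℝ w (cl j (gam i w))) +
        1 / 4 * (∑ j, ∑ i, (H (eb j)) i * inner ℝ w (cl i (gam j w))) := by
      rw [Finset.mul_sum, Finset.mul_sum, Finset.mul_sum, ← Finset.sum_add_distrib,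
        ← Finset.sum_add_distrib]
      refine Finset.sum_congr rfl fun j _ => ?_
      rw [Finset.mul_sum, Finset.mul_sum, Finset.mul_sum, ← Finset.sum_add_distrib,
        ← Finset.sum_add_distrib]
      refine Finset.sum_congr rfl fun i _ => ?_
      rw [ha, cld_aa]
      ring
    have f2 : ∑ j, ∑ i, (H (eb j)) i * (if i = j then ‖w‖ ^ 2 else 0) =
        (∑ j, (H (eb j)) j) * ‖w‖ ^ 2 := by
      rw [Finset.sum_mul]
      refine Finset.sum_congr rfl fun j _ => ?_
      simp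
    rw [f1, f2, e3, e1, e2]
    ring
  -- positivity
  have e5 : ∑ j, ∑ i, (H (eb j)) i * inner ℝ (a i) (a j) =
      ∑ I, inner ℝ (H (WithLp.toLp 2 fun i => a i I)) (WithLp.toLp 2 fun i => a i I) := by
    have f1 : ∀ I : Finset (Fin n), inner ℝ (H (WithLp.toLp 2 fun i => a i I))
        (WithLp.toLp 2 fun i => a i I) = ∑ j, ∑ i, (H (eb j)) i * (a i I * a j I) := fun I =>
      cld_quad H _
    calc ∑ j, ∑ i, (H (eb j)) i * inner ℝ (a i) (a j)
        = ∑ j, ∑ i, ∑ I, (H (eb j)) i * (a i I * a j I) := by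
          refine Finset.sum_congr rfl fun j _ => Finset.sum_congr rfl fun i _ => ?_
          rw [cld_inW, Finset.mul_sum]
      _ = ∑ j, ∑ I, ∑ i, (H (eb j)) i * (a i I * a j I) :=
          Finset.sum_congr rfl fun j _ => Finset.sum_comm
      _ = ∑ I, ∑ j, ∑ i, (H (eb j)) i * (a i I * a j I) := Finset.sum_comm
      _ = _ := Finset.sum_congr rfl fun I _ => (f1 I).symm
  have e6 : δ * ∑ i, inner ℝ (a i) (a i) ≤ ∑ j, ∑ i, (H (eb j)) i * inner ℝ (a i) (a j) := by
    rw [e5]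
    have f1 : ∑ i, inner ℝ (a i) (a i) =
        ∑ I, ‖(WithLp.toLp 2 (fun i => a i I) : E n)‖ ^ 2 := by
      have f2 : ∀ I : Finset (Fin n), ‖(WithLp.toLp 2 (fun i => a i I) : E n)‖ ^ 2 =
          ∑ i, a i I * a i I := by
        intro I
        rw [← real_inner_self_eq_norm_sq, cld_inE]
      rw [Finset.sum_congr rfl fun I _ => f2 I, Finset.sum_comm]
      exact Finset.sum_congr rfl fun i _ => cld_inW _ _
    rw [f1, Finset.mul_sum]
    exact Finset.sum_le_sum fun I _ => conv _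
  have e7 : ‖w‖ ^ 2 ≤ ∑ i, inner ℝ (a i) (a i) := by
    rw [ha]
    exact cld_sum hw
  have e8 := mul_le_mul_of_nonneg_left e7 hδ
  rw [e4] at e6
  linarith

end Pool.Agent.FCI
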