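import Pool.Agent.FCI.GDefs
import Pool.Agent.TUB.ChA

/-!
# FCI-Cmp: comparison of the derivatives of two maps on a compact manifold
-/

open scoped BigOperators Topology ContDiff Manifold
open Filter Set

namespace Pool.Agent.FCI

open Pool.Agent.TUB (E Imm dm)

private theorem cm_key {m : ℕ} {X : Type*} [TopologicalSpace X] [ChartedSpace (E m) X] [IsManifold (𝓡 m) ∞ X]
    (x₀ : X) (u : E m) (hu : u ∈ (extChartAt (𝓡 m) x₀).target) :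
    ∃ e : E m ≃L[ℝ] E m, ∀ (N : ℕ) (g : X → E N), ContMDiff (𝓡 m) 𝓘(ℝ, E N) ∞ g →
      fderiv ℝ (g ∘ (extChartAt (𝓡 m) x₀).symm) u =
        (dm m g ((extChartAt (𝓡 m) x₀).symm u)).comp (e : E m →L[ℝ] E m) := by
  have hinv := isInvertible_mfderivWithin_extChartAt_symm (I := 𝓡 m) (M := X) hu
  have hd := mdifferentiableWithinAt_extChartAt_symm (I := 𝓡 m) (M := X) hu
  rw [ModelWithCorners.range_eq_univ, mfderivWithin_univ] at hinv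
  rw [ModelWithCorners.range_eq_univ, mdifferentiableWithinAt_univ] at hd
  obtain ⟨e, he⟩ := hinv
  refine ⟨e, fun N g hg => ?_⟩
  have hfd : MDifferentiableAt (𝓡 m) 𝓘(ℝ, E N) g ((extChartAt (𝓡 m) x₀).symm u) :=
    (hg.mdifferentiable (by simp)) _
  have h2 := mfderiv_comp u hfd hd
  rw [← he] at h2
  rw [← mfderiv_eq_fderiv]
  exact h2

private theorem cm_smooth {m N : ℕ} {X : Type*} [TopologicalSpace X] [ChartedSpace (E m) X] [IsManifold (𝓡 m) ∞ X]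
    {g : X → E N} (hg : ContMDiff (𝓡 m) 𝓘(ℝ, E N) ∞ g) (x₀ : X) {u : E m}
    (hu : u ∈ (extChartAt (𝓡 m) x₀).target) :
    ContinuousAt (fderiv ℝ (g ∘ (extChartAt (𝓡 m) x₀).symm)) u := by
  have h1 : ContMDiffOn 𝓘(ℝ, E m) (𝓡 m) ∞ (extChartAt (𝓡 m) x₀).symm
      (extChartAt (𝓡 m) x₀).target := contMDiffOn_extChartAt_symm x₀
  have h2 : ContDiffOn ℝ ∞ (g ∘ (extChartAt (𝓡 m) x₀).symm) (extChartAt (𝓡 m) x₀).target :=
    contMDiffOn_iff_contDiffOn.1 (hg.comp_contMDiffOn h1)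
  have h3 : ContDiffAt ℝ ∞ (g ∘ (extChartAt (𝓡 m) x₀).symm) u :=
    h2.contDiffAt ((isOpen_extChartAt_target x₀).mem_nhds hu)
  have h4 : ContDiffAt ℝ 1 (fderiv ℝ (g ∘ (extChartAt (𝓡 m) x₀).symm)) u := h3.fderiv_right (by norm_cast)
  exact h4.continuousAt

private theorem cm_loc {m n N : ℕ} {X : Type*} [TopologicalSpace X] [ChartedSpace (E m) X] [IsManifold (𝓡 m) ∞ X]
    {f : X → E n} (hf : Imm m f) {h : X → E N} (hh : ContMDiff (𝓡 m) 𝓘(ℝ, E N) ∞ h) (x₀ : X) :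
    ∃ C : ℝ, 0 < C ∧ ∀ᶠ x in 𝓝 x₀, ∀ v : E m, ‖dm m h x v‖ ≤ C * ‖dm m f x v‖ := by
  obtain ⟨u₀, hu₀⟩ : ∃ u₀ : E m, u₀ = extChartAt (𝓡 m) x₀ x₀ := ⟨_, rfl⟩
  have hu₀t : u₀ ∈ (extChartAt (𝓡 m) x₀).target := by
    rw [hu₀]
    exact mem_extChartAt_target x₀
  have hinj : Function.Injective (fderiv ℝ (f ∘ (extChartAt (𝓡 m) x₀).symm) u₀) :=
    TUB.chart_inj f hf x₀ u₀ hu₀t
  obtain ⟨L, hL⟩ : ∃ L : E m → E m →L[ℝ] E n, L = fderiv ℝ (f ∘ (extChartAt (𝓡 m) x₀).symm) := ⟨_, rfl⟩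
  obtain ⟨M, hM⟩ : ∃ M : E m → E m →L[ℝ] E N, M = fderiv ℝ (h ∘ (extChartAt (𝓡 m) x₀).symm) := ⟨_, rfl⟩
  have hLc : ContinuousAt L u₀ := by
    rw [hL]
    exact cm_smooth hf.smooth x₀ hu₀t
  have hMc : ContinuousAt M u₀ := by
    rw [hM]
    exact cm_smooth hh x₀ hu₀t
  rw [← hL] at hinj
  obtain ⟨K, hK, hKL⟩ := (L u₀ : E m →ₗ[ℝ] E n).exists_antilipschitzWith (LinearMap.ker_eq_bot.2 hinj)
  have hK0 : (0 : ℝ) < (K : ℝ) := by exact_mod_cast hK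
  have hKb : ∀ w : E m, ‖w‖ ≤ K * ‖L u₀ w‖ := by
    intro w
    have h1 := hKL.le_mul_dist w 0
    rw [dist_zero_right] at h1
    have h2 : dist ((L u₀ : E m →ₗ[ℝ] E n) w) ((L u₀ : E m →ₗ[ℝ] E n) 0) = ‖L u₀ w‖ := by
      rw [map_zero, dist_zero_right]
      rfl
    rw [h2] at h1
    exact h1
  have e1 : ∀ᶠ u in 𝓝 u₀, ∀ w : E m, ‖w‖ ≤ 2 * K * ‖L u w‖ := by
    have h1 : ∀ᶠ u in 𝓝 u₀, ‖L u - L u₀‖ < 1 / (2 * K) := by
      have h2 : Tendsto (fun u => ‖L u - L u₀‖) (𝓝 u₀) (𝓝 0) := by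
        have h3 := (hLc.tendsto.sub_const (L u₀)).norm
        rwa [sub_self, norm_zero] at h3
      exact h2.eventually_lt_const (by positivity)
    filter_upwards [h1] with u hu w
    have h2 : ‖L u₀ w‖ ≤ ‖L u w‖ + 1 / (2 * K) * ‖w‖ := by
      have h3 : L u₀ w = L u w - (L u - L u₀) w := by
        rw [ContinuousLinearMap.sub_apply]
        abel
      rw [h3]
      refine (norm_sub_le _ _).trans (add_le_add le_rfl ?_)
      exact ((L u - L u₀).le_opNorm w).trans (mul_le_mul_of_nonneg_right hu.le (norm_nonneg w))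
    have h4 : ‖w‖ ≤ K * (‖L u w‖ + 1 / (2 * K) * ‖w‖) :=
      (hKb w).trans (mul_le_mul_of_nonneg_left h2 hK0.le)
    have h5 : (K : ℝ) * (‖L u w‖ + 1 / (2 * K) * ‖w‖) = K * ‖L u w‖ + ‖w‖ / 2 := by
      field_simp
    linarith
  obtain ⟨A, hA⟩ : ∃ A : ℝ, A = ‖M u₀‖ + 1 := ⟨_, rfl⟩
  have hA0 : 0 < A := by
    have := norm_nonneg (M u₀)
    linarith
  have e2 : ∀ᶠ u in 𝓝 u₀, ‖M u‖ < A := by
    refine hMc.norm.eventually_lt_const ?_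
    rw [hA]
    linarith
  refine ⟨A * (2 * K), by positivity, ?_⟩
  have hcont : Tendsto (extChartAt (𝓡 m) x₀) (𝓝 x₀) (𝓝 u₀) := by
    rw [hu₀]
    exact continuousAt_extChartAt x₀
  filter_upwards [hcont.eventually e1, hcont.eventually e2, extChartAt_source_mem_nhds (I := 𝓡 m) x₀]
    with x h1 h2 h3 v
  have hut : extChartAt (𝓡 m) x₀ x ∈ (extChartAt (𝓡 m) x₀).target := (extChartAt (𝓡 m) x₀).map_source h3
  have hxx : (extChartAt (𝓡 m) x₀).symm (extChartAt (𝓡 m) x₀ x) = x := (extChartAt (𝓡 m) x₀).left_inv h3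
  obtain ⟨e, he⟩ := cm_key x₀ _ hut
  have hef := he n f hf.smooth
  have heh := he N h hh
  rw [hxx] at hef heh
  rw [← hL] at hef
  rw [← hM] at heh
  have hf1 : dm m f x v = L (extChartAt (𝓡 m) x₀ x) (e.symm v) := by
    rw [hef, ContinuousLinearMap.comp_apply]
    show dm m f x v = dm m f x (e (e.symm v))
    rw [e.apply_symm_apply]
  have hh1 : dm m h x v = M (extChartAt (𝓡 m) x₀ x) (e.symm v) := by
    rw [heh, ContinuousLinearMap.comp_apply]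
    show dm m h x v = dm m h x (e (e.symm v))
    rw [e.apply_symm_apply]
  rw [hf1, hh1]
  calc ‖M (extChartAt (𝓡 m) x₀ x) (e.symm v)‖ ≤ ‖M (extChartAt (𝓡 m) x₀ x)‖ * ‖e.symm v‖ :=
        ContinuousLinearMap.le_opNorm _ _
    _ ≤ A * (2 * K * ‖L (extChartAt (𝓡 m) x₀ x) (e.symm v)‖) :=
        mul_le_mul h2.le (h1 _) (norm_nonneg _) hA0.le
    _ = A * (2 * K) * ‖L (extChartAt (𝓡 m) x₀ x) (e.symm v)‖ := by ring

theorem cmp_imm {m n N : ℕ} {X : Type*} [TopologicalSpace X] [CompactSpace X] [ChartedSpace (E m) X] [IsManifold (𝓡 m) ∞ X]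
    {f : X → E n} (hf : Imm m f) {h : X → E N} (hh : ContMDiff (𝓡 m) 𝓘(ℝ, E N) ∞ h) :
    ∃ C : ℝ, 0 < C ∧ ∀ (x : X) (v : E m), ‖dm m h x v‖ ≤ C * ‖dm m f x v‖ := by
  choose C hC0 hC using fun x₀ : X => cm_loc hf hh x₀
  obtain ⟨t, -, ht⟩ := isCompact_univ.elim_nhds_subcover
    (fun x₀ => {x | ∀ v : E m, ‖dm m h x v‖ ≤ C x₀ * ‖dm m f x v‖}) (fun x₀ _ => hC x₀)
  refine ⟨1 + ∑ x₀ ∈ t, C x₀, ?_, fun x v => ?_⟩
  · have : 0 ≤ ∑ x₀ ∈ t, C x₀ := Finset.sum_nonneg fun x₀ _ => (hC0 x₀).le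
    linarith
  · obtain ⟨x₀, hx₀, hx⟩ := Set.mem_iUnion₂.1 (ht (Set.mem_univ x))
    have h1 : ‖dm m h x v‖ ≤ C x₀ * ‖dm m f x v‖ := hx v
    have h2 : C x₀ ≤ ∑ y ∈ t, C y := Finset.single_le_sum (fun y _ => (hC0 y).le) hx₀
    exact h1.trans (mul_le_mul_of_nonneg_right (by linarith) (norm_nonneg _))

/-- Consequence along a smooth map `p` (chain rule `mfderiv_comp`, `mfderiv_eq_fderiv`). -/
theorem cmp_along {m n N : ℕ} {X : Type*} [TopologicalSpace X] [ChartedSpace (E m) X] [IsManifold (𝓡 m) ∞ X]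
    {f : X → E n} (hf : Imm m f) {h : X → E N} (hh : ContMDiff (𝓡 m) 𝓘(ℝ, E N) ∞ h) {C : ℝ}
    (hC : ∀ (x : X) (v : E m), ‖dm m h x v‖ ≤ C * ‖dm m f x v‖) {p : E m → X} (hp : ContMDiff 𝓘(ℝ, E m) (𝓡 m) ∞ p)
    (x v : E m) : ‖fderiv ℝ (h ∘ p) x v‖ ≤ C * ‖fderiv ℝ (f ∘ p) x v‖ := by
  have hpd : MDifferentiableAt 𝓘(ℝ, E m) (𝓡 m) p x := (hp.mdifferentiable (by simp)) x
  have hfd : MDifferentiableAt (𝓡 m) 𝓘(ℝ, E n) f (p x) := (hf.smooth.mdifferentiable (by simp)) _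
  have hhd : MDifferentiableAt (𝓡 m) 𝓘(ℝ, E N) h (p x) := (hh.mdifferentiable (by simp)) _
  have h1 : fderiv ℝ (f ∘ p) x = (dm m f (p x)).comp (mfderiv 𝓘(ℝ, E m) (𝓡 m) p x) := by
    rw [← mfderiv_eq_fderiv]
    exact mfderiv_comp x hfd hpd
  have h2 : fderiv ℝ (h ∘ p) x = (dm m h (p x)).comp (mfderiv 𝓘(ℝ, E m) (𝓡 m) p x) := by
    rw [← mfderiv_eq_fderiv]
    exact mfderiv_comp x hhd hpd
  rw [h1, h2]
  exact hC (p x) _

end Pool.Agent.FCI
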