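import Pool.Agent.FCI.Cc

/-!
# FCI-Com: the coordinate fields of a flat frame commute
-/

open scoped BigOperators Topology ContDiff
open MeasureTheory Filter Set

namespace Pool.Agent.FCI

open Pool.Agent.TUB (E)

variable {n : ℕ} {U : Set (E n)} {F : E n → E n} {G : E n → E n →L[ℝ] E n}
  {V : Type*} [NormedAddCommGroup V] [NormedSpace ℝ V]

private theorem cm_dF (hU : IsOpen U) {u : E n → V} (hu : ContDiffOn ℝ 2 u U) {z : E n} (hz : z ∈ U) :
    DifferentiableAt ℝ (fderiv ℝ u) z := by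
  have h1 : ContDiffAt ℝ 2 u z := hu.contDiffAt (hU.mem_nhds hz)
  have h2 : ContDiffAt ℝ 1 (fderiv ℝ u) z := h1.fderiv_right (by norm_num)
  exact h2.differentiableAt (by norm_num)

private theorem cm_apply (hU : IsOpen U) (hF : Flat U F G) {u : E n → V} (hu : ContDiffOn ℝ 2 u U) {z : E n}
    (hz : z ∈ U) (y v : E n) :
    fderiv ℝ (fun x => fderiv ℝ u x (G x v)) z y =
      fderiv ℝ u z (fderiv ℝ G z y v) + fderiv ℝ (fderiv ℝ u) z y (G z v) := by
  have hG : HasFDerivAt G (fderiv ℝ G z) z :=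
    ((hF.smG.contDiffAt (hU.mem_nhds hz)).differentiableAt (by simp)).hasFDerivAt
  have h1 : HasFDerivAt (fun x => G x v) ((fderiv ℝ G z).flip v) z := by
    have h2 := hG.clm_apply (hasFDerivAt_const v z)
    simpa using h2
  have h3 := (cm_dF hU hu hz).hasFDerivAt.clm_apply h1
  rw [h3.fderiv]
  simp

private theorem cm_two (hF : Flat U F G) : ContDiffOn ℝ 2 F U := by
  refine hF.smF.of_le ?_
  exact WithTop.coe_le_coe.2 le_top

private theorem cm_symm (hU : IsOpen U) {u : E n → V} (hu : ContDiffOn ℝ 2 u U) {z : E n} (hz : z ∈ U) (v w : E n) :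
    fderiv ℝ (fderiv ℝ u) z v w = fderiv ℝ (fderiv ℝ u) z w v := by
  have h1 : ContDiffAt ℝ 2 u z := hu.contDiffAt (hU.mem_nhds hz)
  exact (h1.isSymmSndFDerivAt (by simp)).eq v w

theorem fderiv_G (hU : IsOpen U) (hF : Flat U F G) {z : E n} (hz : z ∈ U) (y v : E n) :
    fderiv ℝ G z y v = -G z (fderiv ℝ (fderiv ℝ F) z y (G z v)) := by
  have h1 := cm_apply hU hF (cm_two hF) hz y v
  have h2 : (fun x => fderiv ℝ F x (G x v)) =ᶠ[𝓝 z] fun _ => v := by
    filter_upwards [hU.mem_nhds hz] with x hx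
    exact hF.inv1 x hx v
  rw [h2.fderiv_eq, fderiv_const_apply] at h1
  have h3 := congrArg (G z) h1
  rw [map_add, hF.inv2 z hz, _root_.zero_apply, map_zero] at h3
  exact eq_neg_of_add_eq_zero_left h3.symm

theorem fld_comm (hU : IsOpen U) (hF : Flat U F G) {u : E n → V} (hu : ContDiffOn ℝ 2 u U) {z : E n} (hz : z ∈ U)
    (v w : E n) :
    fderiv ℝ (fun y => fderiv ℝ u y (G y v)) z (G z w) = fderiv ℝ (fun y => fderiv ℝ u y (G y w)) z (G z v) := by
  rw [cm_apply hU hF hu hz, cm_apply hU hF hu hz, fderiv_G hU hF hz, fderiv_G hU hF hz,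
    cm_symm hU (cm_two hF) hz (G z w) (G z v), cm_symm hU hu hz (G z w) (G z v)]

end Pool.Agent.FCI
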