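import Pool.Agent.FCI.GDefs

/-!
# FCI-Cur: curvature of an immersion along a smooth map `p : E m → X`
-/

open scoped BigOperators Topology ContDiff Manifold
open Filter Set

namespace Pool.Agent.FCI

open Pool.Agent.TUB (E Imm CurvLE)

variable {m n : ℕ} {X : Type*} [TopologicalSpace X] [ChartedSpace (E m) X] [IsManifold (𝓡 m) ∞ X]

theorem comp_smooth {f : X → E n} (hf : Imm m f) {p : E m → X} (hp : ContMDiff 𝓘(ℝ, E m) (𝓡 m) ∞ p) :
    ContDiff ℝ ∞ (f ∘ p) := by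
  exact (hf.smooth.comp hp).contDiff

private theorem cc_key {f : X → E n} (hf : Imm m f) {p : E m → X} (hp : ContMDiff 𝓘(ℝ, E m) (𝓡 m) ∞ p)
    (x : E m) : ∃ L : E m →L[ℝ] E m, fderiv ℝ (f ∘ p) x = (TUB.dm m f (p x)).comp L := by
  have hpd : MDifferentiableAt 𝓘(ℝ, E m) (𝓡 m) p x := (hp.mdifferentiable (by simp)) x
  have hfd : MDifferentiableAt (𝓡 m) 𝓘(ℝ, E n) f (p x) := (hf.smooth.mdifferentiable (by simp)) _
  refine ⟨mfderiv 𝓘(ℝ, E m) (𝓡 m) p x, ?_⟩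
  have h2 := mfderiv_comp x hfd hpd
  rw [← mfderiv_eq_fderiv]
  exact h2

private theorem cc_range {f : X → E n} (hf : Imm m f) {p : E m → X} (hp : ContMDiff 𝓘(ℝ, E m) (𝓡 m) ∞ p)
    {x : E m} (hx : Function.Injective (fderiv ℝ (f ∘ p) x)) :
    TUB.tan m f (p x) = LinearMap.range (fderiv ℝ (f ∘ p) x : E m →ₗ[ℝ] E n) := by
  obtain ⟨L, hL⟩ := cc_key hf hp x
  have hLi : Function.Injective (L : E m →ₗ[ℝ] E m) := by
    intro a b hab
    refine hx ?_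
    have hab' : L a = L b := hab
    rw [hL, ContinuousLinearMap.comp_apply, ContinuousLinearMap.comp_apply, hab']
  have hLs : Function.Surjective (L : E m →ₗ[ℝ] E m) := LinearMap.injective_iff_surjective.1 hLi
  rw [hL]
  ext y
  unfold TUB.tan
  constructor
  · rintro ⟨v, rfl⟩
    obtain ⟨w, rfl⟩ := hLs v
    exact ⟨w, rfl⟩
  · rintro ⟨v, rfl⟩
    exact ⟨L v, rfl⟩

private theorem cc_curve {f : X → E n} (hf : Imm m f) {c : ℝ} (hc : CurvLE m f c) {p : E m → X}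
    (hp : ContMDiff 𝓘(ℝ, E m) (𝓡 m) ∞ p) {x : E m} (hx : Function.Injective (fderiv ℝ (f ∘ p) x)) (v : E m) :
    ‖(LinearMap.range (fderiv ℝ (f ∘ p) x : E m →ₗ[ℝ] E n))ᗮ.starProjection
      (fderiv ℝ (fun y => fderiv ℝ (f ∘ p) y v) x v)‖ ≤ c * ‖fderiv ℝ (f ∘ p) x v‖ ^ 2 := by
  obtain ⟨g, hg⟩ : ∃ g : E m → E n, g = f ∘ p := ⟨_, rfl⟩
  have hgs : ContDiff ℝ ∞ g := by
    rw [hg]
    exact comp_smooth hf hp
  obtain ⟨a, ha⟩ : ∃ a : ℝ → E m, a = fun t => x + t • v := ⟨_, rfl⟩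
  have has : ContDiff ℝ ∞ a := by
    rw [ha]
    exact contDiff_const.add (contDiff_id.smul contDiff_const)
  have hγ : ContMDiff 𝓘(ℝ, ℝ) (𝓡 m) ∞ (p ∘ a) := hp.comp has.contMDiff
  have hda : ∀ t : ℝ, HasDerivAt a v t := by
    intro t
    rw [ha]
    have h1 := ((hasDerivAt_id t).smul_const v).const_add x
    rw [one_smul] at h1
    exact h1
  have ha0 : a 0 = x := by
    rw [ha]
    simp
  have hd1 : ∀ t : ℝ, deriv (g ∘ a) t = fderiv ℝ g (a t) v := by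
    intro t
    have h1 : HasFDerivAt g (fderiv ℝ g (a t)) (a t) :=
      (hgs.contDiffAt.differentiableAt (by simp)).hasFDerivAt
    exact (h1.comp_hasDerivAt t (hda t)).deriv
  have hG : HasFDerivAt (fun w => fderiv ℝ g w v) (fderiv ℝ (fun w => fderiv ℝ g w v) x) x := by
    have h1 : ContDiffAt ℝ 1 (fderiv ℝ g) x := (hgs.contDiffAt).fderiv_right (by norm_cast)
    have h2 : DifferentiableAt ℝ (fderiv ℝ g) x := h1.differentiableAt (by simp)
    exact (h2.clm_apply (differentiableAt_const v)).hasFDerivAt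
  have hd2 : deriv (deriv (g ∘ a)) 0 = fderiv ℝ (fun w => fderiv ℝ g w v) x v := by
    have h0 : deriv (g ∘ a) = fun t => fderiv ℝ g (a t) v := funext hd1
    rw [h0]
    have h6 : HasFDerivAt (fun w => fderiv ℝ g w v) (fderiv ℝ (fun w => fderiv ℝ g w v) x) (a 0) := by
      rw [ha0]
      exact hG
    exact (h6.comp_hasDerivAt 0 (hda 0)).deriv
  have key := hc (p ∘ a) hγ
  have e1 : f ∘ (p ∘ a) = g ∘ a := by
    rw [hg]
    rfl
  have e2 : (p ∘ a) 0 = p x := by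
    rw [Function.comp_apply, ha0]
  have e3 : deriv (g ∘ a) 0 = fderiv ℝ g x v := by
    rw [hd1, ha0]
  have hT : TUB.tan m f ((p ∘ a) 0) = LinearMap.range (fderiv ℝ g x : E m →ₗ[ℝ] E n) := by
    rw [e2, hg]
    exact cc_range hf hp hx
  have hproj : ∀ K L : Submodule ℝ (E n), K = L → ∀ w : E n,
      ‖Kᗮ.starProjection w‖ = ‖Lᗮ.starProjection w‖ := by
    rintro K L rfl w
    rfl
  rw [e1, hproj _ _ hT, hd2, e3] at key
  rw [← hg]
  exact key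

theorem comp_curv {f : X → E n} (hf : Imm m f) {c : ℝ} (hc : CurvLE m f c) {p : E m → X}
    (hp : ContMDiff 𝓘(ℝ, E m) (𝓡 m) ∞ p) {x : E m} (hx : Function.Injective (fderiv ℝ (f ∘ p) x)) (v : E m) (ξ : E n)
    (hξ : ∀ w, inner ℝ ξ (fderiv ℝ (f ∘ p) x w) = 0) :
    |inner ℝ ξ (fderiv ℝ (fun y => fderiv ℝ (f ∘ p) y v) x v)| ≤ c * ‖ξ‖ * ‖fderiv ℝ (f ∘ p) x v‖ ^ 2 := by
  have key := cc_curve hf hc hp hx v
  set K := (LinearMap.range (fderiv ℝ (f ∘ p) x : E m →ₗ[ℝ] E n))ᗮ with hK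
  have hξK : ξ ∈ K := by
    rw [hK, Submodule.mem_orthogonal']
    rintro u ⟨w, rfl⟩
    exact hξ w
  have h1 : K.starProjection ξ = ξ := Submodule.starProjection_eq_self_iff.2 hξK
  have h2 : inner ℝ ξ (fderiv ℝ (fun w => fderiv ℝ (f ∘ p) w v) x v) =
      inner ℝ ξ (K.starProjection (fderiv ℝ (fun w => fderiv ℝ (f ∘ p) w v) x v)) := by
    rw [← Submodule.inner_starProjection_left_eq_right, h1]
  rw [h2]
  calc |inner ℝ ξ (K.starProjection (fderiv ℝ (fun w => fderiv ℝ (f ∘ p) w v) x v))|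
      ≤ ‖ξ‖ * ‖K.starProjection (fderiv ℝ (fun w => fderiv ℝ (f ∘ p) w v) x v)‖ :=
        abs_real_inner_le_norm _ _
    _ ≤ ‖ξ‖ * (c * ‖fderiv ℝ (f ∘ p) x v‖ ^ 2) := mul_le_mul_of_nonneg_left key (norm_nonneg ξ)
    _ = c * ‖ξ‖ * ‖fderiv ℝ (f ∘ p) x v‖ ^ 2 := by ring

theorem curv_nonneg (hm : 1 ≤ m) {f : X → E n} (hf : Imm m f) {c : ℝ} (hc : CurvLE m f c) {p : E m → X}
    (hp : ContMDiff 𝓘(ℝ, E m) (𝓡 m) ∞ p) {x : E m} (hx : Function.Injective (fderiv ℝ (f ∘ p) x)) : 0 ≤ c := by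
  obtain ⟨v, hv⟩ : ∃ v : E m, v ≠ 0 := by
    refine ⟨EuclideanSpace.single (⟨0, hm⟩ : Fin m) (1 : ℝ), ?_⟩
    intro h0
    have h1 := congrArg (fun w : E m => w ⟨0, hm⟩) h0
    simp at h1
  have key := cc_curve hf hc hp hx v
  have h1 : fderiv ℝ (f ∘ p) x v ≠ 0 := by
    intro h0
    refine hv (hx ?_)
    rw [h0, map_zero]
  have h2 : 0 < ‖fderiv ℝ (f ∘ p) x v‖ ^ 2 := by
    have := norm_pos_iff.2 h1
    positivity
  have h3 := (norm_nonneg _).trans key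
  exact nonneg_of_mul_nonneg_left h3 h2

end Pool.Agent.FCI
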