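import Pool.Agent.FCI.Cc

/-!
# FCI-Cut: the cut-off functions `θ(τ - Ψ)` (Mathlib, Cc)

`cut U Ψ τ z = θ (τ - Ψ z)` for `z ∈ U`, `0` outside, `θ = Real.smoothTransition`.
-/

open scoped BigOperators Topology ContDiff
open MeasureTheory Filter Set

namespace Pool.Agent.FCI

open Pool.Agent.TUB (E)

variable {n : ℕ}

open Classical in
/-- cut-off function -/
noncomputable def cut (U : Set (E n)) (Ψ : E n → ℝ) (τ : ℝ) (z : E n) : ℝ :=
  if z ∈ U then Real.smoothTransition (τ - Ψ z) else 0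

/-- the gradient vector of a function -/
noncomputable def grd (f : E n → ℝ) (z : E n) : E n := WithLp.toLp 2 (fun i => fderiv ℝ f z (eb i))

private theorem dth0 {x : ℝ} (hx : x ≤ 0) : deriv Real.smoothTransition x = 0 := by
  apply IsLocalMin.deriv_eq_zero
  refine Filter.Eventually.of_forall fun y => ?_
  rw [Real.smoothTransition.zero_of_nonpos hx]
  exact Real.smoothTransition.nonneg y

private theorem dth1 {x : ℝ} (hx : 1 ≤ x) : deriv Real.smoothTransition x = 0 := by
  apply IsLocalMax.deriv_eq_zero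
  refine Filter.Eventually.of_forall fun y => ?_
  rw [Real.smoothTransition.one_of_one_le hx]
  exact Real.smoothTransition.le_one y

/-- a bound for the square of the derivative of the smooth transition function -/
theorem thC_ex : ∃ C : ℝ, 0 < C ∧ ∀ x : ℝ, deriv Real.smoothTransition x ^ 2 ≤ C := by
  have hc : Continuous (deriv Real.smoothTransition) :=
    (Real.smoothTransition.contDiff (n := 1)).continuous_deriv le_rfl
  obtain ⟨C, hC⟩ := isCompact_Icc.exists_bound_of_continuousOn (s := Set.Icc (0 : ℝ) 1) hc.continuousOn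
  refine ⟨C ^ 2 + 1, by positivity, fun x => ?_⟩
  rcases le_total x 0 with h0 | h0
  · rw [dth0 h0]
    nlinarith [sq_nonneg C]
  · rcases le_total 1 x with h1 | h1
    · rw [dth1 h1]
      nlinarith [sq_nonneg C]
    · have h2 := hC x ⟨h0, h1⟩
      rw [Real.norm_eq_abs] at h2
      have h3 := abs_nonneg (deriv Real.smoothTransition x)
      rw [← sq_abs]
      nlinarith

noncomputable def thC : ℝ := Classical.choose thC_ex

theorem thC_pos : 0 < thC := (Classical.choose_spec thC_ex).1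

theorem thC_bd (x : ℝ) : deriv Real.smoothTransition x ^ 2 ≤ thC := (Classical.choose_spec thC_ex).2 x

variable {U : Set (E n)} {Ψ : E n → ℝ} {g : E n → E n} {H : E n → E n →L[ℝ] E n} {eps : ℝ}
  (hP : PsiOK U Ψ g H eps) (τ : ℝ)

private theorem cut_out {z : E n} (hz : z ∉ {z | z ∈ U ∧ Ψ z ≤ τ}) : cut U Ψ τ z = 0 := by
  unfold cut
  by_cases h : z ∈ U
  · rw [if_pos h]
    apply Real.smoothTransition.zero_of_nonpos
    have h1 : ¬ Ψ z ≤ τ := fun h1 => hz ⟨h, h1⟩
    linarith
  · rw [if_neg h]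

include hP

theorem cut_smooth : ContDiff ℝ ∞ (cut U Ψ τ) := by
  refine cc_smooth hP.isOpen (hP.proper τ) (fun z hz => hz.1) ?_ (fun z hz => cut_out τ hz)
  have h1 : ContDiffOn ℝ ∞ (fun z => Real.smoothTransition (τ - Ψ z)) U :=
    (Real.smoothTransition.contDiff (n := ⊤)).comp_contDiffOn (contDiffOn_const.sub hP.smPsi)
  refine h1.congr fun z hz => ?_
  unfold cut
  rw [if_pos hz]

theorem cut_supp : HasCompactSupport (cut U Ψ τ) ∧ tsupport (cut U Ψ τ) ⊆ {z | z ∈ U ∧ Ψ z ≤ τ} := by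
  refine ⟨cc_supp (hP.proper τ) (fun z hz => cut_out τ hz), ?_⟩
  refine closure_minimal ?_ (hP.proper τ).isClosed
  intro z hz
  by_contra h
  exact hz (cut_out τ h)

theorem cut_nonneg (z : E n) : 0 ≤ cut U Ψ τ z := by
  unfold cut
  split_ifs
  · exact Real.smoothTransition.nonneg _
  · exact le_rfl

theorem cut_le (z : E n) : cut U Ψ τ z ≤ 1 := by
  unfold cut
  split_ifs
  · exact Real.smoothTransition.le_one _
  · exact zero_le_one

theorem cut_one {z : E n} (hz : z ∈ U) (h : Ψ z ≤ τ - 1) : cut U Ψ τ z = 1 := by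
  unfold cut
  rw [if_pos hz]
  apply Real.smoothTransition.one_of_one_le
  linarith

theorem cut_grd {z : E n} (hz : z ∈ U) :
    grd (cut U Ψ τ) z = (-deriv Real.smoothTransition (τ - Ψ z)) • g z := by
  have h1 : HasDerivAt Real.smoothTransition (deriv Real.smoothTransition (τ - Ψ z)) (τ - Ψ z) :=
    ((Real.smoothTransition.contDiff (n := 1)).differentiable (by norm_num) _).hasDerivAt
  have h2 : HasFDerivAt (fun z => τ - Ψ z) (-(innerSL ℝ (g z))) z := (hP.dPsi z hz).const_sub τ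
  have h3 : HasFDerivAt (fun z => Real.smoothTransition (τ - Ψ z))
      (deriv Real.smoothTransition (τ - Ψ z) • (-(innerSL ℝ (g z)))) z :=
    HasDerivAt.comp_hasFDerivAt (h₂ := Real.smoothTransition) (f := fun z => τ - Ψ z) z h1 h2
  have h4 : cut U Ψ τ =ᶠ[𝓝 z] fun z => Real.smoothTransition (τ - Ψ z) := by
    filter_upwards [hP.isOpen.mem_nhds hz] with y hy
    unfold cut
    rw [if_pos hy]
  have h5 : fderiv ℝ (cut U Ψ τ) z =
      deriv Real.smoothTransition (τ - Ψ z) • (-(innerSL ℝ (g z))) := by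
    rw [h4.fderiv_eq, h3.fderiv]
  unfold grd
  rw [h5]
  ext i
  have h6 : inner ℝ (g z) (eb i) = g z i := by
    unfold eb
    rw [EuclideanSpace.inner_single_right]
    simp
  simp [h6]

private theorem grd_out {z : E n} (hz : z ∉ U) : grd (cut U Ψ τ) z = 0 := by
  have h1 : cut U Ψ τ =ᶠ[𝓝 z] fun _ => (0 : ℝ) := by
    have h2 : z ∈ {z | z ∈ U ∧ Ψ z ≤ τ}ᶜ := fun h => hz h.1
    filter_upwards [(hP.proper τ).isClosed.isOpen_compl.mem_nhds h2] with y hy
    exact cut_out τ hy
  unfold grd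
  rw [h1.fderiv_eq]
  ext i
  simp

/-- `‖∇cut‖^2 ≤ thC ‖g‖^2`, and it vanishes unless `τ - 1 ≤ Ψ < τ`. -/
theorem cut_grd_le (z : E n) : ‖grd (cut U Ψ τ) z‖ ^ 2 ≤ thC * ‖g z‖ ^ 2 := by
  by_cases hz : z ∈ U
  · rw [cut_grd hP τ hz, norm_smul, mul_pow, Real.norm_eq_abs, sq_abs, neg_sq]
    exact mul_le_mul_of_nonneg_right (thC_bd _) (sq_nonneg _)
  · rw [grd_out hP τ hz, norm_zero]
    have h1 := mul_nonneg thC_pos.le (sq_nonneg ‖g z‖)
    nlinarith

theorem cut_grd_zero {z : E n} (h : z ∉ U ∨ Ψ z < τ - 1 ∨ τ ≤ Ψ z) : grd (cut U Ψ τ) z = 0 := by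
  by_cases hz : z ∈ U
  · rw [cut_grd hP τ hz]
    rcases h with h | h | h
    · exact absurd hz h
    · rw [dth1 (by linarith), neg_zero, zero_smul]
    · rw [dth0 (by linarith), neg_zero, zero_smul]
  · exact grd_out hP τ hz

end Pool.Agent.FCI
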