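import Pool.Agent.TUB.Defs

/-!
# Project FCI (MP_d3ff36_gt): the flat cube inequality and normal curvature.  Definitions.

Architect helper92.  The paper proof is `paper.txt` in this folder.  Definitions only.
-/

open scoped BigOperators Topology ContDiff
open MeasureTheory Filter Set

namespace Pool.Agent.FCI

open Pool.Agent.TUB (E B jw)

noncomputable section

/-! ### Clifford operators on forms -/

/-- Exterior forms (constant coefficients), by their components. -/
abbrev W (n : ℕ) := EuclideanSpace ℝ (Finset (Fin n))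

/-- The odd part. -/
abbrev Wo (n : ℕ) := EuclideanSpace ℝ {I : Finset (Fin n) // Odd I.card}

variable {n : ℕ}

/-- `(-1)^{number of elements of I below i}`. -/
def sg (i : Fin n) (I : Finset (Fin n)) : ℝ := (-1) ^ (I.filter (fun j => j < i)).card

/-- `1` if `i ∈ I`, else `-1`. -/
def ep (i : Fin n) (I : Finset (Fin n)) : ℝ := if i ∈ I then 1 else -1

/-- The operator `w ↦ (I ↦ c I * w (I ∆ {i}))`. -/
def opL (c : Finset (Fin n) → ℝ) (i : Fin n) : W n →L[ℝ] W n :=
  LinearMap.toContinuousLinearMap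
    { toFun := fun w => WithLp.toLp 2 (fun I => c I * w (symmDiff I {i}))
      map_add' := fun v w => by ext I; simp [mul_add]
      map_smul' := fun r w => by ext I; simp [mul_left_comm] }

theorem opL_apply (c : Finset (Fin n) → ℝ) (i : Fin n) (w : W n) (I : Finset (Fin n)) :
    opL c i w I = c I * w (symmDiff I {i}) := rfl

/-- The symmetric Clifford operators, `gam i ^ 2 = 1`. -/
def gam (i : Fin n) : W n →L[ℝ] W n := opL (sg i) i

/-- The skew Clifford operators, `cl i ^ 2 = -1`. -/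
def cl (i : Fin n) : W n →L[ℝ] W n := opL (fun I => ep i I * sg i I) i

/-- `cl` of a vector. -/
def clV (v : E n) : W n →L[ℝ] W n := ∑ i, v i • cl i

/-- `gam` of a vector. -/
def gamV (v : E n) : W n →L[ℝ] W n := ∑ i, v i • gam i

/-- even forms -/
def evS (n : ℕ) : Submodule ℝ (W n) where
  carrier := {w | ∀ I, Odd I.card → w I = 0}
  add_mem' := fun {a b} ha hb I hI => by simp [ha I hI, hb I hI]
  zero_mem' := fun I _ => rfl
  smul_mem' := fun r a ha I hI => by simp [ha I hI]

/-- odd forms -/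
def odS (n : ℕ) : Submodule ℝ (W n) where
  carrier := {w | ∀ I, Even I.card → w I = 0}
  add_mem' := fun {a b} ha hb I hI => by simp [ha I hI, hb I hI]
  zero_mem' := fun I _ => rfl
  smul_mem' := fun r a ha I hI => by simp [ha I hI]

/-- restriction to the odd components -/
def po (n : ℕ) : W n →L[ℝ] Wo n :=
  LinearMap.toContinuousLinearMap
    { toFun := fun w => WithLp.toLp 2 (fun I => w I.1)
      map_add' := fun v w => by ext I; simp
      map_smul' := fun r w => by ext I; simp }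

/-- extension by zero of the odd components -/
def io (n : ℕ) : Wo n →L[ℝ] W n :=
  LinearMap.toContinuousLinearMap
    { toFun := fun w => WithLp.toLp 2 (fun I => if h : Odd I.card then w ⟨I, h⟩ else 0)
      map_add' := fun v w => by
        ext I
        by_cases h : Odd I.card
        · simp [h]
        · simp [h]
      map_smul' := fun r w => by
        ext I
        by_cases h : Odd I.card
        · simp [h]
        · simp [h] }

/-- the vacuum -/
def w0 (n : ℕ) : W n := EuclideanSpace.single ∅ 1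

/-! ### Operators on functions -/

/-- basis vectors -/
def eb (j : Fin n) : E n := EuclideanSpace.single j 1

/-- Dirac operator of the frame `G`. -/
def Dop (G : E n → E n →L[ℝ] E n) (u : E n → W n) (z : E n) : W n :=
  ∑ j, cl j (fderiv ℝ u z (G z (eb j)))

/-- Dirac operator with potential. -/
def Bop (g : E n → E n) (G : E n → E n →L[ℝ] E n) (u : E n → W n) (z : E n) : W n :=
  Dop G u z + gamV (g z) (u z)

/-- The zeroth order term of the square of `Bop`. -/
def Qop (G H : E n → E n →L[ℝ] E n) (z : E n) (w : W n) : W n :=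
  ∑ j, cl j (gamV (H z (G z (eb j))) w)

/-- the squared length of the derivative, in the frame `G`. -/
def gsq (G : E n → E n →L[ℝ] E n) (u : E n → W n) (z : E n) : ℝ :=
  ∑ j, ‖fderiv ℝ u z (G z (eb j))‖ ^ 2

/-- the standard frame -/
def Idf (n : ℕ) : E n → E n →L[ℝ] E n := fun _ => ContinuousLinearMap.id ℝ (E n)

/-- the density of the frame -/
def rho (F : E n → E n) (z : E n) : ℝ := |(fderiv ℝ F z).det|

/-- the energy -/
def Jsq (g : E n → E n) (u : E n → W n) : ℝ := ∫ z, (gsq (Idf n) u z + ‖g z‖ ^ 2 * ‖u z‖ ^ 2)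

/-- test functions -/
def Tst (U : Set (E n)) : Submodule ℝ (E n → W n) where
  carrier := {u | ContDiff ℝ ∞ u ∧ HasCompactSupport u ∧ tsupport u ⊆ U}
  add_mem' := fun {a b} ha hb => ⟨ha.1.add hb.1, ha.2.1.add hb.2.1,
    (tsupport_add a b).trans (union_subset ha.2.2 hb.2.2)⟩
  zero_mem' := ⟨contDiff_const, HasCompactSupport.zero, by simp [tsupport]⟩
  smul_mem' := fun r a ha => ⟨contDiff_const.smul ha.1, ha.2.1.smul_left (f := fun _ => r),
    (closure_mono (Function.support_const_smul_subset r a)).trans ha.2.2⟩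

/-- even test functions -/
def TstE (U : Set (E n)) : Submodule ℝ (E n → W n) where
  carrier := {u | u ∈ Tst U ∧ ∀ z, u z ∈ evS n}
  add_mem' := fun {_ _} ha hb => ⟨(Tst U).add_mem ha.1 hb.1, fun z => (evS n).add_mem (ha.2 z) (hb.2 z)⟩
  zero_mem' := ⟨(Tst U).zero_mem, fun _ => (evS n).zero_mem⟩
  smul_mem' := fun r _ ha => ⟨(Tst U).smul_mem r ha.1, fun z => (evS n).smul_mem r (ha.2 z)⟩

/-- `G` is the inverse of the derivative of `F` on `U`. -/
structure Flat (U : Set (E n)) (F : E n → E n) (G : E n → E n →L[ℝ] E n) : Prop where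
  smF : ContDiffOn ℝ ∞ F U
  smG : ContDiffOn ℝ ∞ G U
  inv1 : ∀ z ∈ U, ∀ v, fderiv ℝ F z (G z v) = v
  inv2 : ∀ z ∈ U, ∀ v, G z (fderiv ℝ F z v) = v

/-- uniform bounds -/
structure Bds (U : Set (E n)) (F : E n → E n) (G : E n → E n →L[ℝ] E n) (L : ℝ) : Prop where
  pos : 0 < L
  bF : ∀ z ∈ U, ‖fderiv ℝ F z‖ ≤ L
  bG : ∀ z ∈ U, ‖G z‖ ≤ L
  bR : ∀ z ∈ U, rho F z ≤ L
  bR' : ∀ z ∈ U, L⁻¹ ≤ rho F z

/-! ### Blocks -/

section blocks

variable {β : Type} [Fintype β] [DecidableEq β]

/-- the squared length of the block `j` of `z` -/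
def sq (b : Fin n → β) (z : E n) (j : β) : ℝ := ∑ i, if b i = j then z i ^ 2 else 0

/-- the size of a block -/
def bsz (b : Fin n → β) (j : β) : ℕ := (Finset.univ.filter (fun i => b i = j)).card

/-- the open product of balls -/
def Ub (b : Fin n → β) (a : β → ℝ) : Set (E n) := {z | ∀ j, sq b z j < a j ^ 2}

/-- the closed product of balls -/
def Kb (b : Fin n → β) (a : β → ℝ) : Set (E n) := {z | ∀ j, sq b z j ≤ a j ^ 2}

/-- every block coordinate is 1-Lipschitz for the metric of the frame `G` -/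
def Blk (b : Fin n → β) (U : Set (E n)) (G : E n → E n →L[ℝ] E n) : Prop :=
  ∀ z ∈ U, ∀ v, ∀ j, sq b (G z v) j ≤ ‖v‖ ^ 2

/-- potential of the block functions `P` -/
def Psi (b : Fin n → β) (P : β → ℝ → ℝ) (z : E n) : ℝ := ∑ j, P j (sq b z j)

/-- the vector with components `2 x (b i) z i` -/
def grA (b : Fin n → β) (x : β → ℝ) (z : E n) : E n := WithLp.toLp 2 (fun i => 2 * x (b i) * z i)

/-- the gradient of `Psi` -/
def gr (b : Fin n → β) (P : β → ℝ → ℝ) (z : E n) : E n :=
  grA b (fun j => deriv (P j) (sq b z j)) z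

/-- the matrix `2 x δ_{ik} + 4 y z_i z_k` (in blocks), as a linear map -/
def hsA (b : Fin n → β) (x y : β → ℝ) (z : E n) : E n →L[ℝ] E n :=
  LinearMap.toContinuousLinearMap
    { toFun := fun v => WithLp.toLp 2 (fun i => 2 * x (b i) * v i +
        4 * y (b i) * z i * ∑ l, if b l = b i then z l * v l else 0)
      map_add' := fun v w => by
        ext i
        simp only [PiLp.add_apply]
        have e : ∀ l, (if b l = b i then z l * (v l + w l) else 0) =
            (if b l = b i then z l * v l else 0) + (if b l = b i then z l * w l else 0) := by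
          intro l
          split_ifs
          · ring
          · ring
        simp only [e, Finset.sum_add_distrib]
        ring
      map_smul' := fun r v => by
        ext i
        simp only [PiLp.smul_apply, smul_eq_mul, RingHom.id_apply]
        have e : ∀ l, (if b l = b i then z l * (r * v l) else 0) =
            r * (if b l = b i then z l * v l else 0) := by
          intro l
          split_ifs
          · ring
          · ring
        simp only [e, ← Finset.mul_sum]
        ring }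

/-- the Hessian of `Psi` -/
def hs (b : Fin n → β) (P : β → ℝ → ℝ) (z : E n) : E n →L[ℝ] E n :=
  hsA b (fun j => deriv (P j) (sq b z j)) (fun j => deriv (deriv (P j)) (sq b z j)) z

end blocks

/-- the quantity `|∇P|² - ΔP`-like: `4 s P'² - 2 k P' - 4 s P''`. -/
def qf (k : ℕ) (P : ℝ → ℝ) (s : ℝ) : ℝ :=
  4 * s * deriv P s ^ 2 - 2 * k * deriv P s - 4 * s * deriv (deriv P) s

/-- One-block potential for a block of size `k` and radius `a`. -/
structure Pot (k : ℕ) (a L eps : ℝ) (P : ℝ → ℝ) : Prop where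
  smooth : ContDiffOn ℝ ∞ P (Iio (a ^ 2))
  nonneg : ∀ s ∈ Ico 0 (a ^ 2), 0 ≤ P s
  conv : ∃ δ > 0, ∀ s ∈ Ico 0 (a ^ 2), δ ≤ 2 * deriv P s ∧ 0 ≤ deriv (deriv P) s
  lower : ∀ s ∈ Ico 0 (a ^ 2), -L ≤ qf k P s
  half : ∃ C, ∀ s ∈ Ico 0 (a ^ 2), 1 / 2 * (4 * s * deriv P s ^ 2) - C ≤ qf k P s
  grow : ∃ C, ∀ s ∈ Ico 0 (a ^ 2), 4 * s * deriv P s ^ 2 ≤ C * Real.exp (eps * P s)
  proper : ∀ M, ∃ s0 < a ^ 2, ∀ s ∈ Ico 0 (a ^ 2), P s ≤ M → s ≤ s0

/-- Total potential. -/
structure PsiOK (U : Set (E n)) (Ψ : E n → ℝ) (g : E n → E n) (H : E n → E n →L[ℝ] E n) (eps : ℝ) :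
    Prop where
  isOpen : IsOpen U
  bdd : Bornology.IsBounded U
  mem0 : (0 : E n) ∈ U
  smPsi : ContDiffOn ℝ ∞ Ψ U
  smg : ContDiffOn ℝ ∞ g U
  dPsi : ∀ z ∈ U, HasFDerivAt Ψ (innerSL ℝ (g z)) z
  dg : ∀ z ∈ U, HasFDerivAt g (H z) z
  symm : ∀ z ∈ U, ∀ v w, inner ℝ (H z v) w = inner ℝ v (H z w)
  conv : ∃ δ > 0, ∀ z ∈ U, ∀ v, δ * ‖v‖ ^ 2 ≤ inner ℝ (H z v) v
  nonneg : ∀ z ∈ U, 0 ≤ Ψ z
  grow : ∃ C, ∀ z ∈ U, ‖g z‖ ^ 2 ≤ C * Real.exp (eps * Ψ z)
  proper : ∀ M, IsCompact {z | z ∈ U ∧ Ψ z ≤ M}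
  half : ∃ C, ∀ z ∈ U, ∀ w : W n,
    (1 / 2 * ‖g z‖ ^ 2 - C) * ‖w‖ ^ 2 ≤ ‖g z‖ ^ 2 * ‖w‖ ^ 2 + inner ℝ w (Qop (Idf n) H z w)

end

end Pool.Agent.FCI
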