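import Mathlib

/-!
# FCI-FaD: definitions for the abstract lemma
-/

namespace Pool.Agent.FCI

variable {D Y V : Type*} [AddCommGroup D] [Module ℝ D] [NormedAddCommGroup Y] [InnerProductSpace ℝ Y]
  [NormedAddCommGroup V] [InnerProductSpace ℝ V]

/-- `u ↦ (S u, K u)` -/
noncomputable def gT (S : D →ₗ[ℝ] Y) (K : D →ₗ[ℝ] V) : D →ₗ[ℝ] WithLp 2 (Y × V) :=
  (WithLp.linearEquiv 2 ℝ (Y × V)).symm.toLinearMap ∘ₗ (S.prod K)

/-- the orthogonal complement of the range of `(S, K)` -/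
noncomputable def Nsp (S : D →ₗ[ℝ] Y) (K : D →ₗ[ℝ] V) : Submodule ℝ (WithLp 2 (Y × V)) :=
  (LinearMap.range (gT S K))ᗮ

theorem gT_normSq (S : D →ₗ[ℝ] Y) (K : D →ₗ[ℝ] V) (u : D) : ‖gT S K u‖ ^ 2 = ‖S u‖ ^ 2 + ‖K u‖ ^ 2 := by
  rw [WithLp.prod_norm_sq_eq_of_L2]
  rfl

theorem mem_Nsp (S : D →ₗ[ℝ] Y) (K : D →ₗ[ℝ] V) (p : WithLp 2 (Y × V)) :
    p ∈ Nsp S K ↔ ∀ u, inner ℝ p.fst (S u) + inner ℝ p.snd (K u) = 0 := by
  unfold Nsp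
  rw [Submodule.mem_orthogonal']
  constructor
  · intro h u
    have := h (gT S K u) ⟨u, rfl⟩
    rw [WithLp.prod_inner_apply] at this
    exact this
  · rintro h _ ⟨u, rfl⟩
    rw [WithLp.prod_inner_apply]
    exact h u

end Pool.Agent.FCI
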