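import Pool.Agent.FCI.FaD

/-!
# FCI-FaE: the two ends of the path (Mathlib, FaD)

The map `Nsp S K → V`, `p ↦ p.snd`, is injective with image orthogonal to a limit of `K (u j)` at
the end, and surjective at the start.
-/

open Set Module Filter Topology

namespace Pool.Agent.FCI

variable {D Y V : Type*} [AddCommGroup D] [Module ℝ D] [NormedAddCommGroup Y] [InnerProductSpace ℝ Y]
  [CompleteSpace Y] [NormedAddCommGroup V] [InnerProductSpace ℝ V] [FiniteDimensional ℝ V]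

/-- the map `p ↦ p.snd` on `Nsp S K` -/
private noncomputable def sndN (S : D →ₗ[ℝ] Y) (K : D →ₗ[ℝ] V) : Nsp S K →ₗ[ℝ] V :=
  ((LinearMap.snd ℝ Y V) ∘ₗ (WithLp.linearEquiv 2 ℝ (Y × V)).toLinearMap).domRestrict (Nsp S K)

omit [CompleteSpace Y] [FiniteDimensional ℝ V] in
private theorem sndN_apply (S : D →ₗ[ℝ] Y) (K : D →ₗ[ℝ] V) (p : Nsp S K) :
    sndN S K p = (p : WithLp 2 (Y × V)).snd := rfl

theorem end_dim (S : D →ₗ[ℝ] Y) (K : D →ₗ[ℝ] V) (J : D → ℝ) {C κ M : ℝ}
    (hJ : ∀ u, J u ≤ C * (‖S u‖ + ‖K u‖)) (dense : ∀ v : Y, (∀ u, inner ℝ v (S u) = 0) → v = 0)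
    (hκ : 0 < κ) (u : ℕ → D) (h1 : ∀ j, κ ≤ J (u j)) (h2 : ∀ j, ‖K (u j)‖ ≤ M)
    (h3 : Tendsto (fun j => ‖S (u j)‖) atTop (𝓝 0)) :
    FiniteDimensional ℝ (Nsp S K) ∧ finrank ℝ (Nsp S K) + 1 ≤ finrank ℝ V := by
  have hinj : Function.Injective (sndN S K) := by
    rw [← LinearMap.ker_eq_bot, LinearMap.ker_eq_bot']
    rintro ⟨p, hp⟩ h0
    rw [sndN_apply] at h0
    replace h0 : p.snd = 0 := h0
    have hf : p.fst = 0 := by
      apply dense
      intro v
      have := (mem_Nsp S K p).1 hp v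
      rwa [h0, inner_zero_left, add_zero] at this
    have hpz : p = 0 := by
      apply (WithLp.linearEquiv 2 ℝ (Y × V)).injective
      rw [map_zero]
      exact Prod.ext hf h0
    exact Subtype.ext hpz
  have hfin : FiniteDimensional ℝ (Nsp S K) := Module.Finite.of_injective (sndN S K) hinj
  refine ⟨hfin, ?_⟩
  have : ProperSpace V := FiniteDimensional.proper_real V
  obtain ⟨a0, -, ψ, hψ, hlim⟩ := tendsto_subseq_of_bounded
    (Metric.isBounded_closedBall (x := (0 : V)) (r := M)) (x := fun j => K (u j))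
    (fun j => by rw [mem_closedBall_zero_iff]; exact h2 j)
  have hS : Tendsto (fun j => ‖S (u (ψ j))‖) atTop (𝓝 0) := h3.comp hψ.tendsto_atTop
  have hS' : Tendsto (fun j => S (u (ψ j))) atTop (𝓝 0) := tendsto_zero_iff_norm_tendsto_zero.2 hS
  have ha0 : a0 ≠ 0 := by
    rintro rfl
    have hK : Tendsto (fun j => ‖K (u (ψ j))‖) atTop (𝓝 0) :=
      tendsto_zero_iff_norm_tendsto_zero.1 hlim
    have hsum : Tendsto (fun j => C * (‖S (u (ψ j))‖ + ‖K (u (ψ j))‖)) atTop (𝓝 0) := by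
      simpa using (hS.add hK).const_mul C
    have := ge_of_tendsto' hsum fun j => (h1 (ψ j)).trans (hJ (u (ψ j)))
    linarith
  have hle : LinearMap.range (sndN S K) ≤ (Submodule.span ℝ {a0})ᗮ := by
    rintro _ ⟨⟨p, hp⟩, rfl⟩
    rw [sndN_apply, Submodule.mem_orthogonal_singleton_iff_inner_left]
    have e1 : Tendsto (fun j => inner ℝ p.snd (K (u (ψ j)))) atTop (𝓝 (inner ℝ p.snd a0)) :=
      Filter.Tendsto.inner tendsto_const_nhds hlim
    have e2 : Tendsto (fun j => -inner ℝ p.fst (S (u (ψ j)))) atTop (𝓝 0) := by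
      have := (Filter.Tendsto.inner (𝕜 := ℝ) (tendsto_const_nhds (x := p.fst)) hS').neg
      simpa using this
    have e3 : (fun j => inner ℝ p.snd (K (u (ψ j)))) = fun j => -inner ℝ p.fst (S (u (ψ j))) := by
      funext j
      have := (mem_Nsp S K p).1 hp (u (ψ j))
      linarith
    rw [e3] at e1
    exact tendsto_nhds_unique e1 e2
  have h4 := Submodule.finrank_mono hle
  rw [LinearMap.finrank_range_of_inj hinj] at h4
  have h5 := Submodule.finrank_add_finrank_orthogonal (Submodule.span ℝ {a0})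
  rw [finrank_span_singleton ha0] at h5
  omega

theorem start_dim (S : D →ₗ[ℝ] Y) (K : D →ₗ[ℝ] V) {C1 : ℝ} (hK : ∀ u, ‖K u‖ ≤ C1 * ‖S u‖)
    (hfin : FiniteDimensional ℝ (Nsp S K)) : finrank ℝ V ≤ finrank ℝ (Nsp S K) := by
  have hsurj : Function.Surjective (sndN S K) := by
    intro a
    set l : D →ₗ[ℝ] ℝ := -((innerSL ℝ a).toLinearMap ∘ₗ K) with hl
    have hlu : ∀ u, l u = -inner ℝ a (K u) := fun u => rfl
    have hker : LinearMap.ker S ≤ LinearMap.ker l := by
      intro u hu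
      rw [LinearMap.mem_ker] at hu ⊢
      have := hK u
      rw [hu, norm_zero, mul_zero] at this
      rw [hlu, norm_le_zero_iff.1 this, inner_zero_right, neg_zero]
    set f0 : LinearMap.range S →ₗ[ℝ] ℝ :=
      (LinearMap.ker S).liftQ l hker ∘ₗ S.quotKerEquivRange.symm.toLinearMap with hf0
    have hf0u : ∀ u, f0 ⟨S u, u, rfl⟩ = l u := by
      intro u
      have : S.quotKerEquivRange.symm ⟨S u, u, rfl⟩ = (LinearMap.ker S).mkQ u := by
        rw [LinearEquiv.symm_apply_eq]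
        rfl
      rw [hf0, LinearMap.comp_apply]
      show (LinearMap.ker S).liftQ l hker (S.quotKerEquivRange.symm ⟨S u, u, rfl⟩) = l u
      rw [this]
      rfl
    have hb : ∀ y : LinearMap.range S, ‖f0 y‖ ≤ (‖a‖ * C1) * ‖y‖ := by
      rintro ⟨_, u, rfl⟩
      rw [hf0u, hlu, norm_neg]
      calc ‖inner ℝ a (K u)‖ ≤ ‖a‖ * ‖K u‖ := norm_inner_le_norm a (K u)
        _ ≤ ‖a‖ * (C1 * ‖S u‖) := mul_le_mul_of_nonneg_left (hK u) (norm_nonneg a)
        _ = (‖a‖ * C1) * ‖(⟨S u, u, rfl⟩ : LinearMap.range S)‖ := by rw [mul_assoc]; rfl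
    obtain ⟨g, hg, -⟩ := exists_extension_norm_eq (LinearMap.range S)
      (f0.mkContinuous (‖a‖ * C1) hb)
    set v : Y := (InnerProductSpace.toDual ℝ Y).symm g with hv
    have hvu : ∀ u, inner ℝ v (S u) = -inner ℝ a (K u) := by
      intro u
      rw [hv, InnerProductSpace.toDual_symm_apply]
      have := hg ⟨S u, u, rfl⟩
      rw [LinearMap.mkContinuous_apply, hf0u, hlu] at this
      exact this
    refine ⟨⟨(WithLp.linearEquiv 2 ℝ (Y × V)).symm (v, a), ?_⟩, rfl⟩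
    rw [mem_Nsp]
    intro u
    have h6 : ((WithLp.linearEquiv 2 ℝ (Y × V)).symm (v, a)).fst = v := rfl
    have h7 : ((WithLp.linearEquiv 2 ℝ (Y × V)).symm (v, a)).snd = a := rfl
    rw [h6, h7, hvu, neg_add_cancel]
  have h8 := LinearMap.finrank_range_le (sndN S K)
  rwa [LinearMap.range_eq_top.2 hsurj, finrank_top] at h8

end Pool.Agent.FCI
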