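import Mathlib

/-!
# FCI-FaP: the dimension of the orthogonal complement does not increase along a path (Mathlib only)
-/

open Set Module

namespace Pool.Agent.FCI

variable {D H : Type*} [AddCommGroup D] [Module ℝ D] [NormedAddCommGroup H] [InnerProductSpace ℝ H] [CompleteSpace H]

private theorem step_dim (T T' : D →ₗ[ℝ] H) {κ : ℝ} (h0 : 0 ≤ κ) (h1 : κ < 1)
    (h : ∀ u, ‖T u - T' u‖ ≤ κ * ‖T u‖)
    (hfin : FiniteDimensional ℝ (LinearMap.range T)ᗮ) :
    FiniteDimensional ℝ (LinearMap.range T')ᗮ ∧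
      finrank ℝ (LinearMap.range T')ᗮ ≤ finrank ℝ (LinearMap.range T)ᗮ := by
  classical
  set N := (LinearMap.range T)ᗮ with hN
  set N' := (LinearMap.range T')ᗮ with hN'
  have inj : Function.Injective ((N.orthogonalProjectionOnto : H →L[ℝ] N).toLinearMap ∘ₗ N'.subtype) := by
    rw [← LinearMap.ker_eq_bot, LinearMap.ker_eq_bot']
    rintro ⟨x, hx⟩ hx0
    have hx1 : x ∈ Nᗮ := by
      have : N.orthogonalProjectionOnto x = 0 := hx0
      rwa [Submodule.orthogonalProjectionOnto_eq_zero_iff] at this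
    have hcl : x ∈ closure (LinearMap.range T : Set H) := by
      rw [hN, Submodule.orthogonal_orthogonal_eq_closure] at hx1
      exact hx1
    have key : ∀ ε > 0, ‖x‖ * ‖x‖ ≤ ‖x‖ * ε + ‖x‖ * (κ * (‖x‖ + ε)) := by
      intro ε hε
      obtain ⟨y, ⟨u, rfl⟩, hy⟩ := Metric.mem_closure_iff.1 hcl ε hε
      rw [dist_eq_norm] at hy
      have e0 : inner ℝ x (T' u) = 0 := by
        have := (Submodule.mem_orthogonal' _ _).1 hx (T' u) ⟨u, rfl⟩
        exact this
      have e1 : ‖x‖ * ‖x‖ = inner ℝ x (x - T u) + inner ℝ x (T u - T' u) := by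
        rw [← real_inner_self_eq_norm_mul_norm, inner_sub_right, inner_sub_right, e0]
        ring
      have e2 : inner ℝ x (x - T u) ≤ ‖x‖ * ε :=
        (real_inner_le_norm _ _).trans (mul_le_mul_of_nonneg_left hy.le (norm_nonneg _))
      have e3 : ‖T u‖ ≤ ‖x‖ + ε := by
        have : T u = x - (x - T u) := by abel
        calc ‖T u‖ = ‖x - (x - T u)‖ := by rw [← this]
          _ ≤ ‖x‖ + ‖x - T u‖ := norm_sub_le _ _
          _ ≤ ‖x‖ + ε := by linarith
      have e4 : inner ℝ x (T u - T' u) ≤ ‖x‖ * (κ * (‖x‖ + ε)) := by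
        refine (real_inner_le_norm _ _).trans (mul_le_mul_of_nonneg_left ?_ (norm_nonneg _))
        exact (h u).trans (mul_le_mul_of_nonneg_left e3 h0)
      linarith
    have hx2 : ‖x‖ = 0 := by
      by_contra hne
      have hpos : 0 < ‖x‖ := lt_of_le_of_ne (norm_nonneg _) (Ne.symm hne)
      have hk := key ((1 - κ) * ‖x‖ / (2 * (1 + κ))) (by
        apply div_pos (mul_pos (by linarith) hpos) (by linarith))
      have h3 : ‖x‖ ≤ ((1 - κ) * ‖x‖ / (2 * (1 + κ))) +
          (κ * (‖x‖ + ((1 - κ) * ‖x‖ / (2 * (1 + κ))))) := by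
        have := hk
        rw [← mul_add] at this
        exact le_of_mul_le_mul_left this hpos
      have h4 : ((1 - κ) * ‖x‖ / (2 * (1 + κ))) + (κ * (‖x‖ + ((1 - κ) * ‖x‖ / (2 * (1 + κ)))))
          = (1 - κ) * ‖x‖ / 2 + κ * ‖x‖ := by
        have : (1 + κ) ≠ 0 := by linarith
        field_simp
        ring
      rw [h4] at h3
      nlinarith
    have : x = 0 := norm_eq_zero.1 hx2
    exact Subtype.ext this
  exact ⟨FiniteDimensional.of_injective _ inj, LinearMap.finrank_le_finrank_of_injective inj⟩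

theorem path_dim (T : ℝ → D →ₗ[ℝ] H) {c : ℝ}
    (hc : ∀ s ∈ Icc (0 : ℝ) 1, ∀ t ∈ Icc (0 : ℝ) 1, ∀ u, ‖T s u - T t u‖ ≤ c * |s - t| * ‖T s u‖)
    (hfin : FiniteDimensional ℝ (LinearMap.range (T 0))ᗮ) :
    FiniteDimensional ℝ (LinearMap.range (T 1))ᗮ ∧
      finrank ℝ (LinearMap.range (T 1))ᗮ ≤ finrank ℝ (LinearMap.range (T 0))ᗮ := by
  obtain ⟨M, hM⟩ := exists_nat_gt (max c 1)
  have hM1 : (1 : ℝ) < M := lt_of_le_of_lt (le_max_right _ _) hM
  have hMc : c < M := lt_of_le_of_lt (le_max_left _ _) hM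
  have hM0 : (0 : ℝ) < M := by linarith
  have main : ∀ i : ℕ, i ≤ M → FiniteDimensional ℝ (LinearMap.range (T ((i : ℝ) / M)))ᗮ ∧
      finrank ℝ (LinearMap.range (T ((i : ℝ) / M)))ᗮ ≤ finrank ℝ (LinearMap.range (T 0))ᗮ := by
    intro i
    induction i with
    | zero =>
      intro _
      have e : ((0 : ℕ) : ℝ) / M = 0 := by simp
      rw [e]
      exact ⟨hfin, le_refl _⟩
    | succ i ih =>
      intro hi
      obtain ⟨f1, f2⟩ := ih (by omega)
      have hi' : ((i : ℝ) + 1) ≤ M := by exact_mod_cast hi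
      have hmem : ((i : ℝ) / M) ∈ Icc (0 : ℝ) 1 :=
        ⟨by positivity, by rw [div_le_one hM0]; linarith⟩
      have hmem' : (((i + 1 : ℕ) : ℝ) / M) ∈ Icc (0 : ℝ) 1 :=
        ⟨by positivity, by rw [div_le_one hM0]; push_cast; linarith⟩
      have hs := step_dim (T ((i : ℝ) / M)) (T (((i + 1 : ℕ) : ℝ) / M)) (κ := (max c 0) / M)
        (by positivity) (by
          rw [div_lt_one hM0]
          exact max_lt hMc hM0) (by
          intro u
          refine (hc _ hmem _ hmem' u).trans ?_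
          apply mul_le_mul_of_nonneg_right _ (norm_nonneg _)
          have e1 : |((i : ℝ) / M) - (((i + 1 : ℕ) : ℝ) / M)| = 1 / M := by
            have : ((i : ℝ) / M) - (((i + 1 : ℕ) : ℝ) / M) = - (1 / M) := by
              push_cast
              ring
            rw [this, abs_neg, abs_of_pos (by positivity)]
          rw [e1, mul_one_div]
          exact div_le_div_of_nonneg_right (le_max_left _ _) hM0.le) f1
      exact ⟨hs.1, hs.2.trans f2⟩
  have := main M le_rfl
  rw [div_self (ne_of_gt hM0)] at this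
  exact this

end Pool.Agent.FCI
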