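import Pool.Agent.FCI.FaE
import Pool.Agent.FCI.FaP

/-!
# FCI-FaM: the abstract lemma (imports FaE, FaP)
-/

open Set Module Filter Topology

namespace Pool.Agent.FCI

variable {D Y V : Type*} [AddCommGroup D] [Module ℝ D] [NormedAddCommGroup Y] [InnerProductSpace ℝ Y]
  [CompleteSpace Y] [NormedAddCommGroup V] [InnerProductSpace ℝ V] [FiniteDimensional ℝ V]

private theorem path_aux (S : ℝ → D →ₗ[ℝ] Y) (K : D →ₗ[ℝ] V) (J : D → ℝ) {C L : ℝ} (hC : 0 ≤ C) (hL : 0 ≤ L)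
    (hJ : ∀ s ∈ Icc (0 : ℝ) 1, ∀ u, J u ≤ C * (‖S s u‖ + ‖K u‖))
    (hS : ∀ s ∈ Icc (0 : ℝ) 1, ∀ t ∈ Icc (0 : ℝ) 1, ∀ u, ‖S s u - S t u‖ ≤ L * |s - t| * J u)
    (hfin : FiniteDimensional ℝ (Nsp (S 0) K)) :
    FiniteDimensional ℝ (Nsp (S 1) K) ∧ finrank ℝ (Nsp (S 1) K) ≤ finrank ℝ (Nsp (S 0) K) := by
  refine path_dim (c := L * (2 * C)) (fun s => gT (S s) K) ?_ hfin
  intro s hs t ht u
  have e : gT (S s) K u - gT (S t) K u = gT (S s - S t) 0 u := by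
    have : gT (S s) K - gT (S t) K = gT (S s - S t) (0 : D →ₗ[ℝ] V) := by
      ext v : 1
      have : (WithLp.toLp 2 (S s v, K v) : WithLp 2 (Y × V)) - WithLp.toLp 2 (S t v, K v) =
          WithLp.toLp 2 (S s v - S t v, K v - K v) := rfl
      simp only [gT, LinearMap.sub_apply, LinearMap.comp_apply]
      rw [sub_self] at this
      exact this
    rw [← this]
    rfl
  have h1 : ‖gT (S s) K u - gT (S t) K u‖ = ‖S s u - S t u‖ := by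
    rw [e]
    have h2 := gT_normSq (S s - S t) (0 : D →ₗ[ℝ] V) u
    simp only [LinearMap.sub_apply, LinearMap.zero_apply, norm_zero, ne_eq, OfNat.ofNat_ne_zero, not_false_eq_true,
      zero_pow, add_zero] at h2
    exact (pow_left_inj₀ (norm_nonneg _) (norm_nonneg _) two_ne_zero).1 h2
  have h3 : ‖S s u‖ + ‖K u‖ ≤ 2 * ‖gT (S s) K u‖ := by
    have h4 := gT_normSq (S s) K u
    have a1 : ‖S s u‖ ≤ ‖gT (S s) K u‖ := by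
      refine le_of_sq_le_sq ?_ (norm_nonneg _)
      rw [h4]
      nlinarith [sq_nonneg ‖K u‖]
    have a2 : ‖K u‖ ≤ ‖gT (S s) K u‖ := by
      refine le_of_sq_le_sq ?_ (norm_nonneg _)
      rw [h4]
      nlinarith [sq_nonneg ‖S s u‖]
    linarith
  rw [h1]
  refine (hS s hs t ht u).trans ?_
  have h5 : J u ≤ C * (2 * ‖gT (S s) K u‖) := (hJ s hs u).trans (mul_le_mul_of_nonneg_left h3 hC)
  calc L * |s - t| * J u ≤ L * |s - t| * (C * (2 * ‖gT (S s) K u‖)) :=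
        mul_le_mul_of_nonneg_left h5 (by positivity)
    _ = L * (2 * C) * |s - t| * ‖gT (S s) K u‖ := by ring

/-- The abstract lemma. -/
theorem fa_main (SA SB : ℝ → D →ₗ[ℝ] Y) (K : D →ₗ[ℝ] V) (J : D → ℝ) {C L C1 κ M : ℝ} (hC : 0 ≤ C) (hL : 0 ≤ L)
    (hJA : ∀ s ∈ Icc (0 : ℝ) 1, ∀ u, J u ≤ C * (‖SA s u‖ + ‖K u‖))
    (hJB : ∀ s ∈ Icc (0 : ℝ) 1, ∀ u, J u ≤ C * (‖SB s u‖ + ‖K u‖))
    (hSA : ∀ s ∈ Icc (0 : ℝ) 1, ∀ t ∈ Icc (0 : ℝ) 1, ∀ u, ‖SA s u - SA t u‖ ≤ L * |s - t| * J u)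
    (hSB : ∀ s ∈ Icc (0 : ℝ) 1, ∀ t ∈ Icc (0 : ℝ) 1, ∀ u, ‖SB s u - SB t u‖ ≤ L * |s - t| * J u)
    (hj : SA 0 = SB 0) (hK : ∀ u, ‖K u‖ ≤ C1 * ‖SA 1 u‖)
    (dense : ∀ v : Y, (∀ u, inner ℝ v (SB 1 u) = 0) → v = 0)
    (hκ : 0 < κ) (u : ℕ → D) (h1 : ∀ j, κ ≤ J (u j)) (h2 : ∀ j, ‖K (u j)‖ ≤ M)
    (h3 : Tendsto (fun j => ‖SB 1 (u j)‖) atTop (𝓝 0)) : False := by
  have o1 : (1 : ℝ) ∈ Icc (0 : ℝ) 1 := ⟨zero_le_one, le_rfl⟩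
  obtain ⟨f1, d1⟩ := end_dim (SB 1) K J (hJB 1 o1) dense hκ u h1 h2 h3
  have r : ∀ s ∈ Icc (0 : ℝ) 1, 1 - s ∈ Icc (0 : ℝ) 1 := fun s hs => ⟨by linarith [hs.2], by linarith [hs.1]⟩
  have hB := path_aux (fun s => SB (1 - s)) K J hC hL (fun s hs => hJB (1 - s) (r s hs))
    (fun s hs t ht u => by
      have := hSB (1 - s) (r s hs) (1 - t) (r t ht) u
      rwa [show (1 - s) - (1 - t) = -(s - t) by ring, abs_neg] at this)
    (by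
      show FiniteDimensional ℝ ↥(Nsp (SB (1 - 0)) K)
      rw [sub_zero]
      exact f1)
  have hB' : FiniteDimensional ℝ (Nsp (SB (1 - 1)) K) ∧ finrank ℝ (Nsp (SB (1 - 1)) K) ≤
    finrank ℝ (Nsp (SB (1 - 0)) K) := hB
  rw [sub_self, sub_zero] at hB'
  obtain ⟨f2, d2⟩ := hB'
  rw [← hj] at f2 d2
  obtain ⟨f3, d3⟩ := path_aux SA K J hC hL hJA hSA f2
  have d4 := start_dim (SA 1) K hK f3
  omega

end Pool.Agent.FCI
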