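import Pool.Agent.FCI.GDefs

/-!
# FCI-Fmp: the map `Fm` and its derivative (Mathlib, GDefs)
-/

open scoped BigOperators Topology ContDiff
open Filter Set

namespace Pool.Agent.FCI

open Pool.Agent.TUB (E)

variable {m l k0 n : ℕ}

private theorem crd_smooth (i : Zix m l k0) : ContDiff ℝ ∞ (fun z : ZZ m l k0 => z i) :=
  (EuclideanSpace.proj (𝕜 := ℝ) i).contDiff

private theorem crd_der (i : Zix m l k0) (z : ZZ m l k0) :
    HasFDerivAt (fun z : ZZ m l k0 => z i) (EuclideanSpace.proj (𝕜 := ℝ) i : ZZ m l k0 →L[ℝ] ℝ) z :=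
  (EuclideanSpace.proj (𝕜 := ℝ) i : ZZ m l k0 →L[ℝ] ℝ).hasFDerivAt

private theorem prj (i : Zix m l k0) (v : ZZ m l k0) :
    (EuclideanSpace.proj (𝕜 := ℝ) i : ZZ m l k0 →L[ℝ] ℝ) v = v i := rfl

theorem co_smooth (t0 : ℝ) (α : Nix l k0) : ContDiff ℝ ∞ (fun z : ZZ m l k0 => co t0 z α) := by
  rcases α with j | j | i
  · exact (contDiff_const.add (crd_smooth (Sum.inr (Sum.inr (Sum.inl j))))).mul
      (Real.contDiff_cos.comp (crd_smooth (Sum.inr (Sum.inl j))))
  · exact (contDiff_const.add (crd_smooth (Sum.inr (Sum.inr (Sum.inl j))))).mul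
      (Real.contDiff_sin.comp (crd_smooth (Sum.inr (Sum.inl j))))
  · exact crd_smooth (Sum.inr (Sum.inr (Sum.inr i)))

theorem co_fderiv (t0 : ℝ) (α : Nix l k0) (z v : ZZ m l k0) :
    fderiv ℝ (fun z : ZZ m l k0 => co t0 z α) z v = dco t0 z v α := by
  rcases α with j | j | i
  · have ht := (crd_der (m := m) (l := l) (k0 := k0) (Sum.inr (Sum.inr (Sum.inl j))) z).const_add t0
    have hth := (crd_der (m := m) (l := l) (k0 := k0) (Sum.inr (Sum.inl j)) z).cos
    have h := ht.mul hth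
    have h2 : fderiv ℝ (fun z : ZZ m l k0 => co t0 z (Sum.inl j)) z = _ := h.fderiv
    rw [h2]
    simp only [dco, tc, thc, ContinuousLinearMap.add_apply,
      ContinuousLinearMap.smul_apply, prj, smul_eq_mul]
    ring
  · have ht := (crd_der (m := m) (l := l) (k0 := k0) (Sum.inr (Sum.inr (Sum.inl j))) z).const_add t0
    have hth := (crd_der (m := m) (l := l) (k0 := k0) (Sum.inr (Sum.inl j)) z).sin
    have h := ht.mul hth
    have h2 : fderiv ℝ (fun z : ZZ m l k0 => co t0 z (Sum.inr (Sum.inl j))) z = _ := h.fderiv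
    rw [h2]
    simp only [dco, tc, thc, ContinuousLinearMap.add_apply,
      ContinuousLinearMap.smul_apply, prj, smul_eq_mul]
    ring
  · have h := crd_der (m := m) (l := l) (k0 := k0) (Sum.inr (Sum.inr (Sum.inr i))) z
    have h2 : fderiv ℝ (fun z : ZZ m l k0 => co t0 z (Sum.inr (Sum.inr i))) z = _ := h.fderiv
    rw [h2]
    rfl

theorem Fm_smooth {g : E m → E n} {O : Set (E m)} {e : Nix l k0 → E m → E n} (hg : ContDiffOn ℝ ∞ g O)
    (he : ∀ α, ContDiffOn ℝ ∞ (e α) O) (t0 : ℝ) : ContDiffOn ℝ ∞ (Fm t0 g e) (xc m l k0 ⁻¹' O) := by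
  have hx : ContDiffOn ℝ ∞ (fun z => xc m l k0 z) (xc m l k0 ⁻¹' O) := (xc m l k0).contDiff.contDiffOn
  have h1 : ContDiffOn ℝ ∞ (fun z => g (xc m l k0 z)) (xc m l k0 ⁻¹' O) := hg.comp hx fun z hz => hz
  have h2 : ContDiffOn ℝ ∞ (fun z => ∑ α, co t0 z α • e α (xc m l k0 z)) (xc m l k0 ⁻¹' O) :=
    ContDiffOn.sum fun α _ => (co_smooth t0 α).contDiffOn.smul ((he α).comp hx fun z hz => hz)
  exact h1.add h2

theorem Fm_fderiv {g : E m → E n} {O : Set (E m)} (hO : IsOpen O) {e : Nix l k0 → E m → E n}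
    (hg : ContDiffOn ℝ ∞ g O) (he : ∀ α, ContDiffOn ℝ ∞ (e α) O) (t0 : ℝ) {z : ZZ m l k0}
    (hz : xc m l k0 z ∈ O) (v : ZZ m l k0) :
    fderiv ℝ (Fm t0 g e) z v = fderiv ℝ g (xc m l k0 z) (xc m l k0 v) +
      ∑ α, dco t0 z v α • e α (xc m l k0 z) +
      ∑ α, co t0 z α • fderiv ℝ (e α) (xc m l k0 z) (xc m l k0 v) := by
  have hn : O ∈ 𝓝 (xc m l k0 z) := hO.mem_nhds hz
  have hxd : HasFDerivAt (fun z => xc m l k0 z) (xc m l k0) z := (xc m l k0).hasFDerivAt
  have h1 : HasFDerivAt (fun z => g (xc m l k0 z)) ((fderiv ℝ g (xc m l k0 z)).comp (xc m l k0)) z :=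
    ((hg.contDiffAt hn).differentiableAt (by simp)).hasFDerivAt.comp z hxd
  have h2 : ∀ α ∈ (Finset.univ : Finset (Nix l k0)),
      HasFDerivAt (fun z => co t0 z α • e α (xc m l k0 z))
      (co t0 z α • ((fderiv ℝ (e α) (xc m l k0 z)).comp (xc m l k0)) +
        (fderiv ℝ (fun z : ZZ m l k0 => co t0 z α) z).smulRight (e α (xc m l k0 z))) z := by
    intro α _
    have h3 : HasFDerivAt (fun z => e α (xc m l k0 z))
        ((fderiv ℝ (e α) (xc m l k0 z)).comp (xc m l k0)) z :=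
      (((he α).contDiffAt hn).differentiableAt (by simp)).hasFDerivAt.comp z hxd
    have h4 : HasFDerivAt (fun z : ZZ m l k0 => co t0 z α)
        (fderiv ℝ (fun z : ZZ m l k0 => co t0 z α) z) z :=
      ((co_smooth t0 α).differentiable (by simp)).differentiableAt.hasFDerivAt
    exact h4.smul h3
  have h5 := h1.add (HasFDerivAt.fun_sum h2)
  have h6 : fderiv ℝ (Fm t0 g e) z = _ := h5.fderiv
  rw [h6]
  simp only [ContinuousLinearMap.add_apply, ContinuousLinearMap.sum_apply, ContinuousLinearMap.smul_apply,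
    ContinuousLinearMap.comp_apply, ContinuousLinearMap.smulRight_apply, co_fderiv, Finset.sum_add_distrib]
  abel

end Pool.Agent.FCI
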