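import Pool.Agent.FCI.GDefs

/-!
# FCI-Frma: the normal projection is smooth (Mathlib, GDefs)

The projection `1 - A (A* A)⁻¹ A*` with `A = fderiv ℝ g x`.
-/

open scoped BigOperators Topology ContDiff
open Filter Set

namespace Pool.Agent.FCI

open Pool.Agent.TUB (E)

private noncomputable def fe (m : ℕ) : E m ≃L[ℝ] (Fin m → ℝ) := EuclideanSpace.equiv (Fin m) ℝ

private theorem fe_cub (m : ℕ) : Cub m = (fe m) ⁻¹' Metric.closedBall 0 1 := by
  ext x
  rw [Set.mem_preimage, mem_closedBall_zero_iff, pi_norm_le_iff_of_nonneg zero_le_one]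
  rfl

private theorem fe_bx (m : ℕ) {δ : ℝ} (hδ : 0 < δ) :
    Bx m δ = (fe m) ⁻¹' Metric.ball 0 (1 + δ) := by
  ext x
  rw [Set.mem_preimage, mem_ball_zero_iff, pi_norm_lt_iff (by linarith)]
  rfl

theorem Cub_isCompact (m : ℕ) : IsCompact (Cub m) := by
  rw [fe_cub]
  exact (fe m).toHomeomorph.isCompact_preimage.2 (isCompact_closedBall 0 1)

private theorem fe_open {m : ℕ} {V : Set (E m)} (hV : IsOpen V) (hsub : Cub m ⊆ V) :
    ∃ δ : ℝ, 0 < δ ∧ Bx m δ ⊆ V := by
  have h1 : IsOpen ((fe m).symm ⁻¹' V) := hV.preimage (fe m).symm.continuous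
  have h2 : Metric.closedBall (0 : Fin m → ℝ) 1 ⊆ (fe m).symm ⁻¹' V := by
    intro y hy
    apply hsub
    rw [fe_cub, Set.mem_preimage, ContinuousLinearEquiv.apply_symm_apply]
    exact hy
  obtain ⟨δ, hδ, h3⟩ := (isCompact_closedBall (0 : Fin m → ℝ) 1).exists_thickening_subset_open h1 h2
  refine ⟨δ, hδ, ?_⟩
  intro x hx
  rw [fe_bx m hδ, Set.mem_preimage] at hx
  rw [thickening_closedBall hδ zero_le_one, add_comm] at h3
  have h4 := h3 hx
  rw [Set.mem_preimage, ContinuousLinearEquiv.symm_apply_apply] at h4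
  exact h4

/-- the adjoint, as a continuous linear map -/
private noncomputable def fadj (m n : ℕ) : (E m →L[ℝ] E n) →L[ℝ] (E n →L[ℝ] E m) :=
  LinearMap.toContinuousLinearMap
    { toFun := fun A => ContinuousLinearMap.adjoint A
      map_add' := fun A B => by rw [map_add]
      map_smul' := fun r A => by rw [map_smulₛₗ]; rfl }

private theorem fadj_apply {m n : ℕ} (A : E m →L[ℝ] E n) :
    fadj m n A = ContinuousLinearMap.adjoint A := rfl

private theorem fadj_inner {m n : ℕ} (A : E m →L[ℝ] E n) (v : E m) (w : E n) :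
    inner ℝ (fadj m n A w) v = inner ℝ w (A v) := by
  rw [fadj_apply, ContinuousLinearMap.adjoint_inner_left]

private theorem fS_unit {m n : ℕ} (A : E m →L[ℝ] E n) :
    IsUnit ((fadj m n A).comp A) ↔ Function.Injective A := by
  rw [ContinuousLinearMap.isUnit_iff_bijective]
  constructor
  · intro h v w hvw
    apply h.1
    rw [ContinuousLinearMap.comp_apply, ContinuousLinearMap.comp_apply, hvw]
  · intro h
    have h1 : Function.Injective ((fadj m n A).comp A) := by
      rw [injective_iff_map_eq_zero]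
      intro v hv
      have h2 : inner ℝ (fadj m n A (A v)) v = (0 : ℝ) := by
        rw [ContinuousLinearMap.comp_apply] at hv
        rw [hv, inner_zero_left]
      rw [fadj_inner, inner_self_eq_zero] at h2
      exact (injective_iff_map_eq_zero A).1 h v h2
    exact ⟨h1, (LinearMap.injective_iff_surjective (f := (((fadj m n A).comp A : E m →L[ℝ] E m) :
      E m →ₗ[ℝ] E m))).1 h1⟩

theorem nproj {m n : ℕ} {g : E m → E n} {O : Set (E m)} (hO : IsOpen O) (hsub : Cub m ⊆ O)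
    (hg : ContDiffOn ℝ ∞ g O) (hinj : ∀ x ∈ Cub m, Function.Injective (fderiv ℝ g x)) :
    ∃ δ : ℝ, 0 < δ ∧ Bx m δ ⊆ O ∧ (∀ x ∈ Bx m δ, Function.Injective (fderiv ℝ g x)) ∧
      ∃ π : E m → (E n →L[ℝ] E n), ContDiffOn ℝ ∞ π (Bx m δ) ∧ ∀ x ∈ Bx m δ,
        (∀ w v, inner ℝ (π x w) (fderiv ℝ g x v) = 0) ∧
        (∀ ξ, (∀ v, inner ℝ ξ (fderiv ℝ g x v) = 0) → π x ξ = ξ) := by
  have hD : ContDiffOn ℝ ∞ (fun x => fderiv ℝ g x) O := hg.fderiv_of_isOpen hO (by simp)
  have hT : ContDiffOn ℝ ∞ (fun x => fadj m n (fderiv ℝ g x)) O :=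
    (fadj m n).contDiff.comp_contDiffOn hD
  have hS : ContDiffOn ℝ ∞ (fun x => (fadj m n (fderiv ℝ g x)).comp (fderiv ℝ g x)) O :=
    hT.clm_comp hD
  have hO1 : IsOpen (O ∩ (fun x => (fadj m n (fderiv ℝ g x)).comp (fderiv ℝ g x)) ⁻¹'
      {y : E m →L[ℝ] E m | IsUnit y}) :=
    hS.continuousOn.isOpen_inter_preimage hO Units.isOpen
  obtain ⟨δ, hδ, hB⟩ := fe_open hO1 (fun x hx => ⟨hsub hx, (fS_unit _).2 (hinj x hx)⟩)
  refine ⟨δ, hδ, fun x hx => (hB hx).1, fun x hx => (fS_unit _).1 (hB hx).2, ?_⟩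
  refine ⟨fun x => ContinuousLinearMap.id ℝ (E n) - (fderiv ℝ g x).comp
    ((Ring.inverse ((fadj m n (fderiv ℝ g x)).comp (fderiv ℝ g x))).comp
      (fadj m n (fderiv ℝ g x))), ?_, ?_⟩
  · intro x hx
    obtain ⟨h1, h2⟩ := hB hx
    have h1' : O ∈ 𝓝 x := hO.mem_nhds h1
    obtain ⟨u, hu'⟩ := h2
    have hu : (u : E m →L[ℝ] E m) = (fadj m n (fderiv ℝ g x)).comp (fderiv ℝ g x) := hu'
    have hi : ContDiffAt ℝ ∞ (fun x => Ring.inverse
        ((fadj m n (fderiv ℝ g x)).comp (fderiv ℝ g x))) x := by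
      have h3 : ContDiffAt ℝ ∞ (Ring.inverse : (E m →L[ℝ] E m) → (E m →L[ℝ] E m))
          ((fadj m n (fderiv ℝ g x)).comp (fderiv ℝ g x)) := by
        rw [← hu]
        exact contDiffAt_ringInverse ℝ u
      exact h3.comp x (hS.contDiffAt h1')
    exact (contDiffAt_const.sub ((hD.contDiffAt h1').clm_comp
      (hi.clm_comp (hT.contDiffAt h1')))).contDiffWithinAt
  · intro x hx
    obtain ⟨h1, h2⟩ := hB hx
    have h3 : ∀ w, (fadj m n (fderiv ℝ g x)) (fderiv ℝ g x (Ring.inverse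
        ((fadj m n (fderiv ℝ g x)).comp (fderiv ℝ g x)) w)) = w := by
      intro w
      have h4 := Ring.mul_inverse_cancel _ h2
      have h5 := congrArg (fun f : E m →L[ℝ] E m => f w) h4
      exact h5
    refine ⟨fun w v => ?_, fun ξ hξ => ?_⟩
    · have e : (ContinuousLinearMap.id ℝ (E n) - (fderiv ℝ g x).comp
          ((Ring.inverse ((fadj m n (fderiv ℝ g x)).comp (fderiv ℝ g x))).comp
            (fadj m n (fderiv ℝ g x)))) w = w - fderiv ℝ g x (Ring.inverse
            ((fadj m n (fderiv ℝ g x)).comp (fderiv ℝ g x)) (fadj m n (fderiv ℝ g x) w)) := rfl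
      show inner ℝ ((ContinuousLinearMap.id ℝ (E n) - (fderiv ℝ g x).comp
          ((Ring.inverse ((fadj m n (fderiv ℝ g x)).comp (fderiv ℝ g x))).comp
            (fadj m n (fderiv ℝ g x)))) w) (fderiv ℝ g x v) = 0
      rw [e, inner_sub_left, ← fadj_inner, ← fadj_inner, h3, sub_self]
    · have e : (ContinuousLinearMap.id ℝ (E n) - (fderiv ℝ g x).comp
          ((Ring.inverse ((fadj m n (fderiv ℝ g x)).comp (fderiv ℝ g x))).comp
            (fadj m n (fderiv ℝ g x)))) ξ = ξ - fderiv ℝ g x (Ring.inverse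
            ((fadj m n (fderiv ℝ g x)).comp (fderiv ℝ g x)) (fadj m n (fderiv ℝ g x) ξ)) := rfl
      have h6 : fadj m n (fderiv ℝ g x) ξ = 0 := by
        apply ext_inner_right ℝ
        intro v
        rw [fadj_inner, hξ v, inner_zero_left]
      show (ContinuousLinearMap.id ℝ (E n) - (fderiv ℝ g x).comp
          ((Ring.inverse ((fadj m n (fderiv ℝ g x)).comp (fderiv ℝ g x))).comp
            (fadj m n (fderiv ℝ g x)))) ξ = ξ
      rw [e, h6, map_zero, map_zero, sub_zero]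

end Pool.Agent.FCI
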