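import Pool.Agent.FCI.Frma

/-!
# FCI-Frmb: transport of normal vectors by products of projections
-/

open scoped BigOperators Topology ContDiff
open Filter Set

namespace Pool.Agent.FCI

open Pool.Agent.TUB (E)

section

variable {m n : ℕ}

private noncomputable def trk (π : E m → (E n →L[ℝ] E n)) (N : ℕ) : ℕ → E m → (E n →L[ℝ] E n)
  | 0 => fun x => π ((((0 : ℕ) : ℝ) / N) • x)
  | k + 1 => fun x => (π ((((k + 1 : ℕ) : ℝ) / N) • x)).comp (trk π N k x)

private theorem trk_fix {π : E m → (E n →L[ℝ] E n)} {N k : ℕ} {x : E m}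
    (h : ∀ w, π (((k : ℝ) / N) • x) (π (((k : ℝ) / N) • x) w) = π (((k : ℝ) / N) • x) w) (w : E n) :
    π (((k : ℝ) / N) • x) (trk π N k x w) = trk π N k x w := by
  cases k with
  | zero => exact h w
  | succ k => exact h (trk π N k x w)

private theorem bx_smul {δ : ℝ} (hδ : 0 < δ) {c : ℝ} (hc0 : 0 ≤ c) (hc1 : c ≤ 1) {x : E m}
    (hx : x ∈ Bx m δ) : c • x ∈ Bx m δ := by
  intro i
  have h1 : (c • x) i = c * x i := by simp
  rw [h1, abs_mul, abs_of_nonneg hc0]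
  have h2 := hx i
  have h3 : c * |x i| ≤ 1 * |x i| := mul_le_mul_of_nonneg_right hc1 (abs_nonneg _)
  linarith

private theorem frac_mem {N k : ℕ} (hN : 0 < N) (hk : k ≤ N) : 0 ≤ (k : ℝ) / N ∧ (k : ℝ) / N ≤ 1 := by
  have h1 : (0 : ℝ) < N := by exact_mod_cast hN
  refine ⟨by positivity, ?_⟩
  rw [div_le_one h1]
  exact_mod_cast hk

private theorem trk_smooth {δ δ' : ℝ} (hδ' : 0 < δ') (hle : δ' ≤ δ) {π : E m → (E n →L[ℝ] E n)}
    (hπ : ContDiffOn ℝ ∞ π (Bx m δ)) {N : ℕ} (hN : 0 < N) :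
    ∀ k, k ≤ N → ContDiffOn ℝ ∞ (trk π N k) (Bx m δ') := by
  have hsub : Bx m δ' ⊆ Bx m δ := fun x hx i => lt_of_lt_of_le (hx i) (by linarith)
  have h1 : ∀ k, k ≤ N → ContDiffOn ℝ ∞ (fun x : E m => π (((k : ℝ) / N) • x)) (Bx m δ') := by
    intro k hk
    have h2 : ContDiff ℝ ∞ (fun x : E m => ((k : ℝ) / N) • x) := contDiff_id.const_smul _
    exact hπ.comp h2.contDiffOn fun x hx =>
      hsub (bx_smul hδ' (frac_mem hN hk).1 (frac_mem hN hk).2 hx)
  intro k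
  induction k with
  | zero => intro hk; exact h1 0 hk
  | succ k ih =>
    intro hk
    exact (h1 (k + 1) hk).clm_comp (ih (by omega))

private theorem trk_inj {π : E m → (E n →L[ℝ] E n)} {N : ℕ} {x : E m}
    (hfix : ∀ k, k ≤ N → ∀ w, π (((k : ℝ) / N) • x) (π (((k : ℝ) / N) • x) w) =
      π (((k : ℝ) / N) • x) w)
    (hstep : ∀ k, k < N → ‖π ((((k + 1 : ℕ) : ℝ) / N) • x) - π (((k : ℝ) / N) • x)‖ < 1)
    {ξ : E n} (hξ : π 0 ξ = ξ) : ∀ k, k ≤ N → trk π N k x ξ = 0 → ξ = 0 := by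
  intro k
  induction k with
  | zero =>
    intro _ h
    have h1 : trk π N 0 x ξ = π 0 ξ := by
      show π ((((0 : ℕ) : ℝ) / N) • x) ξ = π 0 ξ
      simp
    rw [h1, hξ] at h
    exact h
  | succ k ih =>
    intro hk h
    refine ih (by omega) ?_
    obtain ⟨v, hv⟩ : ∃ v, v = trk π N k x ξ := ⟨_, rfl⟩
    have h1 : π ((((k + 1 : ℕ) : ℝ) / N) • x) v = 0 := by
      rw [hv]
      exact h
    have h2 : π (((k : ℝ) / N) • x) v = v := by
      rw [hv]
      exact trk_fix (hfix k (by omega)) ξ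
    rw [← hv]
    by_contra hne
    have h3 : 0 < ‖v‖ := norm_pos_iff.mpr hne
    have h4 : (π ((((k + 1 : ℕ) : ℝ) / N) • x) - π (((k : ℝ) / N) • x)) v = -v := by
      rw [sub_apply, h1, h2, zero_sub]
    have h5 := (π ((((k + 1 : ℕ) : ℝ) / N) • x) - π (((k : ℝ) / N) • x)).le_opNorm v
    rw [h4, norm_neg] at h5
    have h6 := mul_lt_mul_of_pos_right (hstep k (by omega)) h3
    linarith

private theorem box_compact (δ : ℝ) (hδ : 0 < δ) : IsCompact {x : E m | ∀ i, |x i| ≤ 1 + δ} := by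
  have h1 := (Cub_isCompact m).image (continuous_const_smul (1 + δ))
  have h2 : {x : E m | ∀ i, |x i| ≤ 1 + δ} ⊆ (fun x => (1 + δ) • x) '' Cub m := by
    intro x hx
    refine ⟨(1 + δ)⁻¹ • x, ?_, ?_⟩
    · intro i
      have h3 : ((1 + δ)⁻¹ • x) i = (1 + δ)⁻¹ * x i := by simp
      rw [h3, abs_mul, abs_of_pos (by positivity), inv_mul_le_iff₀ (by linarith), mul_one]
      exact hx i
    · show (1 + δ) • (1 + δ)⁻¹ • x = x
      rw [smul_inv_smul₀ (by linarith)]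
  refine h1.of_isClosed_subset ?_ h2
  rw [ofPred_forall]
  refine isClosed_iInter fun i => isClosed_le ?_ continuous_const
  exact (EuclideanSpace.proj i : E m →L[ℝ] ℝ).continuous.abs

end

theorem transport {m n : ℕ} {δ : ℝ} (hδ : 0 < δ) {π : E m → (E n →L[ℝ] E n)} (hπ : ContDiffOn ℝ ∞ π (Bx m δ))
    (hpr : ∀ x ∈ Bx m δ, ∀ w, π x (π x w) = π x w) :
    ∃ δ' : ℝ, 0 < δ' ∧ δ' ≤ δ ∧ ∃ T : E m → (E n →L[ℝ] E n), ContDiffOn ℝ ∞ T (Bx m δ') ∧
      (∀ x ∈ Bx m δ', ∀ w, π x (T x w) = T x w) ∧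
      (∀ x ∈ Bx m δ', ∀ ξ, π 0 ξ = ξ → T x ξ = 0 → ξ = 0) := by
  obtain ⟨K, hK⟩ : ∃ K, K = {x : E m | ∀ i, |x i| ≤ 1 + δ / 2} := ⟨_, rfl⟩
  have hKc : IsCompact K := by
    rw [hK]
    exact box_compact (δ / 2) (by linarith)
  have hKB : K ⊆ Bx m δ := by
    rw [hK]
    intro x hx i
    have := hx i
    linarith
  have hBK : Bx m (δ / 2) ⊆ K := by
    rw [hK]
    intro x hx i
    exact (hx i).le
  have huc : UniformContinuousOn π K :=
    hKc.uniformContinuousOn_of_continuous (hπ.continuousOn.mono hKB)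
  obtain ⟨η, hη, huc⟩ := Metric.uniformContinuousOn_iff.mp huc 1 one_pos
  obtain ⟨R, hR⟩ := hKc.isBounded.exists_norm_le
  obtain ⟨N, hN⟩ := exists_nat_gt (R / η)
  obtain ⟨M, hM⟩ : ∃ M, M = N + 1 := ⟨_, rfl⟩
  have hM0 : 0 < M := by omega
  have hMR : (0 : ℝ) < M := by exact_mod_cast hM0
  have hRM : R < η * M := by
    rw [div_lt_iff₀ hη] at hN
    rw [hM]
    push_cast
    nlinarith
  have hB : ∀ k, k ≤ M → ∀ x ∈ Bx m (δ / 2), ((k : ℝ) / M) • x ∈ Bx m (δ / 2) := fun k hk x hx =>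
    bx_smul (by linarith) (frac_mem hM0 hk).1 (frac_mem hM0 hk).2 hx
  have hsub : Bx m (δ / 2) ⊆ Bx m δ := hBK.trans hKB
  refine ⟨δ / 2, by linarith, by linarith, trk π M M,
    trk_smooth (by linarith) (by linarith) hπ hM0 M le_rfl, ?_, ?_⟩
  · intro x hx w
    have h1 := trk_fix (π := π) (N := M) (k := M) (x := x)
      (fun w => hpr _ (hsub (hB M le_rfl x hx)) w) w
    rw [div_self hMR.ne', one_smul] at h1
    exact h1
  · intro x hx ξ h0 h1
    refine trk_inj (π := π) (N := M) (x := x) (fun k hk w => hpr _ (hsub (hB k hk x hx)) w) ?_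
      h0 M le_rfl h1
    intro k hk
    have h2 := huc _ (hBK (hB (k + 1) hk x hx)) _ (hBK (hB k hk.le x hx)) ?_
    · rw [dist_eq_norm] at h2
      exact h2
    · rw [dist_eq_norm, ← sub_smul, norm_smul]
      have h3 : (((k + 1 : ℕ) : ℝ) / M - (k : ℝ) / M) = 1 / M := by
        push_cast
        ring
      rw [h3, Real.norm_of_nonneg (by positivity), div_mul_eq_mul_div, one_mul, div_lt_iff₀ hMR]
      exact lt_of_le_of_lt (hR x (hBK hx)) hRM

end Pool.Agent.FCI
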