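import Pool.Agent.FCI.Frmb

/-!
# FCI-Frmc: normal frames in codimension 1 and 2
-/

open scoped BigOperators Topology ContDiff
open Filter Set

namespace Pool.Agent.FCI

open Pool.Agent.TUB (E)

private theorem Bx_isOpen (m : ℕ) (δ : ℝ) : IsOpen (Bx m δ) := by
  have h : Bx m δ = ⋂ i : Fin m, {x : E m | |x i| < 1 + δ} := by
    ext x
    simp [Bx]
  rw [h]
  refine isOpen_iInter_of_finite fun i => ?_
  have hc : Continuous fun x : E m => |x i| := by fun_prop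
  exact isOpen_lt hc continuous_const

private theorem Cub_Bx {m : ℕ} {δ : ℝ} (hδ : 0 < δ) : Cub m ⊆ Bx m δ :=
  fun x hx i => (hx i).trans_lt (by linarith)

private theorem zero_Bx {m : ℕ} {δ : ℝ} (hδ : 0 < δ) : (0 : E m) ∈ Bx m δ := by
  intro i
  simp
  linarith

private theorem zero_Cub {m : ℕ} : (0 : E m) ∈ Cub m := by
  intro i
  simp

private theorem conn_self {m n : ℕ} {e : E m → E n} {O : Set (E m)} (hO : IsOpen O)
    (he : ContDiffOn ℝ ∞ e O) (h1 : ∀ x ∈ O, ‖e x‖ = 1) :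
    ∀ x ∈ O, ∀ v, inner ℝ (fderiv ℝ e x v) (e x) = 0 := by
  intro x hx v
  have hd : DifferentiableAt ℝ e x :=
    (he.differentiableOn (by simp)).differentiableAt (hO.mem_nhds hx)
  have hev : (fun y => inner ℝ (e y) (e y)) =ᶠ[𝓝 x] fun _ => (1 : ℝ) := by
    filter_upwards [hO.mem_nhds hx] with y hy
    rw [real_inner_self_eq_norm_sq, h1 y hy]
    norm_num
  have h2 := congrArg (fun L : E m →L[ℝ] ℝ => L v) hev.fderiv_eq
  simp only [fderiv_inner_apply ℝ hd hd] at h2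
  rw [real_inner_comm (fderiv ℝ e x v) (e x)] at h2
  simp at h2
  linarith

private theorem unit_norm {m n : ℕ} {w : E m → E n} {x : E m} (h : w x ≠ 0) :
    ‖(fun y => ‖w y‖⁻¹ • w y) x‖ = 1 := by
  show ‖‖w x‖⁻¹ • w x‖ = 1
  rw [norm_smul, norm_inv, norm_norm]
  exact inv_mul_cancel₀ (norm_ne_zero_iff.2 h)

private theorem unit_smooth {m n : ℕ} {w : E m → E n} {O : Set (E m)} (hw : ContDiffOn ℝ ∞ w O)
    (h : ∀ x ∈ O, w x ≠ 0) : ContDiffOn ℝ ∞ (fun y => ‖w y‖⁻¹ • w y) O :=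
  ((hw.norm ℝ h).inv fun x hx => norm_ne_zero_iff.2 (h x hx)).smul hw

/-- the data used in both cases -/
private theorem setup {m n : ℕ} {g : E m → E n} {O : Set (E m)} (hO : IsOpen O) (hsub : Cub m ⊆ O)
    (hg : ContDiffOn ℝ ∞ g O) (hinj : ∀ x ∈ Cub m, Function.Injective (fderiv ℝ g x)) :
    ∃ (O' : Set (E m)) (N : Submodule ℝ (E n)) (T : E m → (E n →L[ℝ] E n)),
      IsOpen O' ∧ Cub m ⊆ O' ∧ O' ⊆ O ∧ Module.finrank ℝ N + m = n ∧ ContDiffOn ℝ ∞ T O' ∧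
      (∀ x ∈ O', ∀ w v, inner ℝ (T x w) (fderiv ℝ g x v) = 0) ∧
      (∀ x ∈ O', ∀ ξ ∈ N, T x ξ = 0 → ξ = 0) := by
  obtain ⟨δ, hδ, hδO, -, π, hπ, hππ⟩ := nproj hO hsub hg hinj
  obtain ⟨δ', hδ', hδδ, T, hT, hT1, hT2⟩ := transport hδ hπ (fun x hx w =>
    (hππ x hx).2 _ fun v => (hππ x hx).1 w v)
  have hBB : Bx m δ' ⊆ Bx m δ := fun x hx i => (hx i).trans_le (by linarith)
  refine ⟨Bx m δ', (LinearMap.range (fderiv ℝ g 0 : E m →ₗ[ℝ] E n))ᗮ, T, Bx_isOpen m δ',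
    Cub_Bx hδ', hBB.trans hδO, ?_, hT, ?_, ?_⟩
  · have h1 := Submodule.finrank_add_finrank_orthogonal
      (LinearMap.range (fderiv ℝ g 0 : E m →ₗ[ℝ] E n))
    have h2 : Module.finrank ℝ (LinearMap.range (fderiv ℝ g 0 : E m →ₗ[ℝ] E n)) = m := by
      rw [LinearMap.finrank_range_of_inj (hinj 0 zero_Cub)]
      simp
    rw [h2] at h1
    simp only [finrank_euclideanSpace, Fintype.card_fin] at h1
    omega
  · intro x hx w v
    rw [← hT1 x hx w]
    exact (hππ x (hBB hx)).1 _ v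
  · intro x hx ξ hξ h0
    refine hT2 x hx ξ ?_ h0
    refine (hππ 0 (zero_Bx hδ)).2 ξ fun v => ?_
    rw [real_inner_comm]
    exact (Submodule.mem_orthogonal _ _).1 hξ _ ⟨v, rfl⟩

theorem frame_one {m n : ℕ} (hn : n = m + 1) {g : E m → E n} {O : Set (E m)} (hO : IsOpen O) (hsub : Cub m ⊆ O)
    (hg : ContDiffOn ℝ ∞ g O) (hinj : ∀ x ∈ Cub m, Function.Injective (fderiv ℝ g x)) :
    ∃ (O' : Set (E m)) (e : Nix 0 1 → E m → E n), IsOpen O' ∧ Cub m ⊆ O' ∧ O' ⊆ O ∧ NFr g O' e := by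
  obtain ⟨O', N, T, hO', hC, hsub', hfr, hT, hT1, hT2⟩ := setup hO hsub hg hinj
  have hpos : 0 < Module.finrank ℝ N := by omega
  obtain ⟨ξ, hξ⟩ := Module.finrank_pos_iff_exists_ne_zero.1 hpos
  have hw : ContDiffOn ℝ ∞ (fun y => T y (ξ : E n)) O' := hT.clm_apply contDiffOn_const
  have hw0 : ∀ x ∈ O', (fun y => T y (ξ : E n)) x ≠ 0 := fun x hx h0 =>
    hξ (Subtype.ext (hT2 x hx ξ ξ.2 h0))
  have hs := unit_smooth hw hw0
  have hu : ∀ x ∈ O', ‖(fun y => ‖T y (ξ : E n)‖⁻¹ • T y (ξ : E n)) x‖ = 1 :=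
    fun x hx => unit_norm (w := fun y => T y (ξ : E n)) (hw0 x hx)
  refine ⟨O', fun _ y => ‖T y (ξ : E n)‖⁻¹ • T y (ξ : E n), hO', hC, hsub', ?_, ?_, ?_, ?_⟩
  · intro α
    exact hs
  · intro x hx
    refine ⟨fun α => hu x hx, fun α β hαβ => absurd ((by decide : ∀ α β : Nix 0 1, α = β) α β) hαβ⟩
  · intro x hx α v
    show inner ℝ (‖T x (ξ : E n)‖⁻¹ • T x (ξ : E n)) (fderiv ℝ g x v) = 0
    rw [inner_smul_left, hT1 x hx, mul_zero]
  · intro x hx α β _ v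
    exact conn_self hO' hs hu x hx v

theorem frame_two {m n : ℕ} (hn : n = m + 2) {g : E m → E n} {O : Set (E m)} (hO : IsOpen O) (hsub : Cub m ⊆ O)
    (hg : ContDiffOn ℝ ∞ g O) (hinj : ∀ x ∈ Cub m, Function.Injective (fderiv ℝ g x)) :
    ∃ (O' : Set (E m)) (e : Nix 1 0 → E m → E n), IsOpen O' ∧ Cub m ⊆ O' ∧ O' ⊆ O ∧ NFr g O' e := by
  obtain ⟨O', N, T, hO', hC, hsub', hfr, hT, hT1, hT2⟩ := setup hO hsub hg hinj
  have hpos : 1 < Module.finrank ℝ N := by omega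
  obtain ⟨ξ, hξ⟩ := Module.finrank_pos_iff_exists_ne_zero.1 (by omega : 0 < Module.finrank ℝ N)
  obtain ⟨η, hη⟩ := exists_linearIndependent_pair_of_one_lt_finrank hpos hξ
  have hw : ContDiffOn ℝ ∞ (fun y => T y (ξ : E n)) O' := hT.clm_apply contDiffOn_const
  have hw0 : ∀ x ∈ O', (fun y => T y (ξ : E n)) x ≠ 0 := fun x hx h0 =>
    hξ (Subtype.ext (hT2 x hx ξ ξ.2 h0))
  obtain ⟨e1, he1⟩ : ∃ e1 : E m → E n, e1 = fun y => ‖T y (ξ : E n)‖⁻¹ • T y (ξ : E n) := ⟨_, rfl⟩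
  have hs1 : ContDiffOn ℝ ∞ e1 O' := by rw [he1]; exact unit_smooth hw hw0
  have hu1 : ∀ x ∈ O', ‖e1 x‖ = 1 := fun x hx => by
    rw [he1]; exact unit_norm (w := fun y => T y (ξ : E n)) (hw0 x hx)
  obtain ⟨w2, hw2⟩ : ∃ w2 : E m → E n, w2 = fun y => T y (η : E n) - (inner ℝ (e1 y) (T y (η : E n)) : ℝ) • e1 y :=
    ⟨_, rfl⟩
  have hη' : ContDiffOn ℝ ∞ (fun y => T y (η : E n)) O' := hT.clm_apply contDiffOn_const
  have hs2 : ContDiffOn ℝ ∞ w2 O' := by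
    rw [hw2]
    exact hη'.sub ((hs1.inner ℝ hη').smul hs1)
  have hw20 : ∀ x ∈ O', w2 x ≠ 0 := by
    intro x hx h0
    rw [hw2] at h0
    have h1 : T x ((η - (inner ℝ (e1 x) (T x (η : E n)) * ‖T x (ξ : E n)‖⁻¹) • ξ : N) : E n) = 0 := by
      rw [Submodule.coe_sub, Submodule.coe_smul, map_sub, map_smul]
      simp only at h0
      rw [← h0, he1, mul_smul]
    have h2 := hT2 x hx _ (Submodule.coe_mem _) h1
    have h3 : η - (inner ℝ (e1 x) (T x (η : E n)) * ‖T x (ξ : E n)‖⁻¹) • ξ = 0 := Subtype.ext h2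
    rw [LinearIndependent.pair_iff] at hη
    have h4 := hη (-(inner ℝ (e1 x) (T x (η : E n)) * ‖T x (ξ : E n)‖⁻¹)) 1 (by
      rw [neg_smul, one_smul, neg_add_eq_sub]
      exact h3)
    exact one_ne_zero h4.2
  obtain ⟨e2, he2⟩ : ∃ e2 : E m → E n, e2 = fun y => ‖w2 y‖⁻¹ • w2 y := ⟨_, rfl⟩
  have hs3 : ContDiffOn ℝ ∞ e2 O' := by rw [he2]; exact unit_smooth hs2 hw20
  have hu2 : ∀ x ∈ O', ‖e2 x‖ = 1 := fun x hx => by
    rw [he2]; exact unit_norm (w := w2) (hw20 x hx)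
  have h12 : ∀ x ∈ O', inner ℝ (e1 x) (e2 x) = 0 := by
    intro x hx
    rw [he2]
    simp only
    rw [inner_smul_right, hw2]
    simp only
    rw [inner_sub_right, inner_smul_right, real_inner_self_eq_norm_sq, hu1 x hx]
    ring
  have hn1 : ∀ x ∈ O', ∀ v, inner ℝ (e1 x) (fderiv ℝ g x v) = 0 := by
    intro x hx v
    rw [he1]
    simp only
    rw [inner_smul_left, hT1 x hx, mul_zero]
  have hn2 : ∀ x ∈ O', ∀ v, inner ℝ (e2 x) (fderiv ℝ g x v) = 0 := by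
    intro x hx v
    rw [he2]
    simp only
    rw [inner_smul_left, hw2]
    simp only
    rw [inner_sub_left, inner_smul_left, hT1 x hx, hn1 x hx]
    simp
  refine ⟨O', Sum.elim (fun _ => e1) (Sum.elim (fun _ => e2) (fun i => i.elim0)), hO', hC, hsub',
    ?_, ?_, ?_, ?_⟩
  · rintro (α | α | α)
    · exact hs1
    · exact hs3
    · exact α.elim0
  · intro x hx
    constructor
    · rintro (α | α | α)
      · exact hu1 x hx
      · exact hu2 x hx
      · exact α.elim0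
    · rintro (α | α | α) (β | β | β) hαβ
      · exact absurd (by rw [Subsingleton.elim α β]) hαβ
      · exact h12 x hx
      · exact β.elim0
      · exact (real_inner_comm _ _).trans (h12 x hx)
      · exact absurd (by rw [Subsingleton.elim α β]) hαβ
      · exact β.elim0
      · exact α.elim0
      · exact α.elim0
      · exact α.elim0
  · rintro x hx (α | α | α) v
    · exact hn1 x hx v
    · exact hn2 x hx v
    · exact α.elim0
  · rintro x hx (α | α | α) (β | β | β) hαβ v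
    · exact conn_self hO' hs1 hu1 x hx v
    · exact absurd ⟨0, Or.inl ⟨by rw [Subsingleton.elim α 0], by rw [Subsingleton.elim β 0]⟩⟩ hαβ
    · exact β.elim0
    · exact absurd ⟨0, Or.inr ⟨by rw [Subsingleton.elim α 0], by rw [Subsingleton.elim β 0]⟩⟩ hαβ
    · exact conn_self hO' hs3 hu2 x hx v
    · exact β.elim0
    · exact α.elim0
    · exact α.elim0
    · exact α.elim0

end Pool.Agent.FCI
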