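import Pool.Agent.FCI.Defs

/-!
# Project FCI: geometric definitions (definitions only)
-/

open scoped BigOperators Topology ContDiff Manifold
open MeasureTheory Filter Set

namespace Pool.Agent.FCI

open Pool.Agent.TUB (E B jw)

noncomputable section

/-- the cube `[-1,1]^m` -/
def Cub (m : ℕ) : Set (E m) := {x | ∀ i, |x i| ≤ 1}

/-- a larger open box -/
def Bx (m : ℕ) (δ : ℝ) : Set (E m) := {x | ∀ i, |x i| < 1 + δ}

/-- index set of a normal frame: two frame fields for each plane, and the parallel lines -/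
abbrev Nix (l k0 : ℕ) := Fin l ⊕ Fin l ⊕ Fin k0

/-- index set of the coordinates: `x`, the angles `θ`, the radii `t`, the coordinates `y` -/
abbrev Zix (m l k0 : ℕ) := Fin m ⊕ Fin l ⊕ Fin l ⊕ Fin k0

/-- the space of the coordinates -/
abbrev ZZ (m l k0 : ℕ) := EuclideanSpace ℝ (Zix m l k0)

/-- the two frame fields of one plane -/
def Prt {l k0 : ℕ} (α β : Nix l k0) : Prop :=
  ∃ j : Fin l, (α = Sum.inl j ∧ β = Sum.inr (Sum.inl j)) ∨ (α = Sum.inr (Sum.inl j) ∧ β = Sum.inl j)

/-- A cube of width `D` in the unit ball with curvature at most `c`. -/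
structure WCube {m n : ℕ} (g : E m → E n) (O : Set (E m)) (D c : ℝ) : Prop where
  isOpen : IsOpen O
  sub : Cub m ⊆ O
  smooth : ContDiffOn ℝ ∞ g O
  ball : ∀ x ∈ Cub m, ‖g x‖ ≤ 1
  wide : ∀ x ∈ Cub m, ∀ v i, D * |v i| ≤ ‖fderiv ℝ g x v‖
  curv : ∀ x ∈ Cub m, ∀ v ξ, (∀ w, inner ℝ ξ (fderiv ℝ g x w) = 0) →
    |inner ℝ ξ (fderiv ℝ (fun y => fderiv ℝ g y v) x v)| ≤ c * ‖ξ‖ * ‖fderiv ℝ g x v‖ ^ 2

/-- A smooth orthonormal frame of the normal bundle of `g` on `O`, adapted to a parallel splitting into `l` planes (with an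
arbitrary connection) and `k0` parallel lines. -/
structure NFr {m l k0 n : ℕ} (g : E m → E n) (O : Set (E m)) (e : Nix l k0 → E m → E n) : Prop where
  smooth : ∀ α, ContDiffOn ℝ ∞ (e α) O
  on : ∀ x ∈ O, Orthonormal ℝ (fun α => e α x)
  nor : ∀ x ∈ O, ∀ α v, inner ℝ (e α x) (fderiv ℝ g x v) = 0
  conn : ∀ x ∈ O, ∀ α β, ¬ Prt α β → ∀ v, inner ℝ (fderiv ℝ (e α) x v) (e β x) = 0

section fmap

variable {m l k0 n : ℕ}

/-- the coordinates `x`, as a linear map -/
def xc (m l k0 : ℕ) : ZZ m l k0 →L[ℝ] E m :=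
  LinearMap.toContinuousLinearMap
    { toFun := fun z => WithLp.toLp 2 (fun i => z (Sum.inl i))
      map_add' := fun v w => by ext i; simp
      map_smul' := fun r w => by ext i; simp }

/-- the coordinate `θ_j` -/
def thc (z : ZZ m l k0) (j : Fin l) : ℝ := z (Sum.inr (Sum.inl j))

/-- the coordinate `t_j` -/
def tc (z : ZZ m l k0) (j : Fin l) : ℝ := z (Sum.inr (Sum.inr (Sum.inl j)))

/-- the coordinate `y_i` -/
def yc (z : ZZ m l k0) (i : Fin k0) : ℝ := z (Sum.inr (Sum.inr (Sum.inr i)))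

/-- the coefficients of the normal vector; `t0` is the centre of the `t` interval -/
def co (t0 : ℝ) (z : ZZ m l k0) : Nix l k0 → ℝ
  | Sum.inl j => (t0 + tc z j) * Real.cos (thc z j)
  | Sum.inr (Sum.inl j) => (t0 + tc z j) * Real.sin (thc z j)
  | Sum.inr (Sum.inr i) => yc z i

/-- their derivatives -/
def dco (t0 : ℝ) (z v : ZZ m l k0) : Nix l k0 → ℝ
  | Sum.inl j => tc v j * Real.cos (thc z j) - (t0 + tc z j) * Real.sin (thc z j) * thc v j
  | Sum.inr (Sum.inl j) => tc v j * Real.sin (thc z j) + (t0 + tc z j) * Real.cos (thc z j) * thc v j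
  | Sum.inr (Sum.inr i) => yc v i

/-- the normal map in adapted coordinates -/
def Fm (t0 : ℝ) (g : E m → E n) (e : Nix l k0 → E m → E n) (z : ZZ m l k0) : E n :=
  g (xc m l k0 z) + ∑ α, co t0 z α • e α (xc m l k0 z)

end fmap

section general

variable {ι β : Type} [Fintype ι] [Fintype β] [DecidableEq β]

/-- squared length of a block, general index set -/
def sqI (b : ι → β) (z : EuclideanSpace ℝ ι) (j : β) : ℝ := ∑ i, if b i = j then z i ^ 2 else 0

/-- size of a block, general index set -/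
def bszI (b : ι → β) (j : β) : ℕ := (Finset.univ.filter (fun i => b i = j)).card

end general

end

end Pool.Agent.FCI
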