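import Pool.Agent.FCI.Opt
import Pool.Agent.FCI.Frmc
import Pool.Agent.FCI.Cur
import Pool.Agent.TUB.BJ

/-!
# FCI-Gm: normal curvature of immersions with wide cubes (assembly)
-/

open scoped BigOperators Topology ContDiff Manifold
open MeasureTheory Filter Set

namespace Pool.Agent.FCI

open Pool.Agent.TUB (E jw jz Imm CurvLE)

variable {m n : ℕ} {X : Type*} [TopologicalSpace X] [ChartedSpace (E m) X] [IsManifold (𝓡 m) ∞ X]

private theorem wide_inj {g : E m → E n} {D : ℝ} (hD : 0 < D) {x : E m}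
    (h : ∀ v i, D * |v i| ≤ ‖fderiv ℝ g x v‖) : Function.Injective (fderiv ℝ g x) := by
  rw [injective_iff_map_eq_zero]
  intro v hv
  ext i
  have h1 := h v i
  rw [hv, norm_zero] at h1
  have h2 : |v i| ≤ 0 := by
    by_contra hcon
    push Not at hcon
    have : 0 < D * |v i| := mul_pos hD hcon
    linarith
  have h3 : v i = 0 := abs_eq_zero.1 (le_antisymm h2 (abs_nonneg _))
  simpa using h3

/-- An immersion into the unit ball with wide immersed cubes along which the normal bundle has an adapted frame. -/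
theorem framed {l k0 : ℕ} (hm : 1 ≤ m) (hmn : n = m + 2 * l + k0) {f : X → E n} (hf : Imm m f)
    (hball : ∀ x, ‖f x‖ ≤ 1) {c : ℝ} (hc : CurvLE m f c)
    (hw : ∀ D : ℝ, 0 < D → ∃ (p : E m → X) (O : Set (E m)) (e : Nix l k0 → E m → E n),
      ContMDiff 𝓘(ℝ, E m) (𝓡 m) ∞ p ∧ IsOpen O ∧ Cub m ⊆ O ∧
      (∀ x ∈ Cub m, ∀ v i, D * |v i| ≤ ‖fderiv ℝ (f ∘ p) x v‖) ∧ NFr (f ∘ p) O e) :
    Real.sqrt (jw n) ≤ (1 + c) * Scon l k0 := by
  have hn : 1 ≤ n := by omega
  have h0 : (0 : E m) ∈ Cub m := fun i => by simp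
  have hc0 : 0 ≤ c := by
    obtain ⟨p, O, e, hp, _, _, hwd, _⟩ := hw 1 one_pos
    exact curv_nonneg hm hf hc hp (wide_inj one_pos (hwd 0 h0))
  have hjw : 0 < jw n := (Pool.Agent.TUB.jw_facts (κ := (n : ℝ)) (by exact_mod_cast hn)).1
  refine quant_limit (m := m) (Real.sqrt_nonneg _) ?_ hc0 ?_
  · unfold Scon
    have : (0 : ℝ) ≤ if k0 = 0 then 0 else Real.sqrt (jw k0) := by
      split_ifs
      · exact le_rfl
      · exact Real.sqrt_nonneg _
    have h2 := Real.pi_pos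
    positivity
  · intro D r hD hr hcr
    obtain ⟨p, O, e, hp, hO, hsub, hwd, he⟩ := hw D hD
    have hg : ContDiff ℝ ∞ (f ∘ p) := comp_smooth hf hp
    have hW : WCube (f ∘ p) O D c :=
      ⟨hO, hsub, hg.contDiffOn, fun x _ => hball _, hwd,
        fun x hx v ξ hξ => comp_curv hf hc hp (wide_inj hD (hwd x hx)) v ξ hξ⟩
    rw [Real.sq_sqrt hjw.le]
    exact cube_quant hn hmn hD hc0 hW he hr hcr

/-- Codimension one and two: no condition on the normal bundle. -/
theorem codim_two (hm : 1 ≤ m) (hmn : m < n) (hn2 : n ≤ m + 2) {f : X → E n} (hf : Imm m f)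
    (hball : ∀ x, ‖f x‖ ≤ 1) {c : ℝ} (hc : CurvLE m f c)
    (hw : ∀ D : ℝ, 0 < D → ∃ p : E m → X, ContMDiff 𝓘(ℝ, E m) (𝓡 m) ∞ p ∧
      (∀ x ∈ Cub m, ∀ v i, D * |v i| ≤ ‖fderiv ℝ (f ∘ p) x v‖)) :
    Real.sqrt (jw n) ≤ (1 + c) * ((n - m : ℕ) * Real.pi / 2) := by
  have h0 : (0 : E m) ∈ Cub m := fun i => by simp
  have hc0 : 0 ≤ c := by
    obtain ⟨p, hp, hwd⟩ := hw 1 one_pos
    exact curv_nonneg hm hf hc hp (wide_inj one_pos (hwd 0 h0))
  rcases (show n = m + 1 ∨ n = m + 2 by omega) with h | h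
  · have h1 : Real.sqrt (jw n) ≤ (1 + c) * Scon 0 1 := by
      refine framed hm (by omega) hf hball hc fun D hD => ?_
      obtain ⟨p, hp, hwd⟩ := hw D hD
      obtain ⟨O', e, hO', hs, _, he⟩ := frame_one h isOpen_univ (subset_univ _) (comp_smooth hf hp).contDiffOn
        (fun x hx => wide_inj hD (hwd x hx))
      exact ⟨p, O', e, hp, hO', hs, hwd, he⟩
    have h2 := Scon_le 0 1
    have h3 : (n - m : ℕ) = 1 := by omega
    rw [h3]
    refine h1.trans (mul_le_mul_of_nonneg_left (h2.trans (le_of_eq ?_)) (by linarith))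
    push_cast
    ring
  · have h1 : Real.sqrt (jw n) ≤ (1 + c) * Scon 1 0 := by
      refine framed hm (by omega) hf hball hc fun D hD => ?_
      obtain ⟨p, hp, hwd⟩ := hw D hD
      obtain ⟨O', e, hO', hs, _, he⟩ := frame_two h isOpen_univ (subset_univ _) (comp_smooth hf hp).contDiffOn
        (fun x hx => wide_inj hD (hwd x hx))
      exact ⟨p, O', e, hp, hO', hs, hwd, he⟩
    have h2 := Scon_le 1 0
    have h3 : (n - m : ℕ) = 2 := by omega
    rw [h3]
    refine h1.trans (mul_le_mul_of_nonneg_left (h2.trans (le_of_eq ?_)) (by linarith))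
    push_cast
    ring

end Pool.Agent.FCI
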