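import Pool.Agent.FCI.Lib
import Pool.Agent.FCI.ClD

/-!
# FCI-Idn: the flat identity frame
-/

open scoped BigOperators Topology ContDiff
open MeasureTheory Filter Set

namespace Pool.Agent.FCI

open Pool.Agent.TUB (E)

variable {n : ℕ}

theorem flat_id (U : Set (E n)) (hU : IsOpen U) : Flat U (fun z => z) (Idf n) := by
  refine ⟨contDiffOn_id, contDiffOn_const, fun z _ v => ?_, fun z _ v => ?_⟩
  · rw [fderiv_fun_id]
    rfl
  · rw [fderiv_fun_id]
    rfl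

theorem rho_id (z : E n) : rho (fun z : E n => z) z = 1 := by
  unfold rho
  rw [fderiv_fun_id]
  have h1 : (ContinuousLinearMap.id ℝ (E n)).det = 1 := by
    unfold ContinuousLinearMap.det
    rw [ContinuousLinearMap.coe_id, LinearMap.det_id]
  rw [h1, abs_one]

private theorem idn_Q_int {U : Set (E n)} {Ψ : E n → ℝ} {g : E n → E n} {H : E n → E n →L[ℝ] E n}
    {eps : ℝ} (hP : PsiOK U Ψ g H eps) {w : E n → W n} (hw : w ∈ Tst U) :
    Integrable (fun z => inner ℝ (w z) (Qop (Idf n) H z (w z))) := by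
  have hU := hP.isOpen
  have hH : ContinuousOn H U := by
    refine (hP.smg.continuousOn_fderiv_of_isOpen hU (by norm_num)).congr fun z hz => ?_
    exact (hP.dg z hz).fderiv.symm
  obtain ⟨T, hT⟩ := gamV_clm (n := n)
  have hwc : Continuous w := hw.1.continuous
  refine cc_int hU hw.2.1 hw.2.2 ?_ ?_
  · refine ContinuousOn.inner hwc.continuousOn ?_
    unfold Qop
    refine continuousOn_finsetSum _ fun j _ => ?_
    refine (cl j).continuous.comp_continuousOn ?_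
    have h1 : ContinuousOn (fun z => T (H z (Idf n z (eb j)))) U := by
      refine T.continuous.comp_continuousOn ?_
      exact hH.clm_apply continuousOn_const
    have h2 := h1.clm_apply hwc.continuousOn
    refine h2.congr fun z _ => ?_
    simp only [hT]
  · intro z hz
    rw [tst_zero hz, inner_zero_left]

private theorem idn_gsq_nonneg (w : E n → W n) (z : E n) : 0 ≤ gsq (Idf n) w z :=
  Finset.sum_nonneg fun _ _ => sq_nonneg _

private theorem idn_lich {U : Set (E n)} {Ψ : E n → ℝ} {g : E n → E n} {H : E n → E n →L[ℝ] E n}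
    {eps : ℝ} (hP : PsiOK U Ψ g H eps) {w : E n → W n} (hw : w ∈ Tst U) :
    ∫ z, ‖Bop g (Idf n) w z‖ ^ 2 = ∫ z, (gsq (Idf n) w z +
      (‖g z‖ ^ 2 * ‖w z‖ ^ 2 + inner ℝ (w z) (Qop (Idf n) H z (w z)))) := by
  have h1 := lich hP.isOpen (flat_id U hP.isOpen) hP.smg hP.dg hw
  simp only [rho_id, one_mul] at h1
  exact h1

private theorem idn_phi {U : Set (E n)} {Ψ : E n → ℝ} {g : E n → E n} {H : E n → E n →L[ℝ] E n}
    {eps : ℝ} (hP : PsiOK U Ψ g H eps) {w : E n → W n} (hw : w ∈ Tst U) (i : Fin n) :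
    ContDiff ℝ 1 (fun z => g z i * ‖w z‖ ^ 2) ∧
    (∀ z, z ∉ tsupport w → (fun z => g z i * ‖w z‖ ^ 2) z = 0) := by
  have h0 : ∀ z, z ∉ tsupport w → (fun z => g z i * ‖w z‖ ^ 2) z = 0 := by
    intro z hz
    simp only
    rw [tst_zero hz, norm_zero]
    ring
  refine ⟨cc_smooth hP.isOpen hw.2.1 hw.2.2 ?_ h0, h0⟩
  refine ContDiffOn.mul ?_ ?_
  · have h1 : ContDiffOn ℝ 1 g U := hP.smg.of_le (by exact_mod_cast le_top)
    exact ((EuclideanSpace.proj i : E n →L[ℝ] ℝ).contDiff.comp_contDiffOn h1)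
  · have h2 : ContDiff ℝ 1 w := hw.1.of_le (by exact_mod_cast le_top)
    exact (h2.norm_sq ℝ).contDiffOn

private theorem idn_phi_fderiv {U : Set (E n)} {Ψ : E n → ℝ} {g : E n → E n}
    {H : E n → E n →L[ℝ] E n}
    {eps : ℝ} (hP : PsiOK U Ψ g H eps) {w : E n → W n} (hw : w ∈ Tst U) (i : Fin n) {z : E n}
    (hz : z ∈ U) :
    fderiv ℝ (fun z => g z i * ‖w z‖ ^ 2) z (eb i) =
      inner ℝ (H z (eb i)) (eb i) * ‖w z‖ ^ 2 +
        2 * g z i * inner ℝ (fderiv ℝ w z (eb i)) (w z) := by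
  have h1 : HasFDerivAt (fun z => g z i) ((EuclideanSpace.proj i : E n →L[ℝ] ℝ).comp (H z)) z :=
    (EuclideanSpace.proj i : E n →L[ℝ] ℝ).hasFDerivAt.comp z (hP.dg z hz)
  have h2 : HasFDerivAt w (fderiv ℝ w z) z :=
    (hw.1.differentiable (by simp)).differentiableAt.hasFDerivAt
  have h3 := h2.norm_sq
  have h4 : HasFDerivAt (fun z => g z i * ‖w z‖ ^ 2) _ z := h1.mul h3
  rw [h4.fderiv]
  have h5 : inner ℝ (H z (eb i)) (eb i) = (H z (eb i)) i := by
    unfold eb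
    rw [EuclideanSpace.inner_single_right]
    simp
  rw [h5]
  have h6 : (EuclideanSpace.proj i : E n →L[ℝ] ℝ) (H z (eb i)) = (H z (eb i)) i := rfl
  simp only [ContinuousLinearMap.add_apply, ContinuousLinearMap.smul_apply,
    ContinuousLinearMap.comp_apply, smul_eq_mul, innerSL_apply_apply, h6,
    nsmul_eq_mul]
  rw [real_inner_comm (fderiv ℝ w z (eb i)) (w z)]
  push_cast
  ring

private theorem idn_phi_int {U : Set (E n)} {Ψ : E n → ℝ} {g : E n → E n}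
    {H : E n → E n →L[ℝ] E n}
    {eps : ℝ} (hP : PsiOK U Ψ g H eps) {w : E n → W n} (hw : w ∈ Tst U) (i : Fin n) :
    Integrable (fun z => fderiv ℝ (fun z => g z i * ‖w z‖ ^ 2) z (eb i)) ∧
      ∫ z, fderiv ℝ (fun z => g z i * ‖w z‖ ^ 2) z (eb i) = 0 := by
  obtain ⟨h1, h0⟩ := idn_phi hP hw i
  constructor
  · have h2 : Continuous (fun z => fderiv ℝ (fun z => g z i * ‖w z‖ ^ 2) z (eb i)) :=
      (h1.continuous_fderiv (by norm_num)).clm_apply continuous_const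
    refine h2.integrable_of_hasCompactSupport ?_
    have h3 : HasCompactSupport (fun z => g z i * ‖w z‖ ^ 2) := cc_supp hw.2.1 h0
    exact (h3.fderiv ℝ).comp_left (g := fun L : E n →L[ℝ] ℝ => L (eb i)) rfl
  · have h2 := pio hP.isOpen (flat_id U hP.isOpen) hw.2.1 hw.2.2 h1.contDiffOn h0 i
    simp only [rho_id, one_mul] at h2
    exact h2

theorem id_one {U : Set (E n)} {Ψ : E n → ℝ} {g : E n → E n} {H : E n → E n →L[ℝ] E n} {eps : ℝ}
    (hP : PsiOK U Ψ g H eps) : ∃ δ : ℝ, 0 < δ ∧ ∀ w ∈ Tst U, (∀ z, w z ∈ odS n) →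
      δ * ∫ z, ‖w z‖ ^ 2 ≤ ∫ z, ‖Bop g (Idf n) w z‖ ^ 2 := by
  obtain ⟨δ, hδ, hconv⟩ := hP.conv
  refine ⟨2 * δ, by positivity, fun w hw ho => ?_⟩
  rw [idn_lich hP hw, ← integral_const_mul]
  have hgs := (gsq_int hP.isOpen (continuousOn_const (c := ContinuousLinearMap.id ℝ (E n))) hw).2
  have hgu := gu_int hP.isOpen hP.smg.continuousOn hw
  have hQ := idn_Q_int hP hw
  have hf : Integrable (fun z => gsq (Idf n) w z +
      (‖g z‖ ^ 2 * ‖w z‖ ^ 2 + inner ℝ (w z) (Qop (Idf n) H z (w z)))) := hgs.add (hgu.add hQ)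
  have hPh : Integrable (fun z => ∑ i, fderiv ℝ (fun z => g z i * ‖w z‖ ^ 2) z (eb i)) :=
    integrable_finsetSum _ fun i _ => (idn_phi_int hP hw i).1
  have hPh0 : ∫ z, ∑ i, fderiv ℝ (fun z => g z i * ‖w z‖ ^ 2) z (eb i) = 0 := by
    rw [integral_finsetSum _ fun i _ => (idn_phi_int hP hw i).1]
    exact Finset.sum_eq_zero fun i _ => (idn_phi_int hP hw i).2
  have hsum : ∫ z, (gsq (Idf n) w z +
      (‖g z‖ ^ 2 * ‖w z‖ ^ 2 + inner ℝ (w z) (Qop (Idf n) H z (w z)))) =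
      ∫ z, ((gsq (Idf n) w z +
      (‖g z‖ ^ 2 * ‖w z‖ ^ 2 + inner ℝ (w z) (Qop (Idf n) H z (w z)))) +
        ∑ i, fderiv ℝ (fun z => g z i * ‖w z‖ ^ 2) z (eb i)) := by
    rw [integral_add hf hPh, hPh0, add_zero]
  rw [hsum]
  refine integral_mono ((usq_int hw).const_mul _) (hf.add hPh) fun z => ?_
  simp only
  by_cases hz : z ∈ tsupport w
  · have hzU : z ∈ U := hw.2.2 hz
    have e1 : ∑ i, fderiv ℝ (fun z => g z i * ‖w z‖ ^ 2) z (eb i) =
        (∑ i, inner ℝ (H z (eb i)) (eb i)) * ‖w z‖ ^ 2 +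
          ∑ i, 2 * g z i * inner ℝ (fderiv ℝ w z (eb i)) (w z) := by
      rw [Finset.sum_mul, ← Finset.sum_add_distrib]
      exact Finset.sum_congr rfl fun i _ => idn_phi_fderiv hP hw i hzU
    have e2 := cg_hess (H := H z) (hP.symm z hzU) hδ.le (hconv z hzU) (ho z)
    have e3 : Qop (Idf n) H z (w z) = ∑ j, cl j (gamV (H z (eb j)) (w z)) := rfl
    have e4 : 0 ≤ gsq (Idf n) w z + ‖g z‖ ^ 2 * ‖w z‖ ^ 2 +
        ∑ i, 2 * g z i * inner ℝ (fderiv ℝ w z (eb i)) (w z) := by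
      have e5 : gsq (Idf n) w z + ‖g z‖ ^ 2 * ‖w z‖ ^ 2 +
          ∑ i, 2 * g z i * inner ℝ (fderiv ℝ w z (eb i)) (w z) =
          ∑ i, ‖fderiv ℝ w z (eb i) + g z i • w z‖ ^ 2 := by
        have e6 : ‖g z‖ ^ 2 = ∑ i, (g z i) ^ 2 := by
          rw [EuclideanSpace.norm_sq_eq]
          exact Finset.sum_congr rfl fun i _ => by rw [Real.norm_eq_abs, sq_abs]
        rw [e6, Finset.sum_mul]
        unfold gsq
        rw [← Finset.sum_add_distrib, ← Finset.sum_add_distrib]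
        refine Finset.sum_congr rfl fun i _ => ?_
        rw [norm_add_sq_real, norm_smul, real_inner_smul_right, Real.norm_eq_abs, mul_pow, sq_abs]
        show ‖fderiv ℝ w z (eb i)‖ ^ 2 + _ + _ = _
        ring
      rw [e5]
      exact Finset.sum_nonneg fun _ _ => sq_nonneg _
    rw [e1, e3]
    linarith
  · have e1 : ∀ i, fderiv ℝ (fun z => g z i * ‖w z‖ ^ 2) z (eb i) = 0 := by
      intro i
      have e2 : (fun z => g z i * ‖w z‖ ^ 2) =ᶠ[𝓝 z] fun _ => 0 := by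
        have e3 : (tsupport w)ᶜ ∈ 𝓝 z := (isClosed_tsupport w).isOpen_compl.mem_nhds hz
        filter_upwards [e3] with y hy
        exact (idn_phi hP hw i).2 y hy
      rw [e2.fderiv_eq, fderiv_fun_const]
      rfl
    rw [Finset.sum_eq_zero fun i _ => e1 i, gsq_zero hz, tst_zero hz]
    simp

theorem id_two {U : Set (E n)} {Ψ : E n → ℝ} {g : E n → E n} {H : E n → E n →L[ℝ] E n} {eps : ℝ}
    (hP : PsiOK U Ψ g H eps) : ∃ C : ℝ, 0 ≤ C ∧ ∀ w ∈ Tst U,
      ∫ z, (1 / 2 * ‖g z‖ ^ 2 - C) * ‖w z‖ ^ 2 ≤ ∫ z, ‖Bop g (Idf n) w z‖ ^ 2 := by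
  obtain ⟨C, hC⟩ := hP.half
  refine ⟨max C 0, le_max_right _ _, fun w hw => ?_⟩
  rw [idn_lich hP hw]
  have hgs := (gsq_int hP.isOpen (continuousOn_const (c := ContinuousLinearMap.id ℝ (E n))) hw).2
  have hgu := gu_int hP.isOpen hP.smg.continuousOn hw
  have hQ := idn_Q_int hP hw
  have hf : Integrable (fun z => gsq (Idf n) w z +
      (‖g z‖ ^ 2 * ‖w z‖ ^ 2 + inner ℝ (w z) (Qop (Idf n) H z (w z)))) := hgs.add (hgu.add hQ)
  have hl : Integrable (fun z => (1 / 2 * ‖g z‖ ^ 2 - max C 0) * ‖w z‖ ^ 2) := by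
    have h1 := (hgu.const_mul (1 / 2)).sub ((usq_int hw).const_mul (max C 0))
    refine h1.congr (Eventually.of_forall fun z => ?_)
    show 1 / 2 * (‖g z‖ ^ 2 * ‖w z‖ ^ 2) - max C 0 * ‖w z‖ ^ 2 = _
    ring
  refine integral_mono hl hf fun z => ?_
  simp only
  have h0 := idn_gsq_nonneg w z
  by_cases hz : z ∈ tsupport w
  · have h1 := hC z (hw.2.2 hz) (w z)
    have h2 : C * ‖w z‖ ^ 2 ≤ max C 0 * ‖w z‖ ^ 2 :=
      mul_le_mul_of_nonneg_right (le_max_left _ _) (sq_nonneg _)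
    linarith
  · rw [tst_zero hz, inner_zero_left, norm_zero]
    linarith

end Pool.Agent.FCI
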