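import Pool.Agent.FCI.Tsb
import Pool.Agent.FCI.Pio
import Pool.Agent.FCI.Com

/-!
# FCI-Lia: the Dirac part
-/

open scoped BigOperators Topology ContDiff
open MeasureTheory Filter Set

namespace Pool.Agent.FCI

open Pool.Agent.TUB (E)

variable {n : ℕ} {U : Set (E n)} {F : E n → E n} {G : E n → E n →L[ℝ] E n} {u : E n → W n}

private theorem lia_E_smooth (hF : Flat U F G) (hu : u ∈ Tst U) (j : Fin n) :
    ContDiffOn ℝ ∞ (fun z => fderiv ℝ u z (G z (eb j))) U := by
  have h1 : ContDiffOn ℝ ∞ (fderiv ℝ u) U :=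
    (hu.1.fderiv_right (m := ∞) (by simp)).contDiffOn
  exact h1.clm_apply (hF.smG.clm_apply contDiffOn_const)

private theorem lia_E_zero (j : Fin n) {z : E n} (hz : z ∉ tsupport u) :
    fderiv ℝ u z (G z (eb j)) = 0 := by
  rw [tst_fderiv_zero hz]
  rfl

private theorem lia_phi_smooth (hF : Flat U F G) (hu : u ∈ Tst U) (i j : Fin n) :
    ContDiffOn ℝ ∞ (fun z => (inner ℝ (u z) (cl i (cl j (fderiv ℝ u z (G z (eb j))))) : ℝ)) U := by
  have h1 := lia_E_smooth hF hu j
  have h2 : ContDiffOn ℝ ∞ (fun z => cl i (cl j (fderiv ℝ u z (G z (eb j))))) U :=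
    ((cl i).contDiff.comp_contDiffOn ((cl j).contDiff.comp_contDiffOn h1))
  exact ContDiffOn.inner ℝ hu.1.contDiffOn h2

private theorem lia_phi_deriv (hU : IsOpen U) (hF : Flat U F G) (hu : u ∈ Tst U) (i j : Fin n)
    {z : E n} (hz : z ∈ U) (v : E n) :
    fderiv ℝ (fun z => (inner ℝ (u z) (cl i (cl j (fderiv ℝ u z (G z (eb j))))) : ℝ)) z v =
      inner ℝ (u z) (cl i (cl j (fderiv ℝ (fun y => fderiv ℝ u y (G y (eb j))) z v))) +
      inner ℝ (fderiv ℝ u z v) (cl i (cl j (fderiv ℝ u z (G z (eb j))))) := by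
  have h1 : DifferentiableAt ℝ (fun y => fderiv ℝ u y (G y (eb j))) z :=
    ((lia_E_smooth hF hu j).contDiffAt (hU.mem_nhds hz)).differentiableAt (by simp)
  have h2 : HasFDerivAt (fun y => cl i (cl j (fderiv ℝ u y (G y (eb j)))))
      ((cl i).comp ((cl j).comp (fderiv ℝ (fun y => fderiv ℝ u y (G y (eb j))) z))) z :=
    (cl i).hasFDerivAt.comp z ((cl j).hasFDerivAt.comp z h1.hasFDerivAt)
  have h3 : DifferentiableAt ℝ u z := hu.1.differentiable (by simp) z
  rw [fderiv_inner_apply ℝ h3 h2.differentiableAt v, h2.fderiv]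
  rfl

private theorem lia_phi_deriv_zero (i j : Fin n) {z : E n} (hz : z ∉ tsupport u) :
    fderiv ℝ (fun z => (inner ℝ (u z) (cl i (cl j (fderiv ℝ u z (G z (eb j))))) : ℝ)) z = 0 := by
  have h1 : (fun z => (inner ℝ (u z) (cl i (cl j (fderiv ℝ u z (G z (eb j))))) : ℝ)) =ᶠ[𝓝 z]
      fun _ => (0 : ℝ) := by
    have h2 : (tsupport u)ᶜ ∈ 𝓝 z := (isClosed_tsupport u).isOpen_compl.mem_nhds hz
    filter_upwards [h2] with y hy
    rw [tst_zero hy, inner_zero_left]
  rw [h1.fderiv_eq]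
  simp

private theorem lia_term (hU : IsOpen U) (hF : Flat U F G) (hu : u ∈ Tst U) {i j : Fin n}
    (hij : i ≠ j) (z : E n) :
    rho F z * inner ℝ (cl i (fderiv ℝ u z (G z (eb i)))) (cl j (fderiv ℝ u z (G z (eb j)))) =
      -(1 / 2) * (rho F z * fderiv ℝ
        (fun z => (inner ℝ (u z) (cl i (cl j (fderiv ℝ u z (G z (eb j))))) : ℝ)) z (G z (eb i)) +
      rho F z * fderiv ℝ
        (fun z => (inner ℝ (u z) (cl j (cl i (fderiv ℝ u z (G z (eb i))))) : ℝ)) z
          (G z (eb j))) := by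
  by_cases hz : z ∈ U
  · rw [lia_phi_deriv hU hF hu i j hz, lia_phi_deriv hU hF hu j i hz]
    have hcomm := fld_comm hU hF (u := u) ((hu.1.of_le (WithTop.coe_le_coe.mpr (le_top : (2 : ℕ∞) ≤ ⊤))).contDiffOn) hz
      (eb j) (eb i)
    have hA := inner_cl i (fderiv ℝ u z (G z (eb i))) (cl j (fderiv ℝ u z (G z (eb j))))
    have hB := inner_cl j (fderiv ℝ u z (G z (eb j))) (cl i (fderiv ℝ u z (G z (eb i))))
    rw [real_inner_comm] at hB
    have hP : (inner ℝ (u z) (cl i (cl j
        (fderiv ℝ (fun y => fderiv ℝ u y (G y (eb j))) z (G z (eb i))))) : ℝ) =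
        -inner ℝ (u z) (cl j (cl i
        (fderiv ℝ (fun y => fderiv ℝ u y (G y (eb i))) z (G z (eb j))))) := by
      rw [hcomm, cl_anti hij, inner_neg_right]
    rw [hP]
    linear_combination (rho F z / 2) * hA + (rho F z / 2) * hB
  · have hz' : z ∉ tsupport u := fun h => hz (hu.2.2 h)
    rw [lia_phi_deriv_zero i j hz', lia_phi_deriv_zero j i hz', tst_fderiv_zero hz']
    simp

private theorem lia_phi_int (hU : IsOpen U) (hF : Flat U F G) (hu : u ∈ Tst U) (i j : Fin n) :
    Integrable (fun z => rho F z * fderiv ℝ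
        (fun z => (inner ℝ (u z) (cl i (cl j (fderiv ℝ u z (G z (eb j))))) : ℝ)) z
          (G z (eb i))) := by
  refine cc_int hU hu.2.1 hu.2.2 ?_ ?_
  · refine (rho_cont hU hF).mul ?_
    have h1 := (lia_phi_smooth hF hu i j).continuousOn_fderiv_of_isOpen hU (by simp)
    exact h1.clm_apply (hF.smG.continuousOn.clm_apply continuousOn_const)
  · intro z hz
    rw [lia_phi_deriv_zero i j hz]
    simp

private theorem lia_off (hU : IsOpen U) (hF : Flat U F G) (hu : u ∈ Tst U) {i j : Fin n}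
    (hij : i ≠ j) :
    ∫ z, rho F z * inner ℝ (cl i (fderiv ℝ u z (G z (eb i)))) (cl j (fderiv ℝ u z (G z (eb j)))) =
      0 := by
  have h1 : ∀ i j : Fin n, ∫ z, rho F z * fderiv ℝ
        (fun z => (inner ℝ (u z) (cl i (cl j (fderiv ℝ u z (G z (eb j))))) : ℝ)) z
          (G z (eb i)) = 0 := by
    intro i j
    refine pio hU hF hu.2.1 hu.2.2 ((lia_phi_smooth hF hu i j).of_le (by simp)) ?_ i
    intro z hz
    rw [tst_zero hz, inner_zero_left]
  rw [integral_congr_ae (Eventually.of_forall (lia_term hU hF hu hij)), integral_const_mul,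
    integral_add (lia_phi_int hU hF hu i j) (lia_phi_int hU hF hu j i), h1, h1]
  simp

private theorem lia_int (hU : IsOpen U) (hF : Flat U F G) (hu : u ∈ Tst U) (i j : Fin n) :
    Integrable (fun z => rho F z *
      inner ℝ (cl i (fderiv ℝ u z (G z (eb i)))) (cl j (fderiv ℝ u z (G z (eb j))))) := by
  refine cc_int hU hu.2.1 hu.2.2 ?_ ?_
  · refine (rho_cont hU hF).mul ?_
    exact ((cl i).continuous.comp_continuousOn (lia_E_smooth hF hu i).continuousOn).inner
      ((cl j).continuous.comp_continuousOn (lia_E_smooth hF hu j).continuousOn)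
  · intro z hz
    rw [lia_E_zero i hz]
    simp

theorem dirac_sq (hU : IsOpen U) (hF : Flat U F G) (hu : u ∈ Tst U) :
    ∫ z, rho F z * ‖Dop G u z‖ ^ 2 = ∫ z, rho F z * gsq G u z := by
  have h1 : ∀ z, rho F z * ‖Dop G u z‖ ^ 2 = ∑ i, ∑ j, rho F z *
      inner ℝ (cl i (fderiv ℝ u z (G z (eb i)))) (cl j (fderiv ℝ u z (G z (eb j)))) := by
    intro z
    rw [← real_inner_self_eq_norm_sq, Dop, sum_inner, Finset.mul_sum]
    refine Finset.sum_congr rfl fun i _ => ?_
    rw [inner_sum, Finset.mul_sum]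
  have h2 : ∀ z, rho F z * gsq G u z = ∑ i, rho F z *
      inner ℝ (cl i (fderiv ℝ u z (G z (eb i)))) (cl i (fderiv ℝ u z (G z (eb i)))) := by
    intro z
    rw [gsq, Finset.mul_sum]
    refine Finset.sum_congr rfl fun i _ => ?_
    rw [real_inner_self_eq_norm_sq, norm_cl]
  rw [integral_congr_ae (Eventually.of_forall h1), integral_congr_ae (Eventually.of_forall h2),
    integral_finsetSum _ (fun i _ => integrable_finsetSum _ (fun j _ => lia_int hU hF hu i j)),
    integral_finsetSum _ (fun i _ => lia_int hU hF hu i i)]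
  refine Finset.sum_congr rfl fun i _ => ?_
  rw [integral_finsetSum _ (fun j _ => lia_int hU hF hu i j)]
  rw [Finset.sum_eq_single i]
  · intro j _ hj
    exact lia_off hU hF hu hj.symm
  · intro h
    exact absurd (Finset.mem_univ i) h

end Pool.Agent.FCI
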