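import Pool.Agent.FCI.Lia

/-!
# FCI-Lib: the Lichnerowicz formula with potential
-/

open scoped BigOperators Topology ContDiff
open MeasureTheory Filter Set

namespace Pool.Agent.FCI

open Pool.Agent.TUB (E)

variable {n : ℕ} {U : Set (E n)} {F : E n → E n} {G H : E n → E n →L[ℝ] E n} {g : E n → E n} {u : E n → W n}

private theorem lib_gam_smooth (hg : ContDiffOn ℝ ∞ g U) (hu : u ∈ Tst U) :
    ContDiffOn ℝ ∞ (fun z => gamV (g z) (u z)) U := by
  obtain ⟨T, hT⟩ := gamV_clm (n := n)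
  have e : (fun z => gamV (g z) (u z)) = fun z => T (g z) (u z) := by
    funext z
    rw [hT]
  rw [e]
  exact (T.contDiff.comp_contDiffOn hg).clm_apply hu.1.contDiffOn

private theorem lib_phi_smooth (hg : ContDiffOn ℝ ∞ g U) (hu : u ∈ Tst U) (j : Fin n) :
    ContDiffOn ℝ ∞ (fun z => (inner ℝ (cl j (u z)) (gamV (g z) (u z)) : ℝ)) U :=
  ContDiffOn.inner ℝ ((cl j).contDiff.comp_contDiffOn hu.1.contDiffOn) (lib_gam_smooth hg hu)

private theorem lib_phi_deriv (hH : ∀ z ∈ U, HasFDerivAt g (H z) z)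
    (hu : u ∈ Tst U) (j : Fin n) {z : E n} (hz : z ∈ U) (v : E n) :
    fderiv ℝ (fun z => (inner ℝ (cl j (u z)) (gamV (g z) (u z)) : ℝ)) z v =
      inner ℝ (cl j (u z)) (gamV (g z) (fderiv ℝ u z v) + gamV (H z v) (u z)) +
      inner ℝ (cl j (fderiv ℝ u z v)) (gamV (g z) (u z)) := by
  obtain ⟨T, hT⟩ := gamV_clm (n := n)
  have h3 : HasFDerivAt u (fderiv ℝ u z) z := (hu.1.differentiable (by simp) z).hasFDerivAt
  have h2 : HasFDerivAt (fun y => cl j (u y)) ((cl j).comp (fderiv ℝ u z)) z :=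
    (cl j).hasFDerivAt.comp z h3
  have h4 : HasFDerivAt (fun y => T (g y)) (T.comp (H z)) z := T.hasFDerivAt.comp z (hH z hz)
  have h5 := h4.clm_apply h3
  have e : (fun z => gamV (g z) (u z)) = fun z => T (g z) (u z) := by
    funext z
    rw [hT]
  have e2 : (fun z => (inner ℝ (cl j (u z)) (gamV (g z) (u z)) : ℝ)) =
      fun z => (inner ℝ (cl j (u z)) (T (g z) (u z)) : ℝ) := by
    funext z
    rw [hT]
  rw [e2, fderiv_inner_apply ℝ h2.differentiableAt h5.differentiableAt v, h2.fderiv, h5.fderiv]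
  simp only [add_apply, ContinuousLinearMap.comp_apply, ContinuousLinearMap.flip_apply, hT]

private theorem lib_phi_deriv_zero (j : Fin n) {z : E n} (hz : z ∉ tsupport u) :
    fderiv ℝ (fun z => (inner ℝ (cl j (u z)) (gamV (g z) (u z)) : ℝ)) z = 0 := by
  have h1 : (fun z => (inner ℝ (cl j (u z)) (gamV (g z) (u z)) : ℝ)) =ᶠ[𝓝 z]
      fun _ => (0 : ℝ) := by
    have h2 : (tsupport u)ᶜ ∈ 𝓝 z := (isClosed_tsupport u).isOpen_compl.mem_nhds hz
    filter_upwards [h2] with y hy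
    rw [tst_zero hy, map_zero, inner_zero_left]
  rw [h1.fderiv_eq]
  simp

private theorem lib_fld (hH : ∀ z ∈ U, HasFDerivAt g (H z) z)
    (hu : u ∈ Tst U) (j : Fin n) {z : E n} (hz : z ∈ U) (v : E n) :
    fderiv ℝ (fun z => (inner ℝ (cl j (u z)) (gamV (g z) (u z)) : ℝ)) z v =
      2 * inner ℝ (cl j (fderiv ℝ u z v)) (gamV (g z) (u z)) -
        inner ℝ (u z) (cl j (gamV (H z v) (u z))) := by
  rw [lib_phi_deriv hH hu j hz, inner_add_right, inner_cl, inner_cl j (u z) (gamV (H z v) (u z))]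
  have h1 : cl j (gamV (g z) (fderiv ℝ u z v)) = -gamV (g z) (cl j (fderiv ℝ u z v)) := by
    rw [← clV_eb, clV_gamV]
  have h2 : inner ℝ (u z) (gamV (g z) (cl j (fderiv ℝ u z v))) =
      inner ℝ (cl j (fderiv ℝ u z v)) (gamV (g z) (u z)) := by
    rw [← inner_gamV, real_inner_comm]
  rw [h1, inner_neg_right, neg_neg, h2]
  ring

private theorem lib_cont_H (hU : IsOpen U) (hg : ContDiffOn ℝ ∞ g U)
    (hH : ∀ z ∈ U, HasFDerivAt g (H z) z) : ContinuousOn H U := by
  have h1 := hg.continuousOn_fderiv_of_isOpen hU (by simp)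
  exact h1.congr fun z hz => ((hH z hz).fderiv).symm

private theorem lib_Q_cont (hU : IsOpen U) (hF : Flat U F G) (hg : ContDiffOn ℝ ∞ g U)
    (hH : ∀ z ∈ U, HasFDerivAt g (H z) z) (hu : u ∈ Tst U) :
    ContinuousOn (fun z => (inner ℝ (u z) (Qop G H z (u z)) : ℝ)) U := by
  obtain ⟨T, hT⟩ := gamV_clm (n := n)
  refine ContinuousOn.inner hu.1.continuous.continuousOn ?_
  unfold Qop
  refine continuousOn_finsetSum _ fun j _ => (cl j).continuous.comp_continuousOn ?_
  have e : (fun z => gamV (H z (G z (eb j))) (u z)) = fun z => T (H z (G z (eb j))) (u z) := by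
    funext z
    rw [hT]
  rw [e]
  refine ContinuousOn.clm_apply ?_ hu.1.continuous.continuousOn
  exact T.continuous.comp_continuousOn ((lib_cont_H hU hg hH).clm_apply
    (hF.smG.continuousOn.clm_apply continuousOn_const))

private theorem lib_phi_int (hU : IsOpen U) (hF : Flat U F G) (hg : ContDiffOn ℝ ∞ g U)
    (hu : u ∈ Tst U) (j : Fin n) :
    Integrable (fun z => rho F z * fderiv ℝ
      (fun z => (inner ℝ (cl j (u z)) (gamV (g z) (u z)) : ℝ)) z (G z (eb j))) := by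
  refine cc_int hU hu.2.1 hu.2.2 ?_ ?_
  · refine (rho_cont hU hF).mul ?_
    have h1 := (lib_phi_smooth hg hu j).continuousOn_fderiv_of_isOpen hU (by simp)
    exact h1.clm_apply (hF.smG.continuousOn.clm_apply continuousOn_const)
  · intro z hz
    rw [lib_phi_deriv_zero j hz]
    simp

private theorem lib_pt (hH : ∀ z ∈ U, HasFDerivAt g (H z) z)
    (hu : u ∈ Tst U) (z : E n) :
    rho F z * ‖Bop g G u z‖ ^ 2 = rho F z * ‖Dop G u z‖ ^ 2 +
      (∑ j, rho F z * fderiv ℝ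
        (fun z => (inner ℝ (cl j (u z)) (gamV (g z) (u z)) : ℝ)) z (G z (eb j)) +
      rho F z * (‖g z‖ ^ 2 * ‖u z‖ ^ 2 + inner ℝ (u z) (Qop G H z (u z)))) := by
  by_cases hz : z ∈ U
  · have h1 : ‖Bop g G u z‖ ^ 2 = ‖Dop G u z‖ ^ 2 + 2 * inner ℝ (Dop G u z) (gamV (g z) (u z)) +
        ‖g z‖ ^ 2 * ‖u z‖ ^ 2 := by
      unfold Bop
      rw [norm_add_sq_real, norm_gamV, mul_pow]
    have h2 : ∑ j, rho F z * fderiv ℝ
        (fun z => (inner ℝ (cl j (u z)) (gamV (g z) (u z)) : ℝ)) z (G z (eb j)) =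
        rho F z * (2 * inner ℝ (Dop G u z) (gamV (g z) (u z)) -
          inner ℝ (u z) (Qop G H z (u z))) := by
      rw [← Finset.mul_sum, Finset.sum_congr rfl fun j _ => lib_fld hH hu j hz (G z (eb j)),
        Finset.sum_sub_distrib, ← Finset.mul_sum]
      unfold Dop Qop
      rw [sum_inner, inner_sum]
    rw [h1, h2]
    ring
  · have hz' : z ∉ tsupport u := fun h => hz (hu.2.2 h)
    rw [Bop_zero hz', Dop_zero hz', tst_zero hz', Finset.sum_congr rfl fun j _ => by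
      rw [lib_phi_deriv_zero j hz']]
    simp

theorem lich (hU : IsOpen U) (hF : Flat U F G) (hg : ContDiffOn ℝ ∞ g U) (hH : ∀ z ∈ U, HasFDerivAt g (H z) z)
    (hu : u ∈ Tst U) :
    ∫ z, rho F z * ‖Bop g G u z‖ ^ 2 =
      ∫ z, rho F z * (gsq G u z + (‖g z‖ ^ 2 * ‖u z‖ ^ 2 + inner ℝ (u z) (Qop G H z (u z)))) := by
  have hgc := hg.continuousOn
  have hGc := hF.smG.continuousOn
  have i1 : Integrable (fun z => rho F z * ‖Dop G u z‖ ^ 2) := by
    refine cc_int hU hu.2.1 hu.2.2 ((rho_cont hU hF).mul ((Dop_contOn hGc hu).norm.pow 2)) ?_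
    intro z hz
    rw [Dop_zero hz]
    simp
  have i2 : Integrable (fun z => rho F z *
      (‖g z‖ ^ 2 * ‖u z‖ ^ 2 + inner ℝ (u z) (Qop G H z (u z)))) := by
    refine cc_int hU hu.2.1 hu.2.2 ((rho_cont hU hF).mul (((hgc.norm.pow 2).mul
      (hu.1.continuous.norm.pow 2).continuousOn).add (lib_Q_cont hU hF hg hH hu))) ?_
    intro z hz
    rw [tst_zero hz]
    simp
  have i3 : Integrable (fun z => rho F z * gsq G u z) := by
    refine cc_int hU hu.2.1 hu.2.2 ((rho_cont hU hF).mul (gsq_contOn hGc hu)) ?_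
    intro z hz
    rw [gsq_zero hz]
    simp
  have i4 : ∀ j : Fin n, Integrable (fun z => rho F z * fderiv ℝ
      (fun z => (inner ℝ (cl j (u z)) (gamV (g z) (u z)) : ℝ)) z (G z (eb j))) :=
    fun j => lib_phi_int hU hF hg hu j
  have h0 : ∫ z, ∑ j, rho F z * fderiv ℝ
      (fun z => (inner ℝ (cl j (u z)) (gamV (g z) (u z)) : ℝ)) z (G z (eb j)) = 0 := by
    rw [integral_finsetSum _ fun j _ => i4 j]
    refine Finset.sum_eq_zero fun j _ => ?_
    refine pio hU hF hu.2.1 hu.2.2 ((lib_phi_smooth hg hu j).of_le (by simp)) ?_ j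
    intro z hz
    rw [tst_zero hz, map_zero, inner_zero_left]
  have i5 : Integrable (fun z => ∑ j, rho F z * fderiv ℝ
      (fun z => (inner ℝ (cl j (u z)) (gamV (g z) (u z)) : ℝ)) z (G z (eb j))) :=
    integrable_finsetSum _ fun j _ => i4 j
  have i6 : Integrable (fun z => ∑ j, rho F z * fderiv ℝ
      (fun z => (inner ℝ (cl j (u z)) (gamV (g z) (u z)) : ℝ)) z (G z (eb j)) +
      rho F z * (‖g z‖ ^ 2 * ‖u z‖ ^ 2 + inner ℝ (u z) (Qop G H z (u z)))) := i5.add i2
  rw [integral_congr_ae (Eventually.of_forall (lib_pt (F := F) (G := G) hH hu)),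
    integral_add i1 i6, integral_add i5 i2, h0, zero_add, dirac_sq hU hF hu,
    ← integral_add i3 i2]
  refine integral_congr_ae (Eventually.of_forall fun z => ?_)
  show rho F z * gsq G u z + rho F z * (‖g z‖ ^ 2 * ‖u z‖ ^ 2 + inner ℝ (u z) (Qop G H z (u z))) =
    rho F z * (gsq G u z + (‖g z‖ ^ 2 * ‖u z‖ ^ 2 + inner ℝ (u z) (Qop G H z (u z))))
  ring

end Pool.Agent.FCI
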