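import Pool.Agent.FCI.Defs

/-! # FCI-Psi: calculus of the block potential (helper2) -/

open scoped BigOperators Topology ContDiff
open MeasureTheory Filter Set

namespace Pool.Agent.FCI

open Pool.Agent.TUB (E)

variable {n : ℕ} {β : Type} [Fintype β] [DecidableEq β]

theorem sq_nonneg' (b : Fin n → β) (z : E n) (j : β) : 0 ≤ sq b z j := by
  unfold sq
  refine Finset.sum_nonneg fun i _ => ?_
  split_ifs
  · exact sq_nonneg _
  · exact le_rfl

theorem sq_sum (b : Fin n → β) (z : E n) : ∑ j, sq b z j = ‖z‖ ^ 2 := by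
  unfold sq
  rw [Finset.sum_comm, EuclideanSpace.norm_sq_eq]
  refine Finset.sum_congr rfl fun i _ => ?_
  rw [Finset.sum_ite_eq Finset.univ (b i) (fun _ => z i ^ 2)]
  simp [Real.norm_eq_abs, sq_abs]

theorem sq_smooth (b : Fin n → β) (j : β) : ContDiff ℝ ∞ (fun z : E n => sq b z j) := by
  unfold sq
  refine ContDiff.sum fun i _ => ?_
  by_cases h : b i = j
  · simp only [h, if_true]
    exact ((EuclideanSpace.proj i : E n →L[ℝ] ℝ).contDiff).pow 2
  · simp only [h, if_false]
    exact contDiff_const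

theorem sq_smul (b : Fin n → β) (r : ℝ) (z : E n) (j : β) : sq b (r • z) j = r ^ 2 * sq b z j := by
  unfold sq
  rw [Finset.mul_sum]
  refine Finset.sum_congr rfl fun i _ => ?_
  split_ifs
  · simp only [PiLp.smul_apply, smul_eq_mul]
    ring
  · simp

private def prj (b : Fin n → β) (z : E n) (j : β) : E n :=
  WithLp.toLp 2 (fun i => if b i = j then z i else 0)

omit [Fintype β] in
private theorem prj_norm (b : Fin n → β) (z : E n) (j : β) : ‖prj b z j‖ = Real.sqrt (sq b z j) := by
  rw [EuclideanSpace.norm_eq]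
  congr 1
  unfold sq
  refine Finset.sum_congr rfl fun i _ => ?_
  unfold prj
  by_cases h : b i = j
  · simp [h, Real.norm_eq_abs, sq_abs]
  · simp [h]

omit [Fintype β] in
private theorem prj_add (b : Fin n → β) (z v : E n) (j : β) :
    prj b (z + v) j = prj b z j + prj b v j := by
  ext i
  unfold prj
  by_cases h : b i = j
  · simp [h]
  · simp [h]

/-- triangle inequality in a block -/
theorem sq_conv (b : Fin n → β) (z v : E n) (j : β) :
    Real.sqrt (sq b (z + v) j) ≤ Real.sqrt (sq b z j) + Real.sqrt (sq b v j) := by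
  rw [← prj_norm, ← prj_norm, ← prj_norm, prj_add]
  exact norm_add_le _ _

theorem Ub_isOpen (b : Fin n → β) (a : β → ℝ) : IsOpen (Ub b a) := by
  have e : Ub b a = ⋂ j, {z : E n | sq b z j < a j ^ 2} := by
    ext z
    simp [Ub]
  rw [e]
  exact isOpen_iInter_of_finite fun j => isOpen_lt (sq_smooth b j).continuous continuous_const

private theorem norm_le_of (b : Fin n → β) (a : β → ℝ) {z : E n} (h : ∀ j, sq b z j ≤ a j ^ 2) :
    ‖z‖ ≤ Real.sqrt (∑ j, a j ^ 2) := by
  refine Real.le_sqrt_of_sq_le ?_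
  rw [← sq_sum b z]
  exact Finset.sum_le_sum fun j _ => h j

theorem Kb_isCompact (b : Fin n → β) (a : β → ℝ) : IsCompact (Kb b a) := by
  have e : Kb b a = ⋂ j, {z : E n | sq b z j ≤ a j ^ 2} := by
    ext z
    simp [Kb]
  refine Metric.isCompact_of_isClosed_isBounded ?_ ?_
  · rw [e]
    exact isClosed_iInter fun j => isClosed_le (sq_smooth b j).continuous continuous_const
  · refine (Metric.isBounded_closedBall (x := (0 : E n)) (r := Real.sqrt (∑ j, a j ^ 2))).subset ?_
    intro z hz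
    rw [mem_closedBall_zero_iff]
    exact norm_le_of b a hz

theorem Ub_bdd (b : Fin n → β) (a : β → ℝ) : Bornology.IsBounded (Ub b a) := by
  refine (Metric.isBounded_closedBall (x := (0 : E n)) (r := Real.sqrt (∑ j, a j ^ 2))).subset ?_
  intro z hz
  rw [mem_closedBall_zero_iff]
  exact norm_le_of b a fun j => (hz j).le

theorem Ub_zero {b : Fin n → β} {a : β → ℝ} (ha : ∀ j, 0 < a j) : (0 : E n) ∈ Ub b a := by
  intro j
  have e : sq b (0 : E n) j = 0 := by
    unfold sq
    refine Finset.sum_eq_zero fun i _ => ?_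
    split_ifs <;> simp
  rw [e]
  exact pow_pos (ha j) 2

private theorem blk_sum (b : Fin n → β) (f : β → ℝ) (u : Fin n → ℝ) :
    ∑ j, f j * (∑ i, if b i = j then u i else 0) = ∑ i, f (b i) * u i := by
  simp only [Finset.mul_sum]
  rw [Finset.sum_comm]
  refine Finset.sum_congr rfl fun i _ => ?_
  have e : ∀ j, f j * (if b i = j then u i else 0) = if b i = j then f j * u i else 0 := by
    intro j
    split_ifs
    · rfl
    · exact mul_zero _
  simp only [e]
  rw [Finset.sum_ite_eq Finset.univ (b i) (fun j => f j * u i)]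
  simp

theorem gr_normSq (b : Fin n → β) (P : β → ℝ → ℝ) (z : E n) :
    ‖gr b P z‖ ^ 2 = ∑ j, 4 * sq b z j * deriv (P j) (sq b z j) ^ 2 := by
  rw [EuclideanSpace.norm_sq_eq]
  have e := blk_sum b (fun j => 4 * deriv (P j) (sq b z j) ^ 2) (fun i => z i ^ 2)
  have e1 : ∑ j, 4 * sq b z j * deriv (P j) (sq b z j) ^ 2 =
      ∑ j, 4 * deriv (P j) (sq b z j) ^ 2 * (∑ i, if b i = j then z i ^ 2 else 0) := by
    refine Finset.sum_congr rfl fun j _ => ?_
    have : (∑ i, if b i = j then z i ^ 2 else 0) = sq b z j := rfl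
    rw [this]
    ring
  rw [e1, e]
  refine Finset.sum_congr rfl fun i _ => ?_
  have e2 : gr b P z i = 2 * deriv (P (b i)) (sq b z (b i)) * z i := rfl
  rw [e2, Real.norm_eq_abs, sq_abs]
  ring

private theorem hsA_inner (b : Fin n → β) (x y : β → ℝ) (z v w : E n) :
    inner ℝ (hsA b x y z v) w = ∑ i, 2 * x (b i) * v i * w i +
      ∑ j, 4 * y j * (∑ l, if b l = j then z l * v l else 0) *
        (∑ l, if b l = j then z l * w l else 0) := by
  have h := blk_sum b (fun j => 4 * y j * (∑ l, if b l = j then z l * v l else 0))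
    (fun i => z i * w i)
  rw [h, ← Finset.sum_add_distrib, PiLp.inner_apply]
  refine Finset.sum_congr rfl fun i _ => ?_
  have e : hsA b x y z v i = 2 * x (b i) * v i +
        4 * y (b i) * z i * ∑ l, if b l = b i then z l * v l else 0 := rfl
  rw [e]
  simp only [RCLike.inner_apply, conj_trivial]
  ring

theorem hs_symm (b : Fin n → β) (P : β → ℝ → ℝ) (z v w : E n) :
    inner ℝ (hs b P z v) w = inner ℝ v (hs b P z w) := by
  rw [real_inner_comm (hs b P z w) v]
  unfold hs
  rw [hsA_inner, hsA_inner]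
  congr 1
  · refine Finset.sum_congr rfl fun i _ => ?_
    ring
  · refine Finset.sum_congr rfl fun j _ => ?_
    ring

/-- `inner (hs v) v = ∑_i 2 x (b i) v_i^2 + ∑_j 4 y_j (∑_{b l = j} z_l v_l)^2`. -/
theorem hs_lower (b : Fin n → β) (P : β → ℝ → ℝ) (z : E n) {δ : ℝ}
    (h1 : ∀ j, δ ≤ 2 * deriv (P j) (sq b z j)) (h2 : ∀ j, 0 ≤ deriv (deriv (P j)) (sq b z j)) (v : E n) :
    δ * ‖v‖ ^ 2 ≤ inner ℝ (hs b P z v) v := by
  unfold hs
  rw [hsA_inner]
  have e1 : δ * ‖v‖ ^ 2 ≤ ∑ i, 2 * deriv (P (b i)) (sq b z (b i)) * v i * v i := by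
    rw [EuclideanSpace.norm_sq_eq, Finset.mul_sum]
    refine Finset.sum_le_sum fun i _ => ?_
    rw [Real.norm_eq_abs, sq_abs]
    nlinarith [mul_le_mul_of_nonneg_right (h1 (b i)) (sq_nonneg (v i))]
  have e2 : 0 ≤ ∑ j, 4 * deriv (deriv (P j)) (sq b z j) * (∑ l, if b l = j then z l * v l else 0) *
        (∑ l, if b l = j then z l * v l else 0) := by
    refine Finset.sum_nonneg fun j _ => ?_
    have h := h2 j
    have hh := mul_nonneg h (sq_nonneg (∑ l, if b l = j then z l * v l else 0))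
    nlinarith
  linarith

private theorem sq_hasFDeriv (b : Fin n → β) (z : E n) (j : β) :
    HasFDerivAt (fun z : E n => sq b z j)
      (∑ i, if b i = j then (2 * z i) • (EuclideanSpace.proj i : E n →L[ℝ] ℝ) else 0) z := by
  unfold sq
  refine HasFDerivAt.fun_sum fun i _ => ?_
  by_cases h : b i = j
  · simp only [h, if_true]
    have h1 : HasFDerivAt (fun z : E n => z i) (EuclideanSpace.proj i : E n →L[ℝ] ℝ) z :=
      (EuclideanSpace.proj i : E n →L[ℝ] ℝ).hasFDerivAt
    have h2 := h1.pow 2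
    refine h2.congr_fderiv ?_
    ext v
    simp
  · simp only [h, if_false]
    exact hasFDerivAt_const _ _

private theorem sq_fd_apply (b : Fin n → β) (z v : E n) (j : β) :
    (∑ i, if b i = j then (2 * z i) • (EuclideanSpace.proj i : E n →L[ℝ] ℝ) else 0) v =
      2 * ∑ l, if b l = j then z l * v l else 0 := by
  rw [ContinuousLinearMap.sum_apply, Finset.mul_sum]
  refine Finset.sum_congr rfl fun i _ => ?_
  by_cases h : b i = j
  · simp only [h, if_true]
    simp only [ContinuousLinearMap.smul_apply, smul_eq_mul]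
    have : (EuclideanSpace.proj i : E n →L[ℝ] ℝ) v = v i := rfl
    rw [this]
    ring
  · simp [h]

variable {b : Fin n → β} {a : β → ℝ} {P : β → ℝ → ℝ} (hP : ∀ j, ContDiffOn ℝ ∞ (P j) (Iio (a j ^ 2)))

include hP

theorem Psi_smooth : ContDiffOn ℝ ∞ (Psi b P) (Ub b a) := by
  unfold Psi
  refine ContDiffOn.sum fun j _ => ?_
  exact (hP j).comp (sq_smooth b j).contDiffOn fun z hz => hz j

omit [Fintype β] [DecidableEq β] in
private theorem dP_smooth (j : β) : ContDiffOn ℝ ∞ (deriv (P j)) (Iio (a j ^ 2)) :=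
  (hP j).deriv_of_isOpen isOpen_Iio (by simp)

theorem gr_smooth : ContDiffOn ℝ ∞ (gr b P) (Ub b a) := by
  rw [contDiffOn_euclidean]
  intro i
  have h1 : ContDiffOn ℝ ∞ (fun z : E n => deriv (P (b i)) (sq b z (b i))) (Ub b a) :=
    (dP_smooth hP (b i)).comp (sq_smooth b (b i)).contDiffOn fun z hz => hz (b i)
  have h2 : ContDiffOn ℝ ∞ (fun z : E n => z i) (Ub b a) :=
    ((EuclideanSpace.proj i : E n →L[ℝ] ℝ).contDiff).contDiffOn
  exact (contDiffOn_const.mul h1).mul h2

theorem Psi_hasFDeriv {z : E n} (hz : z ∈ Ub b a) : HasFDerivAt (Psi b P) (innerSL ℝ (gr b P z)) z := by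
  have h : HasFDerivAt (Psi b P) (∑ j, deriv (P j) (sq b z j) •
      (∑ i, if b i = j then (2 * z i) • (EuclideanSpace.proj i : E n →L[ℝ] ℝ) else 0)) z := by
    unfold Psi
    refine HasFDerivAt.fun_sum fun j _ => ?_
    have h1 : HasDerivAt (P j) (deriv (P j) (sq b z j)) (sq b z j) :=
      (((hP j).contDiffAt (isOpen_Iio.mem_nhds (hz j))).differentiableAt (by simp)).hasDerivAt
    exact h1.comp_hasFDerivAt z (sq_hasFDeriv b z j)
  refine h.congr_fderiv ?_
  ext v
  rw [ContinuousLinearMap.sum_apply]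
  simp only [ContinuousLinearMap.smul_apply, sq_fd_apply, smul_eq_mul, innerSL_apply_apply]
  have e : ∀ j, deriv (P j) (sq b z j) * (2 * ∑ l, if b l = j then z l * v l else 0) =
      (2 * deriv (P j) (sq b z j)) * ∑ l, if b l = j then z l * v l else 0 := by
    intro j
    ring
  simp only [e]
  rw [blk_sum b (fun j => 2 * deriv (P j) (sq b z j)) (fun l => z l * v l), PiLp.inner_apply]
  refine Finset.sum_congr rfl fun i _ => ?_
  have e2 : gr b P z i = 2 * deriv (P (b i)) (sq b z (b i)) * z i := rfl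
  rw [e2]
  simp only [RCLike.inner_apply, conj_trivial]
  ring

theorem gr_hasFDeriv {z : E n} (hz : z ∈ Ub b a) : HasFDerivAt (gr b P) (hs b P z) z := by
  rw [← hasFDerivWithinAt_univ, hasFDerivWithinAt_euclidean]
  intro i
  rw [hasFDerivWithinAt_univ]
  have h1 : HasDerivAt (deriv (P (b i))) (deriv (deriv (P (b i))) (sq b z (b i))) (sq b z (b i)) :=
    (((dP_smooth hP (b i)).contDiffAt (isOpen_Iio.mem_nhds (hz (b i)))).differentiableAt
      (by simp)).hasDerivAt
  have h2 := h1.comp_hasFDerivAt z (sq_hasFDeriv b z (b i))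
  have h3 : HasFDerivAt (fun z : E n => z i) (EuclideanSpace.proj i : E n →L[ℝ] ℝ) z :=
    (EuclideanSpace.proj i : E n →L[ℝ] ℝ).hasFDerivAt
  have h4 := (h2.const_mul 2).mul h3
  refine h4.congr_fderiv ?_
  ext v
  have e1 : (EuclideanSpace.proj i : E n →L[ℝ] ℝ) v = v i := rfl
  have e2 : (((EuclideanSpace.proj i : E n →L[ℝ] ℝ)).comp (hs b P z)) v =
      2 * deriv (P (b i)) (sq b z (b i)) * v i +
        4 * deriv (deriv (P (b i))) (sq b z (b i)) * z i * ∑ l, if b l = b i then z l * v l else 0 := rfl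
  rw [e2]
  simp only [ContinuousLinearMap.add_apply, ContinuousLinearMap.smul_apply, smul_eq_mul, sq_fd_apply,
    e1, Function.comp_apply]
  ring

end Pool.Agent.FCI
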