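import Pool.Agent.FCI.Pw
import Pool.Agent.FCI.Psi

/-!
# FCI-Low: the lower bound for the block potential
-/

open scoped BigOperators Topology ContDiff
open MeasureTheory Filter Set

namespace Pool.Agent.FCI

open Pool.Agent.TUB (E)

variable {n : ℕ} {β : Type} [Fintype β] [DecidableEq β]

private theorem lo_key {b : Fin n → β} {a L : β → ℝ} {eps : ℝ} {P : β → ℝ → ℝ}
    (hP : ∀ j, Pot (bsz b j) (a j) (L j) eps (P j)) {G : E n → E n →L[ℝ] E n} (hG : Blk b (Ub b a) G)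
    {z : E n} (hz : z ∈ Ub b a) (w : W n) :
    (∑ j, qf (bsz b j) (P j) (sq b z j)) * ‖w‖ ^ 2 ≤
      ‖gr b P z‖ ^ 2 * ‖w‖ ^ 2 + inner ℝ w (Qop G (hs b P) z w) := by
  have hIco : ∀ j, sq b z j ∈ Ico 0 (a j ^ 2) := fun j => ⟨sq_nonneg' b z j, hz j⟩
  have hx : ∀ j, 0 ≤ deriv (P j) (sq b z j) := by
    intro j
    obtain ⟨δ, hδ, h⟩ := (hP j).conv
    have := (h _ (hIco j)).1
    linarith
  have hy : ∀ j, 0 ≤ deriv (deriv (P j)) (sq b z j) := by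
    intro j
    obtain ⟨δ, hδ, h⟩ := (hP j).conv
    exact (h _ (hIco j)).2
  have h1 := pw_bound b (fun j => deriv (P j) (sq b z j)) (fun j => deriv (deriv (P j)) (sq b z j)) z
    (G z) (fun v j => hG z hz v j) hx hy w
  have h2 : inner ℝ w (Qop G (hs b P) z w) = inner ℝ w (∑ i, cl i (gamV (hsA b
      (fun j => deriv (P j) (sq b z j)) (fun j => deriv (deriv (P j)) (sq b z j)) z (G z (eb i))) w)) := rfl
  rw [h2, gr_normSq]
  have h3 : (∑ j, qf (bsz b j) (P j) (sq b z j)) * ‖w‖ ^ 2 =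
      (∑ j, 4 * sq b z j * deriv (P j) (sq b z j) ^ 2) * ‖w‖ ^ 2 +
      -(∑ j, (2 * (bsz b j : ℝ) * deriv (P j) (sq b z j) +
        4 * sq b z j * deriv (deriv (P j)) (sq b z j))) * ‖w‖ ^ 2 := by
    rw [← add_mul, ← Finset.sum_neg_distrib, ← Finset.sum_add_distrib]
    congr 1
    refine Finset.sum_congr rfl fun j _ => ?_
    unfold qf
    ring
  rw [h3]
  linarith

theorem low_tot {b : Fin n → β} {a L : β → ℝ} {eps : ℝ} {P : β → ℝ → ℝ}
    (hP : ∀ j, Pot (bsz b j) (a j) (L j) eps (P j)) {G : E n → E n →L[ℝ] E n} (hG : Blk b (Ub b a) G)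
    {z : E n} (hz : z ∈ Ub b a) (w : W n) :
    -(∑ j, L j) * ‖w‖ ^ 2 ≤ ‖gr b P z‖ ^ 2 * ‖w‖ ^ 2 + inner ℝ w (Qop G (hs b P) z w) := by
  refine le_trans (mul_le_mul_of_nonneg_right ?_ (by positivity)) (lo_key hP hG hz w)
  rw [← Finset.sum_neg_distrib]
  exact Finset.sum_le_sum fun j _ => (hP j).lower _ ⟨sq_nonneg' b z j, hz j⟩

theorem low_half {b : Fin n → β} {a L : β → ℝ} {eps : ℝ} {P : β → ℝ → ℝ}
    (hP : ∀ j, Pot (bsz b j) (a j) (L j) eps (P j)) : ∃ C : ℝ, 0 ≤ C ∧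
      ∀ G : E n → E n →L[ℝ] E n, Blk b (Ub b a) G → ∀ z ∈ Ub b a, ∀ w : W n,
        (1 / 2 * ‖gr b P z‖ ^ 2 - C) * ‖w‖ ^ 2 ≤
          ‖gr b P z‖ ^ 2 * ‖w‖ ^ 2 + inner ℝ w (Qop G (hs b P) z w) := by
  choose C hC using fun j => (hP j).half
  refine ⟨∑ j, max (C j) 0, Finset.sum_nonneg fun j _ => le_max_right _ _, fun G hG z hz w => ?_⟩
  refine le_trans (mul_le_mul_of_nonneg_right ?_ (by positivity)) (lo_key hP hG hz w)
  rw [gr_normSq, Finset.mul_sum, ← Finset.sum_sub_distrib]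
  refine Finset.sum_le_sum fun j _ => ?_
  have h1 := hC j (sq b z j) ⟨sq_nonneg' b z j, hz j⟩
  have h2 := le_max_left (C j) 0
  linarith

end Pool.Agent.FCI
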