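import Pool.Agent.FCI.Cc

/-!
# FCI-Mola: mollifiers in `L²(E n; W n)`
-/

open scoped BigOperators Topology ContDiff ENNReal
open MeasureTheory Filter Set

namespace Pool.Agent.FCI

open Pool.Agent.TUB (E)

private noncomputable def bmp (n k : ℕ) : ContDiffBump (0 : E n) where
  rIn := 1 / (2 * ((k : ℝ) + 1))
  rOut := 1 / ((k : ℝ) + 1)
  rIn_pos := by positivity
  rIn_lt_rOut := by
    apply one_div_lt_one_div_of_lt
    · positivity
    · have : (0 : ℝ) ≤ k := Nat.cast_nonneg k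
      linarith

private noncomputable def eta (n k : ℕ) : E n → ℝ := (bmp n k).normed volume

private theorem eta_smooth (n k : ℕ) : ContDiff ℝ ∞ (eta n k) := ContDiffBump.contDiff_normed _

private theorem eta_cpt (n k : ℕ) : HasCompactSupport (eta n k) := ContDiffBump.hasCompactSupport_normed _

private theorem eta_nonneg (n k : ℕ) (z : E n) : 0 ≤ eta n k z := ContDiffBump.nonneg_normed _ _

private theorem eta_int (n k : ℕ) : ∫ z, eta n k z = 1 := ContDiffBump.integral_normed _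

private theorem eta_zero (n k : ℕ) (z : E n) (h : 1 / ((k : ℝ) + 1) ≤ ‖z‖) : eta n k z = 0 := by
  unfold eta
  rw [← Function.notMem_support, ContDiffBump.support_normed_eq]
  simpa [bmp] using h

private theorem eta_meas (n k : ℕ) : Measurable (eta n k) := (eta_smooth n k).continuous.measurable

private theorem eta_lint (n k : ℕ) : ∫⁻ z, ENNReal.ofReal (eta n k z) = 1 := by
  have hi : Integrable (eta n k) :=
    (eta_smooth n k).continuous.integrable_of_hasCompactSupport (eta_cpt n k)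
  rw [← ofReal_integral_eq_lintegral_ofReal hi (Eventually.of_forall fun z => eta_nonneg n k z),
    eta_int, ENNReal.ofReal_one]

/-- the mollification -/
private noncomputable def Mk (n k : ℕ) (f : E n → W n) (z : E n) : W n := ∫ t, eta n k (z - t) • f t

private theorem Mk_conv (n k : ℕ) (f : E n → W n) :
    Mk n k f = convolution (eta n k) f (ContinuousLinearMap.lsmul ℝ ℝ) volume := by
  funext z
  rw [convolution_eq_swap]
  rfl

private theorem Mk_smooth (n k : ℕ) {f : E n → W n} (hf : MemLp f 2 volume) :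
    ContDiff ℝ ∞ (Mk n k f) := by
  rw [Mk_conv]
  exact (eta_cpt n k).contDiff_convolution_left (ContinuousLinearMap.lsmul ℝ ℝ) (eta_smooth n k)
    (hf.locallyIntegrable (by norm_num))

private theorem Mk_int (n k : ℕ) {f : E n → W n} (hf : MemLp f 2 volume) (z : E n) :
    Integrable (fun t => eta n k (z - t) • f t) := by
  have h := (eta_cpt n k).convolutionExists_left (ContinuousLinearMap.lsmul ℝ ℝ) (μ := volume)
    (eta_smooth n k).continuous (hf.locallyIntegrable (by norm_num)) z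
  exact h.integrable_swap

private theorem Mk_fderiv (n k : ℕ) {f : E n → W n} (hf : MemLp f 2 volume) (z v : E n) :
    fderiv ℝ (Mk n k f) z v = ∫ t, (fderiv ℝ (eta n k) (z - t) v) • f t := by
  have hl : LocallyIntegrable f volume := hf.locallyIntegrable (by norm_num)
  have h1 := (eta_cpt n k).hasFDerivAt_convolution_left (ContinuousLinearMap.lsmul ℝ ℝ) (μ := volume)
    ((eta_smooth n k).of_le (by exact_mod_cast le_top)) hl z
  rw [← Mk_conv] at h1
  rw [h1.fderiv, convolution_eq_swap]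
  have h2 := ((eta_cpt n k).fderiv (𝕜 := ℝ)).convolutionExists_left
    ((ContinuousLinearMap.lsmul ℝ ℝ : ℝ →L[ℝ] W n →L[ℝ] W n).precompL (E n)) (μ := volume)
    ((eta_smooth n k).continuous_fderiv (by norm_num)) hl z
  rw [ContinuousLinearMap.integral_apply h2.integrable_swap]
  rfl

private theorem cs_weight {α : Type*} [MeasurableSpace α] (μ : Measure α) {e g : α → ℝ≥0∞}
    (he : AEMeasurable e μ) (hg : AEMeasurable g μ) :
    (∫⁻ a, e a * g a ∂μ) ^ 2 ≤ (∫⁻ a, e a ∂μ) * ∫⁻ a, e a * g a ^ 2 ∂μ := by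
  have hsq : ∀ x : ℝ≥0∞, (x ^ (1 / 2 : ℝ)) ^ (2 : ℝ) = x := by
    intro x
    rw [← ENNReal.rpow_mul]; norm_num
  have hmul : ∀ x : ℝ≥0∞, x ^ (1 / 2 : ℝ) * x ^ (1 / 2 : ℝ) = x := by
    intro x
    have := hsq x
    rwa [ENNReal.rpow_two, pow_two] at this
  have hpq : (2 : ℝ).HolderConjugate 2 := by
    exact Real.HolderConjugate.two_two
  have h := ENNReal.lintegral_mul_le_Lp_mul_Lq μ hpq (f := fun a => e a ^ (1 / 2 : ℝ))
    (g := fun a => e a ^ (1 / 2 : ℝ) * g a) (he.pow_const _) ((he.pow_const _).mul hg)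
  have h1 : ∀ a, ((fun a => e a ^ (1 / 2 : ℝ)) * (fun a => e a ^ (1 / 2 : ℝ) * g a)) a =
      e a * g a := by
    intro a
    simp only [Pi.mul_apply]
    rw [← mul_assoc, hmul]
  have h2 : ∀ a, (e a ^ (1 / 2 : ℝ)) ^ (2 : ℝ) = e a := fun a => hsq _
  have h3 : ∀ a, (e a ^ (1 / 2 : ℝ) * g a) ^ (2 : ℝ) = e a * g a ^ 2 := by
    intro a
    rw [ENNReal.mul_rpow_of_nonneg _ _ (by norm_num), hsq, ENNReal.rpow_two]
  simp only [h1, h2, h3] at h
  calc (∫⁻ a, e a * g a ∂μ) ^ 2 ≤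
      ((∫⁻ a, e a ∂μ) ^ (1 / 2 : ℝ) * (∫⁻ a, e a * g a ^ 2 ∂μ) ^ (1 / 2 : ℝ)) ^ 2 := by
        exact pow_le_pow_left' h 2
    _ = (∫⁻ a, e a ∂μ) * ∫⁻ a, e a * g a ^ 2 ∂μ := by
        rw [mul_pow, ← ENNReal.rpow_two, ← ENNReal.rpow_two, hsq, hsq]

private theorem Mk_l2 (n k : ℕ) {f : E n → W n} (hf : MemLp f 2 volume) :
    ∫⁻ z, ‖Mk n k f z‖ₑ ^ 2 ≤ ∫⁻ z, ‖f z‖ₑ ^ 2 := by
  have hgm : AEMeasurable (fun w => ‖f w‖ₑ) volume := hf.1.enorm
  have hem : ∀ z : E n, Measurable (fun w : E n => ENNReal.ofReal (eta n k (z - w))) :=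
    fun z => ((eta_meas n k).comp (measurable_const.sub measurable_id)).ennreal_ofReal
  have key : ∀ z : E n, ‖Mk n k f z‖ₑ ^ 2 ≤
      ∫⁻ w, ENNReal.ofReal (eta n k (z - w)) * ‖f w‖ₑ ^ 2 := by
    intro z
    have h1 : ‖Mk n k f z‖ₑ ≤ ∫⁻ w, ENNReal.ofReal (eta n k (z - w)) * ‖f w‖ₑ := by
      unfold Mk
      refine (enorm_integral_le_lintegral_enorm _).trans (le_of_eq ?_)
      refine lintegral_congr fun w => ?_
      rw [enorm_smul, Real.enorm_of_nonneg (eta_nonneg n k _)]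
    have h2 : ∫⁻ w, ENNReal.ofReal (eta n k (z - w)) ≤ 1 := by
      rw [lintegral_sub_left_eq_self (fun w : E n => ENNReal.ofReal (eta n k w)) z, eta_lint]
    calc ‖Mk n k f z‖ₑ ^ 2 ≤
        (∫⁻ w, ENNReal.ofReal (eta n k (z - w)) * ‖f w‖ₑ) ^ 2 :=
          pow_le_pow_left' h1 2
      _ ≤ (∫⁻ w, ENNReal.ofReal (eta n k (z - w))) *
          ∫⁻ w, ENNReal.ofReal (eta n k (z - w)) * ‖f w‖ₑ ^ 2 :=
          cs_weight _ (hem z).aemeasurable hgm
      _ ≤ 1 * ∫⁻ w, ENNReal.ofReal (eta n k (z - w)) * ‖f w‖ₑ ^ 2 :=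
          mul_le_mul_left h2 _
      _ = _ := one_mul _
  calc ∫⁻ z, ‖Mk n k f z‖ₑ ^ 2
      ≤ ∫⁻ z, ∫⁻ w, ENNReal.ofReal (eta n k (z - w)) * ‖f w‖ₑ ^ 2 := lintegral_mono key
    _ = ∫⁻ w, (∫⁻ z, ENNReal.ofReal (eta n k (z - w)) * ‖f w‖ₑ ^ 2) := by
        refine lintegral_lintegral_swap ?_
        have m1 : AEMeasurable (fun p : E n × E n => ENNReal.ofReal (eta n k (p.1 - p.2)))
            ((volume : Measure (E n)).prod volume) :=
          (((eta_meas n k).comp (measurable_fst.sub measurable_snd)).ennreal_ofReal).aemeasurable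
        have m2 : AEMeasurable (fun p : E n × E n => ‖f p.2‖ₑ ^ 2)
            ((volume : Measure (E n)).prod volume) := (hgm.pow_const 2).comp_snd
        exact m1.mul m2
    _ = ∫⁻ w, ‖f w‖ₑ ^ 2 := by
        refine lintegral_congr fun w => ?_
        have m1 : Measurable (fun z : E n => ENNReal.ofReal (eta n k (z - w))) :=
          ((eta_meas n k).comp (measurable_id.sub measurable_const)).ennreal_ofReal
        have h1 : ∫⁻ z : E n, ENNReal.ofReal (eta n k (z - w)) = 1 := by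
          rw [lintegral_sub_right_eq_self (fun z : E n => ENNReal.ofReal (eta n k z)), eta_lint]
        rw [lintegral_mul_const _ m1, h1, one_mul]

private theorem e2 : (2 : ℝ≥0∞).toReal = (2 : ℝ) := by norm_num

private theorem nrm_eq {n : ℕ} (f : E n → W n) :
    eLpNorm f 2 volume = (∫⁻ z, ‖f z‖ₑ ^ 2) ^ (1 / 2 : ℝ) := by
  rw [eLpNorm_eq_lintegral_rpow_enorm_toReal (by norm_num) (by norm_num), e2]
  simp only [ENNReal.rpow_two]

private theorem Mk_nrm (n k : ℕ) {f : E n → W n} (hf : MemLp f 2 volume) :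
    eLpNorm (Mk n k f) 2 volume ≤ eLpNorm f 2 volume := by
  rw [nrm_eq, nrm_eq]
  exact ENNReal.rpow_le_rpow (Mk_l2 n k hf) (by norm_num)

private theorem Mk_memLp (n k : ℕ) {f : E n → W n} (hf : MemLp f 2 volume) :
    MemLp (Mk n k f) 2 volume :=
  ⟨(Mk_smooth n k hf).continuous.aestronglyMeasurable, (Mk_nrm n k hf).trans_lt hf.2⟩

private theorem Mk_sub (n k : ℕ) {f g : E n → W n} (hf : MemLp f 2 volume) (hg : MemLp g 2 volume) :
    Mk n k (f - g) = Mk n k f - Mk n k g := by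
  funext z
  rw [Pi.sub_apply]
  unfold Mk
  rw [← integral_sub (Mk_int n k hf z) (Mk_int n k hg z)]
  refine integral_congr_ae (Eventually.of_forall fun t => ?_)
  simp only [Pi.sub_apply, smul_sub]

private theorem int_sq {n : ℕ} {h : E n → W n} (hh : MemLp h 2 volume) :
    ∫ z, ‖h z‖ ^ 2 = (eLpNorm h 2 volume).toReal ^ 2 := by
  have h1 := hh.eLpNorm_eq_integral_rpow_norm (by norm_num) (by norm_num)
  rw [e2] at h1
  simp only [Real.rpow_two] at h1
  have h0 : 0 ≤ ∫ z, ‖h z‖ ^ 2 := integral_nonneg fun z => sq_nonneg _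
  rw [h1, ENNReal.toReal_ofReal (Real.rpow_nonneg h0 _), ← Real.rpow_two, ← Real.rpow_mul h0]
  norm_num

private theorem Mk_tend (n : ℕ) {f : E n → W n} (hf : MemLp f 2 volume) :
    Tendsto (fun k => eLpNorm (Mk n k f - f) 2 volume) atTop (𝓝 0) := by
  rw [ENNReal.tendsto_nhds_zero]
  intro ε hε
  by_cases hεt : ε = ⊤
  · exact Eventually.of_forall fun k => by rw [hεt]; exact le_top
  have hε4 : ε / 4 ≠ 0 := (ENNReal.div_pos hε.ne' (by norm_num)).ne'
  obtain ⟨g, hgc, hg1, hg2, hg3⟩ := hf.exists_hasCompactSupport_eLpNorm_sub_le (by norm_num) hε4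
  have hfg : MemLp (f - g) 2 volume := hf.sub hg3
  obtain ⟨R, hR⟩ := hgc.isCompact.isBounded.subset_closedBall (0 : E n)
  have hg0 : ∀ y : E n, R < ‖y‖ → g y = 0 := by
    intro y hy
    by_contra hne
    have := hR (subset_tsupport g hne)
    rw [Metric.mem_closedBall, dist_zero_right] at this
    linarith
  have hgu : UniformContinuous g := hgc.uniformContinuous_of_continuous hg2
  set Vol : ℝ≥0∞ := (volume (Metric.closedBall (0 : E n) (R + 1))) ^ (1 / 2 : ℝ) with hVol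
  have hVt : Vol ≠ ⊤ := by
    rw [hVol]
    exact ENNReal.rpow_ne_top_of_nonneg (by norm_num) (isCompact_closedBall _ _).measure_lt_top.ne
  -- the modulus
  obtain ⟨c, hc0, hcV⟩ : ∃ c : ℝ, 0 < c ∧ ENNReal.ofReal c * Vol ≤ ε / 4 := by
    have hb : ε / 4 ≠ ⊤ := (ENNReal.div_lt_top hεt (by norm_num)).ne
    refine ⟨(ε / 4).toReal / (Vol.toReal + 1), ?_, ?_⟩
    · exact div_pos (ENNReal.toReal_pos hε4 hb) (by positivity)
    · calc ENNReal.ofReal ((ε / 4).toReal / (Vol.toReal + 1)) * Vol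
          = ENNReal.ofReal ((ε / 4).toReal / (Vol.toReal + 1)) * ENNReal.ofReal Vol.toReal := by
            rw [ENNReal.ofReal_toReal hVt]
        _ = ENNReal.ofReal ((ε / 4).toReal / (Vol.toReal + 1) * Vol.toReal) :=
            (ENNReal.ofReal_mul (by positivity)).symm
        _ ≤ ENNReal.ofReal ((ε / 4).toReal) := by
            apply ENNReal.ofReal_le_ofReal
            rw [div_mul_eq_mul_div, div_le_iff₀ (by positivity)]
            have h1 : 0 ≤ (ε / 4).toReal := ENNReal.toReal_nonneg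
            nlinarith
        _ = ε / 4 := ENNReal.ofReal_toReal hb
  obtain ⟨δ, hδ, hδ'⟩ := Metric.uniformContinuous_iff.1 hgu c hc0
  obtain ⟨k0, hk0⟩ := exists_nat_one_div_lt hδ
  filter_upwards [eventually_ge_atTop k0] with k hk
  have hkδ : 1 / ((k : ℝ) + 1) < δ := by
    refine lt_of_le_of_lt ?_ hk0
    apply one_div_le_one_div_of_le
    · positivity
    · have : (k0 : ℝ) ≤ k := by exact_mod_cast hk
      linarith
  have hk1 : 1 / ((k : ℝ) + 1) ≤ 1 := by
    rw [div_le_one (by positivity)]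
    have : (0 : ℝ) ≤ k := Nat.cast_nonneg k
    linarith
  have hrO : (bmp n k).rOut = 1 / ((k : ℝ) + 1) := rfl
  have hpt : ∀ z, ‖Mk n k g z - g z‖ ≤ c := by
    intro z
    rw [← dist_eq_norm, Mk_conv]
    refine ContDiffBump.dist_normed_convolution_le hg3.1 fun x hx => ?_
    have h1 : dist x z < δ := by
      have := Metric.mem_ball.1 hx
      rw [hrO] at this
      linarith
    exact (hδ' h1).le
  have hz : ∀ z, R + 1 < ‖z‖ → Mk n k g z - g z = 0 := by
    intro z hzR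
    have h0 : g z = 0 := hg0 z (by linarith)
    rw [Mk_conv, sub_eq_zero]
    refine ContDiffBump.normed_convolution_eq_right fun x hx => ?_
    rw [h0]
    apply hg0
    have h1 := Metric.mem_ball.1 hx
    rw [hrO, dist_eq_norm] at h1
    have h2 : ‖z‖ ≤ ‖x‖ + ‖x - z‖ := by
      calc ‖z‖ = ‖x - (x - z)‖ := by congr 1; abel
        _ ≤ ‖x‖ + ‖x - z‖ := norm_sub_le _ _
    linarith
  have hmid : eLpNorm (Mk n k g - g) 2 volume ≤ ε / 4 := by
    refine le_trans ?_ hcV
    have h1 : eLpNorm (Mk n k g - g) 2 volume ≤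
        eLpNorm ((Metric.closedBall (0 : E n) (R + 1)).indicator fun _ => c) 2 volume := by
      refine eLpNorm_mono fun z => ?_
      by_cases hzR : z ∈ Metric.closedBall (0 : E n) (R + 1)
      · rw [indicator_of_mem hzR, Real.norm_of_nonneg hc0.le]
        exact hpt z
      · rw [indicator_of_notMem hzR, norm_zero]
        rw [Metric.mem_closedBall, dist_zero_right, not_le] at hzR
        rw [Pi.sub_apply, hz z hzR, norm_zero]
    refine h1.trans (le_of_eq ?_)
    rw [eLpNorm_indicator_const Metric.isClosed_closedBall.measurableSet (by norm_num) (by norm_num), e2,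
      Real.enorm_of_nonneg hc0.le]
  have hsplit : Mk n k f - f = (Mk n k (f - g) + (Mk n k g - g)) - (f - g) := by
    rw [Mk_sub n k hf hg3]
    abel
  have m1 : MemLp (Mk n k (f - g)) 2 volume := Mk_memLp n k hfg
  have m2 : MemLp (Mk n k g - g) 2 volume := (Mk_memLp n k hg3).sub hg3
  rw [hsplit]
  calc eLpNorm ((Mk n k (f - g) + (Mk n k g - g)) - (f - g)) 2 volume
      ≤ eLpNorm (Mk n k (f - g) + (Mk n k g - g)) 2 volume + eLpNorm (f - g) 2 volume :=
        eLpNorm_sub_le (m1.add m2).1 hfg.1 (by norm_num)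
    _ ≤ (eLpNorm (Mk n k (f - g)) 2 volume + eLpNorm (Mk n k g - g) 2 volume) +
        eLpNorm (f - g) 2 volume := add_le_add (eLpNorm_add_le m1.1 m2.1 (by norm_num)) le_rfl
    _ ≤ (ε / 4 + ε / 4) + ε / 4 :=
        add_le_add (add_le_add ((Mk_nrm n k hfg).trans hg1) hmid) hg1
    _ ≤ (ε / 4 + ε / 4) + (ε / 4 + ε / 4) := add_le_add le_rfl le_self_add
    _ = ε := by
        have h4 : (ε / 4 + ε / 4) + (ε / 4 + ε / 4) = 4 * (ε / 4) := by ring
        rw [h4]
        exact ENNReal.mul_div_cancel (by norm_num) (by norm_num)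

theorem moll_ex (n : ℕ) : ∃ η : ℕ → E n → ℝ,
    (∀ k, ContDiff ℝ ∞ (η k)) ∧ (∀ k, HasCompactSupport (η k)) ∧
    (∀ (k : ℕ) (z : E n), 1 / ((k : ℝ) + 1) ≤ ‖z‖ → η k z = 0) ∧
    (∀ f : E n → W n, MemLp f 2 volume →
      (∀ k, ContDiff ℝ ∞ (fun z => ∫ t, η k (z - t) • f t)) ∧
      (∀ k z v, fderiv ℝ (fun z => ∫ t, η k (z - t) • f t) z v = ∫ t, (fderiv ℝ (η k) (z - t) v) • f t) ∧
      (∀ k, MemLp (fun z => ∫ t, η k (z - t) • f t) 2 volume) ∧
      Tendsto (fun k => ∫ z, ‖(∫ t, η k (z - t) • f t) - f z‖ ^ 2) atTop (𝓝 0)) := by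
  refine ⟨eta n, eta_smooth n, eta_cpt n, fun k z h => eta_zero n k z h, fun f hf => ?_⟩
  refine ⟨fun k => Mk_smooth n k hf, fun k z v => Mk_fderiv n k hf z v, fun k => Mk_memLp n k hf, ?_⟩
  have h1 := Mk_tend n hf
  have hne : ∀ k, eLpNorm (Mk n k f - f) 2 volume ≠ ⊤ := fun k => ((Mk_memLp n k hf).sub hf).2.ne
  rw [← ENNReal.tendsto_toReal_zero_iff hne] at h1
  have h2 := h1.pow 2
  rw [zero_pow two_ne_zero] at h2
  refine h2.congr fun k => ?_
  exact (int_sq ((Mk_memLp n k hf).sub hf)).symm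

end Pool.Agent.FCI
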