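import Pool.Agent.FCI.Cc
import Pool.Agent.FCI.ClC

/-!
# FCI-Tsb: basic properties of the operators on test functions (imports ClC; imports may hold unfinished lemmas)

`u` smooth with compact support in the open set `U`, `K = tsupport u`.  Outside `tsupport u` both `u` and `fderiv ℝ u` vanish
(`fderiv` : `support_fderiv_subset`, or `u =ᶠ 0` near `z`).  Continuity: use `cc_cont` (Cc, proved) with `K = tsupport u` and
continuity on `U` of each term: `z ↦ fderiv ℝ u z` is continuous (`ContDiff.continuous_fderiv`), `z ↦ G z (eb j)` is continuous on `U`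
(`ContinuousOn.clm_apply`), `z ↦ gamV (g z) (u z)` by `gamV_clm`.  Parity: `fderiv ℝ u z v ∈ evS n` if `u` is even valued: apply the
continuous linear map `odP n` (with `odP n (u z) = 0`): or, the evaluation at an odd `I` composed with `u` is zero, so its derivative
is zero (`(EuclideanSpace.proj I)`, `HasFDerivAt.comp`); a closed submodule contains the derivative.
-/

open scoped BigOperators Topology ContDiff
open MeasureTheory Filter Set

namespace Pool.Agent.FCI

open Pool.Agent.TUB (E)

variable {n : ℕ} {U : Set (E n)} {g : E n → E n} {G : E n → E n →L[ℝ] E n} {u : E n → W n}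

theorem tst_zero {z : E n} (hz : z ∉ tsupport u) : u z = 0 := image_eq_zero_of_notMem_tsupport hz

theorem tst_fderiv_zero {z : E n} (hz : z ∉ tsupport u) : fderiv ℝ u z = 0 :=
  fderiv_of_notMem_tsupport ℝ hz

theorem Dop_zero {z : E n} (hz : z ∉ tsupport u) : Dop G u z = 0 := by
  simp [Dop, tst_fderiv_zero hz]

theorem Bop_zero {z : E n} (hz : z ∉ tsupport u) : Bop g G u z = 0 := by
  simp [Bop, Dop_zero hz, tst_zero hz]

theorem gsq_zero {z : E n} (hz : z ∉ tsupport u) : gsq G u z = 0 := by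
  simp [gsq, tst_fderiv_zero hz]

private theorem fd_contOn (hG : ContinuousOn G U) (hu : u ∈ Tst U) (v : E n) :
    ContinuousOn (fun z => fderiv ℝ u z (G z v)) U := by
  have h1 : Continuous (fderiv ℝ u) := hu.1.continuous_fderiv (by simp)
  exact h1.continuousOn.clm_apply (hG.clm_apply continuousOn_const)

theorem Dop_contOn (hG : ContinuousOn G U) (hu : u ∈ Tst U) : ContinuousOn (Dop G u) U := by
  unfold Dop
  refine continuousOn_finsetSum _ fun j _ => ?_
  exact (cl j).continuous.comp_continuousOn (fd_contOn hG hu (eb j))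

private theorem gamV_contOn (hg : ContinuousOn g U) (hu : u ∈ Tst U) :
    ContinuousOn (fun z => gamV (g z) (u z)) U := by
  obtain ⟨T, hT⟩ := gamV_clm (n := n)
  have e : (fun z => gamV (g z) (u z)) = fun z => T (g z) (u z) := by
    funext z
    rw [hT]
  rw [e]
  exact (T.continuous.comp_continuousOn hg).clm_apply hu.1.continuous.continuousOn

theorem Bop_contOn (hg : ContinuousOn g U) (hG : ContinuousOn G U) (hu : u ∈ Tst U) :
    ContinuousOn (Bop g G u) U := (Dop_contOn hG hu).add (gamV_contOn hg hu)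

theorem gsq_contOn (hG : ContinuousOn G U) (hu : u ∈ Tst U) : ContinuousOn (gsq G u) U := by
  unfold gsq
  exact continuousOn_finsetSum _ fun j _ => (fd_contOn hG hu (eb j)).norm.pow 2

theorem Bop_cont (hU : IsOpen U) (hg : ContinuousOn g U) (hG : ContinuousOn G U) (hu : u ∈ Tst U) :
    Continuous (Bop g G u) ∧ HasCompactSupport (Bop g G u) :=
  ⟨cc_cont hU hu.2.1 hu.2.2 (Bop_contOn hg hG hu) fun _ hz => Bop_zero hz,
    cc_supp hu.2.1 fun _ hz => Bop_zero hz⟩

theorem Dop_cont (hU : IsOpen U) (hG : ContinuousOn G U) (hu : u ∈ Tst U) :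
    Continuous (Dop G u) ∧ HasCompactSupport (Dop G u) :=
  ⟨cc_cont hU hu.2.1 hu.2.2 (Dop_contOn hG hu) fun _ hz => Dop_zero hz,
    cc_supp hu.2.1 fun _ hz => Dop_zero hz⟩

theorem gsq_int (hU : IsOpen U) (hG : ContinuousOn G U) (hu : u ∈ Tst U) :
    Continuous (gsq G u) ∧ Integrable (gsq G u) :=
  ⟨cc_cont hU hu.2.1 hu.2.2 (gsq_contOn hG hu) fun _ hz => gsq_zero hz,
    cc_int hU hu.2.1 hu.2.2 (gsq_contOn hG hu) fun _ hz => gsq_zero hz⟩

theorem Bsq_int (hU : IsOpen U) (hg : ContinuousOn g U) (hG : ContinuousOn G U) (hu : u ∈ Tst U) :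
    Integrable (fun z => ‖Bop g G u z‖ ^ 2) := by
  refine cc_int hU hu.2.1 hu.2.2 ((Bop_contOn hg hG hu).norm.pow 2) fun z hz => ?_
  simp [Bop_zero hz]

theorem gu_int (hU : IsOpen U) (hg : ContinuousOn g U) (hu : u ∈ Tst U) :
    Integrable (fun z => ‖g z‖ ^ 2 * ‖u z‖ ^ 2) := by
  refine cc_int hU hu.2.1 hu.2.2 ((hg.norm.pow 2).mul (hu.1.continuous.norm.pow 2).continuousOn) fun z hz => ?_
  simp [tst_zero hz]

theorem usq_int (hu : u ∈ Tst U) : Integrable (fun z => ‖u z‖ ^ 2) := by
  refine (hu.1.continuous.norm.pow 2).integrable_of_hasCompactSupport ?_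
  refine cc_supp hu.2.1 fun z hz => ?_
  simp [tst_zero hz]

private theorem tst_diff (hu : u ∈ Tst U) (z : E n) : DifferentiableAt ℝ u z :=
  (hu.1.differentiable (by simp)) z

theorem Bop_add {v : E n → W n} (hu : u ∈ Tst U) (hv : v ∈ Tst U) (z : E n) :
    Bop g G (u + v) z = Bop g G u z + Bop g G v z := by
  have h : fderiv ℝ (u + v) z = fderiv ℝ u z + fderiv ℝ v z := fderiv_add (tst_diff hu z) (tst_diff hv z)
  unfold Bop Dop
  rw [h]
  simp only [add_apply, map_add, Pi.add_apply, Finset.sum_add_distrib]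
  abel

theorem Bop_smul (r : ℝ) (hu : u ∈ Tst U) (z : E n) : Bop g G (r • u) z = r • Bop g G u z := by
  have h : fderiv ℝ (r • u) z = r • fderiv ℝ u z := fderiv_const_smul (tst_diff hu z) r
  unfold Bop Dop
  rw [h]
  simp only [smul_apply, map_smul, Pi.smul_apply, smul_add, Finset.smul_sum]

private theorem mem_ev_of {w : W n} (h : odP n w = 0) : w ∈ evS n := by
  have h1 := evP_add_odP w
  rw [h, add_zero] at h1
  rw [← h1]
  exact evP_mem w

private theorem mem_od_of {w : W n} (h : evP n w = 0) : w ∈ odS n := by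
  have h1 := evP_add_odP w
  rw [h, zero_add] at h1
  rw [← h1]
  exact odP_mem w

private theorem odP_ev {w : W n} (h : w ∈ evS n) : odP n w = 0 := by
  ext I
  show (if Odd I.card then w I else 0) = 0
  split_ifs with h1
  · exact h I h1
  · rfl

private theorem evP_od {w : W n} (h : w ∈ odS n) : evP n w = 0 := by
  ext I
  show (if Even I.card then w I else 0) = 0
  split_ifs with h1
  · exact h I h1
  · rfl

private theorem clm_fderiv (T : W n →L[ℝ] W n) (hu : u ∈ Tst U) (h : ∀ z, T (u z) = 0) (z v : E n) :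
    T (fderiv ℝ u z v) = 0 := by
  have h1 : HasFDerivAt (fun y => T (u y)) (T.comp (fderiv ℝ u z)) z :=
    T.hasFDerivAt.comp z (tst_diff hu z).hasFDerivAt
  have h2 : HasFDerivAt (fun y => T (u y)) (0 : E n →L[ℝ] W n) z := by
    have e : (fun y => T (u y)) = fun _ => (0 : W n) := funext h
    rw [e]
    exact hasFDerivAt_const _ _
  have h3 := h1.unique h2
  have h4 := congrArg (fun L : E n →L[ℝ] W n => L v) h3
  simpa using h4

theorem Bop_ev (hu : u ∈ Tst U) (he : ∀ z, u z ∈ evS n) (z : E n) : Bop g G u z ∈ odS n := by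
  refine (odS n).add_mem ((odS n).sum_mem fun j _ => cl_ev (mem_ev_of ?_) j) (gamV_ev (he z) _)
  exact clm_fderiv (odP n) hu (fun y => odP_ev (he y)) z _

theorem Bop_od (hu : u ∈ Tst U) (ho : ∀ z, u z ∈ odS n) (z : E n) : Bop g G u z ∈ evS n := by
  refine (evS n).add_mem ((evS n).sum_mem fun j _ => cl_od (mem_od_of ?_) j) (gamV_od (ho z) _)
  exact clm_fderiv (evP n) hu (fun y => evP_od (ho y)) z _

private theorem Tst_clm (T : W n →L[ℝ] W n) (hu : u ∈ Tst U) : (fun z => T (u z)) ∈ Tst U :=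
  ⟨T.contDiff.comp hu.1, hu.2.1.comp_left (map_zero T),
    (closure_mono (Function.support_comp_subset (map_zero T) u)).trans hu.2.2⟩

theorem Tst_evP (hu : u ∈ Tst U) : (fun z => evP n (u z)) ∈ Tst U := Tst_clm _ hu

theorem Tst_odP (hu : u ∈ Tst U) : (fun z => odP n (u z)) ∈ Tst U := Tst_clm _ hu

end Pool.Agent.FCI
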