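import Pool.Agent.FCI.Mola
import Pool.Agent.FCI.Cut
import Pool.Agent.FCI.Tsb

/-!
# FCI-Molb: regularisation of weak solutions by cut-off and mollification (weak equation, mollified equation, supports, limits)
-/

open scoped BigOperators Topology ContDiff
open MeasureTheory Filter Set

namespace Pool.Agent.FCI

open Pool.Agent.TUB (E)

variable {n : ℕ}

private theorem int_smul {φ : E n → ℝ} (hφ : Continuous φ) (hc : HasCompactSupport φ) {f : E n → W n}
    (hf : MemLp f 2 volume) : Integrable (fun z => φ z • f z) :=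
  (hf.locallyIntegrable (by norm_num)).integrable_smul_left_of_hasCompactSupport hφ hc

private theorem int_inner {f Y : E n → W n} (hf : MemLp f 2 volume) (hY : Continuous Y)
    (hc : HasCompactSupport Y) : Integrable (fun z => inner ℝ (f z) (Y z)) := by
  have h1 : Integrable (fun z => ‖Y z‖ • f z) := int_smul hY.norm hc.norm hf
  refine h1.norm.mono' (hf.aestronglyMeasurable.inner hY.aestronglyMeasurable) ?_
  refine Filter.Eventually.of_forall fun z => ?_
  rw [norm_smul, norm_norm, mul_comm]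
  exact norm_inner_le_norm (f z) (Y z)

private theorem Bop_smul_fun {g : E n → E n} {χ : E n → ℝ} (hχ : ContDiff ℝ ∞ χ) {u : E n → W n}
    (hu : ContDiff ℝ ∞ u) (z : E n) :
    Bop g (Idf n) (fun z => χ z • u z) z =
      χ z • ∑ j, cl j (fderiv ℝ u z (eb j)) + clV (grd χ z) (u z) + gamV (χ z • g z) (u z) := by
  have hne : (∞ : WithTop ℕ∞) ≠ 0 := by simp
  have hd1 : DifferentiableAt ℝ χ z := (hχ.differentiable hne) z
  have hd2 : DifferentiableAt ℝ u z := (hu.differentiable hne) z
  unfold Bop Dop Idf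
  have e : ∀ j : Fin n, cl j (fderiv ℝ (fun z => χ z • u z) z
      ((ContinuousLinearMap.id ℝ (E n)) (eb j))) =
      χ z • cl j (fderiv ℝ u z (eb j)) + (grd χ z) j • cl j (u z) := by
    intro j
    rw [fderiv_fun_smul hd1 hd2]
    simp [grd]
  rw [Finset.sum_congr rfl (fun j _ => e j), Finset.sum_add_distrib, ← Finset.smul_sum,
    ← clV_apply, map_smul, gamV_smul]
  rfl

private theorem grd_cont {χ : E n → ℝ} (hχ : ContDiff ℝ ∞ χ) : Continuous (grd χ) := by
  have hne : (∞ : WithTop ℕ∞) ≠ 0 := by simp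
  have h1 : Continuous (fderiv ℝ χ) := hχ.continuous_fderiv hne
  unfold grd
  refine (PiLp.continuous_toLp 2 (fun _ : Fin n => ℝ)).comp (continuous_pi fun i => ?_)
  exact h1.clm_apply continuous_const

private theorem grd_zero {χ : E n → ℝ} {z : E n} (hz : z ∉ tsupport χ) : grd χ z = 0 := by
  have h : fderiv ℝ χ z = 0 := by
    by_contra h
    exact hz (support_fderiv_subset ℝ (Function.mem_support.2 h))
  ext i
  simp [grd, h]

private theorem Dsum_cont {u : E n → W n} (hu : ContDiff ℝ ∞ u) :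
    Continuous (fun z => ∑ j, cl j (fderiv ℝ u z (eb j))) := by
  have hne : (∞ : WithTop ℕ∞) ≠ 0 := by simp
  have h1 : Continuous (fderiv ℝ u) := hu.continuous_fderiv hne
  refine continuous_finsetSum _ fun j _ => ?_
  exact (cl j).continuous.comp (h1.clm_apply continuous_const)

private theorem chi_g_cont {U : Set (E n)} (hU : IsOpen U) {g : E n → E n} (hg : ContDiffOn ℝ ∞ g U)
    {χ : E n → ℝ} (hχ : ContDiff ℝ ∞ χ) (hc : HasCompactSupport χ) (hs : tsupport χ ⊆ U) :
    Continuous (fun z => χ z • g z) := by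
  refine cc_cont hU hc hs (hχ.continuous.continuousOn.smul hg.continuousOn) fun z hz => ?_
  rw [image_eq_zero_of_notMem_tsupport hz, zero_smul]

private theorem A_cont {U : Set (E n)} (hU : IsOpen U) {g : E n → E n} (hg : ContDiffOn ℝ ∞ g U)
    {χ : E n → ℝ} (hχ : ContDiff ℝ ∞ χ) (hc : HasCompactSupport χ) (hs : tsupport χ ⊆ U) :
    Continuous (fun z => clV (grd χ z) - gamV (χ z • g z)) := by
  obtain ⟨T, hT⟩ := clV_clm (n := n)
  obtain ⟨S, hS⟩ := gamV_clm (n := n)
  have h1 : Continuous (fun z => T (grd χ z) - S (χ z • g z)) :=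
    (T.continuous.comp (grd_cont hχ)).sub (S.continuous.comp (chi_g_cont hU hg hχ hc hs))
  refine h1.congr fun z => ?_
  rw [hT, hS]

private theorem weak_eq {U : Set (E n)} (hU : IsOpen U) {g : E n → E n} (hg : ContDiffOn ℝ ∞ g U)
    {v : E n → W n} (hv : MemLp v 2 volume)
    (weak : ∀ u ∈ Tst U, ∫ z, inner ℝ (v z) (Bop g (Idf n) u z) = 0)
    {χ : E n → ℝ} (hχ : ContDiff ℝ ∞ χ) (hc : HasCompactSupport χ) (hs : tsupport χ ⊆ U)
    {u : E n → W n} (hu : ContDiff ℝ ∞ u) :
    ∫ z, inner ℝ (χ z • v z) (∑ j, cl j (fderiv ℝ u z (eb j))) =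
      ∫ z, inner ℝ (clV (grd χ z) (v z) - gamV (g z) (χ z • v z)) (u z) := by
  have hmem : (fun z => χ z • u z) ∈ Tst U := by
    refine ⟨hχ.smul hu, hc.smul_right, ?_⟩
    exact (tsupport_smul_subset_left χ u).trans hs
  have h0 := weak _ hmem
  have hY1 : Integrable (fun z => inner ℝ (v z) (χ z • ∑ j, cl j (fderiv ℝ u z (eb j)))) :=
    int_inner hv (hχ.continuous.smul (Dsum_cont hu)) hc.smul_right
  obtain ⟨T, hT⟩ := clV_clm (n := n)
  obtain ⟨S, hS⟩ := gamV_clm (n := n)
  have hY2 : Integrable (fun z => inner ℝ (v z)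
      (clV (grd χ z) (u z) + gamV (χ z • g z) (u z))) := by
    refine int_inner hv ?_ ?_
    · have h1 : Continuous (fun z => T (grd χ z) (u z) + S (χ z • g z) (u z)) :=
        ((T.continuous.comp (grd_cont hχ)).clm_apply hu.continuous).add
          ((S.continuous.comp (chi_g_cont hU hg hχ hc hs)).clm_apply hu.continuous)
      refine h1.congr fun z => ?_
      rw [hT, hS]
    · refine HasCompactSupport.intro hc fun z hz => ?_
      rw [grd_zero hz, image_eq_zero_of_notMem_tsupport hz, zero_smul, ← hT, ← hS]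
      simp
  have hb : ∀ z, inner ℝ (v z) (Bop g (Idf n) (fun z => χ z • u z) z) =
      inner ℝ (v z) (χ z • ∑ j, cl j (fderiv ℝ u z (eb j))) +
        inner ℝ (v z) (clV (grd χ z) (u z) + gamV (χ z • g z) (u z)) := by
    intro z
    rw [Bop_smul_fun hχ hu z, add_assoc, inner_add_right]
  rw [integral_congr_ae (Filter.Eventually.of_forall hb), integral_add hY1 hY2] at h0
  have e1 : ∀ z, inner ℝ (v z) (χ z • ∑ j, cl j (fderiv ℝ u z (eb j))) =
      inner ℝ (χ z • v z) (∑ j, cl j (fderiv ℝ u z (eb j))) := by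
    intro z
    rw [real_inner_smul_left, real_inner_smul_right]
  have e2 : ∀ z, inner ℝ (v z) (clV (grd χ z) (u z) + gamV (χ z • g z) (u z)) =
      -inner ℝ (clV (grd χ z) (v z) - gamV (g z) (χ z • v z)) (u z) := by
    intro z
    rw [inner_add_right, inner_sub_left, inner_clV, gamV_smul, inner_gamV]
    simp only [smul_apply, real_inner_smul_left, real_inner_smul_right]
    ring
  rw [integral_congr_ae (Filter.Eventually.of_forall e1),
    integral_congr_ae (Filter.Eventually.of_forall e2), integral_neg] at h0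
  linarith

private theorem moll_od {f : E n → W n} (hf : ∀ z, f z ∈ odS n) (φ : E n → ℝ)
    (hi : Integrable (fun t => φ t • f t)) : ∫ t, φ t • f t ∈ odS n := by
  intro I hI
  have h1 := (EuclideanSpace.proj I : W n →L[ℝ] ℝ).integral_comp_comm hi
  have h2 : ∀ t, (EuclideanSpace.proj I : W n →L[ℝ] ℝ) (φ t • f t) = 0 := by
    intro t
    have := hf t I hI
    simp [this]
  rw [integral_congr_ae (Filter.Eventually.of_forall h2), integral_zero] at h1
  exact h1.symm

private theorem sub_cs {φ : E n → ℝ} (hφ : Continuous φ) (hc : HasCompactSupport φ) (z : E n) :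
    Continuous (fun t => φ (z - t)) ∧ HasCompactSupport (fun t => φ (z - t)) :=
  ⟨hφ.comp (continuous_const.sub continuous_id), hc.comp_homeomorph (Homeomorph.subLeft z)⟩

private theorem moll_key {η : E n → ℝ} (hη : ContDiff ℝ ∞ η) (hηc : HasCompactSupport η)
    {f0 f1 : E n → W n} (hf0 : MemLp f0 2 volume) (hf1 : MemLp f1 2 volume)
    (hw : ∀ u : E n → W n, ContDiff ℝ ∞ u →
      ∫ z, inner ℝ (f0 z) (∑ j, cl j (fderiv ℝ u z (eb j))) = ∫ z, inner ℝ (f1 z) (u z))
    (hfd : ∀ z v, fderiv ℝ (fun z => ∫ t, η (z - t) • f0 t) z v =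
      ∫ t, (fderiv ℝ η (z - t) v) • f0 t) (z : E n) :
    ∑ j, cl j (fderiv ℝ (fun z => ∫ t, η (z - t) • f0 t) z (eb j)) = ∫ t, η (z - t) • f1 t := by
  have hne : (∞ : WithTop ℕ∞) ≠ 0 := by simp
  have hint1 : Integrable (fun t => η (z - t) • f1 t) :=
    int_smul (sub_cs hη.continuous hηc z).1 (sub_cs hη.continuous hηc z).2 hf1
  have hdc : ∀ v : E n, Continuous (fun y => fderiv ℝ η y v) := fun v =>
    (hη.continuous_fderiv hne).clm_apply continuous_const
  have hds : ∀ v : E n, HasCompactSupport (fun y => fderiv ℝ η y v) := fun v =>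
    hηc.fderiv_apply ℝ v
  have hint0 : ∀ v : E n, Integrable (fun t => (fderiv ℝ η (z - t) v) • f0 t) := fun v =>
    int_smul (sub_cs (hdc v) (hds v) z).1 (sub_cs (hdc v) (hds v) z).2 hf0
  refine ext_inner_right ℝ fun p => ?_
  have hu : ContDiff ℝ ∞ (fun t : E n => η (z - t) • p) :=
    (hη.comp (contDiff_const.sub contDiff_id)).smul contDiff_const
  have hfu : ∀ t v, fderiv ℝ (fun t : E n => η (z - t) • p) t v = -((fderiv ℝ η (z - t) v) • p) := by
    intro t v
    have h1 : HasFDerivAt η (fderiv ℝ η (z - t)) (z - t) :=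
      ((hη.differentiable hne) (z - t)).hasFDerivAt
    have h2 : HasFDerivAt (fun t : E n => z - t) (-ContinuousLinearMap.id ℝ (E n)) t := by
      simpa using (hasFDerivAt_id t).const_sub z
    have h3 := (h1.comp t h2).smul_const p
    rw [show (fun t : E n => η (z - t) • p) = fun y => (η ∘ fun t => z - t) y • p from rfl, h3.fderiv]
    simp
  have hwu := hw _ hu
  have e1 : ∫ t, inner ℝ (f1 t) (η (z - t) • p) = inner ℝ (∫ t, η (z - t) • f1 t) p := by
    have h := integral_inner (𝕜 := ℝ) hint1 p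
    rw [real_inner_comm, ← h]
    refine integral_congr_ae (Filter.Eventually.of_forall fun t => ?_)
    simp only [real_inner_smul_right]
    rw [real_inner_comm]
  rw [← e1, ← hwu, sum_inner]
  have e2 : ∀ j : Fin n, inner ℝ (cl j (fderiv ℝ (fun z => ∫ t, η (z - t) • f0 t) z (eb j))) p =
      ∫ t, inner ℝ (f0 t) (cl j (fderiv ℝ (fun t : E n => η (z - t) • p) t (eb j))) := by
    intro j
    rw [inner_cl, hfd, real_inner_comm, ← integral_inner (hint0 (eb j)) (cl j p), ← integral_neg]
    refine integral_congr_ae (Filter.Eventually.of_forall fun t => ?_)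
    simp only [hfu, map_neg, map_smul, inner_neg_right, real_inner_smul_right]
    rw [real_inner_comm]
  rw [Finset.sum_congr rfl (fun j _ => e2 j), ← integral_finsetSum]
  · refine integral_congr_ae (Filter.Eventually.of_forall fun t => ?_)
    simp only [inner_sum]
  · intro j _
    refine ((hint0 (eb j)).inner_const (𝕜 := ℝ) (cl j p)).neg.congr
      (Filter.Eventually.of_forall fun t => ?_)
    simp only [hfu, map_neg, map_smul, inner_neg_right, real_inner_smul_right,
      real_inner_smul_left, Pi.neg_apply]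

theorem regularise {U : Set (E n)} (hU : IsOpen U) {g : E n → E n} (hg : ContDiffOn ℝ ∞ g U) {v : E n → W n}
    (hv : MemLp v 2 volume) (hodd : ∀ z, v z ∈ odS n)
    (weak : ∀ u ∈ Tst U, ∫ z, inner ℝ (v z) (Bop g (Idf n) u z) = 0)
    {χ : E n → ℝ} (hχ : ContDiff ℝ ∞ χ) (hc : HasCompactSupport χ) (hs : tsupport χ ⊆ U) :
    ∃ (w : ℕ → E n → W n) (K : Set (E n)), IsCompact K ∧ K ⊆ U ∧ (∀ k, w k ∈ Tst U) ∧
      (∀ k z, w k z ∈ odS n) ∧ (∀ k z, z ∉ K → w k z = 0) ∧
      Tendsto (fun k => ∫ z, ‖w k z - χ z • v z‖ ^ 2) atTop (𝓝 0) ∧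
      Tendsto (fun k => ∫ z, ‖Bop g (Idf n) (w k) z - clV (grd χ z) (v z)‖ ^ 2) atTop (𝓝 0) := by
  classical
  obtain ⟨η, hη, hηc, hη0, hM⟩ := moll_ex n
  -- the two functions
  set f0 : E n → W n := fun z => χ z • v z with hf0d
  set f1 : E n → W n := fun z => clV (grd χ z) (v z) - gamV (g z) (χ z • v z) with hf1d
  obtain ⟨Cχ, hCχ⟩ := hχ.continuous.bounded_above_of_compact_support hc
  have hf0 : MemLp f0 2 volume := by
    refine MemLp.of_le_mul hv
      (hχ.continuous.aestronglyMeasurable.smul hv.aestronglyMeasurable) (c := Cχ)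
      (Filter.Eventually.of_forall fun z => ?_)
    rw [hf0d]
    simp only [norm_smul]
    exact mul_le_mul_of_nonneg_right (hCχ z) (norm_nonneg _)
  have hAc := A_cont hU hg hχ hc hs
  have hAs : HasCompactSupport (fun z => clV (grd χ z) - gamV (χ z • g z)) := by
    obtain ⟨T, hT⟩ := clV_clm (n := n)
    obtain ⟨S, hS⟩ := gamV_clm (n := n)
    refine HasCompactSupport.intro hc fun z hz => ?_
    rw [grd_zero hz, image_eq_zero_of_notMem_tsupport hz, zero_smul, ← hT, ← hS]
    simp
  obtain ⟨CA, hCA⟩ := hAc.bounded_above_of_compact_support hAs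
  have hf1e : ∀ z, f1 z = (clV (grd χ z) - gamV (χ z • g z)) (v z) := by
    intro z
    rw [hf1d]
    simp only [sub_apply, gamV_smul, smul_apply, map_smul]
  have hf1 : MemLp f1 2 volume := by
    refine MemLp.of_le_mul hv ?_ (c := CA) (Filter.Eventually.of_forall fun z => ?_)
    · refine AEStronglyMeasurable.congr ?_ (Filter.Eventually.of_forall fun z => (hf1e z).symm)
      exact (ContinuousLinearMap.id ℝ (W n →L[ℝ] W n)).aestronglyMeasurable_comp₂
        hAc.aestronglyMeasurable hv.aestronglyMeasurable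
    · rw [hf1e]
      exact (ContinuousLinearMap.le_opNorm _ _).trans
        (mul_le_mul_of_nonneg_right (hCA z) (norm_nonneg _))
  have hwk : ∀ u : E n → W n, ContDiff ℝ ∞ u →
      ∫ z, inner ℝ (f0 z) (∑ j, cl j (fderiv ℝ u z (eb j))) = ∫ z, inner ℝ (f1 z) (u z) :=
    fun u hu => weak_eq hU hg hv weak hχ hc hs hu
  obtain ⟨hs0, hd0, hm0, ht0⟩ := hM f0 hf0
  obtain ⟨hs1, hd1, hm1, ht1⟩ := hM f1 hf1
  -- the compact set
  obtain ⟨δ, hδ, hδU⟩ := IsCompact.exists_cthickening_subset_open (s := tsupport χ) hc hU hs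
  have hKc : IsCompact (Metric.cthickening δ (tsupport χ)) := IsCompact.cthickening hc
  obtain ⟨k0, hk0⟩ := exists_nat_one_div_lt hδ
  have hz0 : ∀ k z, z ∉ Metric.cthickening δ (tsupport χ) →
      ∫ t, η (k + k0) (z - t) • f0 t = 0 := by
    intro k z hz
    have : ∀ t, η (k + k0) (z - t) • f0 t = 0 := by
      intro t
      by_cases ht : t ∈ tsupport χ
      · have h1 : δ < dist z t := by
          by_contra hcon
          exact hz (Metric.mem_cthickening_of_dist_le z t δ _ ht (not_lt.1 hcon))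
        have h2 : 1 / (((k + k0 : ℕ) : ℝ) + 1) ≤ ‖z - t‖ := by
          rw [← dist_eq_norm]
          refine le_trans ?_ h1.le
          refine le_trans ?_ hk0.le
          refine one_div_le_one_div_of_le (by positivity) ?_
          push_cast
          have : (0 : ℝ) ≤ k := Nat.cast_nonneg k
          linarith
        rw [hη0 _ _ h2, zero_smul]
      · rw [hf0d]
        simp only [image_eq_zero_of_notMem_tsupport ht, zero_smul, smul_zero]
    rw [integral_congr_ae (Filter.Eventually.of_forall this), integral_zero]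
  have hf0K : ∀ z, z ∉ Metric.cthickening δ (tsupport χ) → f0 z = 0 := by
    intro z hz
    have ht : z ∉ tsupport χ := fun h => hz (Metric.self_subset_cthickening _ h)
    rw [hf0d]
    simp only [image_eq_zero_of_notMem_tsupport ht, zero_smul]
  obtain ⟨Cg, hCg⟩ := hKc.exists_bound_of_continuousOn (hg.continuousOn.mono hδU)
  have hBop : ∀ k z, Bop g (Idf n) (fun z => ∫ t, η (k + k0) (z - t) • f0 t) z =
      (∫ t, η (k + k0) (z - t) • f1 t) + gamV (g z) (∫ t, η (k + k0) (z - t) • f0 t) := by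
    intro k z
    have h := moll_key (hη (k + k0)) (hηc (k + k0)) hf0 hf1 hwk (hd0 (k + k0)) z
    unfold Bop Dop Idf
    rw [← h]
    rfl
  have hdiff : ∀ k z, Bop g (Idf n) (fun z => ∫ t, η (k + k0) (z - t) • f0 t) z -
      clV (grd χ z) (v z) = ((∫ t, η (k + k0) (z - t) • f1 t) - f1 z) +
        gamV (g z) ((∫ t, η (k + k0) (z - t) • f0 t) - f0 z) := by
    intro k z
    rw [hBop, map_sub]
    have : f1 z + gamV (g z) (f0 z) = clV (grd χ z) (v z) := by
      rw [hf1d, hf0d]
      simp only [sub_add_cancel]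
    rw [← this]
    abel
  refine ⟨fun k z => ∫ t, η (k + k0) (z - t) • f0 t, Metric.cthickening δ (tsupport χ), hKc, hδU,
    ?_, ?_, hz0, ?_, ?_⟩
  · intro k
    refine ⟨hs0 (k + k0), HasCompactSupport.intro hKc (hz0 k), ?_⟩
    refine (closure_minimal ?_ hKc.isClosed).trans hδU
    intro z hz
    by_contra hcon
    exact hz (hz0 k z hcon)
  · intro k z
    have hi : Integrable (fun t => η (k + k0) (z - t) • f0 t) :=
      int_smul (sub_cs (hη (k + k0)).continuous (hηc (k + k0)) z).1
        (sub_cs (hη (k + k0)).continuous (hηc (k + k0)) z).2 hf0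
    exact moll_od (fun z => (odS n).smul_mem _ (hodd z)) (fun t => η (k + k0) (z - t)) hi
  · exact ht0.comp (tendsto_add_atTop_nat k0)
  · have hb0 : ∀ k, Integrable (fun z => ‖(∫ t, η (k + k0) (z - t) • f0 t) - f0 z‖ ^ 2) := fun k =>
      ((hm0 (k + k0)).sub hf0).integrable_norm_pow two_ne_zero
    have hb1 : ∀ k, Integrable (fun z => ‖(∫ t, η (k + k0) (z - t) • f1 t) - f1 z‖ ^ 2) := fun k =>
      ((hm1 (k + k0)).sub hf1).integrable_norm_pow two_ne_zero
    have hlim : Tendsto (fun k => 2 * (∫ z, ‖(∫ t, η (k + k0) (z - t) • f1 t) - f1 z‖ ^ 2) +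
        2 * Cg ^ 2 * ∫ z, ‖(∫ t, η (k + k0) (z - t) • f0 t) - f0 z‖ ^ 2) atTop (𝓝 0) := by
      have h1 := (ht1.comp (tendsto_add_atTop_nat k0)).const_mul 2
      have h2 := (ht0.comp (tendsto_add_atTop_nat k0)).const_mul (2 * Cg ^ 2)
      have h3 := h1.add h2
      rw [mul_zero, mul_zero, add_zero] at h3
      exact h3
    refine squeeze_zero (fun k => integral_nonneg fun z => by positivity) (fun k => ?_) hlim
    rw [← integral_const_mul, ← integral_const_mul, ← integral_add ((hb1 k).const_mul 2)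
      ((hb0 k).const_mul (2 * Cg ^ 2))]
    refine integral_mono_of_nonneg (Filter.Eventually.of_forall fun z => by positivity)
      (((hb1 k).const_mul 2).add ((hb0 k).const_mul (2 * Cg ^ 2)))
      (Filter.Eventually.of_forall fun z => ?_)
    simp only [hdiff]
    set a := (∫ t, η (k + k0) (z - t) • f1 t) - f1 z with ha
    set b := (∫ t, η (k + k0) (z - t) • f0 t) - f0 z with hb
    have h1 : ‖gamV (g z) b‖ ≤ Cg * ‖b‖ := by
      rw [norm_gamV]
      by_cases hz : z ∈ Metric.cthickening δ (tsupport χ)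
      · exact mul_le_mul_of_nonneg_right (hCg z hz) (norm_nonneg _)
      · have : b = 0 := by rw [hb, hz0 k z hz, hf0K z hz, sub_zero]
        rw [this, norm_zero, mul_zero, mul_zero]
    have h2 : ‖a + gamV (g z) b‖ ≤ ‖a‖ + Cg * ‖b‖ := (norm_add_le _ _).trans (by linarith)
    have h3 : ‖a + gamV (g z) b‖ ^ 2 ≤ (‖a‖ + Cg * ‖b‖) ^ 2 :=
      pow_le_pow_left₀ (norm_nonneg _) h2 2
    nlinarith [sq_nonneg (‖a‖ - Cg * ‖b‖)]

end Pool.Agent.FCI
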