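import Pool.Agent.FCI.Box
import Pool.Agent.TUB.BJ

/-!
# FCI-Opt: optimal radii and the quantitative inequality
-/

open scoped BigOperators Topology ContDiff
open Filter Set

namespace Pool.Agent.FCI

open Pool.Agent.TUB (E jw)

/-- the constant `l π + j_{k0/2-1}` -/
noncomputable def Scon (l k0 : ℕ) : ℝ := l * Real.pi + (if k0 = 0 then 0 else Real.sqrt (jw k0))

private theorem opt_lim {X A J C ρ : ℝ} {l : ℕ} (hρ : 0 < ρ)
    (h : ∀ σ, 0 < σ → σ < ρ → X ≤ A + l * (J * 4 / (ρ - σ) ^ 2) + C) :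
    X ≤ A + l * (J * 4 / ρ ^ 2) + C := by
  have h1 : ContinuousAt (fun σ : ℝ => A + l * (J * 4 / (ρ - σ) ^ 2) + C) 0 := by
    have h2 : ContinuousAt (fun σ : ℝ => (ρ - σ) ^ 2) 0 := by fun_prop
    have h3 : (ρ - 0) ^ 2 ≠ 0 := by
      rw [sub_zero]
      positivity
    have h4 : ContinuousAt (fun σ : ℝ => J * 4 / (ρ - σ) ^ 2) 0 := continuousAt_const.div h2 h3
    exact (continuousAt_const.add (continuousAt_const.mul h4)).add continuousAt_const
  have h5 : Tendsto (fun σ : ℝ => A + l * (J * 4 / (ρ - σ) ^ 2) + C) (𝓝[>] 0)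
      (𝓝 (A + l * (J * 4 / (ρ - 0) ^ 2) + C)) := h1.tendsto.mono_left nhdsWithin_le_nhds
  rw [sub_zero] at h5
  refine ge_of_tendsto h5 ?_
  filter_upwards [Ioo_mem_nhdsGT hρ] with σ hσ
  exact h σ hσ.1 hσ.2

private theorem opt_first {m : ℕ} {K : ℝ} :
    (m : ℝ) * (jw 1 / K ^ 2) ≤ m * (Real.pi / 2) ^ 2 / K ^ 2 := by
  have h1 : jw 1 ≤ (Real.pi / 2) ^ 2 := by
    refine Pool.Agent.TUB.jw_one_le.trans (le_of_eq ?_)
    ring
  rw [mul_div_assoc]
  exact mul_le_mul_of_nonneg_left (div_le_div_of_nonneg_right h1 (sq_nonneg K))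
    (Nat.cast_nonneg m)

private theorem opt_second {l : ℕ} {r S ρ : ℝ} (hr : 0 < r) (hS : 0 < S)
    (hρ : ρ ^ 2 = r ^ 2 * (Real.pi / S)) :
    (l : ℝ) * (jw 1 * 4 / ρ ^ 2) ≤ l * Real.pi * S / r ^ 2 := by
  have hpi := Real.pi_pos
  have h1 : jw 1 * 4 ≤ Real.pi ^ 2 := by
    have := Pool.Agent.TUB.jw_one_le
    linarith
  have h2 : (l : ℝ) * Real.pi * S / r ^ 2 = l * (Real.pi ^ 2 / ρ ^ 2) := by
    rw [hρ]
    field_simp
  rw [h2]
  exact mul_le_mul_of_nonneg_left (div_le_div_of_nonneg_right h1 (sq_nonneg ρ))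
    (Nat.cast_nonneg l)

theorem cube_quant {m l k0 n : ℕ} (hn : 1 ≤ n) (hmn : n = m + 2 * l + k0) {g : E m → E n} {O : Set (E m)} {D c : ℝ}
    (hD : 0 < D) (hc : 0 ≤ c) (hW : WCube g O D c) {e : Nix l k0 → E m → E n} (he : NFr g O e)
    {r : ℝ} (hr : 0 < r) (hcr : c * r < 1) :
    jw n / (1 + r) ^ 2 ≤ m * (Real.pi / 2) ^ 2 / (D * (1 - c * r)) ^ 2 + Scon l k0 ^ 2 / r ^ 2 := by
  have hpi := Real.pi_pos
  have hl0 : (0 : ℝ) ≤ l := Nat.cast_nonneg l
  by_cases hk : k0 = 0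
  · have hSdef : Scon l k0 = l * Real.pi := by
      rw [Scon, if_pos hk, add_zero]
    rcases Nat.eq_zero_or_pos l with hl | hl
    · have hbox := box_ineq (σ := 1 / 2) (ρ := 1) (ρ0 := 1) hn hmn hD hc hW he hr hcr
        (by norm_num) (by norm_num) (by norm_num) (by rw [if_pos hk, hl]; simp; positivity)
      rw [if_pos hk, hl, Nat.cast_zero, zero_mul, add_zero, add_zero] at hbox
      rw [hSdef, hl, Nat.cast_zero, zero_mul]
      have h1 := opt_first (m := m) (K := D * (1 - c * r))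
      have h2 : (0 : ℝ) ^ 2 / r ^ 2 = 0 := by simp
      rw [h2, add_zero]
      exact hbox.trans h1
    · have hlpos : (0 : ℝ) < l := by exact_mod_cast hl
      have hS : 0 < Scon l k0 := by
        rw [hSdef]
        positivity
      set S := Scon l k0 with hSS
      set ρ := r * Real.sqrt (Real.pi / S) with hρdef
      have hρ : 0 < ρ := by
        rw [hρdef]
        positivity
      have hρ2 : ρ ^ 2 = r ^ 2 * (Real.pi / S) := by
        rw [hρdef, mul_pow, Real.sq_sqrt (by positivity)]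
      have hsum : (l : ℝ) * ρ ^ 2 + (if k0 = 0 then 0 else (1 : ℝ) ^ 2) ≤ r ^ 2 := by
        rw [if_pos hk, add_zero, hρ2, hSdef]
        refine le_of_eq ?_
        field_simp
      have hkey := opt_lim hρ (fun σ h0 h1 =>
        box_ineq (σ := σ) (ρ := ρ) (ρ0 := 1) hn hmn hD hc hW he hr hcr h0 h1 one_pos hsum)
      rw [if_pos hk, add_zero] at hkey
      have h1 := opt_first (m := m) (K := D * (1 - c * r))
      have h2 := opt_second (l := l) hr hS hρ2
      have h3 : (l : ℝ) * Real.pi * S / r ^ 2 = S ^ 2 / r ^ 2 := by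
        rw [← hSdef, pow_two S]
      rw [h3] at h2
      exact hkey.trans (add_le_add h1 h2)
  · have hk1 : (1 : ℝ) ≤ k0 := by exact_mod_cast Nat.one_le_iff_ne_zero.mpr hk
    have hjpos : 0 < jw k0 := (Pool.Agent.TUB.jw_facts hk1).1
    set j0 := Real.sqrt (jw k0) with hj0
    have hj0pos : 0 < j0 := Real.sqrt_pos.mpr hjpos
    have hj0sq : jw k0 = j0 ^ 2 := (Real.sq_sqrt hjpos.le).symm
    have hSdef : Scon l k0 = l * Real.pi + j0 := by
      rw [Scon, if_neg hk]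
    have hS : 0 < Scon l k0 := by
      rw [hSdef]
      positivity
    set S := Scon l k0 with hSS
    set ρ := r * Real.sqrt (Real.pi / S) with hρdef
    have hρ : 0 < ρ := by
      rw [hρdef]
      positivity
    have hρ2 : ρ ^ 2 = r ^ 2 * (Real.pi / S) := by
      rw [hρdef, mul_pow, Real.sq_sqrt (by positivity)]
    set ρ0 := r * Real.sqrt (j0 / S) with hρ0def
    have hρ0 : 0 < ρ0 := by
      rw [hρ0def]
      positivity
    have hρ02 : ρ0 ^ 2 = r ^ 2 * (j0 / S) := by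
      rw [hρ0def, mul_pow, Real.sq_sqrt (by positivity)]
    have hsum : (l : ℝ) * ρ ^ 2 + (if k0 = 0 then 0 else ρ0 ^ 2) ≤ r ^ 2 := by
      rw [if_neg hk, hρ2, hρ02]
      have e1 : (l : ℝ) * (r ^ 2 * (Real.pi / S)) + r ^ 2 * (j0 / S) =
          r ^ 2 * ((l * Real.pi + j0) / S) := by ring
      rw [e1, ← hSdef, div_self hS.ne', mul_one]
    have hkey := opt_lim hρ (fun σ h0 h1 =>
      box_ineq (σ := σ) (ρ := ρ) (ρ0 := ρ0) hn hmn hD hc hW he hr hcr h0 h1 hρ0 hsum)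
    rw [if_neg hk] at hkey
    have h1 := opt_first (m := m) (K := D * (1 - c * r))
    have h2 := opt_second (l := l) hr hS hρ2
    have h3 : jw k0 / ρ0 ^ 2 = j0 * S / r ^ 2 := by
      rw [hj0sq, hρ02]
      field_simp
    have h4 : (l : ℝ) * Real.pi * S / r ^ 2 + j0 * S / r ^ 2 = S ^ 2 / r ^ 2 := by
      rw [← add_div]
      congr 1
      rw [← add_mul, ← hSdef, pow_two S]
    rw [h3] at hkey
    calc jw n / (1 + r) ^ 2 ≤ _ := hkey
      _ ≤ m * (Real.pi / 2) ^ 2 / (D * (1 - c * r)) ^ 2 + l * Real.pi * S / r ^ 2 +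
          j0 * S / r ^ 2 := by linarith
      _ = _ := by rw [add_assoc, h4]

/-- Letting the width tend to infinity and `r → 1/c`. -/
theorem quant_limit {N S c : ℝ} {m : ℕ} (hN : 0 ≤ N) (hS : 0 ≤ S) (hc : 0 ≤ c)
    (h : ∀ D r : ℝ, 0 < D → 0 < r → c * r < 1 →
      N ^ 2 / (1 + r) ^ 2 ≤ m * (Real.pi / 2) ^ 2 / (D * (1 - c * r)) ^ 2 + S ^ 2 / r ^ 2) :
    N ≤ (1 + c) * S := by
  have hstep : ∀ x : ℝ, c < x → N ≤ (1 + x) * S := by
    intro x hx
    have hx0 : 0 < x := lt_of_le_of_lt hc hx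
    have hr : 0 < 1 / x := by positivity
    have hcr : c * (1 / x) < 1 := by
      rw [mul_one_div, div_lt_one hx0]
      exact hx
    have hK : 0 < 1 - c * (1 / x) := by linarith
    have hlim : Tendsto (fun D : ℝ => m * (Real.pi / 2) ^ 2 / (D * (1 - c * (1 / x))) ^ 2 +
        S ^ 2 / (1 / x) ^ 2) atTop (𝓝 (0 + S ^ 2 / (1 / x) ^ 2)) := by
      refine Tendsto.add ?_ tendsto_const_nhds
      refine Tendsto.const_div_atTop ?_ _
      exact (tendsto_pow_atTop two_ne_zero).comp (tendsto_id.atTop_mul_const hK)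
    have h1 : N ^ 2 / (1 + 1 / x) ^ 2 ≤ 0 + S ^ 2 / (1 / x) ^ 2 := by
      refine ge_of_tendsto hlim ?_
      filter_upwards [eventually_gt_atTop 0] with D hD
      exact h D (1 / x) hD hr hcr
    rw [zero_add, ← div_pow, ← div_pow] at h1
    have h2 : N / (1 + 1 / x) ≤ S / (1 / x) :=
      (pow_le_pow_iff_left₀ (by positivity) (by positivity) two_ne_zero).mp h1
    have h3 : 0 < 1 + 1 / x := by positivity
    rw [div_le_iff₀ h3] at h2
    refine h2.trans (le_of_eq ?_)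
    field_simp
    ring
  have hlim2 : Tendsto (fun x : ℝ => (1 + x) * S) (𝓝[>] c) (𝓝 ((1 + c) * S)) := by
    have h1 : ContinuousAt (fun x : ℝ => (1 + x) * S) c := by fun_prop
    exact h1.tendsto.mono_left nhdsWithin_le_nhds
  refine ge_of_tendsto hlim2 ?_
  filter_upwards [self_mem_nhdsWithin] with x hx
  exact hstep x hx

theorem Scon_le (l k0 : ℕ) : Scon l k0 ≤ (2 * l + k0) * Real.pi / 2 := by
  rw [Scon]
  by_cases hk : k0 = 0
  · rw [if_pos hk, hk, Nat.cast_zero]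
    refine le_of_eq ?_
    ring
  · rw [if_neg hk]
    have hk1 : 1 ≤ k0 := Nat.one_le_iff_ne_zero.mpr hk
    have hk2 : (1 : ℝ) ≤ k0 := by exact_mod_cast hk1
    have h1 := Pool.Agent.TUB.jz_le hk1
    rw [(Pool.Agent.TUB.jz_eq hk2).1] at h1
    have h2 : (2 * (l : ℝ) + k0) * Real.pi / 2 = l * Real.pi + k0 * Real.pi / 2 := by ring
    rw [h2]
    linarith

end Pool.Agent.FCI
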