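import Pool.Agent.FCI.GDefs

/-!
# FCI-Per: a periodic immersion is bounded below (compactness of the cube times the sphere)
-/

open scoped BigOperators Topology ContDiff
open Filter Set

namespace Pool.Agent.FCI

open Pool.Agent.TUB (E)

private theorem per_int {m : ℕ} {X : Type*} {h : E m → X} (hp : ∀ x i, h (x + eb i) = h x) (x : E m)
    (i : Fin m) (k : ℤ) : h (x + (k : ℝ) • eb i) = h x := by
  induction k using Int.induction_on with
  | zero => simp
  | succ n ih =>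
    have e : x + (((n : ℤ) + 1 : ℤ) : ℝ) • eb i = (x + ((n : ℤ) : ℝ) • eb i) + eb i := by
      push_cast
      rw [add_smul, one_smul, add_assoc]
    rw [e, hp, ih]
  | pred n ih =>
    have e : (x + ((-(n : ℤ) - 1 : ℤ) : ℝ) • eb i) + eb i = x + ((-(n : ℤ) : ℤ) : ℝ) • eb i := by
      push_cast
      rw [sub_smul, one_smul, add_assoc, sub_add_cancel]
    rw [← hp, e, ih]

private theorem per_sum {m : ℕ} {X : Type*} {h : E m → X} (hp : ∀ x i, h (x + eb i) = h x) (x : E m)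
    (k : Fin m → ℤ) (s : Finset (Fin m)) : h (x + ∑ i ∈ s, (k i : ℝ) • eb i) = h x := by
  classical
  induction s using Finset.induction_on with
  | empty => simp
  | insert a s ha ih =>
    rw [Finset.sum_insert ha, add_comm ((k a : ℝ) • eb a), ← add_assoc, per_int hp, ih]

private theorem per_coord {m : ℕ} (k : Fin m → ℝ) (j : Fin m) :
    (∑ i, k i • (eb i : E m)) j = k j := by
  classical
  have h1 : (∑ i, k i • (eb i : E m)) j = ∑ i, (k i • (eb i : E m)) j := by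
    simp [WithLp.ofLp_sum, Finset.sum_apply]
  rw [h1, Finset.sum_eq_single j]
  · simp [eb]
  · intro b _ hb
    simp [eb, Ne.symm hb]
  · intro h
    exact absurd (Finset.mem_univ j) h

theorem per_lower {m n : ℕ} {f : E m → E n} (hf : ContDiff ℝ ∞ f) (hper : ∀ x i, f (x + eb i) = f x)
    (hinj : ∀ x, Function.Injective (fderiv ℝ f x)) : ∃ c0 : ℝ, 0 < c0 ∧ ∀ x v, c0 * ‖v‖ ≤ ‖fderiv ℝ f x v‖ := by
  classical
  have hp : ∀ x i, fderiv ℝ f (x + eb i) = fderiv ℝ f x := by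
    intro x i
    have h1 : (fun y => f (y + eb i)) = f := funext fun y => hper y i
    have h2 := fderiv_comp_add_right (𝕜 := ℝ) (f := f) (x := x) (eb i)
    rw [h1] at h2
    exact h2.symm
  set K : Set (E m) := (EuclideanSpace.equiv (Fin m) ℝ).symm '' (Set.pi univ (fun _ => Icc (0 : ℝ) 1)) with hK
  have hKc : IsCompact K :=
    (isCompact_univ_pi fun _ => isCompact_Icc).image (EuclideanSpace.equiv (Fin m) ℝ).symm.continuous
  have hKm : ∀ x : E m, (∀ i, x i ∈ Icc (0 : ℝ) 1) → x ∈ K := by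
    intro x hx
    exact ⟨(EuclideanSpace.equiv (Fin m) ℝ) x, fun i _ => hx i, by simp⟩
  have hred : ∀ x : E m, ∃ y ∈ K, fderiv ℝ f x = fderiv ℝ f y := by
    intro x
    refine ⟨x + ∑ i, ((-⌊x i⌋ : ℤ) : ℝ) • eb i, hKm _ fun j => ?_, (per_sum hp x (fun i => -⌊x i⌋) Finset.univ).symm⟩
    have h1 : (x + ∑ i, ((-⌊x i⌋ : ℤ) : ℝ) • eb i) j = Int.fract (x j) := by
      have h2 := per_coord (fun i => ((-⌊x i⌋ : ℤ) : ℝ)) j
      have h3 : (x + ∑ i, ((-⌊x i⌋ : ℤ) : ℝ) • eb i) j = x j + (∑ i, ((-⌊x i⌋ : ℤ) : ℝ) • (eb i : E m)) j := rfl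
      rw [h3, h2, Int.fract]
      push_cast
      ring
    rw [h1]
    exact ⟨Int.fract_nonneg _, (Int.fract_lt_one _).le⟩
  have hcont : Continuous (fun p : E m × E m => ‖fderiv ℝ f p.1 p.2‖) :=
    ((hf.continuous_fderiv (by simp)).comp continuous_fst |>.clm_apply continuous_snd).norm
  have hS : IsCompact (K ×ˢ Metric.sphere (0 : E m) 1) := hKc.prod (isCompact_sphere 0 1)
  by_cases hne : (K ×ˢ Metric.sphere (0 : E m) 1).Nonempty
  · obtain ⟨⟨x0, v0⟩, hx0, hmin⟩ := hS.exists_isMinOn hne hcont.continuousOn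
    have hv0 : v0 ≠ 0 := by
      intro h0
      have := hx0.2
      simp [h0] at this
    have hpos : 0 < ‖fderiv ℝ f x0 v0‖ := by
      rw [norm_pos_iff]
      intro h0
      exact hv0 (hinj x0 (by rw [h0, map_zero]))
    refine ⟨_, hpos, fun x v => ?_⟩
    by_cases hv : v = 0
    · simp [hv]
    · obtain ⟨y, hy, hxy⟩ := hred x
      have hvn : 0 < ‖v‖ := norm_pos_iff.2 hv
      have hsph : (‖v‖⁻¹ • v) ∈ Metric.sphere (0 : E m) 1 := by
        simp [norm_smul, hvn.ne']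
      have h1 : ‖fderiv ℝ f x0 v0‖ ≤ ‖fderiv ℝ f y (‖v‖⁻¹ • v)‖ := hmin (a := (y, ‖v‖⁻¹ • v)) ⟨hy, hsph⟩
      rw [map_smul, norm_smul, norm_inv, norm_norm, inv_mul_eq_div, le_div_iff₀ hvn] at h1
      rw [hxy]
      exact h1
  · refine ⟨1, one_pos, fun x v => ?_⟩
    by_cases hv : v = 0
    · simp [hv]
    · exfalso
      apply hne
      have hvn : 0 < ‖v‖ := norm_pos_iff.2 hv
      exact ⟨(0, ‖v‖⁻¹ • v), hKm 0 (fun i => by simp), by simp [norm_smul, hvn.ne']⟩

end Pool.Agent.FCI
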