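import Pool.Agent.FCI.Defs
import Pool.Agent.TUB.BPos

/-!
# FCI-PotA: the first radial eigenfunction, in the variable `s = |z|²`.
-/


open scoped BigOperators Topology ContDiff
open Filter Set

namespace Pool.Agent.FCI

open Pool.Agent.TUB (B jw)

noncomputable def phA (k a s : ℝ) : ℝ := B k (jw k / a ^ 2 * s)

noncomputable def uA (k a s : ℝ) : ℝ :=
  jw k / a ^ 2 / (2 * k) * B (k + 2) (jw k / a ^ 2 * s) / B k (jw k / a ^ 2 * s)

variable {k a : ℝ}

private theorem L0_pos (hk : 1 ≤ k) (ha : 0 < a) : 0 < jw k / a ^ 2 :=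
  div_pos (Pool.Agent.TUB.jw_facts hk).1 (by positivity)

theorem phA_smooth (hk : 1 ≤ k) : ContDiff ℝ ∞ (phA k a) := by
  unfold phA
  exact (Pool.Agent.TUB.B_smooth (by linarith)).comp (contDiff_const.mul contDiff_id)

theorem phA_zero : phA k a 0 = 1 := by
  rw [phA, mul_zero, Pool.Agent.TUB.B_zero]

theorem phA_end (hk : 1 ≤ k) (ha : 0 < a) : phA k a (a ^ 2) = 0 := by
  have h : jw k / a ^ 2 * a ^ 2 = jw k := by field_simp
  rw [phA, h]
  exact (Pool.Agent.TUB.jw_facts hk).2.1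

private theorem bc_sign (hk : 1 ≤ k) {w : ℝ} (hw : w ≤ 0) (i : ℕ) :
    0 ≤ Pool.Agent.TUB.bc k i * w ^ i := by
  induction i with
  | zero => simp [Pool.Agent.TUB.bc]
  | succ i ih =>
    have e : Pool.Agent.TUB.bc k (i + 1) =
      -Pool.Agent.TUB.bc k i / (4 * ((i : ℝ) + 1) * ((i : ℝ) + k / 2)) := rfl
    have h : Pool.Agent.TUB.bc k (i + 1) * w ^ (i + 1) =
        (Pool.Agent.TUB.bc k i * w ^ i) * ((-w) / (4 * ((i : ℝ) + 1) * ((i : ℝ) + k / 2))) := by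
      rw [e, pow_succ]
      ring
    rw [h]
    refine mul_nonneg ih (div_nonneg (by linarith) ?_)
    positivity

private theorem bc_summable (hk : 1 ≤ k) (w : ℝ) :
    Summable fun i : ℕ => Pool.Agent.TUB.bc k i * w ^ i := by
  refine summable_of_ratio_norm_eventually_le (r := 1 / 2) (by norm_num) ?_
  filter_upwards [Filter.eventually_ge_atTop (⌈|w|⌉₊ + 1)] with i hi
  have e : Pool.Agent.TUB.bc k (i + 1) =
    -Pool.Agent.TUB.bc k i / (4 * ((i : ℝ) + 1) * ((i : ℝ) + k / 2)) := rfl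
  have h : Pool.Agent.TUB.bc k (i + 1) * w ^ (i + 1) =
      ((-w) / (4 * ((i : ℝ) + 1) * ((i : ℝ) + k / 2))) * (Pool.Agent.TUB.bc k i * w ^ i) := by
    rw [e, pow_succ]
    ring
  rw [h, norm_mul]
  refine mul_le_mul_of_nonneg_right ?_ (norm_nonneg _)
  have h1 : |w| ≤ (i : ℝ) := by
    have := Nat.le_ceil |w|
    have h2 : ((⌈|w|⌉₊ : ℕ) : ℝ) ≤ (i : ℝ) := by exact_mod_cast (by omega : ⌈|w|⌉₊ ≤ i)
    linarith
  have h3 : (1 : ℝ) ≤ i := by exact_mod_cast (by omega : 1 ≤ i)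
  have h4 : 0 < 4 * ((i : ℝ) + 1) * ((i : ℝ) + k / 2) := by positivity
  rw [Real.norm_eq_abs, abs_div, abs_neg, abs_of_pos h4, div_le_div_iff₀ h4 (by norm_num)]
  nlinarith [abs_nonneg w]

private theorem B_neg (hk : 1 ≤ k) {w : ℝ} (hw : w ≤ 0) : 1 ≤ B k w := by
  have h := (bc_summable hk w).le_tsum 0 (fun j _ => bc_sign hk hw j)
  have h0 : Pool.Agent.TUB.bc k 0 * w ^ 0 = 1 := by simp [Pool.Agent.TUB.bc]
  rw [h0] at h
  exact h

theorem phA_pos (hk : 1 ≤ k) (ha : 0 < a) {s : ℝ} (hs : s < a ^ 2) : 0 < phA k a s := by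
  have hL := L0_pos hk ha
  rw [phA]
  rcases le_or_gt 0 s with h | h
  · refine (Pool.Agent.TUB.jw_facts hk).2.2.1 _ (mul_nonneg hL.le h) ?_
    have h1 : jw k / a ^ 2 * a ^ 2 = jw k := by field_simp
    calc jw k / a ^ 2 * s < jw k / a ^ 2 * a ^ 2 := mul_lt_mul_of_pos_left hs hL
      _ = jw k := h1
  · have h1 : jw k / a ^ 2 * s ≤ 0 := (mul_neg_of_pos_of_neg hL h).le
    have := B_neg hk h1
    linarith

private theorem phA_hasDeriv (hk : 1 ≤ k) (s : ℝ) :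
    HasDerivAt (phA k a) (-(jw k / a ^ 2 / (2 * k) * B (k + 2) (jw k / a ^ 2 * s))) s := by
  have h1 : HasDerivAt (fun s : ℝ => jw k / a ^ 2 * s) (jw k / a ^ 2) s := by
    simpa using (hasDerivAt_id s).const_mul (jw k / a ^ 2)
  have h2 := (Pool.Agent.TUB.B_hasDeriv (κ := k) (by linarith) (jw k / a ^ 2 * s)).comp s h1
  refine h2.congr_deriv ?_
  have hk0 : k ≠ 0 := by linarith
  field_simp

private theorem ph_mul_u (hk : 1 ≤ k) (ha : 0 < a) {s : ℝ} (hs : s < a ^ 2) :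
    phA k a s * uA k a s = jw k / a ^ 2 / (2 * k) * B (k + 2) (jw k / a ^ 2 * s) := by
  have h := (phA_pos hk ha hs).ne'
  rw [phA] at h
  rw [phA, uA]
  generalize B k (jw k / a ^ 2 * s) = b0 at *
  generalize B (k + 2) (jw k / a ^ 2 * s) = b2 at *
  exact mul_div_cancel₀ _ h

theorem phA_deriv (hk : 1 ≤ k) (ha : 0 < a) {s : ℝ} (hs : s < a ^ 2) :
    HasDerivAt (phA k a) (-(phA k a s * uA k a s)) s := by
  rw [ph_mul_u hk ha hs]
  exact phA_hasDeriv hk s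

private theorem B2_pos (hk : 1 ≤ k) (ha : 0 < a) {s : ℝ} (h0 : 0 ≤ s) (hs : s ≤ a ^ 2) :
    0 < B (k + 2) (jw k / a ^ 2 * s) := by
  have hL := L0_pos hk ha
  refine Pool.Agent.TUB.B_two_pos hk (mul_nonneg hL.le h0) ?_
  have h1 : jw k / a ^ 2 * a ^ 2 = jw k := by field_simp
  calc jw k / a ^ 2 * s ≤ jw k / a ^ 2 * a ^ 2 := mul_le_mul_of_nonneg_left hs hL.le
    _ = jw k := h1

theorem phA_anti (hk : 1 ≤ k) (ha : 0 < a) : StrictAntiOn (phA k a) (Icc 0 (a ^ 2)) := by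
  refine strictAntiOn_of_deriv_neg (convex_Icc _ _) (phA_smooth hk).continuous.continuousOn ?_
  intro s hs
  rw [interior_Icc] at hs
  rw [(phA_hasDeriv hk s).deriv]
  have h1 := B2_pos hk ha hs.1.le hs.2.le
  have h2 : 0 < jw k / a ^ 2 / (2 * k) := div_pos (L0_pos hk ha) (by linarith)
  have := mul_pos h2 h1
  linarith

theorem phA_le_one (hk : 1 ≤ k) (ha : 0 < a) {s : ℝ} (h0 : 0 ≤ s) (hs : s ≤ a ^ 2) : phA k a s ≤ 1 := by
  rw [← phA_zero (k := k) (a := a)]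
  exact (phA_anti hk ha).antitoneOn ⟨le_rfl, by positivity⟩ ⟨h0, hs⟩ h0

theorem uA_smooth (hk : 1 ≤ k) (ha : 0 < a) : ContDiffOn ℝ ∞ (uA k a) (Iio (a ^ 2)) := by
  unfold uA
  have h1 : ContDiff ℝ ∞ (fun s : ℝ => B (k + 2) (jw k / a ^ 2 * s)) :=
    (Pool.Agent.TUB.B_smooth (by linarith)).comp (contDiff_const.mul contDiff_id)
  have h2 : ContDiff ℝ ∞ (fun s : ℝ => B k (jw k / a ^ 2 * s)) :=
    (Pool.Agent.TUB.B_smooth (by linarith)).comp (contDiff_const.mul contDiff_id)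
  refine ContDiffOn.div (contDiff_const.mul h1).contDiffOn h2.contDiffOn ?_
  intro s hs
  exact (phA_pos hk ha hs).ne'

theorem uA_zero (hk : 1 ≤ k) : uA k a 0 = jw k / a ^ 2 / (2 * k) := by
  rw [uA, mul_zero, Pool.Agent.TUB.B_zero, Pool.Agent.TUB.B_zero]
  ring

theorem uA_ode (hk : 1 ≤ k) (ha : 0 < a) {s : ℝ} (hs : s < a ^ 2) :
    4 * s * deriv (uA k a) s = 4 * s * uA k a s ^ 2 - 2 * k * uA k a s + jw k / a ^ 2 := by
  have hB := (phA_pos hk ha hs).ne'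
  rw [phA] at hB
  have hk0 : k ≠ 0 := by linarith
  have hk2 : k + 2 ≠ 0 := by linarith
  have h1 : HasDerivAt (fun s : ℝ => jw k / a ^ 2 * s) (jw k / a ^ 2) s := by
    simpa using (hasDerivAt_id s).const_mul (jw k / a ^ 2)
  have h2 := (Pool.Agent.TUB.B_hasDeriv (κ := k) (by linarith) (jw k / a ^ 2 * s)).comp s h1
  have h3 := (Pool.Agent.TUB.B_hasDeriv (κ := k + 2) (by linarith) (jw k / a ^ 2 * s)).comp s h1
  have h4 := (h3.const_mul (jw k / a ^ 2 / (2 * k))).div h2 hB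
  have h5 : deriv (uA k a) s = _ := h4.deriv
  rw [h5]
  have h6 := Pool.Agent.TUB.B_rec (κ := k) (by linarith) (jw k / a ^ 2 * s)
  have e4 : k + 2 + 2 = k + 4 := by ring
  simp only [Function.comp_apply, uA, e4]
  generalize hL : jw k / a ^ 2 = L at *
  generalize h0 : B k (L * s) = b0 at *
  generalize B (k + 2) (L * s) = b2 at *
  generalize B (k + 4) (L * s) = b4 at *
  have h7 : L * s * b4 = k * (k + 2) * (b2 - b0) := by
    rw [h6]
    field_simp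
    ring
  have h8 : s * L ^ 2 * b4 = L * (k * (k + 2) * (b2 - b0)) := by
    rw [← h7]; ring
  field_simp
  linear_combination (-4) * b0 * k * h8

theorem uA_pos (hk : 1 ≤ k) (ha : 0 < a) {s : ℝ} (h0 : 0 ≤ s) (hs : s < a ^ 2) : 0 < uA k a s := by
  have h1 := B2_pos hk ha h0 hs.le
  have h2 : 0 < jw k / a ^ 2 / (2 * k) := div_pos (L0_pos hk ha) (by linarith)
  have h3 := phA_pos hk ha hs
  rw [phA] at h3
  rw [uA]
  exact div_pos (mul_pos h2 h1) h3

theorem ph_edge (hk : 1 ≤ k) (ha : 0 < a) : ∃ κ : ℝ, 0 < κ ∧ ∀ s, 0 ≤ s → s < a ^ 2 → phA k a s ≤ 1 / 2 →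
    κ ≤ 4 * s * (phA k a s * uA k a s) ^ 2 := by
  have h2 : 0 < jw k / a ^ 2 / (2 * k) := div_pos (L0_pos hk ha) (by linarith)
  have hc : Continuous (phA k a) := (phA_smooth hk).continuous
  have hB2 : Continuous (fun s : ℝ => B (k + 2) (jw k / a ^ 2 * s)) :=
    ((Pool.Agent.TUB.B_smooth (κ := k + 2) (by linarith)).continuous).comp
      (continuous_const.mul continuous_id)
  have hg : Continuous (fun s : ℝ => 4 * s *
      (jw k / a ^ 2 / (2 * k) * B (k + 2) (jw k / a ^ 2 * s)) ^ 2) :=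
    (continuous_const.mul continuous_id).mul ((continuous_const.mul hB2).pow 2)
  have hK : IsCompact (Icc 0 (a ^ 2) ∩ {s | phA k a s ≤ 1 / 2}) :=
    isCompact_Icc.inter_right (isClosed_le hc continuous_const)
  have hne : (Icc 0 (a ^ 2) ∩ {s | phA k a s ≤ 1 / 2}).Nonempty := by
    refine ⟨a ^ 2, ⟨by positivity, le_rfl⟩, ?_⟩
    show phA k a (a ^ 2) ≤ 1 / 2
    rw [phA_end hk ha]
    norm_num
  obtain ⟨s0, hs0, hmin⟩ := hK.exists_isMinOn hne hg.continuousOn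
  have hs0p : 0 < s0 := by
    rcases hs0.1.1.eq_or_lt with h | h
    · exfalso
      have h3 : phA k a s0 ≤ 1 / 2 := hs0.2
      rw [← h, phA_zero] at h3
      norm_num at h3
    · exact h
  refine ⟨4 * s0 * (jw k / a ^ 2 / (2 * k) * B (k + 2) (jw k / a ^ 2 * s0)) ^ 2, ?_,
    fun s h0 hs hh => ?_⟩
  · have h3 := B2_pos hk ha hs0.1.1 hs0.1.2
    positivity
  · rw [ph_mul_u hk ha hs]
    exact hmin ⟨⟨h0, hs.le⟩, hh⟩

end Pool.Agent.FCI
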