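import Pool.Agent.FCI.PotA

/-!
# FCI-PotB: `u' > 0`, from the differential equation at the first zero of `u'`
-/

open scoped BigOperators Topology ContDiff
open Filter Set

namespace Pool.Agent.FCI

open Pool.Agent.TUB (B jw)

variable {k a : ℝ}

private theorem v_smooth (hk : 1 ≤ k) (ha : 0 < a) : ContDiffOn ℝ ∞ (deriv (uA k a)) (Iio (a ^ 2)) :=
  (uA_smooth hk ha).deriv_of_isOpen isOpen_Iio (by simp)

private theorem u_has (hk : 1 ≤ k) (ha : 0 < a) {s : ℝ} (hs : s < a ^ 2) :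
    HasDerivAt (uA k a) (deriv (uA k a) s) s :=
  (((uA_smooth hk ha).contDiffAt (isOpen_Iio.mem_nhds hs)).differentiableAt (by simp)).hasDerivAt

private theorem v_has (hk : 1 ≤ k) (ha : 0 < a) {s : ℝ} (hs : s < a ^ 2) :
    HasDerivAt (deriv (uA k a)) (deriv (deriv (uA k a)) s) s :=
  (((v_smooth hk ha).contDiffAt (isOpen_Iio.mem_nhds hs)).differentiableAt (by simp)).hasDerivAt

private theorem ode2 (hk : 1 ≤ k) (ha : 0 < a) {s : ℝ} (hs : s < a ^ 2) :
    4 * s * deriv (deriv (uA k a)) s =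
      4 * uA k a s ^ 2 + (8 * s * uA k a s - 2 * k - 4) * deriv (uA k a) s := by
  have hu := u_has hk ha hs
  have hv := v_has hk ha hs
  have h1 : HasDerivAt (fun s => 4 * s * deriv (uA k a) s)
      (4 * 1 * deriv (uA k a) s + 4 * s * deriv (deriv (uA k a)) s) s :=
    ((hasDerivAt_id s).const_mul 4).mul hv
  have h2 : HasDerivAt (fun s => 4 * s * uA k a s ^ 2 - 2 * k * uA k a s + jw k / a ^ 2)
      (4 * 1 * uA k a s ^ 2 + 4 * s * (2 * uA k a s ^ (2 - 1) * deriv (uA k a) s) -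
        2 * k * deriv (uA k a) s) s :=
    ((((hasDerivAt_id s).const_mul 4).mul (hu.pow 2)).sub (hu.const_mul (2 * k))).add_const _
  have h3 : (fun s => 4 * s * deriv (uA k a) s) =ᶠ[𝓝 s]
      fun s => 4 * s * uA k a s ^ 2 - 2 * k * uA k a s + jw k / a ^ 2 := by
    filter_upwards [isOpen_Iio.mem_nhds hs] with t ht
    exact uA_ode hk ha ht
  have h4 := h1.unique (h2.congr_of_eventuallyEq h3)
  simp only [Nat.add_one_sub_one, pow_one] at h4
  linarith

theorem uA_deriv_pos (hk : 1 ≤ k) (ha : 0 < a) {s : ℝ} (h0 : 0 ≤ s) (hs : s < a ^ 2) :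
    0 < deriv (uA k a) s := by
  by_contra hcon
  push Not at hcon
  have ha2 : 0 < a ^ 2 := by positivity
  have hv0 : 0 < deriv (uA k a) 0 := by
    have h1 := ode2 hk ha ha2
    have h2 := uA_pos hk ha le_rfl ha2
    have h3 : (2 * k + 4) * deriv (uA k a) 0 = 4 * uA k a 0 ^ 2 := by linarith
    have h4 : 0 < (2 * k + 4) * deriv (uA k a) 0 := by
      rw [h3]
      positivity
    exact pos_of_mul_pos_right h4 (by linarith)
  have hvc : ContinuousOn (deriv (uA k a)) (Icc 0 s) :=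
    (v_smooth hk ha).continuousOn.mono fun t ht => lt_of_le_of_lt ht.2 hs
  obtain ⟨S, hS⟩ : ∃ S, S = Icc 0 s ∩ deriv (uA k a) ⁻¹' Iic 0 := ⟨_, rfl⟩
  have hSc : IsClosed S := by
    rw [hS]
    exact hvc.preimage_isClosed_of_isClosed isClosed_Icc isClosed_Iic
  have hSn : S.Nonempty := ⟨s, by rw [hS]; exact ⟨⟨h0, le_rfl⟩, hcon⟩⟩
  have hSb : BddBelow S := ⟨0, fun t ht => by rw [hS] at ht; exact ht.1.1⟩
  have hmem : sInf S ∈ S := hSc.csInf_mem hSn hSb
  obtain ⟨s1, hs1⟩ : ∃ s1, s1 = sInf S := ⟨_, rfl⟩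
  rw [← hs1] at hmem
  have hmem' := hmem
  rw [hS] at hmem'
  obtain ⟨⟨h10, h1s⟩, h1v⟩ := hmem'
  have h1v' : deriv (uA k a) s1 ≤ 0 := h1v
  have hs1p : 0 < s1 := by
    rcases h10.lt_or_eq with h | h
    · exact h
    · rw [← h] at h1v'
      linarith
  have hs1a : s1 < a ^ 2 := lt_of_le_of_lt h1s hs
  have hlow : ∀ t, 0 ≤ t → t < s1 → 0 < deriv (uA k a) t := by
    intro t ht0 ht1
    by_contra hc
    push Not at hc
    have : t ∈ S := by
      rw [hS]
      exact ⟨⟨ht0, ht1.le.trans h1s⟩, hc⟩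
    have h2 := csInf_le hSb this
    rw [← hs1] at h2
    linarith
  have hv1 := v_has hk ha hs1a
  have hz : deriv (uA k a) s1 = 0 := by
    refine le_antisymm h1v' ?_
    have hc : Tendsto (deriv (uA k a)) (𝓝[<] s1) (𝓝 (deriv (uA k a) s1)) :=
      hv1.continuousAt.tendsto.mono_left nhdsWithin_le_nhds
    refine ge_of_tendsto hc ?_
    filter_upwards [Ioo_mem_nhdsLT hs1p] with t ht
    exact (hlow t ht.1.le ht.2).le
  have hd : 0 < deriv (deriv (uA k a)) s1 := by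
    have h1 := ode2 hk ha hs1a
    rw [hz, mul_zero, add_zero] at h1
    have h2 := uA_pos hk ha hs1p.le hs1a
    have h3 : 0 < 4 * s1 * deriv (deriv (uA k a)) s1 := by
      rw [h1]
      positivity
    exact pos_of_mul_pos_right h3 (by linarith)
  have hsl := (hasDerivAt_iff_tendsto_slope.mp hv1).eventually_const_lt hd
  have hsl2 : ∀ᶠ t in 𝓝[<] s1, 0 < slope (deriv (uA k a)) s1 t :=
    hsl.filter_mono (nhdsWithin_mono _ fun t ht => ne_of_lt ht)
  obtain ⟨t, ht1, ht2⟩ := (hsl2.and (Ioo_mem_nhdsLT hs1p)).exists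
  have h5 := hlow t ht2.1.le ht2.2
  rw [slope_def_field, hz, sub_zero] at ht1
  have h6 : deriv (uA k a) t / (t - s1) < 0 := div_neg_of_pos_of_neg h5 (by linarith [ht2.2])
  linarith

theorem uA_ge (hk : 1 ≤ k) (ha : 0 < a) {s : ℝ} (h0 : 0 ≤ s) (hs : s < a ^ 2) :
    jw k / a ^ 2 / (2 * k) ≤ uA k a s := by
  rw [← uA_zero (a := a) hk]
  have hm : MonotoneOn (uA k a) (Ico 0 (a ^ 2)) := by
    refine monotoneOn_of_deriv_nonneg (convex_Ico 0 (a ^ 2)) ?_ ?_ ?_
    · exact (uA_smooth hk ha).continuousOn.mono fun t ht => ht.2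
    · intro t ht
      rw [interior_Ico] at ht
      exact (u_has hk ha ht.2).differentiableAt.differentiableWithinAt
    · intro t ht
      rw [interior_Ico] at ht
      exact (uA_deriv_pos hk ha ht.1.le ht.2).le
  exact hm ⟨le_rfl, lt_of_le_of_lt h0 hs⟩ ⟨h0, hs⟩ h0

end Pool.Agent.FCI
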