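import Pool.Agent.FCI.PotB

/-!
# FCI-PotC: the potential and its exact formulas
-/

open scoped BigOperators Topology ContDiff
open Filter Set

namespace Pool.Agent.FCI

open Pool.Agent.TUB (B jw)

noncomputable def PA (k a A η s : ℝ) : ℝ := -A * Real.log (phA k a s) + (A - 1) * Real.log (phA k a s + η)

noncomputable def yA (k a η s : ℝ) : ℝ := η / (phA k a s + η)

variable {k a A η : ℝ}

theorem PA_smooth (hk : 1 ≤ k) (ha : 0 < a) (hη : 0 < η) : ContDiffOn ℝ ∞ (PA k a A η) (Iio (a ^ 2)) := by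
  have h1 : ContDiffOn ℝ ∞ (phA k a) (Iio (a ^ 2)) := (phA_smooth hk).contDiffOn
  have h2 : ContDiffOn ℝ ∞ (fun s => Real.log (phA k a s)) (Iio (a ^ 2)) :=
    h1.log fun s hs => (phA_pos hk ha hs).ne'
  have h3 : ContDiffOn ℝ ∞ (fun s => Real.log (phA k a s + η)) (Iio (a ^ 2)) :=
    (h1.add contDiffOn_const).log fun s hs => (add_pos (phA_pos hk ha hs) hη).ne'
  exact (contDiffOn_const.mul h2).add (contDiffOn_const.mul h3)

private theorem potc_one (hk : 1 ≤ k) (ha : 0 < a) (hη : 0 < η) {s : ℝ} (hs : s < a ^ 2) :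
    HasDerivAt (PA k a A η) ((1 + (A - 1) * yA k a η s) * uA k a s) s := by
  have h1 := phA_deriv hk ha hs
  have hp := phA_pos hk ha hs
  have hq : 0 < phA k a s + η := add_pos hp hη
  have h2 := (h1.log hp.ne').const_mul (-A)
  have h3 := ((h1.add_const η).log hq.ne').const_mul (A - 1)
  refine (h2.add h3).congr_deriv ?_
  unfold yA
  field_simp
  ring

theorem PA_deriv (hk : 1 ≤ k) (ha : 0 < a) (hη : 0 < η) {s : ℝ} (hs : s < a ^ 2) :
    deriv (PA k a A η) s = (1 + (A - 1) * yA k a η s) * uA k a s :=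
  (potc_one hk ha hη hs).deriv

private theorem potc_y (hk : 1 ≤ k) (ha : 0 < a) (hη : 0 < η) {s : ℝ} (hs : s < a ^ 2) :
    HasDerivAt (yA k a η) (yA k a η s * (1 - yA k a η s) * uA k a s) s := by
  have h1 := phA_deriv hk ha hs
  have hp := phA_pos hk ha hs
  have hq : 0 < phA k a s + η := add_pos hp hη
  have h2 := (hasDerivAt_const s η).div (h1.add_const η) hq.ne'
  refine h2.congr_deriv ?_
  unfold yA
  field_simp
  ring

theorem PA_deriv2 (hk : 1 ≤ k) (ha : 0 < a) (hη : 0 < η) {s : ℝ} (hs : s < a ^ 2) :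
    deriv (deriv (PA k a A η)) s = (1 + (A - 1) * yA k a η s) * deriv (uA k a) s +
      (A - 1) * yA k a η s * (1 - yA k a η s) * uA k a s ^ 2 := by
  have h1 : deriv (PA k a A η) =ᶠ[𝓝 s] fun s => (1 + (A - 1) * yA k a η s) * uA k a s := by
    filter_upwards [Iio_mem_nhds hs] with t ht
    exact PA_deriv hk ha hη ht
  rw [h1.deriv_eq]
  have h2 : DifferentiableAt ℝ (uA k a) s :=
    ((uA_smooth hk ha).contDiffAt (Iio_mem_nhds hs)).differentiableAt (by simp)
  have h3 := ((((potc_y hk ha hη hs).const_mul (A - 1)).const_add 1).mul h2.hasDerivAt)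
  have h4 : HasDerivAt (fun s => (1 + (A - 1) * yA k a η s) * uA k a s)
      ((A - 1) * (yA k a η s * (1 - yA k a η s) * uA k a s) * uA k a s +
        (1 + (A - 1) * yA k a η s) * deriv (uA k a) s) s := h3
  rw [h4.deriv]
  ring

theorem PA_q (hk : 1 ≤ k) (ha : 0 < a) (hη : 0 < η) {s : ℝ} (hs : s < a ^ 2) :
    4 * s * deriv (PA k a A η) s ^ 2 - 2 * k * deriv (PA k a A η) s - 4 * s * deriv (deriv (PA k a A η)) s =
      A * (A - 1) * yA k a η s ^ 2 * (4 * s * uA k a s ^ 2) - (1 + (A - 1) * yA k a η s) * (jw k / a ^ 2) := by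
  rw [PA_deriv2 hk ha hη hs, PA_deriv hk ha hη hs]
  have h1 := uA_ode hk ha hs
  linear_combination (-(1 + (A - 1) * yA k a η s)) * h1

end Pool.Agent.FCI
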