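import Pool.Agent.FCI.ClB

/-!
# FCI-Pw: lower bound of the zeroth order term, by blocks (MP_d3ff36_gt)
-/

open scoped BigOperators Topology ContDiff

namespace Pool.Agent.FCI

open Pool.Agent.TUB (E)

variable {n : ℕ} {β : Type} [Fintype β] [DecidableEq β]

/-- the block `j` of `z` -/
private noncomputable def zb (b : Fin n → β) (z : E n) (j : β) : E n :=
  WithLp.toLp 2 (fun i => if b i = j then z i else 0)

omit [Fintype β] in
private theorem zb_apply (b : Fin n → β) (z : E n) (j : β) (i : Fin n) :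
    zb b z j i = if b i = j then z i else 0 := rfl

private theorem eb_apply (m k : Fin n) : (eb m : E n) k = if k = m then 1 else 0 := by
  unfold eb
  rw [PiLp.single_apply]

private theorem nsq (f : E n) : ‖f‖ ^ 2 = ∑ i, f i ^ 2 := by
  rw [EuclideanSpace.norm_sq_eq]
  exact Finset.sum_congr rfl fun i _ => by rw [Real.norm_eq_abs, sq_abs]

private theorem sum_eb (q : E n) : q = ∑ i, q i • (eb i : E n) := by
  ext k
  rw [WithLp.ofLp_sum, Finset.sum_apply, Finset.sum_eq_single k]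
  · rw [PiLp.smul_apply, eb_apply, if_pos rfl, smul_eq_mul, mul_one]
  · intro i _ hi
    rw [PiLp.smul_apply, eb_apply, if_neg fun h => hi h.symm, smul_zero]
  · intro h
    exact absurd (Finset.mem_univ k) h

private theorem G_apply (G : E n →L[ℝ] E n) (q : E n) (l : Fin n) :
    G q l = ∑ i, q i * G (eb i) l := by
  conv_lhs => rw [sum_eb q]
  rw [map_sum, WithLp.ofLp_sum, Finset.sum_apply]
  refine Finset.sum_congr rfl fun i _ => ?_
  rw [map_smul, PiLp.smul_apply, smul_eq_mul]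

omit [Fintype β] in
/-- the estimate of one term -/
private theorem key (b : Fin n → β) (G : E n →L[ℝ] E n) (hG : ∀ v j, sq b (G v) j ≤ ‖v‖ ^ 2) (w : W n)
    (f : E n) (j : β) (hf : ∀ i, b i ≠ j → f i = 0) :
    -(‖f‖ ^ 2 * ‖w‖ ^ 2) ≤ inner ℝ w (∑ i, (∑ l, f l * G (eb i) l) • cl i (gamV f w)) := by
  obtain ⟨q, hq⟩ : ∃ q : E n, ∀ i, q i = ∑ l, f l * G (eb i) l :=
    ⟨WithLp.toLp 2 (fun i => ∑ l, f l * G (eb i) l), fun i => rfl⟩
  have h1 : ∑ i, (∑ l, f l * G (eb i) l) • cl i (gamV f w) = clV q (gamV f w) := by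
    rw [clV_apply]
    exact Finset.sum_congr rfl fun i _ => by rw [hq]
  have h2 : ‖q‖ ^ 2 = ∑ l, f l * G q l := by
    rw [nsq]
    have h3 : ∀ i, q i ^ 2 = ∑ l, f l * (q i * G (eb i) l) := by
      intro i
      rw [pow_two]
      nth_rw 2 [hq]
      rw [Finset.mul_sum]
      exact Finset.sum_congr rfl fun l _ => by ring
    rw [Finset.sum_congr rfl fun i _ => h3 i, Finset.sum_comm]
    refine Finset.sum_congr rfl fun l _ => ?_
    rw [G_apply G q l, Finset.mul_sum]
  have h3 : ∑ l, f l * G q l = ∑ l, f l * (if b l = j then G q l else 0) := by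
    refine Finset.sum_congr rfl fun l _ => ?_
    by_cases hl : b l = j
    · rw [if_pos hl]
    · rw [if_neg hl, hf l hl, zero_mul, zero_mul]
  have h4 : (∑ l, f l * (if b l = j then G q l else 0)) ^ 2 ≤
      (∑ l, f l ^ 2) * ∑ l, (if b l = j then G q l else 0) ^ 2 :=
    Finset.sum_mul_sq_le_sq_mul_sq _ _ _
  have h5 : ∑ l, (if b l = j then G q l else 0) ^ 2 = sq b (G q) j := by
    unfold sq
    refine Finset.sum_congr rfl fun l _ => ?_
    by_cases hl : b l = j
    · rw [if_pos hl, if_pos hl]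
    · rw [if_neg hl, if_neg hl]
      norm_num
  rw [h5, ← h3, ← h2, ← nsq] at h4
  have h6 : (‖q‖ ^ 2) ^ 2 ≤ ‖f‖ ^ 2 * ‖q‖ ^ 2 :=
    h4.trans (mul_le_mul_of_nonneg_left (hG q j) (by positivity))
  have h7 : ‖q‖ ≤ ‖f‖ := by
    rcases eq_or_lt_of_le (norm_nonneg q) with h0 | h0
    · rw [← h0]
      exact norm_nonneg f
    · have h8 : 0 < ‖q‖ ^ 2 := by positivity
      have h9 : ‖q‖ ^ 2 ≤ ‖f‖ ^ 2 := by
        have h10 : ‖q‖ ^ 2 * ‖q‖ ^ 2 ≤ ‖f‖ ^ 2 * ‖q‖ ^ 2 := by
          rw [← pow_two]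
          exact h6
        exact le_of_mul_le_mul_right h10 h8
      exact (pow_le_pow_iff_left₀ (norm_nonneg q) (norm_nonneg f) (by norm_num)).1 h9
  rw [h1]
  have h8 := (abs_le.1 (abs_cg q f w)).1
  refine le_trans ?_ h8
  have h9 : ‖q‖ * ‖f‖ * ‖w‖ ^ 2 ≤ ‖f‖ ^ 2 * ‖w‖ ^ 2 := by
    refine mul_le_mul_of_nonneg_right ?_ (by positivity)
    rw [pow_two]
    exact mul_le_mul_of_nonneg_right h7 (norm_nonneg f)
  linarith

omit [Fintype β] in
private theorem hsA_apply (b : Fin n → β) (x y : β → ℝ) (z p : E n) (i : Fin n) :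
    hsA b x y z p i = 2 * x (b i) * p i +
        4 * y (b i) * z i * ∑ l, if b l = b i then z l * p l else 0 := rfl

private theorem hsA_eq (b : Fin n → β) (x y : β → ℝ) (z p : E n) :
    hsA b x y z p = ∑ m, (2 * x (b m) * p m) • (eb m : E n) +
      ∑ j, (4 * y j * ∑ l, zb b z j l * p l) • zb b z j := by
  ext k
  have e1 : (∑ m, (2 * x (b m) * p m) • (eb m : E n) : E n) k = 2 * x (b k) * p k := by
    rw [WithLp.ofLp_sum, Finset.sum_apply, Finset.sum_eq_single k]
    · rw [PiLp.smul_apply, eb_apply, if_pos rfl, smul_eq_mul, mul_one]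
    · intro m _ hm
      rw [PiLp.smul_apply, eb_apply, if_neg fun h => hm h.symm, smul_zero]
    · intro h
      exact absurd (Finset.mem_univ _) h
  have e2 : (∑ j, (4 * y j * ∑ l, zb b z j l * p l) • zb b z j : E n) k =
      (4 * y (b k) * ∑ l, zb b z (b k) l * p l) * z k := by
    rw [WithLp.ofLp_sum, Finset.sum_apply, Finset.sum_eq_single (b k)]
    · rw [PiLp.smul_apply, zb_apply b z (b k) k, if_pos rfl, smul_eq_mul]
    · intro j _ hj
      rw [PiLp.smul_apply, zb_apply b z j k, if_neg fun h => hj h.symm, smul_zero]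
    · intro h
      exact absurd (Finset.mem_univ _) h
  have h1 : ∀ l, (if b l = b k then z l * p l else 0) = zb b z (b k) l * p l := by
    intro l
    rw [zb_apply]
    by_cases hl : b l = b k
    · rw [if_pos hl, if_pos hl]
    · rw [if_neg hl, if_neg hl, zero_mul]
  rw [hsA_apply, PiLp.add_apply, e1, e2, Finset.sum_congr rfl fun l _ => h1 l]
  ring

private theorem gamV_hsA (b : Fin n → β) (x y : β → ℝ) (z p : E n) (w : W n) :
    gamV (hsA b x y z p) w = ∑ m, (2 * x (b m) * p m) • gamV (eb m) w +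
      ∑ j, (4 * y j * ∑ l, zb b z j l * p l) • gamV (zb b z j) w := by
  obtain ⟨T, hT⟩ := gamV_clm (n := n)
  rw [← hT, hsA_eq, map_add, map_sum, map_sum, add_apply, sum_apply, sum_apply]
  congr 1
  · refine Finset.sum_congr rfl fun m _ => ?_
    rw [map_smul, smul_apply, hT]
  · refine Finset.sum_congr rfl fun m _ => ?_
    rw [map_smul, smul_apply, hT]

private theorem total (b : Fin n → β) (x y : β → ℝ) (z : E n) (G : E n →L[ℝ] E n) (w : W n) :
    ∑ i, cl i (gamV (hsA b x y z (G (eb i))) w) =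
      ∑ m, (2 * x (b m)) • ∑ i, (∑ l, (eb m : E n) l * G (eb i) l) • cl i (gamV (eb m) w) +
      ∑ j, (4 * y j) • ∑ i, (∑ l, zb b z j l * G (eb i) l) • cl i (gamV (zb b z j) w) := by
  have h1 : ∀ i, cl i (gamV (hsA b x y z (G (eb i))) w) =
      ∑ m, (2 * x (b m) * G (eb i) m) • cl i (gamV (eb m) w) +
        ∑ j, (4 * y j * ∑ l, zb b z j l * G (eb i) l) • cl i (gamV (zb b z j) w) := by
    intro i
    rw [gamV_hsA, map_add, map_sum, map_sum]
    congr 1
    · exact Finset.sum_congr rfl fun m _ => map_smul _ _ _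
    · exact Finset.sum_congr rfl fun m _ => map_smul _ _ _
  rw [Finset.sum_congr rfl fun i _ => h1 i, Finset.sum_add_distrib, Finset.sum_comm]
  congr 1
  · refine Finset.sum_congr rfl fun m _ => ?_
    rw [Finset.smul_sum]
    refine Finset.sum_congr rfl fun i _ => ?_
    have h2 : ∑ l, (eb m : E n) l * G (eb i) l = G (eb i) m := by
      rw [Finset.sum_eq_single m]
      · rw [eb_apply, if_pos rfl, one_mul]
      · intro l _ hl
        rw [eb_apply, if_neg hl, zero_mul]
      · intro h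
        exact absurd (Finset.mem_univ _) h
    rw [h2, smul_smul]
  · rw [Finset.sum_comm]
    refine Finset.sum_congr rfl fun j _ => ?_
    rw [Finset.smul_sum]
    refine Finset.sum_congr rfl fun i _ => ?_
    rw [smul_smul]

private theorem sum_blocks (b : Fin n → β) (x : β → ℝ) :
    ∑ m, 2 * x (b m) = ∑ j, 2 * (bsz b j : ℝ) * x j := by
  have h1 : ∀ m, 2 * x (b m) = ∑ j, if b m = j then 2 * x j else 0 := by
    intro m
    rw [Finset.sum_ite_eq, if_pos (Finset.mem_univ _)]
  rw [Finset.sum_congr rfl fun m _ => h1 m, Finset.sum_comm]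
  refine Finset.sum_congr rfl fun j _ => ?_
  rw [← Finset.sum_filter, Finset.sum_const, nsmul_eq_mul]
  unfold bsz
  ring

theorem pw_bound (b : Fin n → β) (x y : β → ℝ) (z : E n) (G : E n →L[ℝ] E n)
    (hG : ∀ v j, sq b (G v) j ≤ ‖v‖ ^ 2) (hx : ∀ j, 0 ≤ x j) (hy : ∀ j, 0 ≤ y j) (w : W n) :
    -(∑ j, (2 * (bsz b j : ℝ) * x j + 4 * sq b z j * y j)) * ‖w‖ ^ 2 ≤
      inner ℝ w (∑ i, cl i (gamV (hsA b x y z (G (eb i))) w)) := by
  rw [total, inner_add_right, inner_sum, inner_sum]
  have h1 : ∑ m, 2 * x (b m) * -(‖w‖ ^ 2) ≤ ∑ m, inner ℝ w ((2 * x (b m)) •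
      ∑ i, (∑ l, (eb m : E n) l * G (eb i) l) • cl i (gamV (eb m) w)) := by
    refine Finset.sum_le_sum fun m _ => ?_
    rw [inner_smul_right]
    refine mul_le_mul_of_nonneg_left ?_ (mul_nonneg (by norm_num) (hx _))
    have h2 := key b G hG w (eb m) (b m) (by
      intro i hi
      rw [eb_apply, if_neg]
      intro h
      exact hi (by rw [h]))
    have h3 : ‖(eb m : E n)‖ ^ 2 = 1 := by
      rw [nsq, Finset.sum_eq_single m]
      · rw [eb_apply, if_pos rfl, one_pow]
      · intro i _ hi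
        rw [eb_apply, if_neg hi]
        norm_num
      · intro h
        exact absurd (Finset.mem_univ _) h
    rw [h3, one_mul] at h2
    exact h2
  have h4 : ∑ j, 4 * y j * -(sq b z j * ‖w‖ ^ 2) ≤ ∑ j, inner ℝ w ((4 * y j) •
      ∑ i, (∑ l, zb b z j l * G (eb i) l) • cl i (gamV (zb b z j) w)) := by
    refine Finset.sum_le_sum fun j _ => ?_
    rw [inner_smul_right]
    refine mul_le_mul_of_nonneg_left ?_ (mul_nonneg (by norm_num) (hy _))
    have h2 := key b G hG w (zb b z j) j (by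
      intro i hi
      rw [zb_apply, if_neg hi])
    have h3 : ‖zb b z j‖ ^ 2 = sq b z j := by
      rw [nsq]
      unfold sq
      refine Finset.sum_congr rfl fun i _ => ?_
      rw [zb_apply]
      by_cases hi : b i = j
      · rw [if_pos hi, if_pos hi]
      · rw [if_neg hi, if_neg hi]
        norm_num
    rw [h3] at h2
    exact h2
  refine le_trans (le_of_eq ?_) (add_le_add h1 h4)
  rw [← Finset.sum_mul, sum_blocks, Finset.sum_add_distrib]
  have h5 : ∑ j, 4 * y j * -(sq b z j * ‖w‖ ^ 2) = -((∑ j, 4 * sq b z j * y j) * ‖w‖ ^ 2) := by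
    rw [Finset.sum_mul, ← Finset.sum_neg_distrib]
    exact Finset.sum_congr rfl fun j _ => by ring
  rw [h5]
  ring

end Pool.Agent.FCI
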