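import Pool.Agent.FCI.Molb
import Pool.Agent.FCI.Idn

/-!
# FCI-Reg: the two inequalities for weak solutions, by passing to the limit in `id_one`, `id_two` (`regularise`)
-/

open scoped BigOperators Topology ContDiff
open MeasureTheory Filter Set

namespace Pool.Agent.FCI

open Pool.Agent.TUB (E)

variable {n : ℕ}

private theorem rg_pt {F : Type*} [NormedAddCommGroup F] (x y : F) {ρ B t : ℝ} (hB : |ρ| ≤ B) (ht : 0 < t) :
    |ρ * ‖x‖ ^ 2 - ρ * ‖y‖ ^ 2| ≤ B * ((1 + 1 / t) * ‖x - y‖ ^ 2 + t * ‖y‖ ^ 2) := by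
  have h1 : |‖x‖ - ‖y‖| ≤ ‖x - y‖ := abs_norm_sub_norm_le x y
  have h2 : ‖x‖ ≤ ‖x - y‖ + ‖y‖ := by
    have := norm_add_le (x - y) y
    rwa [sub_add_cancel] at this
  have h3 : |‖x‖ ^ 2 - ‖y‖ ^ 2| ≤ ‖x - y‖ * (‖x - y‖ + 2 * ‖y‖) := by
    have e : ‖x‖ ^ 2 - ‖y‖ ^ 2 = (‖x‖ - ‖y‖) * (‖x‖ + ‖y‖) := by ring
    rw [e, abs_mul, abs_of_nonneg (show 0 ≤ ‖x‖ + ‖y‖ by positivity)]
    exact mul_le_mul h1 (by linarith) (by positivity) (norm_nonneg _)
  have h4 : 2 * ‖x - y‖ * ‖y‖ ≤ 1 / t * ‖x - y‖ ^ 2 + t * ‖y‖ ^ 2 := by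
    have h5 : 0 ≤ (1 / t) * (‖x - y‖ - t * ‖y‖) ^ 2 := by positivity
    have e : (1 / t) * (‖x - y‖ - t * ‖y‖) ^ 2 = 1 / t * ‖x - y‖ ^ 2 - 2 * ‖x - y‖ * ‖y‖ + t * ‖y‖ ^ 2 := by
      field_simp
      ring
    rw [e] at h5
    linarith
  have hB0 : 0 ≤ B := le_trans (abs_nonneg _) hB
  rw [← mul_sub, abs_mul]
  refine mul_le_mul hB ?_ (abs_nonneg _) hB0
  nlinarith

private theorem rg_int {α F : Type*} [MeasurableSpace α] [NormedAddCommGroup F] {μ : Measure α} {a : α → F}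
    (ha : MemLp a 2 μ) {ρ : α → ℝ} (hρ : AEStronglyMeasurable ρ μ) {B : ℝ} (hB : ∀ x, |ρ x| ≤ B) :
    Integrable (fun x => ρ x * ‖a x‖ ^ 2) μ :=
  ((memLp_two_iff_integrable_sq_norm ha.1).1 ha).bdd_mul hρ (Filter.Eventually.of_forall hB)

private theorem rg_lim {α F : Type*} [MeasurableSpace α] [NormedAddCommGroup F] {μ : Measure α} {a : α → F}
    {s : ℕ → α → F} (ha : MemLp a 2 μ) (hs : ∀ k, MemLp (s k) 2 μ)
    (h : Tendsto (fun k => ∫ x, ‖s k x - a x‖ ^ 2 ∂μ) atTop (𝓝 0)) {ρ : α → ℝ} (hρ : AEStronglyMeasurable ρ μ)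
    {B : ℝ} (hB : ∀ x, |ρ x| ≤ B) :
    Tendsto (fun k => ∫ x, ρ x * ‖s k x‖ ^ 2 ∂μ) atTop (𝓝 (∫ x, ρ x * ‖a x‖ ^ 2 ∂μ)) := by
  obtain ⟨B', hB'⟩ : ∃ B' : ℝ, B' = |B| + 1 := ⟨_, rfl⟩
  have hB'0 : 0 < B' := by
    rw [hB']
    positivity
  have hBB : ∀ x, |ρ x| ≤ B' := fun x => by
    rw [hB']
    linarith [hB x, le_abs_self B]
  obtain ⟨A, hA⟩ : ∃ A : ℝ, A = ∫ x, ‖a x‖ ^ 2 ∂μ := ⟨_, rfl⟩
  have hA0 : 0 ≤ A := by
    rw [hA]
    exact integral_nonneg fun x => sq_nonneg _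
  have key : ∀ t : ℝ, 0 < t → ∀ k, |(∫ x, ρ x * ‖s k x‖ ^ 2 ∂μ) - ∫ x, ρ x * ‖a x‖ ^ 2 ∂μ| ≤
      B' * ((1 + 1 / t) * (∫ x, ‖s k x - a x‖ ^ 2 ∂μ) + t * A) := by
    intro t ht k
    have i1 := rg_int (hs k) hρ hB
    have i2 := rg_int ha hρ hB
    have i3 : Integrable (fun x => ‖s k x - a x‖ ^ 2) μ :=
      (memLp_two_iff_integrable_sq_norm ((hs k).sub ha).1).1 ((hs k).sub ha)
    have i4 := (memLp_two_iff_integrable_sq_norm ha.1).1 ha
    have i5 : Integrable (fun x => B' * ((1 + 1 / t) * ‖s k x - a x‖ ^ 2 + t * ‖a x‖ ^ 2)) μ :=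
      ((i3.const_mul _).add (i4.const_mul _)).const_mul _
    rw [← integral_sub i1 i2, ← Real.norm_eq_abs]
    refine le_trans (norm_integral_le_of_norm_le i5 (Filter.Eventually.of_forall fun x => ?_)) ?_
    · rw [Real.norm_eq_abs]
      exact rg_pt _ _ (hBB x) ht
    · rw [integral_const_mul, integral_add (i3.const_mul _) (i4.const_mul _), integral_const_mul, integral_const_mul, ← hA]
  rw [Metric.tendsto_atTop] at h ⊢
  intro η hη
  obtain ⟨t, ht⟩ : ∃ t : ℝ, t = η / (2 * B' * (A + 1)) := ⟨_, rfl⟩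
  have ht0 : 0 < t := by
    rw [ht]
    positivity
  have ht1 : B' * (t * A) < η / 2 := by
    have e1 : B' * (t * (A + 1)) = η / 2 := by
      rw [ht]
      field_simp
    have e2 : 0 < B' * t := by positivity
    nlinarith
  obtain ⟨N, hN⟩ := h (η / (2 * B' * (1 + 1 / t))) (by positivity)
  refine ⟨N, fun k hk => ?_⟩
  have h1 := hN k hk
  rw [Real.dist_eq, sub_zero, abs_of_nonneg (integral_nonneg fun x => sq_nonneg _)] at h1
  rw [Real.dist_eq]
  refine lt_of_le_of_lt (key t ht0 k) ?_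
  rw [lt_div_iff₀ (by positivity)] at h1
  nlinarith

private theorem grd_cont {χ : E n → ℝ} (hχ : ContDiff ℝ ∞ χ) : Continuous (grd χ) := by
  have h1 : Continuous (fderiv ℝ χ) := hχ.continuous_fderiv (by simp)
  exact (PiLp.continuous_toLp 2 _).comp (continuous_pi fun i => h1.clm_apply continuous_const)

private theorem grd_supp {χ : E n → ℝ} {z : E n} (hz : z ∉ tsupport χ) : grd χ z = 0 := by
  have h1 : fderiv ℝ χ z = 0 := fderiv_of_notMem_tsupport ℝ hz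
  unfold grd
  rw [h1]
  rfl

theorem reg_ineq {U : Set (E n)} {Ψ : E n → ℝ} {g : E n → E n} {H : E n → E n →L[ℝ] E n} {eps : ℝ}
    (hP : PsiOK U Ψ g H eps) {v : E n → W n}
    (hv : MemLp v 2 volume) (hodd : ∀ z, v z ∈ odS n)
    (weak : ∀ u ∈ Tst U, ∫ z, inner ℝ (v z) (Bop g (Idf n) u z) = 0) :
    ∃ δ C : ℝ, 0 < δ ∧ 0 ≤ C ∧ ∀ χ : E n → ℝ, ContDiff ℝ ∞ χ → HasCompactSupport χ → tsupport χ ⊆ U →
      (δ * ∫ z, χ z ^ 2 * ‖v z‖ ^ 2 ≤ ∫ z, ‖grd χ z‖ ^ 2 * ‖v z‖ ^ 2) ∧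
      (∫ z, (1 / 2 * ‖g z‖ ^ 2 - C) * (χ z ^ 2 * ‖v z‖ ^ 2) ≤ ∫ z, ‖grd χ z‖ ^ 2 * ‖v z‖ ^ 2) := by
  obtain ⟨δ, hδ, H1⟩ := id_one hP
  obtain ⟨C, hC, H2⟩ := id_two hP
  refine ⟨δ, C, hδ, hC, ?_⟩
  intro χ hχ hc hs
  obtain ⟨w, K, hK, hKU, hw, hwo, hwz, L1, L2⟩ := regularise hP.isOpen hP.smg hv hodd weak hχ hc hs
  -- the limit functions
  obtain ⟨c1, hc1⟩ := hc.exists_bound_of_continuous hχ.continuous
  have hgc := grd_cont hχ
  have hgs : HasCompactSupport (grd χ) := HasCompactSupport.intro hc fun z hz => grd_supp hz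
  obtain ⟨c2, hc2⟩ := hgs.exists_bound_of_continuous hgc
  have ma : MemLp (fun z => χ z • v z) 2 volume := by
    refine hv.of_le_mul (c := c1) (hχ.continuous.aestronglyMeasurable.smul hv.1) (Filter.Eventually.of_forall fun z => ?_)
    rw [norm_smul]
    exact mul_le_mul_of_nonneg_right (hc1 z) (norm_nonneg _)
  have mb : MemLp (fun z => clV (grd χ z) (v z)) 2 volume := by
    refine hv.of_le_mul (c := c2) ?_ (Filter.Eventually.of_forall fun z => ?_)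
    · have e : (fun z => clV (grd χ z) (v z)) = fun z => ∑ i, (grd χ z) i • cl i (v z) := by
        funext z
        exact clV_apply _ _
      rw [e]
      refine Finset.aestronglyMeasurable_fun_sum _ fun i _ => ?_
      have h1 : Continuous (fun z => (grd χ z) i) := (PiLp.continuous_apply 2 _ i).comp hgc
      exact h1.aestronglyMeasurable.smul ((cl i).continuous.comp_aestronglyMeasurable hv.1)
    · rw [norm_clV]
      exact mul_le_mul_of_nonneg_right (hc2 z) (norm_nonneg _)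
  have mw : ∀ k, MemLp (w k) 2 volume := fun k =>
    (hw k).1.continuous.memLp_of_hasCompactSupport (hw k).2.1
  have hB : ∀ k, Continuous (Bop g (Idf n) (w k)) ∧ HasCompactSupport (Bop g (Idf n) (w k)) := fun k =>
    Bop_cont hP.isOpen hP.smg.continuousOn continuousOn_const (hw k)
  have mB : ∀ k, MemLp (Bop g (Idf n) (w k)) 2 volume := fun k =>
    (hB k).1.memLp_of_hasCompactSupport (hB k).2
  have T1 := rg_lim ma mw L1 (ρ := fun _ => 1) aestronglyMeasurable_const (B := 1) (fun _ => by simp)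
  have T2 := rg_lim mb mB L2 (ρ := fun _ => 1) aestronglyMeasurable_const (B := 1) (fun _ => by simp)
  simp only [one_mul] at T1 T2
  have ea : ∀ z, ‖χ z • v z‖ ^ 2 = χ z ^ 2 * ‖v z‖ ^ 2 := by
    intro z
    rw [norm_smul, mul_pow, Real.norm_eq_abs, sq_abs]
  have eb : ∀ z, ‖clV (grd χ z) (v z)‖ ^ 2 = ‖grd χ z‖ ^ 2 * ‖v z‖ ^ 2 := by
    intro z
    rw [norm_clV, mul_pow]
  simp only [ea] at T1
  simp only [eb] at T2
  constructor
  · exact le_of_tendsto_of_tendsto' (T1.const_mul δ) T2 fun k => H1 (w k) (hw k) (hwo k)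
  · -- the weight
    have hK' : IsCompact (K ∪ tsupport χ) := hK.union hc
    have hKU' : K ∪ tsupport χ ⊆ U := union_subset hKU hs
    have hgK : ContinuousOn (fun z => 1 / 2 * ‖g z‖ ^ 2 - C) (K ∪ tsupport χ) := by
      have h1 : ContinuousOn g (K ∪ tsupport χ) := hP.smg.continuousOn.mono hKU'
      exact (continuousOn_const.mul (h1.norm.pow 2)).sub continuousOn_const
    obtain ⟨B, hBd⟩ := hK'.exists_bound_of_continuousOn hgK
    have hρm : AEStronglyMeasurable ((K ∪ tsupport χ).indicator fun z => 1 / 2 * ‖g z‖ ^ 2 - C) volume := by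
      rw [aestronglyMeasurable_indicator_iff hK'.measurableSet]
      exact hgK.aestronglyMeasurable hK'.measurableSet
    have hρb : ∀ z, |(K ∪ tsupport χ).indicator (fun z => 1 / 2 * ‖g z‖ ^ 2 - C) z| ≤ |B| := by
      intro z
      by_cases hz : z ∈ K ∪ tsupport χ
      · rw [indicator_of_mem hz]
        exact le_trans (hBd z hz) (le_abs_self B)
      · rw [indicator_of_notMem hz, abs_zero]
        exact abs_nonneg _
    have T3 := rg_lim ma mw L1 hρm hρb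
    have e1 : ∀ k, ∫ z, (K ∪ tsupport χ).indicator (fun z => 1 / 2 * ‖g z‖ ^ 2 - C) z * ‖w k z‖ ^ 2 =
        ∫ z, (1 / 2 * ‖g z‖ ^ 2 - C) * ‖w k z‖ ^ 2 := by
      intro k
      refine integral_congr_ae (Filter.Eventually.of_forall fun z => ?_)
      simp only
      by_cases hz : z ∈ K ∪ tsupport χ
      · rw [indicator_of_mem hz]
      · rw [indicator_of_notMem hz, hwz k z (fun h => hz (Or.inl h)), norm_zero]
        ring
    have e2 : ∫ z, (K ∪ tsupport χ).indicator (fun z => 1 / 2 * ‖g z‖ ^ 2 - C) z * ‖χ z • v z‖ ^ 2 =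
        ∫ z, (1 / 2 * ‖g z‖ ^ 2 - C) * (χ z ^ 2 * ‖v z‖ ^ 2) := by
      refine integral_congr_ae (Filter.Eventually.of_forall fun z => ?_)
      simp only
      rw [ea]
      by_cases hz : z ∈ K ∪ tsupport χ
      · rw [indicator_of_mem hz]
      · rw [indicator_of_notMem hz, image_eq_zero_of_notMem_tsupport (fun h => hz (Or.inr h))]
        ring
    rw [e2] at T3
    simp only [e1] at T3
    exact le_of_tendsto_of_tendsto' T3 T2 fun k => H2 (w k) (hw k)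

end Pool.Agent.FCI
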