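import Pool.Agent.FCI.Fmp

/-!
# FCI-Tng: the tangential estimate and the size of the normal map (differentiate `⟨e α, Dg w⟩ = 0`)
-/

open scoped BigOperators Topology ContDiff
open Filter Set

namespace Pool.Agent.FCI

open Pool.Agent.TUB (E)

variable {m l k0 n : ℕ}

private theorem tng_norm {e : Nix l k0 → E n} (he : Orthonormal ℝ e) {a : Nix l k0 → ℝ} {r : ℝ} (hr : 0 ≤ r)
    (h : ∑ α, a α ^ 2 ≤ r ^ 2) : ‖∑ α, a α • e α‖ ≤ r := by
  have h1 : ‖∑ α, a α • e α‖ ^ 2 = ∑ α, a α ^ 2 := by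
    rw [← real_inner_self_eq_norm_sq, he.inner_sum]
    refine Finset.sum_congr rfl fun α _ => ?_
    rw [pow_two]
    rfl
  rw [← h1] at h
  exact (pow_le_pow_iff_left₀ (norm_nonneg _) hr two_ne_zero).1 h

private theorem tng_der {g : E m → E n} {O : Set (E m)} {D c : ℝ} (hW : WCube g O D c) {e : Nix l k0 → E m → E n}
    (he : NFr g O e) {x : E m} (hx : x ∈ O) (w : E m) (α : Nix l k0) :
    inner ℝ (fderiv ℝ (e α) x w) (fderiv ℝ g x w) =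
      - inner ℝ (e α x) (fderiv ℝ (fun y => fderiv ℝ g y w) x w) := by
  have h1 : DifferentiableAt ℝ (e α) x :=
    ((he.smooth α).contDiffAt (hW.isOpen.mem_nhds hx)).differentiableAt (by simp)
  have h2 : ContDiffOn ℝ 1 (fderiv ℝ g) O := hW.smooth.fderiv_of_isOpen hW.isOpen (by norm_cast)
  have h3 : DifferentiableAt ℝ (fun y => fderiv ℝ g y w) x :=
    ((h2.clm_apply contDiffOn_const).contDiffAt (hW.isOpen.mem_nhds hx)).differentiableAt (by norm_num)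
  have h4 : (fun y => inner ℝ (e α y) (fderiv ℝ g y w)) =ᶠ[𝓝 x] fun _ => (0 : ℝ) := by
    filter_upwards [hW.isOpen.mem_nhds hx] with y hy
    exact he.nor y hy α w
  have h5 := fderiv_inner_apply ℝ h1 h3 w
  rw [h4.fderiv_eq] at h5
  have h6 : fderiv ℝ (fun _ : E m => (0 : ℝ)) x w = 0 := by simp
  rw [h6] at h5
  linarith

theorem Fm_tang {g : E m → E n} {O : Set (E m)} {D c : ℝ} (hW : WCube g O D c) {e : Nix l k0 → E m → E n}
    (he : NFr g O e) {t0 r : ℝ} (hc : 0 ≤ c) (hr : 0 ≤ r) {z : ZZ m l k0} (hz : xc m l k0 z ∈ Cub m)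
    (hY : ∑ α, co t0 z α ^ 2 ≤ r ^ 2) (v : ZZ m l k0) :
    (1 - c * r) * ‖fderiv ℝ g (xc m l k0 z) (xc m l k0 v)‖ ≤ ‖fderiv ℝ (Fm t0 g e) z v‖ := by
  have hzO := hW.sub hz
  have h1 := Fm_fderiv hW.isOpen hW.smooth he.smooth t0 hzO v
  have hYn := tng_norm (he.on _ hzO) hr hY
  obtain ⟨A, hA⟩ : ∃ A : E n, A = fderiv ℝ g (xc m l k0 z) (xc m l k0 v) := ⟨_, rfl⟩
  obtain ⟨B, hB⟩ : ∃ B : E n, B = fderiv ℝ (fun y => fderiv ℝ g y (xc m l k0 v)) (xc m l k0 z) (xc m l k0 v) :=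
    ⟨_, rfl⟩
  have e1 : ∀ α, inner ℝ (e α (xc m l k0 z)) A = 0 := fun α => by
    rw [hA]
    exact he.nor _ hzO α _
  have e2 : ∀ α, inner ℝ (fderiv ℝ (e α) (xc m l k0 z) (xc m l k0 v)) A = - inner ℝ (e α (xc m l k0 z)) B :=
    fun α => by
    rw [hA, hB]
    exact tng_der hW he hzO _ α
  have h2 : inner ℝ (fderiv ℝ (Fm t0 g e) z v) A =
      ‖A‖ ^ 2 - inner ℝ (∑ α, co t0 z α • e α (xc m l k0 z)) B := by
    rw [h1, ← hA, inner_add_left, inner_add_left, sum_inner, sum_inner, sum_inner, real_inner_self_eq_norm_sq]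
    simp only [real_inner_smul_left, e1, e2, mul_zero, Finset.sum_const_zero, mul_neg, Finset.sum_neg_distrib]
    ring
  have h3 : |inner ℝ (∑ α, co t0 z α • e α (xc m l k0 z)) B| ≤
      c * ‖∑ α, co t0 z α • e α (xc m l k0 z)‖ * ‖A‖ ^ 2 := by
    rw [hB, hA]
    refine hW.curv _ hz _ _ fun w => ?_
    rw [sum_inner]
    refine Finset.sum_eq_zero fun α _ => ?_
    rw [real_inner_smul_left, he.nor _ hzO, mul_zero]
  have h4 : c * ‖∑ α, co t0 z α • e α (xc m l k0 z)‖ * ‖A‖ ^ 2 ≤ c * r * ‖A‖ ^ 2 :=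
    mul_le_mul_of_nonneg_right (mul_le_mul_of_nonneg_left hYn hc) (sq_nonneg _)
  have h5 := real_inner_le_norm (fderiv ℝ (Fm t0 g e) z v) A
  have h6 := (abs_le.1 h3).2
  rw [← hA]
  rcases (norm_nonneg A).eq_or_lt with h7 | h7
  · rw [← h7, mul_zero]
    exact norm_nonneg _
  · refine le_of_mul_le_mul_right ?_ h7
    calc (1 - c * r) * ‖A‖ * ‖A‖ = ‖A‖ ^ 2 - c * r * ‖A‖ ^ 2 := by ring
      _ ≤ inner ℝ (fderiv ℝ (Fm t0 g e) z v) A := by rw [h2]; linarith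
      _ ≤ ‖fderiv ℝ (Fm t0 g e) z v‖ * ‖A‖ := h5

theorem Fm_norm {g : E m → E n} {O : Set (E m)} {D c : ℝ} (hW : WCube g O D c) {e : Nix l k0 → E m → E n}
    (he : NFr g O e) {t0 r : ℝ} (hr : 0 ≤ r) {z : ZZ m l k0} (hz : xc m l k0 z ∈ Cub m)
    (hY : ∑ α, co t0 z α ^ 2 ≤ r ^ 2) : ‖Fm t0 g e z‖ ≤ 1 + r :=
  (norm_add_le _ _).trans (add_le_add (hW.ball _ hz) (tng_norm (he.on _ (hW.sub hz)) hr hY))

end Pool.Agent.FCI
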