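import Pool.Agent.FCI.Gm
import Pool.Agent.FCI.Per

/-!
# FCI-Tor: manifolds with arbitrarily wide cubes; periodic immersions (assembly)
-/

open scoped BigOperators Topology ContDiff Manifold
open MeasureTheory Filter Set

namespace Pool.Agent.FCI

open Pool.Agent.TUB (E jw jz Imm CurvLE)

variable {m n : ℕ} {X : Type*} [TopologicalSpace X] [ChartedSpace (E m) X] [IsManifold (𝓡 m) ∞ X]

/-- Scaling of a map `p : E m → X` along which `f` is uniformly expanding. -/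
theorem wide_of_lower {f : X → E n} (hf : Imm m f) {p : E m → X} (hp : ContMDiff 𝓘(ℝ, E m) (𝓡 m) ∞ p) {c0 : ℝ}
    (hc0 : 0 < c0) (hlow : ∀ x v, c0 * ‖v‖ ≤ ‖fderiv ℝ (f ∘ p) x v‖) {D : ℝ} (hD : 0 < D) :
    ContMDiff 𝓘(ℝ, E m) (𝓡 m) ∞ (fun x => p ((D / c0) • x)) ∧
    ∀ x v i, D * |v i| ≤ ‖fderiv ℝ (f ∘ fun x => p ((D / c0) • x)) x v‖ := by
  have hs : ContDiff ℝ ∞ (fun x : E m => (D / c0) • x) := contDiff_id.const_smul (D / c0)
  refine ⟨hp.comp hs.contMDiff, fun x v i => ?_⟩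
  have hg : ContDiff ℝ ∞ (f ∘ p) := comp_smooth hf hp
  have h1 : HasFDerivAt (f ∘ p) (fderiv ℝ (f ∘ p) ((D / c0) • x)) ((D / c0) • x) :=
    (hg.differentiable (by simp) _).hasFDerivAt
  have h2 : HasFDerivAt (fun x : E m => (D / c0) • x) ((D / c0) • ContinuousLinearMap.id ℝ (E m)) x :=
    (hasFDerivAt_id x).const_smul (D / c0)
  have h3 := h1.comp x h2
  have h4 : fderiv ℝ (f ∘ fun x => p ((D / c0) • x)) x v = fderiv ℝ (f ∘ p) ((D / c0) • x) ((D / c0) • v) := by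
    have e : (f ∘ fun x => p ((D / c0) • x)) = (f ∘ p) ∘ (fun x : E m => (D / c0) • x) := rfl
    rw [e, h3.fderiv]
    rfl
  rw [h4]
  refine le_trans ?_ (hlow _ _)
  rw [norm_smul, Real.norm_of_nonneg (by positivity)]
  have h5 : |v i| ≤ ‖v‖ := PiLp.norm_apply_le v i
  calc D * |v i| ≤ D * ‖v‖ := mul_le_mul_of_nonneg_left h5 hD.le
    _ = c0 * (D / c0 * ‖v‖) := by field_simp

theorem sqrt_jw {k : ℕ} (hk : 1 ≤ k) : Real.sqrt (jw k) = jz ((k : ℝ) / 2 - 1) :=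
  (Pool.Agent.TUB.jz_eq (by exact_mod_cast hk)).1.symm

theorem final_form {m n : ℕ} (hmn : m < n) {c : ℝ}
    (h : Real.sqrt (jw n) ≤ (1 + c) * ((n - m : ℕ) * Real.pi / 2)) :
    2 * jz ((n : ℝ) / 2 - 1) / (((n : ℝ) - m) * Real.pi) - 1 ≤ c := by
  rw [sqrt_jw (by omega), Nat.cast_sub hmn.le] at h
  have h1 : (0 : ℝ) < (n : ℝ) - m := by
    have : (m : ℝ) < n := by exact_mod_cast hmn
    linarith
  have h2 := Real.pi_pos
  rw [sub_le_iff_le_add, div_le_iff₀ (by positivity)]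
  linarith

/-- A periodic immersion of `ℝ^m`, that is, an immersion of a torus, has wide cubes. -/
theorem tor_imm {f : E m → E n} (hf : ContDiff ℝ ∞ f) (hinj : ∀ x, Function.Injective (fderiv ℝ f x)) :
    Imm m f := by
  refine ⟨hf.contMDiff, fun x => ?_⟩
  show Function.Injective (mfderiv (𝓡 m) 𝓘(ℝ, E n) f x)
  have : mfderiv (𝓡 m) 𝓘(ℝ, E n) f x = fderiv ℝ f x := mfderiv_eq_fderiv
  rw [this]
  exact hinj x

end Pool.Agent.FCI
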